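import Pool.Agent.Lib.MP_5de024_nt.S.V.Tor
import Pool.Agent.Lib.MP_5de024_nt.S.Defs
import Pool.Agent.Lib.MP_5de024_nt.Gs

/-!
# Torsors (Part T of AB3V): rings of integers and covers
-/

set_option autoImplicit false
set_option linter.unusedSectionVars false

namespace Pool.Agent.AB3

open Pool.Agent.AB Polynomial

section oc

variable (p : ℕ) [Fact p.Prime] (K : Type) [Field K] [Algebra (Fx p) K] [Algebra (Rx p) K]
  [IsScalarTower (Rx p) (Fx p) K]

/-- the action on the ring of integers, by ring homomorphisms -/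
noncomputable def ocA (σ : Gl p K) : Oc p K →+* Oc p K :=
  ((act p K σ : Oc p K ≃ₐ[Rx p] Oc p K) : Oc p K →+* Oc p K)

@[simp] theorem ocA_apply (σ : Gl p K) (z : Oc p K) : ocA p K σ z = act p K σ z := rfl

theorem ocA_one (z : Oc p K) : ocA p K 1 z = z := rfl

theorem ocA_mul (σ τ : Gl p K) (z : Oc p K) :
    ocA p K (σ * τ) z = ocA p K σ (ocA p K τ z) := rfl

theorem crd_of_ni [FiniteDimensional (Fx p) K] (h : NI p K) : Crd (ocA p K) := by
  obtain ⟨n, a, b, h1, h2⟩ := gs_of_ni p K h
  refine ⟨n, a, b, fun σ => ⟨?_, fun hσ => h2 σ hσ⟩⟩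
  rintro rfl
  exact h1

theorem ni_of_crd (h : Crd (ocA p K)) : NI p K := by
  intro σ hσ P hP
  by_contra hcon
  push Not at hcon
  have : Nontrivial (Oc p K ⧸ P) := Ideal.Quotient.nontrivial_iff.2 hP.ne_top
  refine hσ (tor_unique (F := Oc p K ⧸ P) (ocA p K) (ocA_mul p K) h (Ideal.Quotient.mk P) σ 1
    fun b => ?_)
  exact Ideal.Quotient.eq.2 (hcon b)

/-- two homomorphisms which agree on `F_p[x]` are conjugate -/
theorem oc_conj [FiniteDimensional (Fx p) K] [IsGalois (Fx p) K] (h : NI p K) {F : Type*}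
    [CommRing F] [IsDomain F] (u v : Oc p K →+* F)
    (huv : ∀ f : Rx p, u (algebraMap (Rx p) (Oc p K) f) = v (algebraMap (Rx p) (Oc p K) f)) :
    ∃ τ : Gl p K, ∀ z, v z = u (act p K τ z) := by
  refine tor_exists (ocA p K) (ocA_one p K) (ocA_mul p K) (crd_of_ni p K h) u v fun b hb => ?_
  obtain ⟨r, rfl⟩ := fixed_oc p K b hb
  exact huv r

theorem oc_conj_unique [FiniteDimensional (Fx p) K] (h : NI p K) {F : Type*}
    [CommRing F] [Nontrivial F] (u : Oc p K →+* F) (σ τ : Gl p K)
    (e : ∀ z, u (act p K σ z) = u (act p K τ z)) : σ = τ :=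
  tor_unique (ocA p K) (ocA_mul p K) (crd_of_ni p K h) u σ τ e

/-- a homomorphism on `F_p[x]` is determined by the image of `x` -/
theorem rx_pow {F : Type*} [CommRing F] [CharP F p] (j : Rx p →+* F) (s : ℕ)
    (hx : j X ^ p ^ s = j X) (f : Rx p) : j f ^ p ^ s = j f := by
  have h : (iterateFrobenius F p s).comp j = j := by
    refine Polynomial.ringHom_ext' ?_ ?_
    · exact RingHom.ext_zmod _ _
    · simp only [RingHom.comp_apply, iterateFrobenius_def, hx]
  have h2 := congrArg (fun g : Rx p →+* F => g f) h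
  simpa only [RingHom.comp_apply, iterateFrobenius_def] using h2

/-- the Frobenius element of level `s` at a point over `F_p` -/
theorem frob_exists [FiniteDimensional (Fx p) K] [IsGalois (Fx p) K] (h : NI p K) {F : Type*}
    [CommRing F] [IsDomain F] [CharP F p] (j : Oc p K →+* F) (s : ℕ)
    (hx : j (xo p K) ^ p ^ s = j (xo p K)) :
    ∃ τ : Gl p K, ∀ z, j (act p K τ z) = j z ^ p ^ s := by
  obtain ⟨τ, hτ⟩ := oc_conj p K h j ((iterateFrobenius F p s).comp j) (fun f => by
    rw [RingHom.comp_apply, iterateFrobenius_def]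
    exact (rx_pow p (j.comp (algebraMap (Rx p) (Oc p K))) s hx f).symm)
  refine ⟨τ, fun z => ?_⟩
  rw [← hτ, RingHom.comp_apply, iterateFrobenius_def]

/-- homomorphisms from the ring of integers to an algebraically closed field exist -/
theorem oc_lift {U : Type*} [Field U] [IsAlgClosed U] (u : Rx p →+* U) :
    ∃ v : Oc p K →+* U, ∀ f, v (algebraMap (Rx p) (Oc p K) f) = u f :=
  tor_lift (Gs_inj p K) u

theorem omap_inj (L : Type) [Field L] [Algebra (Fx p) L] [Algebra (Rx p) L]
    [IsScalarTower (Rx p) (Fx p) L] (ι : K →ₐ[Fx p] L) : Function.Injective (omap p K L ι) := by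
  intro a b hab
  have h := congrArg (fun z : Oc p L => (z : L)) hab
  simp only [omap_coe] at h
  exact Subtype.ext (ι.toRingHom.injective h)

theorem omap_integral (L : Type) [Field L] [Algebra (Fx p) L] [Algebra (Rx p) L]
    [IsScalarTower (Rx p) (Fx p) L] (ι : K →ₐ[Fx p] L) :
    ((omap p K L ι : Oc p K →ₐ[Rx p] Oc p L) : Oc p K →+* Oc p L).IsIntegral := by
  intro z
  have h1 : IsIntegral (Rx p) z := Algebra.IsIntegral.isIntegral z
  obtain ⟨f, hf, hz⟩ := h1
  refine ⟨f.map (algebraMap (Rx p) (Oc p K)), hf.map _, ?_⟩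
  rw [Polynomial.eval₂_map]
  have h2 : ((omap p K L ι : Oc p K →ₐ[Rx p] Oc p L) : Oc p K →+* Oc p L).comp
      (algebraMap (Rx p) (Oc p K)) = algebraMap (Rx p) (Oc p L) := (omap p K L ι).comp_algebraMap
  rw [h2]
  exact hz

/-- extension of homomorphisms along a field extension -/
theorem oc_ext (L : Type) [Field L] [Algebra (Fx p) L] [Algebra (Rx p) L]
    [IsScalarTower (Rx p) (Fx p) L] (ι : K →ₐ[Fx p] L) {U : Type*} [Field U] [IsAlgClosed U]
    (u : Oc p K →+* U) : ∃ v : Oc p L →+* U, ∀ z, v (omap p K L ι z) = u z := by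
  let : Algebra (Oc p K) (Oc p L) :=
    ((omap p K L ι : Oc p K →ₐ[Rx p] Oc p L) : Oc p K →+* Oc p L).toAlgebra
  have : Algebra.IsIntegral (Oc p K) (Oc p L) := ⟨omap_integral p K L ι⟩
  exact tor_lift (A := Oc p K) (B := Oc p L) (omap_inj p K L ι) u

end oc

section cov

variable {k R H : Type} [Field k] [CommRing R] [Algebra k[X] R] [Group H]

/-- the action of a cover, by ring homomorphisms -/
noncomputable def covA (C : Cov k R H) (h : H) : R →+* R := ((C.act h : R ≃ₐ[k[X]] R) : R →+* R)

@[simp] theorem covA_apply (C : Cov k R H) (h : H) (z : R) : covA C h z = C.act h z := rfl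

theorem covA_one (C : Cov k R H) (z : R) : covA C 1 z = z := by
  rw [covA_apply, map_one]
  rfl

theorem covA_mul (C : Cov k R H) (g h : H) (z : R) :
    covA C (g * h) z = covA C g (covA C h z) := by
  simp only [covA_apply]
  rw [map_mul]
  rfl

theorem crd_cov (C : Cov k R H) : Crd (covA C) := C.coord

/-- (T2) for covers -/
theorem cov_conj [Finite H] (C : Cov k R H) {F : Type*} [CommRing F] [IsDomain F]
    (u v : R →+* F) (huv : ∀ f : k[X], u (algebraMap k[X] R f) = v (algebraMap k[X] R f)) :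
    ∃ h : H, ∀ z, v z = u (C.act h z) := by
  refine tor_exists (covA C) (covA_one C) (covA_mul C) (crd_cov C) u v fun b hb => ?_
  obtain ⟨r, rfl⟩ := C.fixed b hb
  exact huv r

theorem cov_conj_unique (C : Cov k R H) {F : Type*} [CommRing F] [Nontrivial F] (u : R →+* F)
    (g h : H) (e : ∀ z, u (C.act g z) = u (C.act h z)) : g = h :=
  tor_unique (covA C) (covA_mul C) (crd_cov C) u g h e

theorem cov_integral [Finite H] (C : Cov k R H) : Algebra.IsIntegral k[X] R := by
  have : Module.Finite k[X] R := tor_finite (covA C) (covA_one C) (covA_mul C) (crd_cov C) C.fixed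
  infer_instance

/-- (T1) for covers -/
theorem cov_lift [Finite H] (C : Cov k R H) {U : Type*} [Field U] [IsAlgClosed U]
    (u : k[X] →+* U) : ∃ v : R →+* U, ∀ f, v (algebraMap k[X] R f) = u f := by
  have := cov_integral C
  exact tor_lift C.inj u

/-- (Count) for covers -/
theorem cov_card [Finite H] (C : Cov k R H) {U : Type*} [Field U] [IsAlgClosed U]
    (u : k[X] →+* U) :
    Nat.card {v : R →+* U // ∀ f, v (algebraMap k[X] R f) = u f} = Nat.card H :=
  tor_card (covA C) (covA_one C) (covA_mul C) (crd_cov C) C.fixed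
    (fun h a => (C.act h).commutes a) C.inj u

end cov

end Pool.Agent.AB3
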