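import Pool.Agent.Lib.MP_5de024_nt.S.V.VDef
import Pool.Agent.Lib.MP_5de024_nt.S.V.TorL

/-!
# Extension of points (T1)
-/

set_option autoImplicit false
set_option linter.unusedSectionVars false

namespace Pool.Agent.AB3

open Pool.Agent.AB Polynomial

theorem ext_pt {A B U : Type} [CommRing A] [CommRing B] [Algebra A B]
    [Algebra.IsIntegral A B] [Field U] [IsAlgClosed U]
    (hinj : Function.Injective (algebraMap A B)) (u : A →+* U) :
    ∃ v : B →+* U, ∀ a, v (algebraMap A B a) = u a :=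
  tor_lift hinj u

theorem ext_oc (p : ℕ) [Fact p.Prime] (K L : Type) [Field K] [Algebra (Fx p) K]
    [Algebra (Rx p) K] [IsScalarTower (Rx p) (Fx p) K] [Field L] [Algebra (Fx p) L]
    [Algebra (Rx p) L] [IsScalarTower (Rx p) (Fx p) L] (ι : K →ₐ[Fx p] L)
    (U : Type) [Field U] [IsAlgClosed U] (i : Oc p K →+* U) :
    ∃ i' : Oc p L →+* U, ∀ z, i' (omap p K L ι z) = i z :=
  oc_ext p K L ι i

theorem ext_cov {k R H : Type} [Field k] [CommRing R] [Algebra k[X] R] [Group H] [Finite H]
    (C : Cov k R H) (U : Type) [Field U] [IsAlgClosed U] (u : k[X] →+* U) :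
    ∃ v : R →+* U, ∀ f, v (algebraMap k[X] R f) = u f :=
  cov_lift C u

end Pool.Agent.AB3
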