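import Pool.Agent.Lib.MP_5de024_nt.S.V.TorB
import Pool.Agent.Lib.MP_5de024_nt.S.V.Ext

/-!
# Counting points
-/

set_option autoImplicit false
set_option linter.unusedSectionVars false

namespace Pool.Agent.AB3

open Pool.Agent.AB Polynomial

variable {k R H : Type} [Field k] [CommRing R] [Algebra k[X] R] [Group H] [Finite H]

/-- there are exactly `|H|` points over `a` -/
theorem pts_over (C : Cov k R H) (Om : Type) [Field Om] [IsAlgClosed Om] [Algebra k Om]
    (a : Om) : ({f ∈ Pts k R Om | f (algebraMap k[X] R X) = a}).ncard = Nat.card H ∧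
      ({f ∈ Pts k R Om | f (algebraMap k[X] R X) = a}).Finite := by
  obtain ⟨f0, hf0⟩ := ext_cov C Om (Polynomial.eval₂RingHom (algebraMap k Om) a)
  have hfX : ∀ f : R →+* Om, f ∈ Pts k R Om → f (algebraMap k[X] R X) = a →
      ∀ g : k[X], f (algebraMap k[X] R g) = f0 (algebraMap k[X] R g) := by
    intro f h1 h2 g
    have e : f.comp (algebraMap k[X] R) = Polynomial.eval₂RingHom (algebraMap k Om) a := by
      refine Polynomial.ringHom_ext (fun c => ?_) ?_
      · rw [RingHom.comp_apply, Polynomial.coe_eval₂RingHom, eval₂_C]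
        exact h1 c
      · rw [RingHom.comp_apply, Polynomial.coe_eval₂RingHom, eval₂_X]
        exact h2
    have e2 := RingHom.congr_fun e g
    rw [hf0]
    exact e2
  let φ : H → (R →+* Om) := fun h => f0.comp (C.act h).toRingEquiv.toRingHom
  have hφ : ∀ h r, φ h r = f0 (C.act h r) := fun h r => rfl
  have hS : {f ∈ Pts k R Om | f (algebraMap k[X] R X) = a} = Set.range φ := by
    ext f
    constructor
    · rintro ⟨h1, h2⟩
      obtain ⟨g, hg⟩ := cov_pt_ex C Om f0 f (fun p => (hfX f h1 h2 p).symm)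
      exact ⟨g, RingHom.ext fun r => (hg r).symm⟩
    · rintro ⟨h, rfl⟩
      refine ⟨fun c => ?_, ?_⟩
      · rw [hφ, (C.act h).commutes, hf0, Polynomial.coe_eval₂RingHom, eval₂_C]
      · rw [hφ, (C.act h).commutes, hf0, Polynomial.coe_eval₂RingHom, eval₂_X]
  have hinj : Function.Injective φ := fun g h e =>
    cov_pt_uniq C Om f0 g h (fun r => RingHom.congr_fun e r)
  rw [hS]
  exact ⟨Set.ncard_range_of_injective hinj, Set.finite_range φ⟩

/-- the number of solutions of `a ^ Q = a` -/
theorem cnt_fix (Om : Type) [Field Om] [IsAlgClosed Om] (p m : ℕ) [hp : Fact p.Prime]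
    [CharP Om p] (hm : m ≠ 0) : {a : Om | a ^ p ^ m = a}.ncard = p ^ m ∧
      {a : Om | a ^ p ^ m = a}.Finite := by
  have h1 : 1 < p := hp.out.one_lt
  have hne : (X ^ p ^ m - X : Om[X]) ≠ 0 := FiniteField.X_pow_card_pow_sub_X_ne_zero Om hm h1
  have hS : {a : Om | a ^ p ^ m = a} = (X ^ p ^ m - X : Om[X]).rootSet Om := by
    ext a
    rw [Set.mem_ofPred_eq, Polynomial.mem_rootSet_of_ne hne]
    simp [sub_eq_zero]
  have hsep : (X ^ p ^ m - X : Om[X]).Separable :=
    galois_poly_separable p (p ^ m) (dvd_pow_self p hm)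
  have hcard := Polynomial.card_rootSet_eq_natDegree (K := Om) hsep (IsAlgClosed.splits _)
  rw [FiniteField.X_pow_card_pow_sub_X_natDegree_eq Om hm h1] at hcard
  rw [hS]
  refine ⟨?_, Polynomial.rootSet_finite _ _⟩
  rw [← Nat.card_coe_set_eq, Nat.card_eq_fintype_card, hcard]

/-- the sum of the numbers of points over all Frobenius elements -/
theorem fpt_sum [Finite k] (C : Cov k R H) (Om : Type) [Field Om] [IsAlgClosed Om]
    [Algebra k Om] (s : ℕ) (hs : 0 < s) :
    (∀ h : H, (Fpt C Om (Nat.card k ^ s) h).Finite) ∧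
    ∑ᶠ h : H, (Fpt C Om (Nat.card k ^ s) h).ncard = Nat.card H * Nat.card k ^ s := by
  classical
  have := Fintype.ofFinite k
  have := Fintype.ofFinite H
  obtain ⟨p, hpc⟩ := CharP.exists k
  obtain ⟨n, hp, hn⟩ := FiniteField.card k p
  have : Fact p.Prime := ⟨hp⟩
  have : CharP Om p := charP_of_injective_algebraMap (algebraMap k Om).injective p
  have hq : Nat.card k = p ^ (n : ℕ) := by rw [Nat.card_eq_fintype_card, hn]
  set m : ℕ := n * s with hm
  have hm0 : m ≠ 0 := Nat.mul_ne_zero n.ne_zero hs.ne'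
  have hQ : Nat.card k ^ s = p ^ m := by rw [hq, ← pow_mul]
  rw [hQ]
  set Q : ℕ := p ^ m with hQdef
  set Z : Set Om := {a : Om | a ^ Q = a} with hZ
  obtain ⟨hZc, hZf⟩ := cnt_fix Om p m hm0
  have hCX : ∀ (f : R →+* Om) (h : H) (g : k[X]), f (C.act h (algebraMap k[X] R g)) =
      f (algebraMap k[X] R g) := by
    intro f h g
    rw [(C.act h).commutes]
  -- all points with values in the small field
  set T : Set (R →+* Om) := {f ∈ Pts k R Om | f (algebraMap k[X] R X) ∈ Z} with hT
  have hsub : ∀ h : H, Fpt C Om Q h ⊆ T := by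
    intro h f hf
    refine ⟨hf.1, ?_⟩
    change f (algebraMap k[X] R X) ^ Q = f (algebraMap k[X] R X)
    rw [hf.2, hCX]
  have hTu : T = ⋃ h : H, Fpt C Om Q h := by
    refine Set.Subset.antisymm ?_ (Set.iUnion_subset hsub)
    intro f hf
    rw [Set.mem_iUnion]
    have hv : ∀ g : k[X], f (algebraMap k[X] R g) =
        ((iterateFrobenius Om p m).comp f) (algebraMap k[X] R g) := by
      intro g
      have e : f.comp (algebraMap k[X] R) =
          ((iterateFrobenius Om p m).comp f).comp (algebraMap k[X] R) := by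
        refine Polynomial.ringHom_ext (fun c => ?_) ?_
        · simp only [RingHom.comp_apply, iterateFrobenius_def]
          rw [hf.1 c, ← map_pow]
          congr 1
          have h1 := FiniteField.pow_card_pow s c
          rw [← Nat.card_eq_fintype_card, hQ] at h1
          exact h1.symm
        · simp only [RingHom.comp_apply, iterateFrobenius_def]
          exact hf.2.symm
      exact RingHom.congr_fun e g
    obtain ⟨h, hh⟩ := cov_pt_ex C Om f ((iterateFrobenius Om p m).comp f) hv
    refine ⟨h, hf.1, fun r => ?_⟩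
    have h1 := hh r
    rw [RingHom.comp_apply, iterateFrobenius_def] at h1
    exact h1
  have hdisj : Pairwise (Function.onFun Disjoint fun h : H => Fpt C Om Q h) := by
    intro g h hgh
    rw [Function.onFun, Set.disjoint_left]
    intro f h1 h2
    apply hgh
    exact cov_pt_uniq C Om f g h (fun r => (h1.2 r).symm.trans (h2.2 r))
  -- the points over the elements of `Z`
  have hTa : T = ⋃ a : Z, {f ∈ Pts k R Om | f (algebraMap k[X] R X) = (a : Om)} := by
    ext f
    rw [Set.mem_iUnion]
    constructor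
    · rintro ⟨h1, h2⟩
      exact ⟨⟨_, h2⟩, h1, rfl⟩
    · rintro ⟨a, h1, h2⟩
      refine ⟨h1, ?_⟩
      rw [h2]
      exact a.2
  have hdisj2 : Pairwise (Function.onFun Disjoint fun a : Z =>
      {f ∈ Pts k R Om | f (algebraMap k[X] R X) = (a : Om)}) := by
    intro a b hab
    rw [Function.onFun, Set.disjoint_left]
    intro f h1 h2
    apply hab
    exact Subtype.ext (h1.2.symm.trans h2.2)
  have : Finite Z := hZf.to_subtype
  have := Fintype.ofFinite Z
  have hfin : ∀ a : Z, Finite ({f ∈ Pts k R Om | f (algebraMap k[X] R X) = (a : Om)} : Set (R →+* Om)) :=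
    fun a => (pts_over C Om (a : Om)).2.to_subtype
  have hTf : T.Finite := by
    rw [hTa]
    exact Set.finite_iUnion fun a => (pts_over C Om (a : Om)).2
  have hFf : ∀ h : H, (Fpt C Om Q h).Finite := fun h => hTf.subset (hsub h)
  refine ⟨hFf, ?_⟩
  have hFf' : ∀ h : H, Finite (Fpt C Om Q h) := fun h => (hFf h).to_subtype
  have e1 : Nat.card T = ∑ h : H, (Fpt C Om Q h).ncard := by
    rw [hTu, Nat.card_congr (Set.unionEqSigmaOfDisjoint hdisj), Nat.card_sigma]
    rfl
  have e2 : Nat.card T = Nat.card H * Q := by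
    rw [hTa, Nat.card_congr (Set.unionEqSigmaOfDisjoint hdisj2), Nat.card_sigma]
    have h1 : ∀ a : Z, Nat.card ({f ∈ Pts k R Om | f (algebraMap k[X] R X) = (a : Om)} : Set (R →+* Om)) =
        Nat.card H := fun a => (pts_over C Om (a : Om)).1
    rw [Finset.sum_congr rfl fun a _ => h1 a, Finset.sum_const, Finset.card_univ, smul_eq_mul,
      ← Nat.card_eq_fintype_card, Nat.card_coe_set_eq, hZc, mul_comm]
  rw [finsum_eq_sum_of_fintype, ← e1, e2]

end Pool.Agent.AB3
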