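import Pool.Agent.Lib.MP_5de024_nt.S.V.Ker
import Pool.Agent.Lib.MP_5de024_nt.S.V.Cnt

/-!
# The Chebotarev theorem for geometric covers of the line (C6, C8)
-/

set_option autoImplicit false
set_option linter.unusedSectionVars false

namespace Pool.Agent.AB3

open Pool.Agent.AB Polynomial

variable {k R H : Type} [Field k] [CommRing R] [Algebra k[X] R] [Group H] [Finite H]

/-- the numerical upper bound for one Frobenius class -/
theorem Che_bound (N D Q m n : ℕ) (hN : 0 < N)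
    (hm : N * (4 * N * D + 1) * m ≤ Q * (4 * N * D + 1 + D) + 2 * D)
    (hn : n ≤ N * (4 * N * D + 1 + Q * (m + D) + 2 * D))
    (hQ : 4 * N * (N * D + 2 * D + N * (4 * N * D + 1 + 2 * D)) ≤ Q) :
    2 * N * n ≤ (2 * N + 1) * Q ^ 2 := by
  have hl : 0 < 4 * N * D + 1 := Nat.succ_pos _
  have h1 : (4 * N * D + 1) * n ≤ (4 * N * D + 1) *
      (N * (4 * N * D + 1 + Q * (m + D) + 2 * D)) := Nat.mul_le_mul_left _ hn
  have h2 : (4 * N * D + 1) * (N * (4 * N * D + 1 + Q * (m + D) + 2 * D)) =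
      (4 * N * D + 1) * (N * (4 * N * D + 1 + 2 * D) + Q * (N * D)) +
        Q * (N * (4 * N * D + 1) * m) := by ring
  have h3 : Q * (N * (4 * N * D + 1) * m) ≤ Q * (Q * (4 * N * D + 1 + D) + 2 * D) :=
    Nat.mul_le_mul_left _ hm
  have hQ1 : 1 ≤ Q := by
    refine le_trans ?_ hQ
    have : 0 < 4 * N * (N * D + 2 * D + N * (4 * N * D + 1 + 2 * D)) := by positivity
    omega
  -- multiply by `4 N`
  have h4 : 4 * N * ((4 * N * D + 1) * n) ≤
      4 * N * ((4 * N * D + 1) * (N * (4 * N * D + 1 + 2 * D) + Q * (N * D)) +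
        Q * (Q * (4 * N * D + 1 + D) + 2 * D)) := by
    refine Nat.mul_le_mul_left _ ?_
    omega
  have h5 : 4 * N * ((4 * N * D + 1) * (N * (4 * N * D + 1 + 2 * D) + Q * (N * D)) +
      Q * (Q * (4 * N * D + 1 + D) + 2 * D)) ≤
      (4 * N * D + 1) * (Q * (4 * N * (N * D + 2 * D + N * (4 * N * D + 1 + 2 * D)))) +
        (4 * N * D + 1) * ((4 * N + 1) * Q ^ 2) := by
    have e1 : 4 * N * ((4 * N * D + 1) * (N * (4 * N * D + 1 + 2 * D) + Q * (N * D)) +
      Q * (Q * (4 * N * D + 1 + D) + 2 * D)) =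
      (4 * N * D + 1) * (1 * (4 * N * (N * (4 * N * D + 1 + 2 * D)))) +
      (4 * N * D + 1) * (Q * (4 * N * (N * D))) + 1 * (4 * N * (Q * (2 * D))) +
      Q ^ 2 * (4 * N * (4 * N * D + 1)) + Q ^ 2 * (4 * N * D) := by ring
    have e2 : (4 * N * D + 1) * (Q * (4 * N * (N * D + 2 * D + N * (4 * N * D + 1 + 2 * D)))) +
        (4 * N * D + 1) * ((4 * N + 1) * Q ^ 2) =
      (4 * N * D + 1) * (Q * (4 * N * (N * (4 * N * D + 1 + 2 * D)))) +
      (4 * N * D + 1) * (Q * (4 * N * (N * D))) + (4 * N * D + 1) * (4 * N * (Q * (2 * D))) +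
      Q ^ 2 * (4 * N * (4 * N * D + 1)) + Q ^ 2 * (4 * N * D + 1) := by ring
    rw [e1, e2]
    refine Nat.add_le_add (Nat.add_le_add_right (Nat.add_le_add (Nat.add_le_add_right
      (Nat.mul_le_mul_left _ (Nat.mul_le_mul_right _ hQ1)) _)
      (Nat.mul_le_mul_right _ hl)) _) (Nat.mul_le_mul_left _ (Nat.le_succ _))
  have h6 : Q * (4 * N * (N * D + 2 * D + N * (4 * N * D + 1 + 2 * D))) ≤ Q * Q :=
    Nat.mul_le_mul_left _ hQ
  have h7 : (4 * N * D + 1) * (4 * N * n) ≤ (4 * N * D + 1) * (2 * ((2 * N + 1) * Q ^ 2)) := by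
    calc (4 * N * D + 1) * (4 * N * n) = 4 * N * ((4 * N * D + 1) * n) := by ring
      _ ≤ _ := h4
      _ ≤ _ := h5
      _ ≤ (4 * N * D + 1) * (Q * Q) + (4 * N * D + 1) * ((4 * N + 1) * Q ^ 2) :=
        Nat.add_le_add_right (Nat.mul_le_mul_left _ h6) _
      _ = (4 * N * D + 1) * (2 * ((2 * N + 1) * Q ^ 2)) := by ring
  have h8 := Nat.le_of_mul_le_mul_left h7 hl
  have h9 : 4 * N * n = 2 * (2 * N * n) := by ring
  omega

/-- the lower bound from the sum and the upper bounds -/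
theorem Che_sum {H : Type} [Finite H] (f : H → ℕ) (A : ℕ)
    (hs : ∑ᶠ h : H, f h = Nat.card H * A)
    (hf : ∀ h, 2 * Nat.card H * f h ≤ (2 * Nat.card H + 1) * A) (h : H) : A ≤ 2 * f h := by
  classical
  have : Fintype H := Fintype.ofFinite H
  have hN : 0 < Nat.card H := by
    have : Nonempty H := ⟨h⟩
    exact Nat.card_pos
  rw [finsum_eq_sum_of_fintype] at hs
  have h1 := Finset.add_sum_erase Finset.univ f (Finset.mem_univ h)
  have h2 : ∑ x ∈ Finset.univ.erase h, 2 * Nat.card H * f x ≤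
      ∑ x ∈ Finset.univ.erase h, (2 * Nat.card H + 1) * A := Finset.sum_le_sum fun x _ => hf x
  rw [Finset.sum_const, Finset.card_erase_of_mem (Finset.mem_univ h), Finset.card_univ,
    ← Nat.card_eq_fintype_card, smul_eq_mul, ← Finset.mul_sum] at h2
  rw [hs] at h1
  obtain ⟨n, hn⟩ := Nat.exists_eq_succ_of_ne_zero hN.ne'
  rw [hn, Nat.succ_eq_add_one] at h1 h2
  rw [Nat.add_sub_cancel] at h2
  have h3 : 2 * (n + 1) * (f h) + 2 * (n + 1) * (∑ x ∈ Finset.univ.erase h, f x) =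
      2 * (n + 1) * ((n + 1) * A) := by
    rw [← mul_add, h1]
  by_contra hc0
  have hc : 2 * f h < A := not_le.mp hc0
  have h5 : (n + 1) * (2 * f h) < (n + 1) * A := Nat.mul_lt_mul_of_pos_left hc (Nat.succ_pos _)
  have h6 : 2 * (n + 1) * f h = (n + 1) * (2 * f h) := by ring
  have h7 : 2 * (n + 1) * ((n + 1) * A) = n * ((2 * (n + 1) + 1) * A) + (n + 1) * A + A := by
    ring
  omega

theorem fpt_ge [Finite k] (C : Cov k R H) (Om : Type) [Field Om] [IsAlgClosed Om]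
    [Algebra k Om] : ∃ e0 : ℕ, ∀ e, e0 ≤ e → ∀ h : H,
      (Nat.card k ^ e) ^ 2 ≤ 2 * (Fpt C Om ((Nat.card k ^ e) ^ 2) h).ncard := by
  obtain ⟨b⟩ := cov_basis C
  obtain ⟨D, hD⟩ := exists_goodD C b
  have hN : 0 < Nat.card H := Nat.card_pos
  obtain ⟨e1, he1⟩ := fpt_le C b D hD Om (4 * Nat.card H * D + 1)
  refine ⟨e1 + 1 + 4 * Nat.card H * (Nat.card H * D + 2 * D +
    Nat.card H * (4 * Nat.card H * D + 1 + 2 * D)), fun e he h => ?_⟩
  have hq : 1 < Nat.card k := Finite.one_lt_card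
  have hQe : e < Nat.card k ^ e := Nat.lt_pow_self hq
  have hs := (fpt_sum C Om (e * 2) (by omega)).2
  rw [pow_mul] at hs
  have he2 := he1 e (by omega)
  generalize Nat.card k ^ e = Q at hQe hs he2 ⊢
  refine Che_sum (fun h => (Fpt C Om (Q ^ 2) h).ncard) (Q ^ 2) hs (fun g => ?_) h
  generalize Nat.card H = N at hN he he2 ⊢
  have hM : N * (4 * N * D + 1) + (N - 1) + 1 = N * (4 * N * D + 1 + 1) := by
    have : N * (4 * N * D + 1 + 1) = N * (4 * N * D + 1) + N := by ring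
    omega
  have hl : 0 < N * (4 * N * D + 1) := Nat.mul_pos hN (Nat.succ_pos _)
  have hMp : 0 < N * (4 * N * D + 1) + (N - 1) := by omega
  have hdiv := Nat.div_mul_le_self (Q * (4 * N * D + 1 + D) + 2 * D)
    (N * (4 * N * D + 1) + (N - 1))
  have hlt := Nat.lt_mul_div_succ (Q * (4 * N * D + 1 + D) + 2 * D) hMp
  generalize (Q * (4 * N * D + 1 + D) + 2 * D) / (N * (4 * N * D + 1) + (N - 1)) = m at hdiv hlt
  refine Che_bound N D Q m _ hN ?_ (he2 m ?_ g) (by omega)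
  · refine le_trans ?_ hdiv
    rw [mul_comm m]
    exact Nat.mul_le_mul_right _ (Nat.le_add_right _ _)
  · rw [← hM, add_one_mul]
    omega

/-- every element is the Frobenius of a point, over the prime field -/
theorem frob_pts (p : ℕ) [Fact p.Prime] {R S : Type} [CommRing R] [Algebra (Rx p) R] [Group S]
    [Finite S] (C : Cov (ZMod p) R S) : ∃ s0 : ℕ, ∀ s, s0 ≤ s → 2 ∣ s → ∀ g : S,
      ∃ f : R →+* Fb p, ∀ r, f r ^ p ^ s = f (C.act g r) := by
  obtain ⟨e0, he0⟩ := fpt_ge C (Fb p)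
  refine ⟨2 * e0, fun s hs h2 g => ?_⟩
  obtain ⟨e, rfl⟩ := h2
  have h1 := he0 e (by omega) g
  rw [Nat.card_zmod, ← pow_mul, mul_comm e 2] at h1
  have hp : 0 < p ^ (2 * e) := pow_pos (Fact.out : p.Prime).pos _
  have h3 : (Fpt C (Fb p) (p ^ (2 * e)) g).ncard ≠ 0 := by omega
  obtain ⟨f, hf⟩ := Set.nonempty_of_ncard_ne_zero h3
  exact ⟨f, hf.2⟩

end Pool.Agent.AB3
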