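import Pool.Agent.Lib.MP_5de024_nt.S.V.TorB

/-!
# The choice of the base points (W4)
-/

set_option autoImplicit false
set_option linter.unusedSectionVars false

namespace Pool.Agent.AB3

open Pool.Agent.AB Polynomial

section chz

variable {p : ℕ} [Fact p.Prime] {K : Type} [Field K] [Algebra (Fx p) K] [Algebra (Rx p) K]
  [IsScalarTower (Rx p) (Fx p) K]

/-- the kernel of a good point is maximal -/
theorem Chz_max {i : Oc p K →+* Fb p} {s : ℕ} (hs : 0 < s) (h : GPt p K s i) :
    (RingHom.ker i).IsMaximal := by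
  obtain ⟨h1, h2⟩ := h
  have hp : 1 < p ^ s := Nat.one_lt_pow hs.ne' (Fact.out : p.Prime).one_lt
  refine Ideal.isMaximal_iff.2 ⟨fun h => by
    rw [RingHom.mem_ker, map_one] at h
    exact one_ne_zero h, ?_⟩
  intro J x hJ hx hxJ
  rw [RingHom.mem_ker] at hx
  have h3 : 1 - x ^ (p ^ s - 1) ∈ RingHom.ker i := by
    rw [RingHom.mem_ker, map_sub, map_one, map_pow, sub_eq_zero]
    symm
    apply mul_left_cancel₀ hx
    rw [← pow_succ', Nat.sub_add_cancel hp.le, h1, mul_one]
  have h4 : x ^ (p ^ s - 1) ∈ J := J.pow_mem_of_mem hxJ _ (by omega)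
  have h5 := J.add_mem (hJ h3) h4
  rwa [sub_add_cancel] at h5

/-- two good points whose kernels have comparable contractions have comparable levels -/
theorem Chz_level {i i' : Oc p K →+* Fb p} {s s' : ℕ} (hs : 0 < s) (hs' : 0 < s')
    (h : GPt p K s i) (h' : GPt p K s' i')
    (he : ∀ f : Rx p, i (algebraMap (Rx p) (Oc p K) f) = 0 →
      i' (algebraMap (Rx p) (Oc p K) f) = 0) : s' ≤ s := by
  obtain ⟨h1, h2⟩ := h
  obtain ⟨h1', h2'⟩ := h'
  have : CharP (Fb p) p := charP_of_injective_algebraMap (algebraMap (ZMod p) (Fb p)).injective p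
  -- every element of level `s'` is of level `s`
  have h3 : ∀ b : Fb p, b ^ p ^ s' = b → b ^ p ^ s = b := by
    intro b hb
    obtain ⟨f, rfl⟩ := h2' b hb
    have h4 := he (f ^ p ^ s - f) (by
      rw [map_sub, map_sub, map_pow, map_pow, h1, sub_self])
    rw [map_sub, map_sub, map_pow, map_pow, sub_eq_zero] at h4
    exact h4
  by_contra hlt
  push Not at hlt
  -- the polynomial `X ^ p ^ s' - X` has too many roots
  have hp : 1 < p := (Fact.out : p.Prime).one_lt
  have hsep : (X ^ p ^ s' - X : (Fb p)[X]).Separable := by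
    apply galois_poly_separable p
    exact dvd_pow_self p hs'.ne'
  have hcard : Fintype.card ((X ^ p ^ s' - X : (Fb p)[X]).rootSet (Fb p)) = p ^ s' := by
    rw [Polynomial.card_rootSet_eq_natDegree hsep (by
      rw [Algebra.algebraMap_self, Polynomial.map_id]
      exact IsAlgClosed.splits _)]
    exact FiniteField.X_pow_card_pow_sub_X_natDegree_eq (Fb p) hs'.ne' hp
  have hle : Fintype.card ((X ^ p ^ s' - X : (Fb p)[X]).rootSet (Fb p)) ≤
      Fintype.card ((X ^ p ^ s - X : (Fb p)[X]).rootSet (Fb p)) := by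
    apply Fintype.card_le_of_injective
      (fun b => (⟨b.1, by
        have hb := b.2
        rw [Polynomial.mem_rootSet] at hb ⊢
        refine ⟨FiniteField.X_pow_card_pow_sub_X_ne_zero (Fb p) hs.ne' hp, ?_⟩
        have hb2 := hb.2
        rw [map_sub, map_pow, aeval_X, sub_eq_zero] at hb2 ⊢
        exact h3 _ hb2⟩ : (X ^ p ^ s - X : (Fb p)[X]).rootSet (Fb p)))
    intro a b hab
    exact Subtype.ext (congrArg
      (fun z : (X ^ p ^ s - X : (Fb p)[X]).rootSet (Fb p) => z.1) hab)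
  have hle2 : Fintype.card ((X ^ p ^ s - X : (Fb p)[X]).rootSet (Fb p)) ≤ p ^ s := by
    have h5 := Polynomial.card_roots' (X ^ p ^ s - X : (Fb p)[X])
    rw [FiniteField.X_pow_card_pow_sub_X_natDegree_eq (Fb p) hs.ne' hp] at h5
    classical
    refine le_trans ?_ h5
    rw [← Set.toFinset_card]
    refine le_trans (Finset.card_le_card ?_) (Multiset.toFinset_card_le _)
    intro a ha
    rw [Set.mem_toFinset, Polynomial.mem_rootSet] at ha
    rw [Multiset.mem_toFinset, Polynomial.mem_roots ha.1, Polynomial.IsRoot,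
      ← Polynomial.coe_aeval_eq_eval]
    exact ha.2
  have := Nat.pow_lt_pow_right hp hlt
  omega

end chz

theorem choose_a (p : ℕ) [Fact p.Prime] (K : Type) [Field K] [Algebra (Fx p) K]
    [Algebra (Rx p) K] [IsScalarTower (Rx p) (Fx p) K] (hK : NiK p K) (Ω : Type) [Finite Ω]
    [MulAction (Gl p K) Ω] (J : Type) [Finite J] (s : J → ℕ) (hs : Function.Injective s)
    (hs0 : ∀ j, 0 < s j) (i : J → Oc p K →+* Fb p) (hi : ∀ j, GPt p K (s j) (i j))
    (P : J → Ω → Rx p) :
    ∃ a : Ω → Oc p K, (∀ (σ : Gl p K) (w : Ω), act p K σ (a w) = a (σ • w)) ∧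
      ∀ j w, i j (a w) = i j (algebraMap (Rx p) (Oc p K) (P j w)) := by
  classical
  have hfd : FiniteDimensional (Fx p) K := hK.1
  have : Fintype (Gl p K) := Fintype.ofFinite _
  -- the homomorphisms `i j ∘ σ` and their kernels
  obtain ⟨ev, hev⟩ : ∃ ev : J × Gl p K → (Oc p K →+* Fb p), ∀ j σ z,
      ev (j, σ) z = i j (act p K σ z) :=
    ⟨fun q => (i q.1).comp ((act p K q.2 : Oc p K ≃ₐ[Rx p] Oc p K) : Oc p K →+* Oc p K),
      fun j σ z => rfl⟩
  have hgp : ∀ (j : J) (σ : Gl p K), GPt p K (s j) (ev (j, σ)) := by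
    intro j σ
    obtain ⟨h1, h2⟩ := hi j
    refine ⟨fun z => by rw [hev]; exact h1 _, fun b hb => ?_⟩
    obtain ⟨f, hf⟩ := h2 b hb
    refine ⟨f, ?_⟩
    rw [hev, AlgEquiv.commutes]
    exact hf
  have hmax : ∀ q, (RingHom.ker (ev q)).IsMaximal := fun q => Chz_max (hs0 q.1) (hgp q.1 q.2)
  have hdis : ∀ q q', RingHom.ker (ev q) = RingHom.ker (ev q') → q = q' := by
    rintro ⟨j, σ⟩ ⟨j', σ'⟩ he
    have hjj : j = j' := by
      apply hs
      refine le_antisymm ?_ ?_
      · refine Chz_level (hs0 j') (hs0 j) (hgp j' σ') (hgp j σ) fun f hf => ?_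
        have h1 : algebraMap (Rx p) (Oc p K) f ∈ RingHom.ker (ev (j', σ')) := hf
        rw [← he] at h1
        exact h1
      · refine Chz_level (hs0 j) (hs0 j') (hgp j σ) (hgp j' σ') fun f hf => ?_
        have h1 : algebraMap (Rx p) (Oc p K) f ∈ RingHom.ker (ev (j, σ)) := hf
        rw [he] at h1
        exact h1
    subst hjj
    have hσ : σ = σ' := by
      refine nik_pt_uniq p K hK (Fb p) (i j) σ σ' fun z => ?_
      obtain ⟨h1, h2⟩ := hi j
      obtain ⟨f, hf⟩ := h2 (i j (act p K σ z)) (h1 _)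
      have h3 : z - algebraMap (Rx p) (Oc p K) f ∈ RingHom.ker (ev (j, σ)) := by
        rw [RingHom.mem_ker, hev, map_sub, map_sub, AlgEquiv.commutes, hf, sub_self]
      rw [he, RingHom.mem_ker, hev, map_sub, map_sub, AlgEquiv.commutes, hf, sub_eq_zero] at h3
      exact h3.symm
    rw [hσ]
  have hcop : Pairwise (Function.onFun IsCoprime fun q => RingHom.ker (ev q)) := by
    intro q q' hne
    rw [Function.onFun, Ideal.isCoprime_iff_sup_eq]
    exact Ideal.IsMaximal.coprime_of_ne (hmax q) (hmax q') fun he => hne (hdis q q' he)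
  have hb : ∀ w : Ω, ∃ b : Oc p K, ∀ j σ, i j (act p K σ b) =
      if σ = 1 then i j (algebraMap (Rx p) (Oc p K) (P j w)) else 0 := by
    intro w
    obtain ⟨b, hb⟩ := Ideal.exists_forall_sub_mem_ideal hcop
      (fun q => if q.2 = 1 then algebraMap (Rx p) (Oc p K) (P q.1 w) else 0)
    refine ⟨b, fun j σ => ?_⟩
    have h1 := hb (j, σ)
    rw [RingHom.mem_ker, map_sub, hev, hev, sub_eq_zero] at h1
    rw [h1]
    by_cases hσ : σ = 1
    · simp only [hσ, if_true]
      rw [AlgEquiv.commutes]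
    · simp only [hσ, if_false, map_zero]
  choose b hb using hb
  refine ⟨fun w => ∑ σ : Gl p K, act p K σ (b (σ⁻¹ • w)), fun τ w => ?_, fun j w => ?_⟩
  · rw [map_sum]
    refine Fintype.sum_equiv (Equiv.mulLeft τ) _ _ fun σ => ?_
    rw [Equiv.coe_mulLeft, ← act_mul, mul_inv_rev, mul_smul, inv_smul_smul]
  · rw [map_sum]
    simp only [hb]
    rw [Finset.sum_ite_eq' Finset.univ (1 : Gl p K)]
    simp

end Pool.Agent.AB3
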