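import Pool.Agent.Lib.MP_5de024_nt.S.GeoW

/-!
# Constant extensions (project AB3V, rule cst)
-/

set_option autoImplicit false
set_option linter.unusedSectionVars false

namespace Pool.Agent.AB3

open Pool.Agent.AB Polynomial

/-- the order of the Frobenius map of the extension of degree `N` -/
theorem CsE_ord (p : ℕ) [Fact p.Prime] (k : Type) [Field k] [Finite k] [CharP k p] (N : ℕ)
    [NeZero N] (i : ℕ) (h : ∀ a : FiniteField.Extension k p N, a ^ p ^ i = a) : N ∣ i := by
  let _ : Algebra (ZMod p) k := ZMod.algebra k p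
  have h1 : (FiniteField.frobeniusAlgHom (ZMod p) (FiniteField.Extension k p N)) ^ i = 1 := by
    apply AlgHom.ext
    intro a
    simp only [AlgHom.coe_pow, FiniteField.coe_frobeniusAlgHom, pow_iterate, ZMod.card]
    exact h a
  have h2 := orderOf_dvd_of_pow_eq_one h1
  rw [FiniteField.orderOf_frobeniusAlgHom, FiniteField.finrank_zmod_extension] at h2
  exact (dvd_mul_left N _).trans h2

/-- the extension of the constants of `K` -/
theorem cst_ext (p : ℕ) [Fact p.Prime] (K : Type) [Field K] [Algebra (Fx p) K]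
    [Algebra (Rx p) K] [IsScalarTower (Rx p) (Fx p) K] (hK : NiK p K) (N : ℕ) (hN : 0 < N) :
    ∃ (K' : Type) (_ : Field K') (_ : Algebra (Fx p) K') (_ : Algebra (Rx p) K')
      (_ : IsScalarTower (Rx p) (Fx p) K') (ρ : Gl p K' →* Gl p K) (γ₀ : Gl p K'), NiK p K' ∧
      Function.Surjective ρ ∧ (Gc p K').map ρ = Gc p K ∧
      (∀ γ : Gl p K', ∃ i : ℕ, ∃ h ∈ Gc p K', γ = γ₀ ^ i * h) ∧
      ∀ i : ℕ, γ₀ ^ i ∈ Gc p K' → N ∣ i := by
  obtain ⟨k, R, H, _, _, _, _, _, _, _, ⟨m⟩⟩ := exists_mdl p K hK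
  have hNz : NeZero N := ⟨hN.ne'⟩
  have hchF : CharP (FiniteField.Extension k p N) p :=
    charP_of_injective_algebraMap (algebraMap k (FiniteField.Extension k p N)).injective p
  have hp0 : p ≠ 0 := (Fact.out : p.Prime).ne_zero
  obtain ⟨K', i1, i2, i3, i4, ρ, hNi, hs, hm, m', -, -⟩ := mdl_bc p K hK k R H m
    (FiniteField.Extension k p N) X (fun i => by
      rw [coeff_X]
      split_ifs
      · exact one_pow p
      · exact zero_pow hp0) (by rw [natDegree_X]; exact one_pos)
    (fun F' _ _ _ _ => by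
      rw [map_X]
      exact m.cov.geom F')
  refine ⟨K', i1, i2, i3, i4, ρ, ?_⟩
  have hfd : FiniteDimensional (Fx p) K' := hNi.1
  have hgal : IsGalois (Fx p) K' := hNi.2.1
  obtain ⟨κ, hκ⟩ := gw_kap m'
  obtain ⟨γ₀, hγ₀⟩ := gw_frob hκ
  have hpow : ∀ (i : ℕ) (a : FiniteField.Extension k p N), κ (γ₀ ^ i) a = a ^ p ^ i := by
    intro i
    induction i with
    | zero =>
      intro a
      rw [pow_zero, map_one, pow_zero, pow_one]
      rfl
    | succ i ih =>
      intro a
      rw [pow_succ', map_mul]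
      change κ γ₀ (κ (γ₀ ^ i) a) = _
      rw [ih, hγ₀, ← pow_mul, ← pow_succ]
  refine ⟨γ₀, hNi, hs, hm, fun γ => ?_, fun i hi => ?_⟩
  · obtain ⟨i, hi⟩ := gw_endo p (FiniteField.Extension k p N)
      ((κ γ : FiniteField.Extension k p N ≃+* FiniteField.Extension k p N) :
        FiniteField.Extension k p N →+* FiniteField.Extension k p N)
    refine ⟨i, (γ₀ ^ i)⁻¹ * γ, ?_, by rw [mul_inv_cancel_left]⟩
    rw [← gw_kap_one hκ]
    intro a
    have h1 : κ γ = κ (γ₀ ^ i) := by
      ext a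
      rw [hpow]
      exact hi a
    rw [map_mul, map_inv, h1, inv_mul_cancel]
    rfl
  · apply CsE_ord p k N i
    intro a
    rw [← hpow]
    exact (gw_kap_one hκ _).2 hi a

end Pool.Agent.AB3
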