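import Mathlib

/-!
# Constant extensions: the group theory (project AB3V, rule cst)
-/

set_option autoImplicit false
set_option linter.unusedSectionVars false

namespace Pool.Agent.AB3

/-- generators of a quotient of a finite cyclic group lift to generators -/
theorem csG_lift (C : Type) [Group C] [Finite C] (hc : IsCyclic C) (D : Subgroup C) [D.Normal]
    (x : C) (hx : ∀ c : C, ∃ i : ℕ, ∃ d ∈ D, c = x ^ i * d) :
    ∃ d ∈ D, ∀ c : C, c ∈ Subgroup.zpowers (x * d) := by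
  obtain ⟨c₀, hc₀⟩ := hc.exists_generator
  have hfin : ∀ y : C, ∃ a : ℕ, c₀ ^ a = y := fun y => by
    have := mem_powers_iff_mem_zpowers.2 (hc₀ y)
    exact this
  obtain ⟨a, ha⟩ := hfin x
  have hm0 : D.index ≠ 0 := Subgroup.index_ne_zero_of_finite
  have hmN : D.index ∣ Nat.card C := Subgroup.index_dvd_card D
  haveI : NeZero (Nat.card C) := ⟨Nat.card_pos.ne'⟩
  have hpm : c₀ ^ D.index ∈ D := Subgroup.pow_index_mem D c₀
  -- the order of the image of `c₀`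
  have hord : orderOf (QuotientGroup.mk' D c₀) = D.index := by
    rw [orderOf_eq_card_of_forall_mem_zpowers]
    · rfl
    · intro q
      obtain ⟨y, rfl⟩ := QuotientGroup.mk'_surjective D q
      obtain ⟨k, hk⟩ := Subgroup.mem_zpowers_iff.1 (hc₀ y)
      exact Subgroup.mem_zpowers_iff.2 ⟨k, by rw [← map_zpow, hk]⟩
  obtain ⟨i, d, hd, hi⟩ := hx c₀
  have hcop : Nat.Coprime a D.index := by
    have h1 : (QuotientGroup.mk' D c₀) ^ ((1 : ℤ) - a * i) = 1 := by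
      have h2 : QuotientGroup.mk' D c₀ = (QuotientGroup.mk' D c₀) ^ (a * i) := by
        conv_lhs => rw [hi, map_mul, map_pow, ← ha, map_pow, ← pow_mul]
        have h3 : QuotientGroup.mk' D d = 1 := (QuotientGroup.eq_one_iff d).2 hd
        rw [h3, mul_one]
      have h4 : (QuotientGroup.mk' D c₀) ^ ((a : ℤ) * i) = QuotientGroup.mk' D c₀ := by
        rw [← Nat.cast_mul, zpow_natCast]
        exact h2.symm
      rw [zpow_sub, zpow_one, h4, mul_inv_cancel]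
    have h5 : ((D.index : ℕ) : ℤ) ∣ 1 - a * i := by
      rw [← hord]
      exact orderOf_dvd_iff_zpow_eq_one.2 h1
    obtain ⟨t, ht⟩ := h5
    rw [← Nat.isCoprime_iff_coprime]
    exact ⟨(i : ℤ), t, by linarith⟩
  obtain ⟨w, hw⟩ := ZMod.unitsMap_surjective hmN (ZMod.unitOfCoprime a hcop)
  have hb := ZMod.val_coe_unit_coprime w
  set b := (w : ZMod (Nat.card C)).val with hbdef
  have hab : ((b : ℕ) : ZMod D.index) = ((a : ℕ) : ZMod D.index) := by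
    have h1 := congrArg (fun u : (ZMod D.index)ˣ => (u : ZMod D.index)) hw
    simp only [ZMod.coe_unitOfCoprime] at h1
    rw [← h1, hbdef, ZMod.unitsMap_val, ZMod.natCast_val]
  have hdvd : ((D.index : ℕ) : ℤ) ∣ (b : ℤ) - a := by
    have h1 := (ZMod.intCast_eq_intCast_iff_dvd_sub (a : ℤ) (b : ℤ) D.index).1
      (by rw [Int.cast_natCast, Int.cast_natCast]; exact hab.symm)
    exact h1
  refine ⟨x⁻¹ * c₀ ^ b, ?_, ?_⟩
  · obtain ⟨t, ht⟩ := hdvd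
    have h1 : x⁻¹ * c₀ ^ b = (c₀ ^ D.index) ^ t := by
      rw [← ha, ← zpow_natCast c₀ a, ← zpow_natCast c₀ b, ← zpow_natCast c₀ D.index,
        ← zpow_mul, ← ht, ← zpow_neg, ← zpow_add]
      congr 1
      ring
    rw [h1]
    exact D.zpow_mem hpm t
  · intro c
    rw [mul_inv_cancel_left]
    have h0 : orderOf c₀ = Nat.card C := orderOf_eq_card_of_forall_mem_zpowers hc₀
    have h1 : orderOf (c₀ ^ b) = orderOf c₀ := by
      apply Nat.Coprime.orderOf_pow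
      rw [h0]
      exact hb.symm
    have h2 : Subgroup.zpowers (c₀ ^ b) = ⊤ := by
      apply Subgroup.eq_top_of_card_eq
      rw [Nat.card_zpowers, h1, h0]
    rw [h2]
    exact Subgroup.mem_top c

/-- a homomorphism to `G / V` lifts to `G` if `G / H` is cyclic and `H ⊓ V = 1` -/
theorem cst_grp (G Γ : Type) [Group G] [Finite G] [Group Γ] (H V : Subgroup G) [H.Normal]
    [V.Normal] (hHV : H ⊓ V = ⊥) (hc : IsCyclic (G ⧸ H)) (Γc : Subgroup Γ) [Γc.Normal]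
    (f : Γ →* G ⧸ V) (hf : Function.Surjective f)
    (hfc : Γc.map f = H.map (QuotientGroup.mk' V)) (γ₀ : Γ)
    (h1 : ∀ γ : Γ, ∃ i : ℕ, ∃ h ∈ Γc, γ = γ₀ ^ i * h)
    (h2 : ∀ i : ℕ, γ₀ ^ i ∈ Γc → Nat.card (G ⧸ H) ∣ i) :
    ∃ Φ : Γ →* G, Function.Surjective Φ ∧ Γc.map Φ = H := by
  obtain ⟨x₀, hx₀⟩ := QuotientGroup.mk'_surjective V (f γ₀)
  have hfh : ∀ h ∈ Γc, ∃ h' ∈ H, QuotientGroup.mk' V h' = f h := fun h hh => by
    have : f h ∈ Γc.map f := Subgroup.mem_map_of_mem f hh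
    rw [hfc] at this
    obtain ⟨h', hh', e⟩ := Subgroup.mem_map.1 this
    exact ⟨h', hh', e⟩
  have hhf : ∀ h' ∈ H, ∃ h ∈ Γc, f h = QuotientGroup.mk' V h' := fun h' hh' => by
    have : QuotientGroup.mk' V h' ∈ H.map (QuotientGroup.mk' V) := Subgroup.mem_map_of_mem _ hh'
    rw [← hfc] at this
    obtain ⟨h, hh, e⟩ := Subgroup.mem_map.1 this
    exact ⟨h, hh, e⟩
  haveI hDn : (V.map (QuotientGroup.mk' H)).Normal :=
    Subgroup.Normal.map inferInstance _ (QuotientGroup.mk'_surjective H)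
  obtain ⟨d, hd, hgen⟩ := csG_lift (G ⧸ H) hc (V.map (QuotientGroup.mk' H))
    (QuotientGroup.mk' H x₀) (fun c => by
      obtain ⟨g, rfl⟩ := QuotientGroup.mk'_surjective H c
      obtain ⟨γ, hγ⟩ := hf (QuotientGroup.mk' V g)
      obtain ⟨i, h, hh, rfl⟩ := h1 γ
      obtain ⟨h', hh', e⟩ := hfh h hh
      rw [map_mul, map_pow, ← e, ← hx₀, ← map_pow, ← map_mul] at hγ
      have hv : (x₀ ^ i * h')⁻¹ * g ∈ V := QuotientGroup.eq.1 hγ
      refine ⟨i, QuotientGroup.mk' H ((x₀ ^ i * h')⁻¹ * g), Subgroup.mem_map_of_mem _ hv, ?_⟩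
      have h3 : QuotientGroup.mk' H h' = 1 := (QuotientGroup.eq_one_iff h').2 hh'
      rw [← map_pow, map_mul _ (x₀ ^ i * h')⁻¹ g, map_inv, map_mul _ (x₀ ^ i) h', h3, mul_one,
        mul_inv_cancel_left])
  obtain ⟨v₀, hv₀, rfl⟩ := Subgroup.mem_map.1 hd
  rw [← map_mul] at hgen
  obtain ⟨g₀, hg₀⟩ : ∃ g₀, g₀ = x₀ * v₀ := ⟨_, rfl⟩
  rw [← hg₀] at hgen
  have hgV : QuotientGroup.mk' V g₀ = f γ₀ := by
    have h3 : QuotientGroup.mk' V v₀ = 1 := (QuotientGroup.eq_one_iff v₀).2 hv₀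
    rw [hg₀, map_mul, h3, mul_one, hx₀]
  obtain ⟨c, hcdef⟩ : ∃ c, c = QuotientGroup.mk' H g₀ := ⟨_, rfl⟩
  rw [← hcdef] at hgen
  have hcN : ∀ i : ℕ, Nat.card (G ⧸ H) ∣ i → c ^ i = 1 := fun i hi => by
    obtain ⟨t, rfl⟩ := hi
    rw [pow_mul, pow_card_eq_one', one_pow]
  -- exponents are well defined
  have hwd0 : ∀ i j : ℕ, ∀ h ∈ Γc, ∀ h' ∈ Γc, i ≤ j → γ₀ ^ i * h = γ₀ ^ j * h' →
      c ^ i = c ^ j := by
    intro i j h hh h' hh' hij e
    obtain ⟨k, rfl⟩ := Nat.exists_eq_add_of_le hij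
    have h3 : γ₀ ^ k ∈ Γc := by
      have h4 : γ₀ ^ k = h * h'⁻¹ := by
        rw [pow_add, mul_assoc] at e
        have h5 := mul_left_cancel e
        rw [h5, mul_inv_cancel_right]
      rw [h4]
      exact Γc.mul_mem hh (Γc.inv_mem hh')
    rw [pow_add, hcN k (h2 k h3), mul_one]
  have hwd : ∀ i j : ℕ, ∀ h ∈ Γc, ∀ h' ∈ Γc, γ₀ ^ i * h = γ₀ ^ j * h' → c ^ i = c ^ j := by
    intro i j h hh h' hh' e
    rcases le_total i j with hij | hij
    · exact hwd0 i j h hh h' hh' hij e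
    · exact (hwd0 j i h' hh' h hh hij e.symm).symm
  -- the graph
  let Q : Γ → G → Prop := fun γ g => QuotientGroup.mk' V g = f γ ∧
    ∃ i : ℕ, ∃ h ∈ Γc, γ = γ₀ ^ i * h ∧ QuotientGroup.mk' H g = c ^ i
  have hQ0 : ∀ (i : ℕ) (h : Γ) (h' : G), h ∈ Γc → h' ∈ H → QuotientGroup.mk' V h' = f h →
      Q (γ₀ ^ i * h) (g₀ ^ i * h') := by
    intro i h h' hh hh' e
    refine ⟨?_, i, h, hh, rfl, ?_⟩
    · rw [map_mul, map_pow, hgV, e, map_mul, map_pow]
    · have h3 : QuotientGroup.mk' H h' = 1 := (QuotientGroup.eq_one_iff h').2 hh'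
      rw [map_mul, map_pow, h3, mul_one, hcdef]
  have hQe : ∀ γ, ∃ g, Q γ g := fun γ => by
    obtain ⟨i, h, hh, rfl⟩ := h1 γ
    obtain ⟨h', hh', e⟩ := hfh h hh
    exact ⟨_, hQ0 i h h' hh hh' e⟩
  have hQu : ∀ γ g g', Q γ g → Q γ g' → g = g' := by
    rintro γ g g' ⟨e1, i, h, hh, e2, e3⟩ ⟨e4, j, h', hh', e5, e6⟩
    have h3 : c ^ i = c ^ j := hwd i j h hh h' hh' (e2.symm.trans e5)
    have h4 : g⁻¹ * g' ∈ H := QuotientGroup.eq.1 ((e3.trans h3).trans e6.symm)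
    have h5 : g⁻¹ * g' ∈ V := QuotientGroup.eq.1 (e1.trans e4.symm)
    have h6 : g⁻¹ * g' ∈ H ⊓ V := ⟨h4, h5⟩
    rw [hHV, Subgroup.mem_bot] at h6
    exact inv_mul_eq_one.1 h6
  have hQm : ∀ γ γ' g g', Q γ g → Q γ' g' → Q (γ * γ') (g * g') := by
    rintro γ γ' g g' ⟨e1, i, h, hh, e2, e3⟩ ⟨e4, j, h', hh', e5, e6⟩
    refine ⟨by rw [map_mul, map_mul, e1, e4], i + j, (γ₀ ^ j)⁻¹ * h * γ₀ ^ j * h', ?_, ?_, ?_⟩
    · refine Γc.mul_mem ?_ hh'
      have := Subgroup.Normal.conj_mem (inferInstance : Γc.Normal) h hh (γ₀ ^ j)⁻¹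
      rwa [inv_inv] at this
    · rw [e2, e5, pow_add]
      group
    · rw [map_mul, e3, e6, pow_add]
  choose F hF using hQe
  have hFm : ∀ γ γ', F (γ * γ') = F γ * F γ' := fun γ γ' =>
    hQu _ _ _ (hF (γ * γ')) (hQm _ _ _ _ (hF γ) (hF γ'))
  let Φ : Γ →* G := MonoidHom.mk' F hFm
  have hΦ : ∀ γ g, Q γ g → Φ γ = g := fun γ g h => hQu _ _ _ (hF γ) h
  refine ⟨Φ, ?_, ?_⟩
  · intro g
    obtain ⟨i, hi⟩ := mem_powers_iff_mem_zpowers.2 (hgen (QuotientGroup.mk' H g))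
    have hi' : QuotientGroup.mk' H (g₀ ^ i) = QuotientGroup.mk' H g := by
      rw [map_pow, ← hcdef]
      exact hi
    have h3 : (g₀ ^ i)⁻¹ * g ∈ H := QuotientGroup.eq.1 hi'
    obtain ⟨h, hh, e⟩ := hhf _ h3
    refine ⟨γ₀ ^ i * h, ?_⟩
    have h4 := hΦ _ _ (hQ0 i h _ hh h3 e.symm)
    rw [h4, mul_inv_cancel_left]
  · ext g
    rw [Subgroup.mem_map]
    constructor
    · rintro ⟨h, hh, rfl⟩
      obtain ⟨_, i, h', hh', e2, e3⟩ := hF h
      have h3 : γ₀ ^ i ∈ Γc := by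
        have h4 : γ₀ ^ i = h * h'⁻¹ := by rw [e2, mul_inv_cancel_right]
        rw [h4]
        exact Γc.mul_mem hh (Γc.inv_mem hh')
      rw [hcN i (h2 i h3)] at e3
      exact (QuotientGroup.eq_one_iff (F h)).1 e3
    · intro hg
      obtain ⟨h, hh, e⟩ := hhf g hg
      refine ⟨h, hh, ?_⟩
      have h4 := hΦ _ _ (hQ0 0 h g hh hg e.symm)
      rw [pow_zero, one_mul, pow_zero, one_mul] at h4
      exact h4

end Pool.Agent.AB3
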