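import Pool.Agent.Lib.MP_5de024_nt.S.V.CsG
import Pool.Agent.Lib.MP_5de024_nt.S.V.CsE

/-!
# Constant extensions (project AB3V, rule cst)
-/

set_option autoImplicit false
set_option linter.unusedSectionVars false

namespace Pool.Agent.AB3

open Pool.Agent.AB

theorem gc_normal (p : ℕ) [Fact p.Prime] (K : Type) [Field K] [Algebra (Fx p) K] :
    (Gc p K).Normal := by
  refine ⟨fun σ hσ τ c hc => ?_⟩
  have h1 : IsCst p (τ⁻¹ c) := by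
    obtain ⟨n, hn, h⟩ := hc
    refine ⟨n, hn, ?_⟩
    rw [← map_pow, h]
  have h2 := hσ (τ⁻¹ c) h1
  rw [AlgEquiv.mul_apply, AlgEquiv.mul_apply, h2, ← AlgEquiv.mul_apply, mul_inv_cancel]
  rfl

/-- rule cst -/
theorem rf_cst (p : ℕ) [Fact p.Prime] (G : Type) [Group G] [Finite G] (H V : Subgroup G)
    [H.Normal] [V.Normal] (hHV : H ⊓ V = ⊥) (hc : IsCyclic (G ⧸ H))
    (h : RF p (G ⧸ V) (H.map (QuotientGroup.mk' V))) : RF p G H := by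
  obtain ⟨K, _, _, _, _, Φ, hK, hΦ, hΦc⟩ := h
  obtain ⟨K', i1, i2, i3, i4, ρ, γ₀, hK', hρ, hρc, h1, h2⟩ := cst_ext p K hK
    (Nat.card (G ⧸ H)) Nat.card_pos
  have hn : (Gc p K').Normal := gc_normal p K'
  obtain ⟨Ψ, hΨ, hΨc⟩ := cst_grp G (Gl p K') H V hHV hc (Gc p K') (Φ.comp ρ)
    (hΦ.comp hρ) (by rw [← Subgroup.map_map, hρc, hΦc]) γ₀ h1 h2
  exact ⟨K', i1, i2, i3, i4, Ψ, hK', hΨ, hΨc⟩

end Pool.Agent.AB3
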