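import Pool.Agent.Lib.MP_5de024_nt.S.Defs

/-!
# Definitions for project AB3V
-/

set_option autoImplicit false
set_option linter.unusedSectionVars false

namespace Pool.Agent.AB3

open Pool.Agent.AB Polynomial

/-- the algebraic closure of `F_p` -/
abbrev Fb (p : ℕ) [Fact p.Prime] : Type := AlgebraicClosure (ZMod p)

/-- the points of `R` over `k` with values in `Om` -/
def Pts (k R Om : Type) [Field k] [CommRing R] [Algebra k[X] R] [Field Om] [Algebra k Om] :
    Set (R →+* Om) :=
  {f | ∀ c : k, f (algebraMap k[X] R (Polynomial.C c)) = algebraMap k Om c}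

/-- the points whose Frobenius (the power `Q`) is `h` -/
def Fpt {k R H : Type} [Field k] [CommRing R] [Algebra k[X] R] [Group H] (C : Cov k R H)
    (Om : Type) [Field Om] [Algebra k Om] (Q : ℕ) (h : H) : Set (R →+* Om) :=
  {f | f ∈ Pts k R Om ∧ ∀ r, f r ^ Q = f (C.act h r)}

/-- the coordinates of `z` have degree at most `m` -/
def Lm {k R : Type} [Field k] [CommRing R] [Algebra k[X] R] {N : ℕ}
    (b : Module.Basis (Fin N) k[X] R) (m : ℕ) (z : R) : Prop :=
  ∀ i, (b.repr z i).natDegree ≤ m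

/-- `D` bounds the defect of the degree function of the basis `b` -/
def GoodD {k R H : Type} [Field k] [CommRing R] [Algebra k[X] R] [Group H] (C : Cov k R H)
    {N : ℕ} (b : Module.Basis (Fin N) k[X] R) (D : ℕ) : Prop :=
  (∀ m n z w, Lm b m z → Lm b n w → Lm b (m + n + D) (z * w)) ∧
  (∀ m z (h : H), Lm b m z → Lm b (m + D) (C.act h z)) ∧
  (∀ m z j, 0 < j → Lm b m z → Lm b (j * (m + D)) (z ^ j))

/-- a good point of level `s`: it takes values in the field with `p ^ s` elements and the
polynomials already take all these values -/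
def GPt (p : ℕ) [Fact p.Prime] (K : Type) [Field K] [Algebra (Fx p) K] [Algebra (Rx p) K]
    [IsScalarTower (Rx p) (Fx p) K] (s : ℕ) (i : Oc p K →+* Fb p) : Prop :=
  (∀ z, i z ^ p ^ s = i z) ∧
  ∀ b : Fb p, b ^ p ^ s = b → ∃ f : Rx p, i (algebraMap (Rx p) (Oc p K) f) = b

/-- `L` is generated over `K` by points `y w` of `R` over `a w` -/
structure WrX (p : ℕ) [Fact p.Prime] (K L R Ω : Type) [Field K] [Algebra (Fx p) K]
    [Algebra (Rx p) K] [IsScalarTower (Rx p) (Fx p) K] [Field L] [Algebra (Fx p) L]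
    [Algebra (Rx p) L] [IsScalarTower (Rx p) (Fx p) L] [CommRing R] [Algebra (Rx p) R]
    (a : Ω → Oc p K) where
  ι : K →ₐ[Fx p] L
  y : Ω → R →+* Oc p L
  base : ∀ w, y w (algebraMap (Rx p) R X) = omap p K L ι (a w)
  gen : ∀ τ : Gl p L, (∀ z, τ (ι z) = ι z) → (∀ w r, act p L τ (y w r) = y w r) → τ = 1

end Pool.Agent.AB3
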