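import Pool.Agent.Lib.MP_5de024_nt.S.GeoB
import Pool.Agent.Lib.MP_5de024_nt.S.E.DsA
import Pool.Agent.Lib.MP_5de024_nt.S.V.VDef

/-!
# Constants of a cover (C3)
-/

set_option autoImplicit false
set_option linter.unusedSectionVars false

namespace Pool.Agent.AB3

open Pool.Agent.AB Polynomial

variable {k R H : Type} [Field k] [CommRing R] [Algebra k[X] R] [Group H] [Finite H]

theorem CstC_evg (F : Type) [Field F] [Algebra k F] (f : k[X]) :
    evg k F X f = f.map (algebraMap k F) := by
  have h1 : evg k F X = Polynomial.mapRingHom (algebraMap k F) := by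
    refine Polynomial.ringHom_ext ?_ ?_
    · intro a
      simp [evg]
    · simp [evg]
  rw [h1, Polynomial.coe_mapRingHom]

/-- an element of `R` which becomes a constant over `F` is a constant -/
theorem CstC_desc (C : Cov k R H) (F : Type) [Field F] [Algebra k F] (z : R) (ζ : F)
    (h : Bs.inR (evg k F X) R z = algebraMap F[X] (Fam k F X R) (Polynomial.C ζ)) :
    ∃ c : k, z = algebraMap k[X] R (Polynomial.C c) := by
  have hφ : Function.Injective (evg k F X) := by
    intro a b hab
    rw [CstC_evg, CstC_evg] at hab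
    exact Polynomial.map_injective _ (algebraMap k F).injective hab
  have hinj := bs_inR_inj C (evg k F X) hφ
  have hfix : ∀ g, C.act g z = z := by
    intro g
    apply hinj
    rw [← Bs.act_inR (evg k F X) C.act g z, h]
    exact Bs.act_alg (evg k F X) C.act g (Polynomial.C ζ)
  obtain ⟨f, hf⟩ := C.fixed z hfix
  have h1 : evg k F X f = Polynomial.C ζ := by
    apply bs_inj C (evg k F X)
    rw [← Bs.inR_alg, hf, h]
  rw [CstC_evg] at h1
  have h2 : f.natDegree = 0 := by
    rw [← Polynomial.natDegree_map (algebraMap k F), h1, Polynomial.natDegree_C]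
  refine ⟨f.coeff 0, ?_⟩
  rw [← Polynomial.eq_C_of_natDegree_eq_zero h2, hf]

/-- elements algebraic over `k` are constants -/
theorem cov_const (C : Cov k R H) (z : R) (f : k[X]) (hf : f ≠ 0)
    (h : f.eval₂ ((algebraMap k[X] R).comp Polynomial.C) z = 0) :
    ∃ c : k, z = algebraMap k[X] R (Polynomial.C c) := by
  classical
  have : IsDomain R := cov_domain C
  set ι : k →+* R := (algebraMap k[X] R).comp Polynomial.C with hι
  let : Algebra k R := ι.toAlgebra
  have halg : algebraMap k R = ι := rfl
  have hint : IsIntegral k z := by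
    refine IsAlgebraic.isIntegral ⟨f, hf, ?_⟩
    rw [Polynomial.aeval_def, halg]
    exact h
  set m := minpoly k z with hm
  have hmon : m.Monic := minpoly.monic hint
  have : Fact (Irreducible m) := ⟨minpoly.irreducible hint⟩
  set F := AdjoinRoot m with hF
  have : IsDomain (Fam k F X R) := C.geom F
  set ζ : F := AdjoinRoot.root m with hζ
  have hroot : (m.map (algebraMap k F)).IsRoot ζ := AdjoinRoot.isRoot_root m
  obtain ⟨g, hg⟩ := Polynomial.dvd_iff_isRoot.2 hroot
  set b : Fam k F X R := Bs.inR (evg k F X) R z with hb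
  set ρ : F →+* Fam k F X R := (algebraMap F[X] (Fam k F X R)).comp Polynomial.C with hρ
  have hcomp : ρ.comp (algebraMap k F) = (Bs.inR (evg k F X) R).comp ι := by
    ext c
    rw [RingHom.comp_apply, hρ, RingHom.comp_apply, RingHom.comp_apply, hι, RingHom.comp_apply,
      Bs.inR_alg, CstC_evg, Polynomial.map_C]
  have hm0 : (m.map (algebraMap k F)).eval₂ ρ b = 0 := by
    rw [Polynomial.eval₂_map, hcomp, hb, ← Polynomial.hom_eval₂]
    have h1 : m.eval₂ ι z = 0 := minpoly.aeval k z
    rw [h1, map_zero]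
  rw [hg, Polynomial.eval₂_mul, Polynomial.eval₂_sub, Polynomial.eval₂_X,
    Polynomial.eval₂_C] at hm0
  rcases mul_eq_zero.1 hm0 with h1 | h1
  · rw [sub_eq_zero] at h1
    exact CstC_desc C F z ζ h1
  · exfalso
    have hgm : g.Monic := by
      refine Polynomial.Monic.of_mul_monic_left (Polynomial.monic_X_sub_C ζ) ?_
      rw [← hg]
      exact hmon.map _
    have hdeg : m.natDegree = g.natDegree + 1 := by
      have h2 := congrArg Polynomial.natDegree hg
      rw [Polynomial.natDegree_map, (Polynomial.monic_X_sub_C ζ).natDegree_mul hgm,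
        Polynomial.natDegree_X_sub_C] at h2
      omega
    -- the functional
    obtain ⟨lam, hlam⟩ := (Algebra.linearMap k F).exists_leftInverse_of_injective
      (LinearMap.ker_eq_bot.2 (algebraMap k F).injective)
    have hlam1 : lam 1 = 1 := by
      have h2 := LinearMap.congr_fun hlam (1 : k)
      rw [LinearMap.comp_apply, Algebra.linearMap_apply, map_one, LinearMap.id_apply] at h2
      exact h2
    have hlamc : ∀ (c : k) (y : F), lam (y * algebraMap k F c) = lam y * c := by
      intro c y
      rw [mul_comm, ← Algebra.smul_def, map_smul, smul_eq_mul, mul_comm]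
    set P : k[X] := ∑ i ∈ Finset.range (g.natDegree + 1),
      Polynomial.C (lam (g.coeff i)) * X ^ i with hP
    have hPc : P.coeff g.natDegree = 1 := by
      rw [hP, Polynomial.finsetSum_coeff, Finset.sum_eq_single g.natDegree]
      · rw [Polynomial.coeff_C_mul_X_pow, if_pos rfl, Polynomial.Monic.coeff_natDegree hgm, hlam1]
      · intro i _ hi
        rw [Polynomial.coeff_C_mul_X_pow, if_neg (Ne.symm hi)]
      · intro hi
        exact absurd (Finset.self_mem_range_succ _) hi
    have hP0 : P ≠ 0 := by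
      intro h2
      rw [h2, Polynomial.coeff_zero] at hPc
      exact zero_ne_one hPc
    have hPd : P.natDegree ≤ g.natDegree := by
      rw [hP]
      refine Polynomial.natDegree_sum_le_of_forall_le _ _ fun i hi => ?_
      refine (Polynomial.natDegree_C_mul_X_pow_le _ _).trans ?_
      have := Finset.mem_range.1 hi
      omega
    -- `z` is a root of `P`
    have hPz : Polynomial.aeval z P = 0 := by
      obtain ⟨bb⟩ := cov_basis C
      have e1 : Polynomial.aeval z P = ∑ i ∈ Finset.range (g.natDegree + 1),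
          (Polynomial.C (lam (g.coeff i)) : k[X]) • z ^ i := by
        rw [hP, map_sum]
        refine Finset.sum_congr rfl fun i _ => ?_
        rw [map_mul, Polynomial.aeval_C, map_pow, Polynomial.aeval_X, Algebra.smul_def, halg]
        rfl
      have e2 : ∑ i ∈ Finset.range (g.natDegree + 1),
          (Polynomial.C (g.coeff i) : F[X]) • Bs.inR (evg k F X) R (z ^ i) = 0 := by
        rw [Polynomial.eval₂_eq_sum_range] at h1
        rw [← h1]
        refine Finset.sum_congr rfl fun i _ => ?_
        rw [Algebra.smul_def, map_pow]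
        rfl
      rw [← bb.repr.map_eq_zero_iff]
      ext j n
      rw [e1, map_sum, Finset.sum_apply', Finsupp.zero_apply, Polynomial.coeff_zero,
        Polynomial.finsetSum_coeff]
      have e3 := congrArg (fun y => ((Bs.basis (evg k F X) bb).repr y j).coeff n) e2
      simp only [map_sum, map_zero, Finset.sum_apply', Finsupp.zero_apply, Polynomial.coeff_zero,
        Polynomial.finsetSum_coeff, map_smul, Finsupp.smul_apply, smul_eq_mul, Bs.repr_inR,
        Polynomial.coeff_C_mul, CstC_evg, Polynomial.coeff_map] at e3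
      have e4 := congrArg lam e3
      rw [map_sum, map_zero] at e4
      simp only [hlamc] at e4
      rw [← e4]
      refine Finset.sum_congr rfl fun i _ => ?_
      rw [map_smul, Finsupp.smul_apply, smul_eq_mul, Polynomial.coeff_C_mul]
    have h3 : m.natDegree ≤ P.natDegree :=
      Polynomial.natDegree_le_natDegree (minpoly.degree_le_of_ne_zero k z hP0 hPz)
    omega

/-- `c ^ (q ^ e) = c` -/
theorem CstC_pow [Finite k] (c : k) (e : ℕ) : c ^ Nat.card k ^ e = c := by
  have : Fintype k := Fintype.ofFinite k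
  rw [Nat.card_eq_fintype_card]
  exact FiniteField.pow_card_pow e c

/-- the power `q ^ e` is additive -/
theorem CstC_frob [Finite k] {S : Type} [CommRing S] (κ : k →+* S) :
    ∃ Fr : ℕ → (S →+* S), ∀ e x, Fr e x = x ^ Nat.card k ^ e := by
  have : Fintype k := Fintype.ofFinite k
  obtain ⟨p, hp⟩ := CharP.exists k
  obtain ⟨n, hpr, hn⟩ := FiniteField.card k p
  have : Fact p.Prime := ⟨hpr⟩
  rcases subsingleton_or_nontrivial S with hS | hS
  · exact ⟨fun _ => RingHom.id S, fun e x => Subsingleton.elim _ _⟩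
  have hpS : CharP S p := charP_of_injective_ringHom κ.injective p
  refine ⟨fun e => iterateFrobenius S p (n * e), fun e x => ?_⟩
  rw [iterateFrobenius_def, Nat.card_eq_fintype_card, hn, ← pow_mul]

theorem CstC_degA [Finite k] (f g : k[X]) (hf : f ≠ 0) (hg : g ≠ 0)
    (h : ∀ e : ℕ, ∃ u v : k[X], v ≠ 0 ∧ f * v ^ Nat.card k ^ e = g * u ^ Nat.card k ^ e) :
    f.natDegree = g.natDegree := by
  have hq : 1 < Nat.card k := Finite.one_lt_card
  obtain ⟨e, he⟩ := pow_unbounded_of_one_lt (max f.natDegree g.natDegree) hq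
  obtain ⟨u, v, hv, huv⟩ := h e
  set Q := Nat.card k ^ e with hQ
  have hQ0 : Q ≠ 0 := by positivity
  have hu : u ≠ 0 := by
    rintro rfl
    rw [zero_pow hQ0, mul_zero] at huv
    exact mul_ne_zero hf (pow_ne_zero _ hv) huv
  have h1 := congrArg Polynomial.natDegree huv
  rw [Polynomial.natDegree_mul hf (pow_ne_zero _ hv), Polynomial.natDegree_mul hg
    (pow_ne_zero _ hu), Polynomial.natDegree_pow, Polynomial.natDegree_pow] at h1
  have h2 : f.natDegree ≡ g.natDegree [MOD Q] := by
    have h3 : f.natDegree ≡ f.natDegree + Q * v.natDegree [MOD Q] := by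
      simp [Nat.ModEq]
    have h4 : g.natDegree + Q * u.natDegree ≡ g.natDegree [MOD Q] := by
      simp [Nat.ModEq]
    exact h3.trans (h1 ▸ h4)
  exact Nat.ModEq.eq_of_lt_of_lt h2 ((le_max_left _ _).trans_lt he) ((le_max_right _ _).trans_lt he)

theorem CstC_degB [Finite k] (f g : k[X]) (hg : g ≠ 0)
    (h : ∀ e : ℕ, ∃ u v : k[X], v ≠ 0 ∧ f * v ^ Nat.card k ^ e = g * u ^ Nat.card k ^ e) :
    ∃ c : k, f = Polynomial.C c * g := by
  by_cases hf : f = 0
  · exact ⟨0, by rw [hf, map_zero, zero_mul]⟩
  have hd := CstC_degA f g hf hg h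
  have hlg : g.leadingCoeff ≠ 0 := Polynomial.leadingCoeff_ne_zero.2 hg
  have hlf : f.leadingCoeff ≠ 0 := Polynomial.leadingCoeff_ne_zero.2 hf
  set c := f.leadingCoeff / g.leadingCoeff with hc
  have hc0 : c ≠ 0 := div_ne_zero hlf hlg
  refine ⟨c, ?_⟩
  by_contra hne
  have hne2 : f - Polynomial.C c * g ≠ 0 := sub_ne_zero.2 hne
  have hdc : (Polynomial.C c * g).natDegree = g.natDegree := Polynomial.natDegree_C_mul hc0
  have hcg0 : Polynomial.C c * g ≠ 0 := mul_ne_zero (Polynomial.C_ne_zero.2 hc0) hg
  have h1 : (f - Polynomial.C c * g).degree < f.degree := by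
    refine Polynomial.degree_sub_lt_left ?_ hf ?_
    · rw [Polynomial.degree_eq_natDegree hf, Polynomial.degree_eq_natDegree hcg0, hdc, hd]
    · rw [Polynomial.leadingCoeff_mul, Polynomial.leadingCoeff_C, hc, div_mul_cancel₀ _ hlg]
  have h2 : (f - Polynomial.C c * g).natDegree < f.natDegree :=
    Polynomial.natDegree_lt_natDegree hne2 h1
  obtain ⟨Fr, hFr⟩ := CstC_frob (Polynomial.C : k →+* k[X])
  have h3 := CstC_degA (f - Polynomial.C c * g) g hne2 hg (by
    intro e
    obtain ⟨u, v, hv, huv⟩ := h e
    refine ⟨u - Polynomial.C c * v, v, hv, ?_⟩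
    rw [← hFr, ← hFr, map_sub, map_mul, hFr, hFr, hFr, ← Polynomial.C_pow, CstC_pow, sub_mul, huv]
    ring)
  omega

/-- quotients which are `q ^ e`-th powers for all `e` are constants -/
theorem const_of_pow [Finite k] (C : Cov k R H) (z w : R) (hw : w ≠ 0)
    (h : ∀ e : ℕ, ∃ u v : R, v ≠ 0 ∧ z * v ^ Nat.card k ^ e = w * u ^ Nat.card k ^ e) :
    ∃ c : k, z = algebraMap k[X] R (Polynomial.C c) * w := by
  classical
  have : IsDomain R := cov_domain C
  have : Fintype H := Fintype.ofFinite H
  obtain ⟨ac, hac, hfr⟩ := cov_frac C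
  set M := FractionRing R with hM
  set al := algebraMap R M with hal
  have hinjK : Function.Injective al := IsFractionRing.injective R M
  set a : M := al z / al w with ha
  have hw' : al w ≠ 0 := (map_ne_zero_iff _ hinjK).2 hw
  set κ : k →+* M := (algebraMap k[X] M).comp Polynomial.C with hκ
  obtain ⟨Fr, hFr⟩ := CstC_frob κ
  have hb : ∀ e : ℕ, ∃ b : M, a = b ^ Nat.card k ^ e := by
    intro e
    obtain ⟨u, v, hv, huv⟩ := h e
    have hv' : al v ≠ 0 := (map_ne_zero_iff _ hinjK).2 hv
    refine ⟨al u / al v, ?_⟩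
    have h1 := congrArg al huv
    rw [map_mul, map_mul, map_pow, map_pow] at h1
    rw [ha, div_pow, div_eq_div_iff hw' (pow_ne_zero _ hv'), h1, mul_comm]
  -- the characteristic polynomials
  let chi : M → M[X] := fun y => ∏ g : H, (X - Polynomial.C (ac g y))
  have hchim : ∀ y, (chi y).Monic := fun y =>
    Polynomial.monic_prod_of_monic _ _ fun g _ => Polynomial.monic_X_sub_C _
  have hfix : ∀ y i g, ac g ((chi y).coeff i) = (chi y).coeff i := by
    intro y i g
    have h1 : (chi y).map (ac g : M →+* M) = chi y := by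
      simp only [chi]
      rw [Polynomial.map_prod]
      refine Fintype.prod_equiv (Equiv.mulLeft g) _ _ fun g' => ?_
      rw [Polynomial.map_sub, Polynomial.map_X, Polynomial.map_C, Equiv.coe_mulLeft, map_mul]
      rfl
    have h2 := congrArg (fun f => f.coeff i) h1
    rw [Polynomial.coeff_map] at h2
    exact h2
  have hchiF : ∀ e b, chi (b ^ Nat.card k ^ e) = (chi b).map (Fr e) := by
    intro e b
    simp only [chi]
    rw [Polynomial.map_prod]
    refine Finset.prod_congr rfl fun g _ => ?_
    rw [Polynomial.map_sub, Polynomial.map_X, Polynomial.map_C, hFr, map_pow]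
  -- the coefficients are constants
  have hcoef : ∀ i, ∃ c : k, (chi a).coeff i = κ c := by
    intro i
    obtain ⟨f, g, hg, hfg⟩ := hfr.fixed ((chi a).coeff i) (hfix a i)
    obtain ⟨c, hc⟩ := CstC_degB f g hg (by
      intro e
      obtain ⟨b, hbe⟩ := hb e
      obtain ⟨u, v, hv, huv⟩ := hfr.fixed ((chi b).coeff i) (hfix b i)
      refine ⟨u, v, hv, ?_⟩
      apply hfr.inj
      have h1 : (chi a).coeff i = ((chi b).coeff i) ^ Nat.card k ^ e := by
        rw [hbe, hchiF, Polynomial.coeff_map, hFr]
      rw [map_mul, map_mul, map_pow, map_pow, ← hfg, ← huv, h1, mul_pow]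
      ring)
    refine ⟨c, ?_⟩
    have hg' : algebraMap k[X] M g ≠ 0 := (map_ne_zero_iff _ hfr.inj).2 hg
    apply mul_left_cancel₀ hg'
    rw [hfg, hc, map_mul, mul_comm]
    rfl
  obtain ⟨P, hP⟩ : ∃ P : k[X], P.map κ = chi a := by
    rw [← Polynomial.mem_lifts, Polynomial.lifts_iff_coeff_lifts]
    intro i
    obtain ⟨c, hc⟩ := hcoef i
    exact ⟨c, hc.symm⟩
  have hPm : P.Monic := by
    refine Polynomial.monic_of_injective κ.injective ?_
    rw [hP]
    exact hchim a
  have hPa : P.eval₂ κ a = 0 := by
    rw [Polynomial.eval₂_eq_eval_map, hP]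
    simp only [chi]
    rw [Polynomial.eval_prod]
    refine Finset.prod_eq_zero (Finset.mem_univ (1 : H)) ?_
    rw [Polynomial.eval_sub, Polynomial.eval_X, Polynomial.eval_C, map_one]
    exact sub_self a
  set ι : k →+* R := (algebraMap k[X] R).comp Polynomial.C with hι
  have hκι : κ = al.comp ι := by
    ext c
    exact IsScalarTower.algebraMap_apply k[X] R M (Polynomial.C c)
  have haint : IsIntegral R a := by
    refine ⟨P.map ι, hPm.map ι, ?_⟩
    rw [Polynomial.eval₂_map, ← hal, ← hκι, hPa]
  have : IsDedekindDomain R := cov_dedekind C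
  obtain ⟨r, hr⟩ := IsIntegrallyClosed.algebraMap_eq_of_integral haint
  obtain ⟨c, hc⟩ := cov_const C r P hPm.ne_zero (by
    apply hinjK
    rw [← hι, map_zero, Polynomial.hom_eval₂, ← hκι, ← hPa, ← hr])
  refine ⟨c, ?_⟩
  apply hinjK
  rw [← hc, map_mul]
  have h1 : al r = al z / al w := hr
  rw [h1, div_mul_cancel₀ _ hw']

end Pool.Agent.AB3
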