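import Pool.Agent.Lib.MP_5de024_nt.S.V.TorB
import Pool.Agent.Lib.MP_5de024_nt.S.V.Ext

/-!
# Constants (W2)
-/

set_option autoImplicit false
set_option linter.unusedSectionVars false

namespace Pool.Agent.AB3

open Pool.Agent.AB Polynomial

variable (p : ℕ) [Fact p.Prime] (K : Type) [Field K] [Algebra (Fx p) K] [Algebra (Rx p) K]
  [IsScalarTower (Rx p) (Fx p) K]

/-- constants are integral -/
theorem cst_mem (c : K) (hc : IsCst p c) : c ∈ Oc p K := by
  obtain ⟨n, hn, h1⟩ := hc
  have hpn : 1 < p ^ n := Nat.one_lt_pow hn.ne' (Fact.out : p.Prime).one_lt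
  refine ⟨Polynomial.X ^ p ^ n - Polynomial.X, ?_, ?_⟩
  · refine Polynomial.monic_X_pow_sub ?_
    rw [Polynomial.degree_X]
    exact_mod_cast hpn
  · rw [Polynomial.eval₂_sub, Polynomial.eval₂_X_pow, Polynomial.eval₂_X, h1, sub_self]

/-- homomorphisms are injective on the constants -/
theorem cst_inj (F : Type) [CommRing F] [Nontrivial F] (i : Oc p K →+* F) (c d : Oc p K)
    (hc : IsCst p (c : K)) (hd : IsCst p (d : K)) (h : i c = i d) : c = d := by
  have hch : CharP K p := charP_of p K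
  by_contra hne
  have he0 : (c : K) - (d : K) ≠ 0 := by
    intro h0
    exact hne (Subtype.ext (sub_eq_zero.1 h0))
  obtain ⟨n, hn, h1⟩ := hc.sub hd
  have hpn : 1 < p ^ n := Nat.one_lt_pow hn.ne' (Fact.out : p.Prime).one_lt
  have h2 : ((c : K) - (d : K)) ^ (p ^ n - 1) = 1 := by
    have h3 : ((c : K) - (d : K)) ^ (p ^ n - 1) * ((c : K) - (d : K)) =
        1 * ((c : K) - (d : K)) := by
      rw [← pow_succ, Nat.sub_add_cancel hpn.le, h1, one_mul]
    exact mul_right_cancel₀ he0 h3
  have h3 : (c - d) ^ (p ^ n - 1) = 1 := by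
    apply Subtype.ext
    exact h2
  have h4 := congrArg i h3
  rw [map_pow, map_sub, h, sub_self, map_one, zero_pow (by omega)] at h4
  exact zero_ne_one h4

theorem cstL_algebraMap : Function.Injective (algebraMap (Rx p) (Oc p K)) := by
  intro f g h
  have h1 : algebraMap (Rx p) K f = algebraMap (Rx p) K g := congrArg Subtype.val h
  rw [IsScalarTower.algebraMap_apply (Rx p) (Fx p) K,
    IsScalarTower.algebraMap_apply (Rx p) (Fx p) K] at h1
  exact IsFractionRing.injective (Rx p) (Fx p) ((algebraMap (Fx p) K).injective h1)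

theorem cst_pow_card (hK : NiK p K) (c : K) (hc : IsCst p c) :
    c ^ p ^ Nat.card (Gl p K) = c := by
  obtain ⟨j, hj⟩ := ext_pt (A := Rx p) (B := Oc p K) (U := Fb p) (cstL_algebraMap p K)
    (Polynomial.eval₂RingHom (algebraMap (ZMod p) (Fb p)) 0)
  have hjx : j (xo p K) = 0 := by
    have h1 := hj Polynomial.X
    rw [Polynomial.coe_eval₂RingHom, Polynomial.eval₂_X] at h1
    exact h1
  obtain ⟨τ, hτ⟩ := nik_pt_ex p K hK (Fb p) j ((frobenius (Fb p) p).comp j) (by
    rw [RingHom.comp_apply, hjx, map_zero])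
  have hτc : ∀ d : K, IsCst p d → τ d = d ^ p := by
    intro d hd
    have h1 : IsCst p (((act p K τ ⟨d, cst_mem p K d hd⟩ : Oc p K) : K)) := by
      rw [act_coe]
      exact hd.map (τ : K →+* K)
    have h2 : IsCst p ((((⟨d, cst_mem p K d hd⟩ : Oc p K) ^ p : Oc p K) : K)) := hd.pow p
    have h3 := cst_inj p K (Fb p) j _ _ h1 h2 (by
      rw [← hτ, map_pow]
      rfl)
    exact congrArg Subtype.val h3
  have hit : ∀ n : ℕ, (τ ^ n) c = c ^ p ^ n := by
    intro n
    induction n with
    | zero => rw [pow_zero, pow_zero, pow_one]; rfl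
    | succ n ih =>
      rw [pow_succ', AlgEquiv.mul_apply, ih, map_pow, hτc c hc, ← pow_mul, pow_succ']
  rw [← hit, pow_card_eq_one']
  rfl

end Pool.Agent.AB3
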