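import Pool.Agent.Lib.MP_5de024_nt.S.GeoA
import Pool.Agent.Lib.MP_5de024_nt.S.V.VDef

/-!
# The degree function of a basis (C1)
-/

set_option autoImplicit false
set_option linter.unusedSectionVars false

namespace Pool.Agent.AB3

open Pool.Agent.AB Polynomial

variable {k R H : Type} [Field k] [CommRing R] [Algebra k[X] R] [Group H] [Finite H]

theorem Deg_repr_mul {N : ℕ} (b : Module.Basis (Fin N) k[X] R) (z w : R) (l : Fin N) :
    b.repr (z * w) l = ∑ i, ∑ j, b.repr z i * b.repr w j * b.repr (b i * b j) l := by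
  have h : z * w = ∑ i, ∑ j, (b.repr z i * b.repr w j) • (b i * b j) := by
    conv_lhs => rw [← b.sum_repr z, ← b.sum_repr w]
    rw [Finset.sum_mul_sum]
    refine Finset.sum_congr rfl fun i _ => Finset.sum_congr rfl fun j _ => ?_
    rw [smul_mul_smul_comm]
  rw [h]
  simp only [map_sum, map_smul, Finsupp.coe_finsetSum, Finset.sum_apply, Finsupp.coe_smul,
    Pi.smul_apply, smul_eq_mul]

theorem Deg_repr_act {N : ℕ} (b : Module.Basis (Fin N) k[X] R) (e : R ≃ₐ[k[X]] R) (z : R)
    (l : Fin N) :
    b.repr (e z) l = ∑ i, b.repr z i * b.repr (e (b i)) l := by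
  have h : e z = ∑ i, b.repr z i • e (b i) := by
    conv_lhs => rw [← b.sum_repr z]
    rw [map_sum]
    refine Finset.sum_congr rfl fun i _ => ?_
    rw [Algebra.smul_def, map_mul, AlgEquiv.commutes, ← Algebra.smul_def]
  rw [h]
  simp only [map_sum, map_smul, Finsupp.coe_finsetSum, Finset.sum_apply, Finsupp.coe_smul,
    Pi.smul_apply, smul_eq_mul]

theorem exists_goodD (C : Cov k R H) {N : ℕ} (b : Module.Basis (Fin N) k[X] R) :
    ∃ D : ℕ, GoodD C b D := by
  obtain ⟨D1, hD1'⟩ := Finite.exists_le (fun q : Fin N × Fin N × Fin N =>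
    (b.repr (b q.1 * b q.2.1) q.2.2).natDegree)
  obtain ⟨D2, hD2'⟩ := Finite.exists_le (fun q : H × Fin N × Fin N =>
    (b.repr (C.act q.1 (b q.2.1)) q.2.2).natDegree)
  have hD1 : ∀ i j l, (b.repr (b i * b j) l).natDegree ≤ D1 := by
    intro i j l
    have h := hD1' (i, j, l)
    dsimp only at h
    exact h
  have hD2 : ∀ (h : H) i l, (b.repr (C.act h (b i)) l).natDegree ≤ D2 := by
    intro h i l
    have h' := hD2' (h, i, l)
    dsimp only at h'
    exact h'
  have hmul : ∀ m n z w, Lm b m z → Lm b n w → Lm b (m + n + max D1 D2) (z * w) := by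
    intro m n z w hz hw l
    rw [Deg_repr_mul]
    refine natDegree_sum_le_of_forall_le _ _ fun i _ =>
      natDegree_sum_le_of_forall_le _ _ fun j _ => ?_
    have h1 := hz i
    have h2 := hw j
    have h3 := hD1 i j l
    have h4 := natDegree_mul_le (p := b.repr z i * b.repr w j) (q := b.repr (b i * b j) l)
    have h5 := natDegree_mul_le (p := b.repr z i) (q := b.repr w j)
    have h6 := le_max_left D1 D2
    omega
  refine ⟨max D1 D2, hmul, ?_, ?_⟩
  · intro m z h hz l
    rw [Deg_repr_act]
    refine natDegree_sum_le_of_forall_le _ _ fun i _ => ?_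
    have h1 := hz i
    have h3 := hD2 h i l
    have h4 := natDegree_mul_le (p := b.repr z i) (q := b.repr (C.act h (b i)) l)
    have h6 := le_max_right D1 D2
    omega
  · intro m z j hj hz
    induction j, hj using Nat.le_induction with
    | base =>
      intro l
      rw [pow_one]
      have h1 := hz l
      omega
    | succ j hj ih =>
      have h := hmul _ _ _ _ ih hz
      intro l
      rw [pow_succ]
      have h1 := h l
      have e : (j + 1) * (m + max D1 D2) = j * (m + max D1 D2) + m + max D1 D2 := by ring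
      rw [e]
      exact h1

theorem lm_add {N : ℕ} (b : Module.Basis (Fin N) k[X] R) (m : ℕ) (z w : R) (hz : Lm b m z)
    (hw : Lm b m w) : Lm b m (z + w) := by
  intro i
  rw [map_add, Finsupp.add_apply]
  exact (natDegree_add_le _ _).trans (max_le (hz i) (hw i))

theorem Deg_repr_C {N : ℕ} (b : Module.Basis (Fin N) k[X] R) (f : k[X]) (z : R) (i : Fin N) :
    b.repr (algebraMap k[X] R f * z) i = f * b.repr z i := by
  rw [← Algebra.smul_def, map_smul, Finsupp.smul_apply, smul_eq_mul]

theorem lm_smul {N : ℕ} (b : Module.Basis (Fin N) k[X] R) (m : ℕ) (c : k) (z : R)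
    (hz : Lm b m z) : Lm b m (algebraMap k[X] R (Polynomial.C c) * z) := by
  intro i
  rw [Deg_repr_C]
  exact (natDegree_C_mul_le _ _).trans (hz i)

/-- the polynomial with given coefficients -/
noncomputable def DegP {l : ℕ} (c : Fin (l + 1) → k) : k[X] :=
  ∑ t, Polynomial.C (c t) * X ^ (t : ℕ)

theorem DegP_coeff {l : ℕ} (c : Fin (l + 1) → k) (t : Fin (l + 1)) :
    (DegP c).coeff (t : ℕ) = c t := by
  rw [DegP, finsetSum_coeff]
  simp only [coeff_C_mul, coeff_X_pow]
  rw [Finset.sum_eq_single t]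
  · simp
  · intro s _ hs
    rw [if_neg (fun h => hs (Fin.ext h.symm)), mul_zero]
  · intro h
    exact absurd (Finset.mem_univ t) h

theorem DegP_natDegree {l : ℕ} (c : Fin (l + 1) → k) : (DegP c).natDegree ≤ l := by
  refine natDegree_sum_le_of_forall_le _ _ fun t _ => ?_
  refine (natDegree_C_mul_X_pow_le _ _).trans ?_
  have := t.isLt
  omega

theorem DegP_add {l : ℕ} (c c' : Fin (l + 1) → k) : DegP (c + c') = DegP c + DegP c' := by
  simp only [DegP, Pi.add_apply, map_add, add_mul, Finset.sum_add_distrib]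

theorem DegP_smul {l : ℕ} (a : k) (c : Fin (l + 1) → k) :
    DegP (a • c) = Polynomial.C a * DegP c := by
  simp only [DegP, Pi.smul_apply, smul_eq_mul, map_mul, Finset.mul_sum, mul_assoc]

theorem DegP_of {l : ℕ} (f : k[X]) (hf : f.natDegree ≤ l) :
    DegP (fun t : Fin (l + 1) => f.coeff (t : ℕ)) = f := by
  ext n
  by_cases hn : n < l + 1
  · exact DegP_coeff (fun t : Fin (l + 1) => f.coeff (t : ℕ)) ⟨n, hn⟩
  · rw [coeff_eq_zero_of_natDegree_lt, coeff_eq_zero_of_natDegree_lt]
    · omega
    · have := DegP_natDegree (fun t : Fin (l + 1) => f.coeff (t : ℕ))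
      omega

/-- the element with given coordinates -/
noncomputable def DegE {N l : ℕ} (b : Module.Basis (Fin N) k[X] R) (c : Fin N → Fin (l + 1) → k) :
    R := ∑ i, DegP (c i) • b i

theorem DegE_repr {N l : ℕ} (b : Module.Basis (Fin N) k[X] R) (c : Fin N → Fin (l + 1) → k)
    (i : Fin N) : b.repr (DegE b c) i = DegP (c i) := by
  rw [DegE, b.repr_sum_self]

theorem DegE_lm {N l : ℕ} (b : Module.Basis (Fin N) k[X] R) (c : Fin N → Fin (l + 1) → k) :
    Lm b l (DegE b c) := by
  intro i
  rw [DegE_repr]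
  exact DegP_natDegree _

theorem DegE_add {N l : ℕ} (b : Module.Basis (Fin N) k[X] R) (c c' : Fin N → Fin (l + 1) → k) :
    DegE b (c + c') = DegE b c + DegE b c' := by
  simp only [DegE, Pi.add_apply, DegP_add, add_smul, Finset.sum_add_distrib]

theorem DegE_smul {N l : ℕ} (b : Module.Basis (Fin N) k[X] R) (a : k)
    (c : Fin N → Fin (l + 1) → k) :
    DegE b (a • c) = algebraMap k[X] R (Polynomial.C a) * DegE b c := by
  rw [DegE, DegE, Finset.mul_sum]
  refine Finset.sum_congr rfl fun i _ => ?_
  rw [Pi.smul_apply, DegP_smul, mul_smul, ← Algebra.smul_def]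

theorem DegE_of {N l : ℕ} (b : Module.Basis (Fin N) k[X] R) (z : R) (hz : Lm b l z) :
    DegE b (fun i (t : Fin (l + 1)) => (b.repr z i).coeff (t : ℕ)) = z := by
  rw [DegE]
  simp only [DegP_of _ (hz _)]
  exact b.sum_repr z

/-- a `k`-basis of the space of elements of degree at most `l` -/
theorem lm_basis {N : ℕ} (b : Module.Basis (Fin N) k[X] R) (l : ℕ) :
    ∃ u : Fin (N * (l + 1)) → R, (∀ i, Lm b l (u i)) ∧
      (∀ c : Fin (N * (l + 1)) → k, ∑ i, algebraMap k[X] R (Polynomial.C (c i)) * u i = 0 →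
        c = 0) ∧
      ∀ z, Lm b l z → ∃ c : Fin (N * (l + 1)) → k,
        z = ∑ i, algebraMap k[X] R (Polynomial.C (c i)) * u i := by
  let e : Fin N × Fin (l + 1) ≃ Fin (N * (l + 1)) := finProdFinEquiv
  let u : Fin (N * (l + 1)) → R := fun q =>
    (X ^ ((e.symm q).2 : ℕ) : k[X]) • b (e.symm q).1
  have hsum : ∀ c : Fin (N * (l + 1)) → k,
      ∑ i, algebraMap k[X] R (Polynomial.C (c i)) * u i =
        DegE b (fun i (t : Fin (l + 1)) => c (e (i, t))) := by
    intro c
    rw [← e.sum_comp, Fintype.sum_prod_type, DegE]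
    refine Finset.sum_congr rfl fun i _ => ?_
    rw [DegP, Finset.sum_smul]
    refine Finset.sum_congr rfl fun t _ => ?_
    simp only [u, Equiv.symm_apply_apply]
    rw [Algebra.smul_def, Algebra.smul_def, map_mul, mul_assoc]
  refine ⟨u, ?_, ?_, ?_⟩
  · intro q i
    simp only [u]
    rw [map_smul, Finsupp.smul_apply, smul_eq_mul, b.repr_self_apply]
    split_ifs
    · rw [mul_one]
      refine (natDegree_X_pow_le _).trans ?_
      have := (e.symm q).2.isLt
      omega
    · simp
  · intro c hc
    rw [hsum] at hc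
    funext q
    have h1 := DegE_repr b (fun i (t : Fin (l + 1)) => c (e (i, t))) (e.symm q).1
    rw [hc, map_zero, Finsupp.zero_apply] at h1
    have h2 := DegP_coeff (fun (t : Fin (l + 1)) => c (e ((e.symm q).1, t))) (e.symm q).2
    rw [← h1, coeff_zero, Prod.mk.eta, Equiv.apply_symm_apply] at h2
    exact h2.symm
  · intro z hz
    refine ⟨fun q => (b.repr z (e.symm q).1).coeff ((e.symm q).2 : ℕ), ?_⟩
    rw [hsum]
    simp only [Equiv.symm_apply_apply]
    exact (DegE_of b z hz).symm

/-- linear algebra: a `k`-linear map of tuples of elements of degree at most `m` into the space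
of elements of degree at most `m'` has a kernel if the dimensions force it -/
theorem lm_ker {N r : ℕ} (b : Module.Basis (Fin N) k[X] R) (m m' : ℕ)
    (d : (Fin r → R) → R) (hadd : ∀ v w, d (v + w) = d v + d w)
    (hsmul : ∀ (c : k) w, d (fun i => algebraMap k[X] R (Polynomial.C c) * w i) =
      algebraMap k[X] R (Polynomial.C c) * d w)
    (hd : ∀ w, (∀ i, Lm b m (w i)) → Lm b m' (d w)) (hN : 0 < N)
    (hlt : m' + 1 < r * (m + 1)) :
    ∃ w : Fin r → R, w ≠ 0 ∧ (∀ i, Lm b m (w i)) ∧ d w = 0 := by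
  let W : (Fin r → Fin N → Fin (m + 1) → k) → (Fin r → R) := fun c j => DegE b (c j)
  have hWadd : ∀ c c', W (c + c') = W c + W c' := by
    intro c c'
    funext j
    change DegE b ((c + c') j) = DegE b (c j) + DegE b (c' j)
    rw [Pi.add_apply, DegE_add]
  have hWsmul : ∀ (a : k) c, W (a • c) = fun j => algebraMap k[X] R (Polynomial.C a) * W c j := by
    intro a c
    funext j
    change DegE b ((a • c) j) = algebraMap k[X] R (Polynomial.C a) * DegE b (c j)
    rw [Pi.smul_apply, DegE_smul]
  let Φ : (Fin r → Fin N → Fin (m + 1) → k) →ₗ[k] (Fin N → Fin (m' + 1) → k) :=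
    { toFun := fun c i t => (b.repr (d (W c)) i).coeff (t : ℕ)
      map_add' := by
        intro c c'
        funext i t
        simp only [hWadd, hadd, map_add, Finsupp.add_apply, coeff_add, Pi.add_apply]
      map_smul' := by
        intro a c
        funext i t
        simp only [hWsmul, hsmul, Deg_repr_C, coeff_C_mul, Pi.smul_apply, smul_eq_mul,
          RingHom.id_apply] }
  have hfin : Module.finrank k (Fin N → Fin (m' + 1) → k) <
      Module.finrank k (Fin r → Fin N → Fin (m + 1) → k) := by
    simp only [Module.finrank_pi_fintype, Module.finrank_self, Finset.sum_const,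
      Finset.card_univ, Fintype.card_fin, smul_eq_mul, mul_one]
    calc N * (m' + 1) < N * (r * (m + 1)) := Nat.mul_lt_mul_of_pos_left hlt hN
      _ = r * (N * (m + 1)) := by ring
  have hker := LinearMap.ker_ne_bot_of_finrank_lt (f := Φ) hfin
  obtain ⟨c, hc, hc0⟩ := (Submodule.ne_bot_iff _).1 hker
  rw [LinearMap.mem_ker] at hc
  have hW : ∀ i, Lm b m (W c i) := fun i => DegE_lm b (c i)
  refine ⟨W c, ?_, hW, ?_⟩
  · intro h0
    apply hc0
    funext j i t
    have h1 := DegE_repr b (c j) i
    have h2 : DegE b (c j) = 0 := congrFun h0 j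
    rw [h2, map_zero, Finsupp.zero_apply] at h1
    have h3 := DegP_coeff (c j i) t
    rw [← h1, coeff_zero] at h3
    exact h3.symm
  · have hd' := hd (W c) hW
    have h1 := DegE_of b (d (W c)) hd'
    have h2 : (fun i (t : Fin (m' + 1)) => (b.repr (d (W c)) i).coeff (t : ℕ)) = 0 := hc
    rw [h2] at h1
    rw [← h1, DegE]
    refine Finset.sum_eq_zero fun i _ => ?_
    have h3 : DegP (l := m') ((0 : Fin N → Fin (m' + 1) → k) i) = 0 := by
      simp [DegP]
    rw [h3, zero_smul]

end Pool.Agent.AB3
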