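import Pool.Agent.Lib.MP_5de024_nt.Quo
import Pool.Agent.Lib.MP_5de024_nt.S.GeoX
import Pool.Agent.Lib.MP_5de024_nt.S.FinX.Map

/-!
# Exact realisations
-/

set_option autoImplicit false
set_option linter.unusedSectionVars false

namespace Pool.Agent.AB3

open Pool.Agent.AB Polynomial

/-- elements fixed by the geometric part are quotients of polynomials with constant
coefficients -/
theorem exact_poly (p : ℕ) [Fact p.Prime] (L : Type) [Field L] [Algebra (Fx p) L]
    [Algebra (Rx p) L] [IsScalarTower (Rx p) (Fx p) L] (hL : NiK p L) (T : Subgroup (Gl p L))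
    (z : L) (hz : ∀ σ ∈ Gc p L, σ z = z) (hT : ∀ σ ∈ T, σ z = z) (τ : Gl p L)
    (hτ : ∀ c : L, IsCst p c → (∀ σ ∈ T, σ c = c) → τ c = c) : τ z = z := by
  classical
  have hfd := hL.1
  obtain ⟨k, R, H, _, _, _, _, _, _, _, ⟨m⟩⟩ := exists_mdl p L hL
  have halg : IsAlgebraic (Rx p) z := by
    have h1 : IsAlgebraic (Fx p) z := Algebra.IsAlgebraic.isAlgebraic z
    exact (IsFractionRing.isAlgebraic_iff (Rx p) (Fx p) L).2 h1
  obtain ⟨y, hy0, hy⟩ := halg.exists_integral_multiple
  have hy0' : algebraMap (Rx p) L y ≠ 0 := by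
    rw [IsScalarTower.algebraMap_apply (Rx p) (Fx p) L, Ne, map_eq_zero]
    exact fun h => hy0 ((IsFractionRing.injective (Rx p) (Fx p)) (h.trans (map_zero _).symm))
  have hsm : ∀ σ : Gl p L, σ (y • z) = y • σ z := by
    intro σ
    rw [Algebra.smul_def, Algebra.smul_def, map_mul,
      IsScalarTower.algebraMap_apply (Rx p) (Fx p) L, AlgEquiv.commutes]
  obtain ⟨a, ha⟩ : ∃ a : Oc p L, (a : L) = y • z := ⟨⟨y • z, hy⟩, rfl⟩
  have hact : ∀ σ : Gl p L, σ z = z → act p L σ a = a := by
    intro σ hσ
    apply Subtype.ext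
    rw [act_coe, ha, hsm, hσ]
  have hr : ∀ h, m.cov.act h (m.e.symm a) = m.e.symm a := by
    intro h
    apply m.e.injective
    rw [m.eact, RingEquiv.apply_symm_apply]
    exact hact _ (hz _ (m.j h).2)
  obtain ⟨f, hf⟩ := m.cov.fixed _ hr
  have hef : m.e (algebraMap k[X] R f) = a := by
    rw [hf, RingEquiv.apply_symm_apply]
  obtain ⟨cs, hcs⟩ : ∃ cs : k →+* Oc p L,
      cs = (m.e : R →+* Oc p L).comp ((algebraMap k[X] R).comp Polynomial.C) := ⟨_, rfl⟩
  have hcs' : ∀ c, cs c = m.e (algebraMap k[X] R (Polynomial.C c)) := by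
    intro c
    rw [hcs]
    rfl
  have hsum : ∀ g : k[X], m.e (algebraMap k[X] R g) =
      ∑ i ∈ g.support, cs (g.coeff i) * xo p L ^ i := by
    intro g
    conv_lhs => rw [g.as_sum_support_C_mul_X_pow]
    rw [map_sum, map_sum]
    refine Finset.sum_congr rfl fun i _ => ?_
    rw [map_mul, map_mul, map_pow, map_pow, m.eX, hcs']
  have hinj : Function.Injective fun g : k[X] => m.e (algebraMap k[X] R g) :=
    m.e.injective.comp m.cov.inj
  -- the coefficients are fixed by `T`
  have hco : ∀ i, ∀ σ ∈ T, σ (cs (f.coeff i) : L) = (cs (f.coeff i) : L) := by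
    intro i σ hσ
    have h1 : ∀ c : k, ∃ c' : k, act p L σ (cs c) = cs c' := by
      intro c
      have h2 : IsCst p ((cs c : Oc p L) : L) := (m.econst _).2 ⟨c, by rw [hcs']⟩
      have h3 : IsCst p (σ ((cs c : Oc p L) : L)) := h2.map (σ : L →+* L)
      obtain ⟨c', h4⟩ := (m.econst _).1 h3
      refine ⟨c', Subtype.ext ?_⟩
      rw [act_coe, ← h4, hcs']
    choose s hs using h1
    have h0 : s 0 = 0 := by
      have h5 := hs 0
      rw [map_zero, map_zero] at h5
      have h6 : cs (s 0) = cs 0 := by rw [map_zero, ← h5]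
      have h7 : Function.Injective cs := cs.injective
      exact h7 h6
    have h8 : act p L σ a = a := hact σ (hT σ hσ)
    have h9 : m.e (algebraMap k[X] R
        (∑ i ∈ f.support, Polynomial.C (s (f.coeff i)) * X ^ i)) =
        m.e (algebraMap k[X] R f) := by
      rw [hef, ← h8, ← hef, hsum f, map_sum, map_sum, map_sum]
      refine Finset.sum_congr rfl fun i _ => ?_
      rw [map_mul, map_mul, map_pow, map_pow, m.eX, map_mul, map_pow, act_xo, hs, hcs']
    have h10 := congrArg (fun g : k[X] => g.coeff i) (hinj h9)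
    simp only [finset_sum_coeff, coeff_C_mul, coeff_X_pow] at h10
    have h11 : s (f.coeff i) = f.coeff i := by
      have h14 : ∑ j ∈ f.support, s (f.coeff j) * (if i = j then (1 : k) else 0) =
          s (f.coeff i) := by
        by_cases hi : i ∈ f.support
        · rw [Finset.sum_eq_single i]
          · rw [if_pos rfl, mul_one]
          · intro j _ hj
            rw [if_neg (Ne.symm hj), mul_zero]
          · intro h
            exact absurd hi h
        · rw [notMem_support_iff.1 hi, h0]
          refine Finset.sum_eq_zero fun j hj => ?_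
          rw [if_neg (by rintro rfl; exact hi hj), mul_zero]
      rw [← h14]
      exact h10
    have h12 := hs (f.coeff i)
    rw [h11] at h12
    exact congrArg (fun t : Oc p L => (t : L)) h12
  have hτa : act p L τ a = a := by
    rw [← hef, hsum f, map_sum]
    refine Finset.sum_congr rfl fun i _ => ?_
    rw [map_mul, map_pow, act_xo]
    congr 1
    apply Subtype.ext
    rw [act_coe]
    exact hτ _ ((m.econst _).2 ⟨_, by rw [hcs']⟩) (hco i)
  have h13 := congrArg (fun t : Oc p L => (t : L)) hτa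
  simp only [act_coe, ha, hsm] at h13
  rw [Algebra.smul_def, Algebra.smul_def] at h13
  exact mul_left_cancel₀ hy0' h13

/-- a realisation of `G` with geometric part `H` -/
theorem rf_exact (p : ℕ) [Fact p.Prime] (G : Type) [Group G] (H : Subgroup G) (h : RF p G H) :
    ∃ (K : Type) (_ : Field K) (_ : Algebra (Fx p) K) (_ : Algebra (Rx p) K)
      (_ : IsScalarTower (Rx p) (Fx p) K) (e : G ≃* Gl p K), NiK p K ∧
      ∀ g : G, g ∈ H ↔ e g ∈ Gc p K := by
  classical
  obtain ⟨L, _, _, _, _, Φ, hL, hΦ, hG⟩ := h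
  have hfd := hL.1
  have hgal := hL.2.1
  have hni := hL.2.2
  let N := Φ.ker
  let M := IntermediateField.fixedField N
  have hNI : NI p M := by
    refine ni_fixed p L hni N M M.val ?_
    intro z
    constructor
    · intro hz
      exact ⟨⟨z, (IntermediateField.mem_fixedField_iff N z).2 hz⟩, rfl⟩
    · rintro ⟨w, rfl⟩ τ hτ
      exact (IntermediateField.mem_fixedField_iff N _).1 w.2 τ hτ
  have hgalM : IsGalois (Fx p) M := IsGalois.of_fixedField_normal_subgroup N
  have hfdM : FiniteDimensional (Fx p) M := inferInstance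
  let e := (QuotientGroup.quotientKerEquivOfSurjective Φ hΦ).symm.trans
      (IsGalois.normalAutEquivQuotient N)
  have he : ∀ τ : Gl p L, ∀ z : M, ((e (Φ τ) z : M) : L) = τ (z : L) := by
    intro τ z
    have h1 : (QuotientGroup.quotientKerEquivOfSurjective Φ hΦ).symm (Φ τ) =
        (QuotientGroup.mk τ : Gl p L ⧸ N) := by
      rw [MulEquiv.symm_apply_eq]
      rfl
    have h2 : e (Φ τ) = IsGalois.normalAutEquivQuotient N (QuotientGroup.mk τ : Gl p L ⧸ N) := by
      change IsGalois.normalAutEquivQuotient N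
        ((QuotientGroup.quotientKerEquivOfSurjective Φ hΦ).symm (Φ τ)) = _
      rw [h1]
    rw [h2, IsGalois.normalAutEquivQuotient_apply]
    exact AlgEquiv.restrictNormal_commutes τ M z
  refine ⟨M, inferInstance, inferInstance, inferInstance, inferInstance, e,
    ⟨hfdM, hgalM, hNI⟩, ?_⟩
  intro g
  obtain ⟨τ, rfl⟩ := hΦ g
  constructor
  · intro hg
    rw [← hG] at hg
    obtain ⟨σ, hσ, h1⟩ := hg
    rw [← h1]
    intro c hc
    apply Subtype.ext
    rw [he]
    exact hσ _ (hc.map (M.val : M →+* L))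
  · intro hg
    -- `τ` lies in `Gc ⊔ N`
    have hGcn : (Gc p L).Normal := by
      constructor
      intro σ hσ γ c hc
      have h1 : IsCst p (γ⁻¹ c) := hc.map ((γ⁻¹ : Gl p L) : L →+* L)
      rw [AlgEquiv.mul_apply, AlgEquiv.mul_apply, hσ _ h1, ← AlgEquiv.mul_apply,
        mul_inv_cancel, AlgEquiv.one_apply]
    have h1 : τ ∈ Gc p L ⊔ N := by
      rw [← IntermediateField.fixingSubgroup_fixedField (Gc p L ⊔ N),
        IntermediateField.mem_fixingSubgroup_iff]
      intro z hz
      rw [IntermediateField.mem_fixedField_iff] at hz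
      refine exact_poly p L hL N z (fun σ hσ => hz σ ((le_sup_left : Gc p L ≤ _) hσ))
        (fun σ hσ => hz σ ((le_sup_right : N ≤ _) hσ)) τ ?_
      intro c hc hcN
      obtain ⟨c', hc'⟩ : ∃ c' : M, (c' : L) = c :=
        ⟨⟨c, (IntermediateField.mem_fixedField_iff N c).2 hcN⟩, rfl⟩
      have h2 : IsCst p c' := (isCst_map_iff (M.val : M →+* L)).1 (by
        change IsCst p ((c' : M) : L)
        rw [hc']
        exact hc)
      have h3 := congrArg (fun t : M => (t : L)) (hg c' h2)
      simp only [he, hc'] at h3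
      exact h3
    rw [Subgroup.mem_sup_of_normal_left] at h1
    obtain ⟨σ, hσ, n, hn, rfl⟩ := h1
    rw [map_mul, (MonoidHom.mem_ker).1 hn, mul_one, ← hG]
    exact ⟨σ, hσ, rfl⟩

end Pool.Agent.AB3
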