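import Pool.Agent.Lib.MP_5de024_nt.S.V.VDef

/-!
# Generators of finite fields
-/

set_option autoImplicit false
set_option linter.unusedSectionVars false

namespace Pool.Agent.AB3

open Pool.Agent.AB Polynomial

/-- the elements with `b ^ p ^ s = b` -/
theorem GenP_card (p : ℕ) [Fact p.Prime] (s : ℕ) (hs : 0 < s) :
    ({b : Fb p | b ^ p ^ s = b}).Finite ∧ ({b : Fb p | b ^ p ^ s = b}).ncard ≤ p ^ s := by
  classical
  have hp : 1 < p := (Fact.out : p.Prime).one_lt
  have hne : (X ^ p ^ s - X : (Fb p)[X]) ≠ 0 :=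
    FiniteField.X_pow_card_pow_sub_X_ne_zero _ hs.ne' hp
  have hsub : {b : Fb p | b ^ p ^ s = b} ⊆ ((X ^ p ^ s - X : (Fb p)[X]).roots.toFinset : Set (Fb p)) := by
    intro b hb
    have hb' : b ^ p ^ s = b := hb
    rw [Finset.mem_coe, Multiset.mem_toFinset, mem_roots hne, IsRoot.def, eval_sub, eval_pow,
      eval_X, hb', sub_self]
  refine ⟨(Finset.finite_toSet _).subset hsub, ?_⟩
  refine (Set.ncard_le_ncard hsub (Finset.finite_toSet _)).trans ?_
  rw [Set.ncard_coe_finset]
  refine (Multiset.toFinset_card_le _).trans ((card_roots' _).trans ?_)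
  rw [FiniteField.X_pow_card_pow_sub_X_natDegree_eq _ hs.ne' hp]

/-- the field of the elements with `b ^ p ^ s = b` -/
noncomputable def GenP_K (p : ℕ) [Fact p.Prime] (s : ℕ) : IntermediateField (ZMod p) (Fb p) where
  carrier := {b | b ^ p ^ s = b}
  mul_mem' := by
    intro a b ha hb
    show (a * b) ^ p ^ s = a * b
    rw [mul_pow, show a ^ p ^ s = a from ha, show b ^ p ^ s = b from hb]
  add_mem' := by
    intro a b ha hb
    show (a + b) ^ p ^ s = a + b
    have : CharP (Fb p) p := inferInstance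
    rw [add_pow_char_pow, show a ^ p ^ s = a from ha, show b ^ p ^ s = b from hb]
  algebraMap_mem' := by
    intro c
    show (algebraMap (ZMod p) (Fb p) c) ^ p ^ s = algebraMap (ZMod p) (Fb p) c
    rw [← map_pow, ZMod.pow_card_pow]
  inv_mem' := by
    intro a ha
    show a⁻¹ ^ p ^ s = a⁻¹
    rw [inv_pow, show a ^ p ^ s = a from ha]

theorem GenP_mem (p : ℕ) [Fact p.Prime] (s : ℕ) (b : Fb p) : b ∈ GenP_K p s ↔ b ^ p ^ s = b :=
  Iff.rfl

theorem GenP_fin (p : ℕ) [Fact p.Prime] (s : ℕ) (hs : 0 < s) : Finite (GenP_K p s) :=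
  (GenP_card p s hs).1

/-- every element of a finite intermediate field of degree `d` satisfies `b ^ p ^ d = b` -/
theorem GenP_pow (p : ℕ) [Fact p.Prime] (E : IntermediateField (ZMod p) (Fb p)) [Finite E] (b : Fb p)
    (hb : b ∈ E) : b ^ p ^ (Module.finrank (ZMod p) E) = b := by
  have hE := Fintype.ofFinite E
  have hfd : Module.Finite (ZMod p) E := Module.Finite.of_finite
  have h1 : Fintype.card E = p ^ Module.finrank (ZMod p) E := by
    have h2 := Module.card_eq_pow_finrank (K := ZMod p) (V := E)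
    rwa [ZMod.card] at h2
  have h2 := FiniteField.pow_card (⟨b, hb⟩ : E)
  rw [h1] at h2
  exact congrArg Subtype.val h2

/-- an element of the field with `p ^ s` elements which lies in no field with `p ^ d` elements,
`d ≤ s / 2`, is a generator -/
theorem gen_of_not (p : ℕ) [Fact p.Prime] (a : Fb p) (s : ℕ) (hs : 0 < s) (ha : a ^ p ^ s = a)
    (h : ∀ d, 0 < d → 2 * d ≤ s → a ^ p ^ d ≠ a) :
    ∀ b : Fb p, b ^ p ^ s = b → ∃ f : Rx p, Polynomial.aeval a f = b := by
  have hp : 1 < p := (Fact.out : p.Prime).one_lt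
  intro b hb
  have hKf := GenP_fin p s hs
  have hKfd : Module.Finite (ZMod p) (GenP_K p s) := Module.Finite.of_finite
  have hle : IntermediateField.adjoin (ZMod p) {a} ≤ GenP_K p s := by
    rw [IntermediateField.adjoin_le_iff, Set.singleton_subset_iff]
    exact ha
  have hFf : Finite (IntermediateField.adjoin (ZMod p) {a}) :=
    Finite.of_injective _ (IntermediateField.inclusion hle).injective
  have hFfd : Module.Finite (ZMod p) (IntermediateField.adjoin (ZMod p) {a}) :=
    Module.Finite.of_finite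
  set d := Module.finrank (ZMod p) (IntermediateField.adjoin (ZMod p) {a}) with hd
  set e := Module.finrank (ZMod p) (GenP_K p s) with he
  have hd0 : 0 < d := Module.finrank_pos
  have he0 : 0 < e := Module.finrank_pos
  have hes : e ≤ s := by
    have h1 : Nat.card (GenP_K p s) = p ^ e := by
      have hK := Fintype.ofFinite (GenP_K p s)
      rw [Nat.card_eq_fintype_card]
      have h2 := Module.card_eq_pow_finrank (K := ZMod p) (V := GenP_K p s)
      rwa [ZMod.card] at h2
    have h2 : Nat.card (GenP_K p s) ≤ p ^ s := (GenP_card p s hs).2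
    rw [h1] at h2
    exact (Nat.pow_le_pow_iff_right hp).1 h2
  have hdvd : d ∣ e := IntermediateField.finrank_dvd_of_le_right hle
  have hde : d = e := by
    by_contra hne
    obtain ⟨k, hk⟩ := hdvd
    have hk2 : 2 ≤ k := by
      by_contra hcon
      have hk1 : k = 0 ∨ k = 1 := by omega
      rcases hk1 with rfl | rfl
      · omega
      · omega
    have h1 : 2 * d ≤ s := by
      have h2 : d * 2 ≤ d * k := Nat.mul_le_mul_left d hk2
      omega
    exact h d hd0 h1 (GenP_pow p _ a (IntermediateField.mem_adjoin_simple_self (ZMod p) a))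
  have heq : IntermediateField.adjoin (ZMod p) {a} = GenP_K p s :=
    IntermediateField.eq_of_le_of_finrank_eq hle hde
  have hbF : b ∈ IntermediateField.adjoin (ZMod p) {a} := by
    rw [heq]
    exact hb
  have hint : IsAlgebraic (ZMod p) a := Algebra.IsAlgebraic.isAlgebraic a
  have hb2 : b ∈ (IntermediateField.adjoin (ZMod p) {a}).toSubalgebra := hbF
  rw [IntermediateField.adjoin_simple_toSubalgebra_of_isAlgebraic hint,
    Algebra.adjoin_singleton_eq_range_aeval] at hb2
  exact hb2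

/-- there are few elements in proper subfields -/
theorem few_sub (p : ℕ) [Fact p.Prime] (s : ℕ) :
    ({a : Fb p | ∃ d, 0 < d ∧ 2 * d ≤ s ∧ a ^ p ^ d = a}).Finite ∧
    ({a : Fb p | ∃ d, 0 < d ∧ 2 * d ≤ s ∧ a ^ p ^ d = a}).ncard ≤ 2 * p ^ (s / 2) := by
  have hp : 1 < p := (Fact.out : p.Prime).one_lt
  have key : ∀ t : ℕ, ({a : Fb p | ∃ d, 0 < d ∧ d ≤ t ∧ a ^ p ^ d = a}).Finite ∧
      ({a : Fb p | ∃ d, 0 < d ∧ d ≤ t ∧ a ^ p ^ d = a}).ncard ≤ 2 * p ^ t := by
    intro t
    induction t with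
    | zero =>
      have h1 : {a : Fb p | ∃ d, 0 < d ∧ d ≤ 0 ∧ a ^ p ^ d = a} = ∅ := by
        ext a
        simp only [Set.mem_ofPred_eq, Set.mem_empty_iff_false, iff_false]
        rintro ⟨d, h1, h2, -⟩
        omega
      rw [h1]
      exact ⟨Set.finite_empty, by rw [Set.ncard_empty]; exact Nat.zero_le _⟩
    | succ t ih =>
      obtain ⟨h1, h2⟩ := ih
      obtain ⟨h3, h4⟩ := GenP_card p (t + 1) (Nat.succ_pos t)
      have hsub : {a : Fb p | ∃ d, 0 < d ∧ d ≤ t + 1 ∧ a ^ p ^ d = a} ⊆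
          {a : Fb p | ∃ d, 0 < d ∧ d ≤ t ∧ a ^ p ^ d = a} ∪ {a : Fb p | a ^ p ^ (t + 1) = a} := by
        rintro a ⟨d, h5, h6, h7⟩
        rcases Nat.lt_or_ge t d with h8 | h8
        · right
          have h9 : d = t + 1 := by omega
          rw [h9] at h7
          exact h7
        · left
          exact ⟨d, h5, h8, h7⟩
      refine ⟨(h1.union h3).subset hsub, ?_⟩
      refine (Set.ncard_le_ncard hsub (h1.union h3)).trans ((Set.ncard_union_le _ _).trans ?_)
      refine (Nat.add_le_add h2 h4).trans ?_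
      have h5 : 2 * p ^ t ≤ p ^ (t + 1) := by
        rw [pow_succ, mul_comm]
        exact Nat.mul_le_mul_left _ hp
      omega
  have h1 : {a : Fb p | ∃ d, 0 < d ∧ 2 * d ≤ s ∧ a ^ p ^ d = a} =
      {a : Fb p | ∃ d, 0 < d ∧ d ≤ s / 2 ∧ a ^ p ^ d = a} := by
    ext a
    constructor
    · rintro ⟨d, h1, h2, h3⟩
      exact ⟨d, h1, by omega, h3⟩
    · rintro ⟨d, h1, h2, h3⟩
      exact ⟨d, h1, by omega, h3⟩
  rw [h1]
  exact key (s / 2)

/-- generators exist -/
theorem exists_gen (p : ℕ) [Fact p.Prime] (s : ℕ) (hs : 0 < s) :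
    ∃ a : Fb p, a ^ p ^ s = a ∧
      ∀ b : Fb p, b ^ p ^ s = b → ∃ f : Rx p, Polynomial.aeval a f = b := by
  have hKf := GenP_fin p s hs
  obtain ⟨g, hg⟩ := IsCyclic.exists_generator (α := (GenP_K p s)ˣ)
  refine ⟨((g : GenP_K p s) : Fb p), (g : GenP_K p s).2, ?_⟩
  intro b hb
  by_cases hb0 : b = 0
  · exact ⟨0, by rw [map_zero, hb0]⟩
  · have hne : (⟨b, hb⟩ : GenP_K p s) ≠ 0 := fun h0 => hb0 (congrArg Subtype.val h0)
    obtain ⟨n, hn⟩ : ∃ n : ℕ, g ^ n = Units.mk0 (⟨b, hb⟩ : GenP_K p s) hne := by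
      have h1 := mem_powers_iff_mem_zpowers.2 (hg (Units.mk0 (⟨b, hb⟩ : GenP_K p s) hne))
      exact h1
    refine ⟨X ^ n, ?_⟩
    have h1 : ((g ^ n : (GenP_K p s)ˣ) : GenP_K p s) = ⟨b, hb⟩ := by
      rw [hn]
      rfl
    have h2 := congrArg Subtype.val h1
    rw [map_pow, aeval_X]
    rw [Units.val_pow_eq_pow_val] at h2
    exact h2

end Pool.Agent.AB3
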