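import Pool.Agent.Lib.MP_5de024_nt.S.GeoX
import Pool.Agent.Lib.MP_5de024_nt.S.V.Che
import Pool.Agent.Lib.MP_5de024_nt.S.V.GenP

/-!
# Good points (C7)
-/

set_option autoImplicit false
set_option linter.unusedSectionVars false

namespace Pool.Agent.AB3

open Pool.Agent.AB Polynomial

/-- some point avoids the values in `Bd` -/
theorem GPts_avoid {k R H : Type} [Field k] [CommRing R] [Algebra k[X] R] [Group H] [Finite H]
    (C : Cov k R H) (Om : Type) [Field Om] [IsAlgClosed Om] [Algebra k Om] (Q : ℕ)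
    (hQ : 4 * Nat.card H < Q) (hA : Q ^ 2 ≤ 2 * (Fpt C Om (Q ^ 2) 1).ncard) (Bd : Set Om)
    (hBf : Bd.Finite) (hB : Bd.ncard ≤ 2 * Q) :
    ∃ f ∈ Fpt C Om (Q ^ 2) 1, f (algebraMap k[X] R X) ∉ Bd := by
  classical
  by_contra hcon
  push Not at hcon
  have hpos : (Fpt C Om (Q ^ 2) 1).ncard ≠ 0 := by
    intro h
    rw [h, mul_zero, Nat.le_zero] at hA
    have : Q = 0 := by simpa using hA
    omega
  have hAf : (Fpt C Om (Q ^ 2) 1).Finite := Set.finite_of_ncard_ne_zero hpos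
  have h1 : hAf.toFinset.card ≤ Nat.card H * hBf.toFinset.card := by
    refine Finset.card_le_mul_card_image_of_maps_to (f := fun f => f (algebraMap k[X] R X)) ?_ _ ?_
    · intro f hf
      rw [Set.Finite.mem_toFinset] at hf ⊢
      exact hcon f hf
    · intro a _
      obtain ⟨h2, h3⟩ := pts_over C Om a
      rw [← h2, Set.ncard_eq_toFinset_card _ h3]
      refine Finset.card_le_card fun f hf => ?_
      rw [Finset.mem_filter, Set.Finite.mem_toFinset] at hf
      rw [Set.Finite.mem_toFinset]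
      exact ⟨hf.1.1, hf.2⟩
  rw [← Set.ncard_eq_toFinset_card _ hAf, ← Set.ncard_eq_toFinset_card _ hBf] at h1
  have h2 : (Fpt C Om (Q ^ 2) 1).ncard ≤ Nat.card H * (2 * Q) :=
    h1.trans (Nat.mul_le_mul_left _ hB)
  have h3 : Q * Q ≤ (4 * Nat.card H) * Q := by
    calc Q * Q = Q ^ 2 := (sq Q).symm
      _ ≤ 2 * (Nat.card H * (2 * Q)) := hA.trans (Nat.mul_le_mul_left _ h2)
      _ = (4 * Nat.card H) * Q := by ring
  have h4 := Nat.le_of_mul_le_mul_right h3 (by omega)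
  omega

theorem good_pts (p : ℕ) [Fact p.Prime] (K : Type) [Field K] [Algebra (Fx p) K]
    [Algebra (Rx p) K] [IsScalarTower (Rx p) (Fx p) K] (hK : NiK p K) (c B : ℕ) (hc : 0 < c) :
    ∃ s : ℕ, B ≤ s ∧ c ∣ s ∧ 0 < s ∧ ∃ i : Oc p K →+* Fb p, GPt p K s i := by
  obtain ⟨k, R, H, _, _, _, _, _, _, _, ⟨m⟩⟩ := exists_mdl p K hK
  let _ := Fintype.ofFinite k
  obtain ⟨d, _, hd⟩ := FiniteField.card k p
  let _ : Algebra (ZMod p) k := ZMod.algebra k p
  have hfin : Module.Finite (ZMod p) k := Module.Finite.of_finite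
  let _ : Algebra k (Fb p) :=
    ((IsAlgClosed.lift : k →ₐ[ZMod p] Fb p) : k →+* Fb p).toAlgebra
  obtain ⟨e0, he0⟩ := fpt_ge m.cov (Fb p)
  obtain ⟨e, he⟩ : ∃ e, e = c * (e0 + B + 4 * Nat.card H + 1) := ⟨_, rfl⟩
  have hee : e0 + B + 4 * Nat.card H + 1 ≤ e := by
    rw [he]
    exact Nat.le_mul_of_pos_left _ hc
  have hd0 : 0 < (d : ℕ) := d.pos
  have hk : Nat.card k = p ^ (d : ℕ) := by rw [Nat.card_eq_fintype_card, hd]
  have hs2 : 2 * (d * e) / 2 = d * e := by omega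
  have hde : e ≤ d * e := Nat.le_mul_of_pos_left _ hd0
  have hQ : (Nat.card k ^ e) = p ^ (2 * (d * e) / 2) := by
    rw [hk, hs2, pow_mul]
  have hQ2 : (Nat.card k ^ e) ^ 2 = p ^ (2 * (d * e)) := by
    rw [hk, ← pow_mul, ← pow_mul]
    congr 1
    ring
  have hQ4 : 4 * Nat.card H < Nat.card k ^ e := by
    have h1 : e < 2 ^ e := Nat.lt_two_pow_self
    have h2 : 2 ^ e ≤ p ^ e := Nat.pow_le_pow_left (Fact.out : p.Prime).two_le _
    have h3 : p ^ e ≤ p ^ ((d : ℕ) * e) :=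
      Nat.pow_le_pow_right (Fact.out : p.Prime).pos hde
    rw [hQ, hs2]
    omega
  obtain ⟨hBf, hB⟩ := few_sub p (2 * (d * e))
  rw [← hQ] at hB
  obtain ⟨f, hf, hfX⟩ := GPts_avoid m.cov (Fb p) (Nat.card k ^ e) hQ4
    (he0 e (by omega) 1) _ hBf hB
  have hfr : ∀ r, f r ^ p ^ (2 * (d * e)) = f r := by
    intro r
    have h1 := hf.2 r
    rw [hQ2, map_one] at h1
    exact h1
  refine ⟨2 * (d * e), by omega, ?_, by omega, f.comp (m.e.symm : Oc p K →+* R), ?_, ?_⟩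
  · refine Dvd.dvd.mul_left (Dvd.dvd.mul_left ?_ _) _
    rw [he]
    exact Dvd.intro _ rfl
  · intro z
    exact hfr _
  · intro b hb
    obtain ⟨P, hP⟩ := gen_of_not p (f (algebraMap k[X] R X)) (2 * (d * e)) (by omega)
      (hfr _) (fun d' h1 h2 h3 => hfX ⟨d', h1, h2, h3⟩) b hb
    refine ⟨P, ?_⟩
    have h1 : (f.comp (m.e.symm : Oc p K →+* R)).comp (algebraMap (Rx p) (Oc p K)) =
        ((Polynomial.aeval (f (algebraMap k[X] R X)) : Rx p →ₐ[ZMod p] Fb p) :
          Rx p →+* Fb p) := by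
      apply Polynomial.ringHom_ext'
      · exact RingHom.ext_zmod _ _
      · have h2 : m.e.symm (xo p K) = algebraMap k[X] R X := by
          rw [← m.eX, RingEquiv.symm_apply_apply]
        change f (m.e.symm (xo p K)) = Polynomial.aeval (f (algebraMap k[X] R X)) X
        rw [h2, Polynomial.aeval_X]
    have h2 := congrArg (fun q : Rx p →+* Fb p => q P) h1
    exact h2.trans hP

end Pool.Agent.AB3
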