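import Pool.Agent.Lib.MP_5de024_nt.S.V.CstC

/-!
# Linear independence over high powers (C4)
-/

set_option autoImplicit false
set_option linter.unusedSectionVars false

namespace Pool.Agent.AB3

open Pool.Agent.AB Polynomial

variable {k R H : Type} [Field k] [CommRing R] [Algebra k[X] R] [Group H] [Finite H]

theorem Ind_sub_pow [Finite k] (C : Cov k R H) (e : ℕ) (a b : R) :
    (a - b) ^ Nat.card k ^ e = a ^ Nat.card k ^ e - b ^ Nat.card k ^ e := by
  have : Fintype k := Fintype.ofFinite k
  obtain ⟨p, hp⟩ := CharP.exists k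
  have := hp
  obtain ⟨n, hpp, hn⟩ := FiniteField.card k p
  have : Fact p.Prime := ⟨hpp⟩
  have hinj : Function.Injective ((algebraMap k[X] R).comp Polynomial.C) :=
    C.inj.comp Polynomial.C_injective
  have : CharP R p := charP_of_injective_ringHom hinj p
  have : ExpChar R p := ExpChar.prime hpp
  rw [Nat.card_eq_fintype_card, hn, ← pow_mul]
  exact sub_pow_expChar_pow (p := p) a b _

theorem indep_pow [Finite k] (C : Cov k R H) {r : ℕ} (u : Fin r → R)
    (hu : ∀ c : Fin r → k, ∑ i, algebraMap k[X] R (Polynomial.C (c i)) * u i = 0 → c = 0) :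
    ∃ e0 : ℕ, ∀ e, e0 ≤ e → ∀ z : Fin r → R, ∑ i, u i * z i ^ Nat.card k ^ e = 0 → z = 0 := by
  have hdom : IsDomain R := cov_domain C
  have hq0 : ∀ e : ℕ, Nat.card k ^ e ≠ 0 := fun e => pow_ne_zero _ Nat.card_pos.ne'
  induction r with
  | zero => exact ⟨0, fun e _ z _ => Subsingleton.elim _ _⟩
  | succ r ih =>
    obtain ⟨e0, he0⟩ := ih (fun i => u i.castSucc) (by
      intro c hc
      have h1 := hu (Fin.snoc c 0) (by
        rw [Fin.sum_univ_castSucc]
        simpa using hc)
      funext i
      have h2 := congrFun h1 i.castSucc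
      simpa using h2)
    by_contra hcon
    push Not at hcon
    -- relations at every level
    have hall : ∀ e : ℕ, ∃ z : Fin (r + 1) → R, ∑ i, u i * z i ^ Nat.card k ^ e = 0 ∧ z ≠ 0 := by
      intro e
      obtain ⟨e', hee, z, hz, hz0⟩ := hcon e
      refine ⟨fun i => z i ^ Nat.card k ^ (e' - e), ?_, ?_⟩
      · rw [← hz]
        refine Finset.sum_congr rfl fun i _ => ?_
        rw [← pow_mul, ← pow_add, Nat.sub_add_cancel hee]
      · intro h0
        apply hz0
        funext i
        have h1 := congrFun h0 i
        exact pow_eq_zero_iff (hq0 _) |>.mp h1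
    have hlast : ∀ e, e0 ≤ e → ∀ z : Fin (r + 1) → R, ∑ i, u i * z i ^ Nat.card k ^ e = 0 →
        z ≠ 0 → z (Fin.last r) ≠ 0 := by
      intro e he z hz hz0 hl
      apply hz0
      rw [Fin.sum_univ_castSucc, hl, zero_pow (hq0 e), mul_zero, add_zero] at hz
      have h1 := he0 e he (fun i => z i.castSucc) hz
      funext i
      refine Fin.lastCases ?_ (fun j => ?_) i
      · exact hl
      · exact congrFun h1 j
    obtain ⟨z, hz, hz0⟩ := hall e0
    have hw := hlast e0 le_rfl z hz hz0
    have hc : ∀ i : Fin r, ∃ c : k, z i.castSucc =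
        algebraMap k[X] R (Polynomial.C c) * z (Fin.last r) := by
      intro i
      refine const_of_pow C _ _ hw fun d => ?_
      obtain ⟨y, hy, hy0⟩ := hall (e0 + d)
      have hv := hlast (e0 + d) (by omega) y hy hy0
      refine ⟨y i.castSucc, y (Fin.last r), hv, ?_⟩
      have hrel : ∑ j : Fin r, u j.castSucc *
          (z j.castSucc * y (Fin.last r) ^ Nat.card k ^ d
            - z (Fin.last r) * y j.castSucc ^ Nat.card k ^ d) ^ Nat.card k ^ e0 = 0 := by
        rw [Fin.sum_univ_castSucc] at hz hy
        have h1 : ∀ j : Fin r, u j.castSucc *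
          (z j.castSucc * y (Fin.last r) ^ Nat.card k ^ d
            - z (Fin.last r) * y j.castSucc ^ Nat.card k ^ d) ^ Nat.card k ^ e0
            = (u j.castSucc * z j.castSucc ^ Nat.card k ^ e0) *
                y (Fin.last r) ^ Nat.card k ^ (e0 + d)
              - (u j.castSucc * y j.castSucc ^ Nat.card k ^ (e0 + d)) *
                z (Fin.last r) ^ Nat.card k ^ e0 := by
          intro j
          have h2 : ∀ a : R, (a ^ Nat.card k ^ d) ^ Nat.card k ^ e0
              = a ^ Nat.card k ^ (e0 + d) := fun a => by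
            rw [← pow_mul, ← pow_add, add_comm]
          rw [Ind_sub_pow C, mul_pow, mul_pow, h2, h2]
          ring
        rw [Finset.sum_congr rfl fun j _ => h1 j, Finset.sum_sub_distrib, ← Finset.sum_mul,
          ← Finset.sum_mul, eq_neg_of_add_eq_zero_left hz, eq_neg_of_add_eq_zero_left hy]
        ring
      have h3 := congrFun (he0 e0 le_rfl _ hrel) i
      simp only [Pi.zero_apply] at h3
      exact sub_eq_zero.mp h3
    choose c hc using hc
    have hfin := hu (Fin.snoc (fun i => c i ^ Nat.card k ^ e0) 1) (by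
      rw [Fin.sum_univ_castSucc]
      simp only [Fin.snoc_castSucc, Fin.snoc_last]
      rw [Fin.sum_univ_castSucc] at hz
      have h1 : z (Fin.last r) ^ Nat.card k ^ e0 *
          (∑ i : Fin r, algebraMap k[X] R (Polynomial.C (c i ^ Nat.card k ^ e0)) * u i.castSucc
            + algebraMap k[X] R (Polynomial.C 1) * u (Fin.last r)) = 0 := by
        rw [← hz, mul_add, Finset.mul_sum]
        congr 1
        · refine Finset.sum_congr rfl fun i _ => ?_
          rw [hc i, mul_pow, map_pow, map_pow]
          ring
        · rw [map_one, map_one]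
          ring
      exact (mul_eq_zero.mp h1).resolve_left (pow_ne_zero _ hw))
    have h4 := congrFun hfin (Fin.last r)
    simp at h4

end Pool.Agent.AB3
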