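import Mathlib

/-!
# Jordan's theorem (W5)
-/

set_option autoImplicit false
set_option linter.unusedSectionVars false

namespace Pool.Agent.AB3

/-- a subgroup of a finite group which meets every conjugacy class is everything -/
theorem jordan {G : Type} [Group G] [Finite G] (Γ : Subgroup G)
    (h : ∀ g : G, ∃ c : G, c⁻¹ * g * c ∈ Γ) : Γ = ⊤ := by
  classical
  have : Fintype G := Fintype.ofFinite G
  have : Finite (G ⧸ Γ) := inferInstance
  have : Fintype (G ⧸ Γ) := Fintype.ofFinite _
  -- the number of fixed points of each element is positive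
  have hfix : ∀ g : G, 0 < Fintype.card (MulAction.fixedBy (G ⧸ Γ) g) := by
    intro g
    obtain ⟨c, hc⟩ := h g
    rw [Fintype.card_pos_iff]
    refine ⟨⟨(c : G ⧸ Γ), ?_⟩⟩
    rw [MulAction.mem_fixedBy, MulAction.Quotient.smul_coe, smul_eq_mul]
    rw [QuotientGroup.eq]
    have h1 := Γ.inv_mem hc
    simp only [mul_inv_rev, inv_inv] at h1
    rw [mul_inv_rev, mul_assoc]
    exact h1
  have hone : Fintype.card (MulAction.fixedBy (G ⧸ Γ) (1 : G)) = Fintype.card (G ⧸ Γ) := by
    refine Fintype.card_congr (Equiv.subtypeUnivEquiv fun x => ?_)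
    rw [MulAction.mem_fixedBy, one_smul]
  have hsum := MulAction.sum_card_fixedBy_eq_card_orbits_mul_card_group G (G ⧸ Γ)
  have horb : Fintype.card (Quotient (MulAction.orbitRel G (G ⧸ Γ))) = 1 := by
    rw [Fintype.card_eq_one_iff_nonempty_unique]
    have hp : MulAction.IsPretransitive G (G ⧸ Γ) := inferInstance
    have hs : Subsingleton (Quotient (MulAction.orbitRel G (G ⧸ Γ))) :=
      (MulAction.pretransitive_iff_subsingleton_quotient G (G ⧸ Γ)).1 hp
    exact ⟨⟨Inhabited.mk (Quotient.mk _ ((1 : G) : G ⧸ Γ)), fun a => Subsingleton.elim _ _⟩⟩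
  rw [horb, one_mul] at hsum
  -- so the index is one
  have h1 : Fintype.card G - 1 ≤ ∑ x ∈ Finset.univ.erase (1 : G),
      Fintype.card (MulAction.fixedBy (G ⧸ Γ) x) := by
    calc Fintype.card G - 1 = ∑ x ∈ Finset.univ.erase (1 : G), 1 := by
          rw [Finset.sum_const, smul_eq_mul, mul_one, Finset.card_erase_of_mem
            (Finset.mem_univ _), Finset.card_univ]
      _ ≤ _ := Finset.sum_le_sum fun x _ => hfix x
  have h2 : Fintype.card (G ⧸ Γ) + ∑ x ∈ Finset.univ.erase (1 : G),
      Fintype.card (MulAction.fixedBy (G ⧸ Γ) x) = Fintype.card G := by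
    rw [← hone, Finset.add_sum_erase Finset.univ
      (fun x : G => Fintype.card (MulAction.fixedBy (G ⧸ Γ) x)) (Finset.mem_univ (1 : G))]
    exact hsum
  have hpos : 0 < Fintype.card G := Fintype.card_pos
  have hcard : Fintype.card (G ⧸ Γ) = 1 := by
    have : 0 < Fintype.card (G ⧸ Γ) := Fintype.card_pos
    omega
  rw [← Subgroup.index_eq_one, Subgroup.index, Nat.card_eq_fintype_card, hcard]

end Pool.Agent.AB3
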