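import Pool.Agent.Lib.MP_5de024_nt.S.GeoA
import Pool.Agent.Lib.MP_5de024_nt.S.V.VDef

/-!
# The number of zeros (C2)
-/

set_option autoImplicit false
set_option linter.unusedSectionVars false

namespace Pool.Agent.AB3

open Pool.Agent.AB Polynomial

variable {k R H : Type} [Field k] [CommRing R] [Algebra k[X] R] [Group H] [Finite H]

theorem zer_norm (C : Cov k R H) {N : ℕ} (b : Module.Basis (Fin N) k[X] R) (D : ℕ)
    (hD : GoodD C b D) (m : ℕ) (z : R) (hz : Lm b m z) :
    (Algebra.norm k[X] z).natDegree ≤ N * (m + D) := by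
  classical
  rw [Algebra.norm_eq_matrix_det b, Matrix.det_apply]
  refine Polynomial.natDegree_sum_le_of_forall_le _ _ fun σ _ => ?_
  have h1 : ∀ i, (Algebra.leftMulMatrix b z (σ i) i).natDegree ≤ m + D := by
    intro i
    rw [Algebra.leftMulMatrix_eq_repr_mul]
    have hb : Lm b 0 (b i) := by
      intro j
      rw [Module.Basis.repr_self, Finsupp.single_apply]
      by_cases hij : i = j
      · rw [if_pos hij, Polynomial.natDegree_one]
      · rw [if_neg hij, Polynomial.natDegree_zero]
    have h2 := hD.1 m 0 z (b i) hz hb (σ i)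
    simpa using h2
  have h3 : (∏ i, Algebra.leftMulMatrix b z (σ i) i).natDegree ≤ N * (m + D) := by
    refine (Polynomial.natDegree_prod_le _ _).trans ?_
    refine (Finset.sum_le_sum fun i _ => h1 i).trans ?_
    rw [Finset.sum_const, Finset.card_univ, Fintype.card_fin, smul_eq_mul]
  rcases Int.units_eq_one_or (Equiv.Perm.sign σ) with hs | hs
  · rw [hs, one_smul]
    exact h3
  · rw [hs, Units.neg_smul, one_smul, Polynomial.natDegree_neg]
    exact h3

theorem zer_fin [Algebra k R] [IsScalarTower k k[X] R] [IsDomain R] {N : ℕ}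
    (b : Module.Basis (Fin N) k[X] R) (z : R) (h0 : z ≠ 0) :
    Module.Finite k (R ⧸ Ideal.span ({z} : Set R)) := by
  have h := Ideal.span_singleton_eq_bot.not.2 h0
  exact Module.Finite.equiv (Ideal.quotientEquivDirectSum k b h).symm

theorem zeros_le (C : Cov k R H) {N : ℕ} (b : Module.Basis (Fin N) k[X] R) (D : ℕ)
    (hD : GoodD C b D) (Om : Type) [Field Om] [Algebra k Om] (m : ℕ) (z : R) (hz : Lm b m z)
    (h0 : z ≠ 0) : ({f ∈ Pts k R Om | f z = 0}).Finite ∧
      ({f ∈ Pts k R Om | f z = 0}).ncard ≤ N * (m + D) := by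
  classical
  have hdom := cov_domain C
  let algk : Algebra k R := ((algebraMap k[X] R).comp Polynomial.C).toAlgebra
  have htow : IsScalarTower k k[X] R := IsScalarTower.of_algebraMap_eq (fun c => rfl)
  have hfin : Module.Finite k (R ⧸ Ideal.span ({z} : Set R)) := zer_fin b z h0
  have hrk := finrank_quotient_span_eq_natDegree_norm (F := k) b h0
  have hcard := card_algHom_le_finrank k (R ⧸ Ideal.span ({z} : Set R)) Om
  have hfA : Finite ((R ⧸ Ideal.span ({z} : Set R)) →ₐ[k] Om) := inferInstance
  let g : ({f ∈ Pts k R Om | f z = 0} : Set (R →+* Om)) →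
      ((R ⧸ Ideal.span ({z} : Set R)) →ₐ[k] Om) := fun f =>
    Ideal.Quotient.liftₐ (Ideal.span ({z} : Set R))
      ({ (f : R →+* Om) with commutes' := fun c => f.2.1 c } : R →ₐ[k] Om)
      (fun a ha => by
        obtain ⟨c, hc⟩ := Ideal.mem_span_singleton'.1 ha
        change (f : R →+* Om) a = 0
        rw [← hc, map_mul, f.2.2, mul_zero])
  have hg : Function.Injective g := by
    intro f f' hff
    apply Subtype.ext
    apply RingHom.ext
    intro r
    have h1 := congrArg (fun F => F (Ideal.Quotient.mk (Ideal.span ({z} : Set R)) r)) hff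
    exact h1
  have hS : Finite ({f ∈ Pts k R Om | f z = 0} : Set (R →+* Om)) := Finite.of_injective g hg
  refine ⟨Set.toFinite _, ?_⟩
  calc ({f ∈ Pts k R Om | f z = 0} : Set (R →+* Om)).ncard
      = Nat.card ({f ∈ Pts k R Om | f z = 0} : Set (R →+* Om)) := (Nat.card_coe_set_eq _).symm
    _ ≤ Nat.card ((R ⧸ Ideal.span ({z} : Set R)) →ₐ[k] Om) := Nat.card_le_card_of_injective g hg
    _ ≤ Module.finrank k (R ⧸ Ideal.span ({z} : Set R)) := hcard
    _ = (Algebra.norm k[X] z).natDegree := hrk
    _ ≤ N * (m + D) := zer_norm C b D hD m z hz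

end Pool.Agent.AB3
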