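import Pool.Agent.Lib.MP_5de024_nt.S.V.Deg
import Pool.Agent.Lib.MP_5de024_nt.S.V.Zer
import Pool.Agent.Lib.MP_5de024_nt.S.V.Ind

/-!
# The auxiliary function of Stepanov and Bombieri (C5)
-/

set_option autoImplicit false
set_option linter.unusedSectionVars false

namespace Pool.Agent.AB3

open Pool.Agent.AB Polynomial

variable {k R H : Type} [Field k] [CommRing R] [Algebra k[X] R] [Group H] [Finite H]

theorem Ker_zero {N : ℕ} (b : Module.Basis (Fin N) k[X] R) (m : ℕ) : Lm b m (0 : R) := by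
  intro i
  rw [map_zero, Finsupp.zero_apply, natDegree_zero]
  exact Nat.zero_le _

theorem Ker_sum {N : ℕ} (b : Module.Basis (Fin N) k[X] R) (m : ℕ) {ι : Type} (s : Finset ι)
    (f : ι → R) (hf : ∀ i ∈ s, Lm b m (f i)) : Lm b m (∑ i ∈ s, f i) := by
  classical
  induction s using Finset.induction_on with
  | empty => rw [Finset.sum_empty]; exact Ker_zero b m
  | insert a s ha ih =>
    rw [Finset.sum_insert ha]
    exact lm_add b m _ _ (hf a (Finset.mem_insert_self a s))
      (ih fun i hi => hf i (Finset.mem_insert_of_mem hi))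

theorem Ker_mono {N : ℕ} (b : Module.Basis (Fin N) k[X] R) {m m' : ℕ} (h : m ≤ m') {z : R}
    (hz : Lm b m z) : Lm b m' z := fun i => (hz i).trans h

theorem Ker_pow_sum [Finite k] (C : Cov k R H) (e : ℕ) {ι : Type} (s : Finset ι) (f : ι → R) :
    (∑ i ∈ s, f i) ^ Nat.card k ^ e = ∑ i ∈ s, f i ^ Nat.card k ^ e := by
  have : Fintype k := Fintype.ofFinite k
  obtain ⟨p, hp⟩ := CharP.exists k
  have := hp
  obtain ⟨n, hpp, hn⟩ := FiniteField.card k p
  have : Fact p.Prime := ⟨hpp⟩
  have hinj : Function.Injective ((algebraMap k[X] R).comp Polynomial.C) :=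
    C.inj.comp Polynomial.C_injective
  have : CharP R p := charP_of_injective_ringHom hinj p
  have : ExpChar R p := ExpChar.prime hpp
  rw [Nat.card_eq_fintype_card, hn, ← pow_mul]
  exact sum_pow_char_pow p _ s f

theorem fpt_le [Finite k] (C : Cov k R H) {N : ℕ} (b : Module.Basis (Fin N) k[X] R) (D : ℕ)
    (hD : GoodD C b D) (Om : Type) [Field Om] [Algebra k Om] (l : ℕ) :
    ∃ e0 : ℕ, ∀ e, e0 ≤ e → ∀ m : ℕ,
      Nat.card k ^ e * (l + D) + m + 2 * D + 1 < N * (l + 1) * (m + 1) → ∀ h : H,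
      (Fpt C Om ((Nat.card k ^ e) ^ 2) h).ncard ≤ N * (l + Nat.card k ^ e * (m + D) + 2 * D) := by
  obtain ⟨u, hul, hui, -⟩ := lm_basis b l
  obtain ⟨e0, he0⟩ := indep_pow C u hui
  refine ⟨e0, fun e he m hlt h => ?_⟩
  have hQ : 0 < Nat.card k ^ e := pow_pos Nat.card_pos e
  have hN : 0 < N := by
    rcases Nat.eq_zero_or_pos N with h0 | h0
    · rw [h0, zero_mul, zero_mul] at hlt
      exact absurd hlt (Nat.not_lt_zero _)
    · exact h0
  obtain ⟨w, hw0, hwl, hdw⟩ := lm_ker (r := N * (l + 1)) b m (Nat.card k ^ e * (l + D) + m + 2 * D)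
    (fun w => ∑ i, u i ^ Nat.card k ^ e * C.act h (w i))
    (by
      intro v w
      rw [← Finset.sum_add_distrib]
      refine Finset.sum_congr rfl fun i _ => ?_
      rw [Pi.add_apply, map_add, mul_add])
    (by
      intro c w
      rw [Finset.mul_sum]
      refine Finset.sum_congr rfl fun i _ => ?_
      rw [map_mul, AlgEquiv.commutes]
      ring)
    (by
      intro w hw
      refine Ker_sum b _ _ _ fun i _ => ?_
      have h1 := hD.2.2 l (u i) _ hQ (hul i)
      have h2 := hD.2.1 m (w i) h (hw i)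
      have h3 := hD.1 _ _ _ _ h1 h2
      exact Ker_mono b (by omega) h3)
    hN hlt
  set z : R := ∑ i, u i * w i ^ Nat.card k ^ e with hz
  have hz0 : z ≠ 0 := fun h0 => hw0 (he0 e he w h0)
  have hzl : Lm b (l + Nat.card k ^ e * (m + D) + D) z := by
    refine Ker_sum b _ _ _ fun i _ => ?_
    exact hD.1 _ _ _ _ (hul i) (hD.2.2 m (w i) _ hQ (hwl i))
  obtain ⟨hfin, hcard⟩ := zeros_le C b D hD Om _ z hzl hz0
  refine (Set.ncard_le_ncard ?_ hfin).trans (hcard.trans (le_of_eq ?_))
  · intro f hf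
    refine ⟨hf.1, ?_⟩
    have h1 : f z ^ Nat.card k ^ e = 0 := by
      have h2 : z ^ Nat.card k ^ e =
          ∑ i, u i ^ Nat.card k ^ e * w i ^ (Nat.card k ^ e) ^ 2 := by
        rw [hz, Ker_pow_sum C]
        refine Finset.sum_congr rfl fun i _ => ?_
        rw [mul_pow, ← pow_mul, ← pow_two]
      rw [← map_pow, h2, map_sum, ← map_zero f, ← hdw, map_sum]
      refine Finset.sum_congr rfl fun i _ => ?_
      rw [map_mul, map_mul, map_pow f (w i), hf.2]
    exact pow_eq_zero_iff hQ.ne' |>.mp h1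
  · ring

end Pool.Agent.AB3
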