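import Pool.Agent.Lib.MP_5de024_nt.S.V.VDef

/-!
# Extension of scalars to a finite field (part N)
-/

set_option autoImplicit false
set_option linter.unusedSectionVars false

namespace Pool.Agent.AB3

open Pool.Agent.AB Polynomial TensorProduct

/-- the ring `A ⊗ F` -/
abbrev Tf (p : ℕ) (A F : Type) [CommRing A] [Algebra (ZMod p) A] [CommRing F]
    [Algebra (ZMod p) F] : Type := A ⊗[ZMod p] F

section

variable (p : ℕ) [Fact p.Prime] (A B F : Type) [CommRing A] [Algebra (ZMod p) A] [CommRing B]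
  [Algebra (ZMod p) B] [CommRing F] [Algebra (ZMod p) F]

/-- the Frobenius of `A` -/
noncomputable def zfr : A →ₐ[ZMod p] A := FiniteField.frobeniusAlgHom (ZMod p) A

theorem zfr_apply (x : A) : zfr p A x = x ^ p := by
  unfold zfr
  rw [FiniteField.coe_frobeniusAlgHom, ZMod.card]

/-- the Frobenius of the first factor of `A ⊗ F` -/
noncomputable def phi : Tf p A F →+* Tf p A F :=
  (Algebra.TensorProduct.map (zfr p A) (AlgHom.id (ZMod p) F)).toRingHom

theorem phi_tmul (x : A) (c : F) : phi p A F (x ⊗ₜ c) = (x ^ p) ⊗ₜ c := by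
  change Algebra.TensorProduct.map (zfr p A) (AlgHom.id (ZMod p) F) (x ⊗ₜ c) = _
  rw [Algebra.TensorProduct.map_tmul, zfr_apply]
  rfl

variable {A B}

/-- functoriality in the first factor -/
noncomputable def tmap (f : A →ₐ[ZMod p] B) : Tf p A F →+* Tf p B F :=
  (Algebra.TensorProduct.map f (AlgHom.id (ZMod p) F)).toRingHom

theorem tmap_tmul (f : A →ₐ[ZMod p] B) (x : A) (c : F) :
    tmap p F f (x ⊗ₜ c) = f x ⊗ₜ c := by
  change Algebra.TensorProduct.map f (AlgHom.id (ZMod p) F) (x ⊗ₜ c) = _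
  rw [Algebra.TensorProduct.map_tmul]
  rfl

variable (A)

/-- the inclusion of `F` -/
noncomputable def inF : F →+* Tf p A F :=
  (Algebra.TensorProduct.includeRight : F →ₐ[ZMod p] A ⊗[ZMod p] F).toRingHom

end

/-- the matrices of determinant `1` -/
abbrev Sl (n : ℕ) (A : Type) [CommRing A] : Type := Matrix.SpecialLinearGroup (Fin n) A

end Pool.Agent.AB3
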