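import Pool.Agent.Lib.MP_5de024_nt.S.FinX.Pgen
import Pool.Agent.Lib.MP_5de024_nt.S.V.NDef

/-!
# Generation of `SL_n` (N3)
-/

set_option autoImplicit false
set_option linter.unusedSectionVars false

namespace Pool.Agent.AB3

open Pool.Agent.AB Polynomial TensorProduct

/-- images of transvections -/
theorem NSl_map_tv {n : ℕ} {A B : Type} [CommRing A] [CommRing B] (f : A →+* B) {i j : Fin n}
    (hij : i ≠ j) (c : A) : Matrix.SpecialLinearGroup.map f
      (Matrix.SpecialLinearGroup.transvection hij c) =
      Matrix.SpecialLinearGroup.transvection hij (f c) := by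
  ext a b
  rw [Matrix.SpecialLinearGroup.map_apply_coe, RingHom.mapMatrix_apply, Matrix.map_apply,
    Matrix.SpecialLinearGroup.transvection_coe, Matrix.SpecialLinearGroup.transvection_coe,
    Matrix.add_apply, Matrix.add_apply, map_add, Matrix.one_apply, Matrix.one_apply,
    Matrix.single_apply, Matrix.single_apply, apply_ite f, apply_ite f, map_one, map_zero]

/-- the Weyl element -/
theorem NSl_w {n : ℕ} {F : Type} [Field F] {i j : Fin n} (hij : i ≠ j) (c : F) (hc : c ≠ 0) :
    (1 + Matrix.single i j c) * (1 + Matrix.single j i (-c⁻¹)) * (1 + Matrix.single i j c) =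
      (1 - Matrix.single i i 1 - Matrix.single j j 1) + Matrix.single i j c -
        Matrix.single j i c⁻¹ := by
  simp only [mul_add, add_mul, one_mul, mul_one, Matrix.single_mul_single_same,
    Matrix.single_mul_single_of_ne _ _ _ _ hij.symm]
  have h1 : c * -c⁻¹ = -1 := by rw [mul_neg, mul_inv_cancel₀ hc]
  have h2 : -c⁻¹ * c = -1 := by rw [neg_mul, inv_mul_cancel₀ hc]
  rw [h1, h2]
  simp only [neg_one_mul, ← Matrix.single_neg]
  abel

/-- the product of two Weyl elements -/
theorem NSl_ww {n : ℕ} {F : Type} [Field F] {i j : Fin n} (hij : i ≠ j) (c : F) :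
    ((1 - Matrix.single i i (1 : F) - Matrix.single j j 1) + Matrix.single i j c -
        Matrix.single j i c⁻¹) * ((1 - Matrix.single i i 1 - Matrix.single j j 1) +
        Matrix.single i j (-1) - Matrix.single j i (-1)) =
      Matrix.diagonal (fun k ↦ if k = i then c else if k = j then c⁻¹ else 1) := by
  simp only [mul_add, add_mul, sub_mul, mul_sub, one_mul, mul_one,
    Matrix.single_mul_single_same, Matrix.single_mul_single_of_ne _ _ _ _ hij.symm,
    Matrix.single_mul_single_of_ne _ _ _ _ hij]
  ext a b
  by_cases hab : a = b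
  · subst hab
    rw [Matrix.diagonal_apply_eq]
    by_cases hai : a = i
    · subst hai
      simp [hij.symm]
    · by_cases haj : a = j
      · subst haj
        simp [hij, hij.symm]
      · simp [hai, haj, Ne.symm hai, Ne.symm haj]
  · rw [Matrix.diagonal_apply_ne _ hab]
    have h1 : ¬ (i = a ∧ i = b) := fun h => hab (h.1.symm.trans h.2)
    have h2 : ¬ (j = a ∧ j = b) := fun h => hab (h.1.symm.trans h.2)
    simp only [Matrix.add_apply, Matrix.sub_apply, Matrix.single_apply, Matrix.one_apply, h1, h2,
      hab, if_false, Matrix.zero_apply]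
    split_ifs <;> ring

/-- a diagonal element is a product of transvections -/
theorem NSl_diag {n : ℕ} {F : Type} [Field F] {i j : Fin n} (hij : i ≠ j) (c : F) (hc : c ≠ 0) :
    Matrix.SpecialLinearGroup.diag2n hij c hc =
      (Matrix.SpecialLinearGroup.transvection hij c *
      Matrix.SpecialLinearGroup.transvection hij.symm (-c⁻¹) *
      Matrix.SpecialLinearGroup.transvection hij c) *
      (Matrix.SpecialLinearGroup.transvection hij (-1) *
      Matrix.SpecialLinearGroup.transvection hij.symm (-(-1)⁻¹) *
      Matrix.SpecialLinearGroup.transvection hij (-1)) := by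
  apply Subtype.ext
  rw [Matrix.SpecialLinearGroup.diag2n_coe]
  simp only [Matrix.SpecialLinearGroup.coe_mul, Matrix.SpecialLinearGroup.transvection_coe]
  rw [NSl_w hij c hc, NSl_w hij (-1) (neg_ne_zero.2 one_ne_zero), ← NSl_ww hij c]
  have h1 : ((-1 : F))⁻¹ = -1 := by rw [inv_neg, inv_one]
  rw [h1]

/-- `SL_n` of a field is generated by transvections -/
theorem sl_gen (n : ℕ) (F : Type) [Field F] (P : Sl n F → Prop) (h1 : P 1)
    (ht : ∀ (i j : Fin n) (hij : i ≠ j) (c : F),
      P (Matrix.SpecialLinearGroup.transvection hij c))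
    (hm : ∀ A B, P A → P B → P (A * B)) (M : Sl n F) : P M := by
  rcases subsingleton_or_nontrivial (Fin n) with h | h
  · have : M = 1 := by
      apply Subtype.ext
      have hdet := M.2
      ext a b
      have hab : a = b := Subsingleton.elim _ _
      subst hab
      rw [Matrix.det_eq_elem_of_subsingleton _ a] at hdet
      rw [hdet, Matrix.SpecialLinearGroup.coe_one, Matrix.one_apply_eq]
    rw [this]
    exact h1
  · refine Matrix.SpecialLinearGroup.diagonal_transvection_induction' P M
      (fun i j hij c hc => ?_) ht hm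
    rw [NSl_diag hij c hc]
    exact hm _ _ (hm _ _ (hm _ _ (ht _ _ _ _) (ht _ _ _ _)) (ht _ _ _ _))
      (hm _ _ (hm _ _ (ht _ _ _ _) (ht _ _ _ _)) (ht _ _ _ _))

/-- lifting one component -/
theorem NSl_lift1 (n : ℕ) (A : Type) [CommRing A] (J : Type) (k : J → Type)
    [∀ j, Field (k j)] (f : A →+* ∀ j, k j) (hf : Function.Surjective f) (j0 : J)
    (B : Sl n (k j0)) :
    ∃ M : Sl n A, Matrix.SpecialLinearGroup.map ((Pi.evalRingHom k j0).comp f) M = B ∧
      ∀ j, j ≠ j0 → Matrix.SpecialLinearGroup.map ((Pi.evalRingHom k j).comp f) M = 1 := by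
  classical
  refine sl_gen n (k j0) (fun B => ∃ M : Sl n A,
    Matrix.SpecialLinearGroup.map ((Pi.evalRingHom k j0).comp f) M = B ∧
      ∀ j, j ≠ j0 → Matrix.SpecialLinearGroup.map ((Pi.evalRingHom k j).comp f) M = 1)
    ⟨1, map_one _, fun j _ => map_one _⟩ ?_ ?_ B
  · intro a b hab c
    obtain ⟨c', hc'⟩ := hf (Pi.single j0 c)
    refine ⟨Matrix.SpecialLinearGroup.transvection hab c', ?_, fun j hj => ?_⟩
    · rw [NSl_map_tv, RingHom.comp_apply, hc', Pi.evalRingHom_apply, Pi.single_eq_same]
    · rw [NSl_map_tv, RingHom.comp_apply, hc', Pi.evalRingHom_apply, Pi.single_eq_of_ne hj,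
        Matrix.SpecialLinearGroup.transvection_coeff_zero]
  · rintro B1 B2 ⟨M1, h1, h1'⟩ ⟨M2, h2, h2'⟩
    exact ⟨M1 * M2, by rw [map_mul, h1, h2], fun j hj => by
      rw [map_mul, h1' j hj, h2' j hj, mul_one]⟩

/-- `SL_n` is surjective for surjections onto finite products of fields -/
theorem sl_lift (n : ℕ) (A : Type) [CommRing A] (J : Type) [Finite J] (k : J → Type)
    [∀ j, Field (k j)] (f : A →+* ∀ j, k j) (hf : Function.Surjective f) (m : ∀ j, Sl n (k j)) :
    ∃ M : Sl n A, ∀ j, Matrix.SpecialLinearGroup.map ((Pi.evalRingHom k j).comp f) M = m j := by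
  classical
  have : Fintype J := Fintype.ofFinite J
  have key : ∀ s : Finset J, ∀ m : ∀ j, Sl n (k j), (∀ j, j ∉ s → m j = 1) →
      ∃ M : Sl n A, ∀ j,
        Matrix.SpecialLinearGroup.map ((Pi.evalRingHom k j).comp f) M = m j := by
    intro s
    induction s using Finset.induction_on with
    | empty =>
      intro m hm
      exact ⟨1, fun j => by rw [map_one, hm j (Finset.notMem_empty j)]⟩
    | insert j0 s hj0 ih =>
      intro m hm
      obtain ⟨M1, h1, h1'⟩ := NSl_lift1 n A J k f hf j0 (m j0)
      obtain ⟨M2, h2⟩ := ih (Function.update m j0 1) (fun j hj => by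
        by_cases hjj : j = j0
        · subst hjj
          rw [Function.update_self]
        · rw [Function.update_of_ne hjj]
          exact hm j (by
            rw [Finset.mem_insert]
            rintro (h | h)
            · exact hjj h
            · exact hj h))
      refine ⟨M1 * M2, fun j => ?_⟩
      rw [map_mul, h2 j]
      by_cases hjj : j = j0
      · subst hjj
        rw [h1, Function.update_self, mul_one]
      · rw [h1' j hjj, Function.update_of_ne hjj, one_mul]
  exact key Finset.univ m (fun j hj => absurd (Finset.mem_univ j) hj)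

/-- powers of transvections -/
theorem NSl_tv_pow {n : ℕ} {F : Type} [Field F] {i j : Fin n} (hij : i ≠ j) (c : F) (m : ℕ) :
    Matrix.SpecialLinearGroup.transvection hij c ^ m =
      Matrix.SpecialLinearGroup.transvection hij ((m : F) * c) := by
  induction m with
  | zero => rw [pow_zero, Nat.cast_zero, zero_mul,
      Matrix.SpecialLinearGroup.transvection_coeff_zero]
  | succ m ih => rw [pow_succ, ih, ← Matrix.SpecialLinearGroup.transvection_add, Nat.cast_succ,
      add_one_mul]

/-- `SL_n(F)` is generated by elements of order `p` -/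
theorem pg_sl (p : ℕ) [Fact p.Prime] (n : ℕ) (F : Type) [Field F] [Finite F] [CharP F p] :
    pg p (Sl n F) = ⊤ := by
  rw [eq_top_iff]
  intro M _
  refine sl_gen n F (fun M => M ∈ pg p (Sl n F)) (Subgroup.one_mem _) (fun i j hij c => ?_)
    (fun A B hA hB => Subgroup.mul_mem _ hA hB) M
  refine mem_pg p (Sl n F) (n := 1) ?_
  rw [pow_one, NSl_tv_pow, CharP.cast_eq_zero F p, zero_mul,
    Matrix.SpecialLinearGroup.transvection_coeff_zero]

end Pool.Agent.AB3
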