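import Pool.Agent.Lib.MP_5de024_nt.S.V.NPhi
import Pool.Agent.Lib.MP_5de024_nt.S.V.NSl
import Pool.Agent.Lib.MP_5de024_nt.S.V.GenP

/-!
# The choice of the matrix (N3)
-/

set_option autoImplicit false
set_option linter.unusedSectionVars false

namespace Pool.Agent.AB3

open Pool.Agent.AB Polynomial TensorProduct

/-- the tensor product of two finite fields over `F_p` is reduced -/
theorem NCrt_red (p : ℕ) [Fact p.Prime] (k F : Type) [Field k] [Finite k] [Algebra (ZMod p) k]
    [Field F] [Finite F] [Algebra (ZMod p) F] : IsReduced (Tf p k F) := by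
  have hp : 1 < p := (Fact.out : p.Prime).one_lt
  have hbij : ∀ (L : Type) [Field L] [Finite L] [Algebra (ZMod p) L],
      Function.Bijective (zfr p L) := by
    intro L _ _ _
    exact Finite.injective_iff_bijective.1 (zfr p L).toRingHom.injective
  let e1 : k ≃ₐ[ZMod p] k := AlgEquiv.ofBijective (zfr p k) (hbij k)
  let e2 : F ≃ₐ[ZMod p] F := AlgEquiv.ofBijective (zfr p F) (hbij F)
  have hmap : ∀ w : Tf p k F, w ^ p = Algebra.TensorProduct.congr e1 e2 w := by
    intro w
    rw [← zfr_apply]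
    induction w using TensorProduct.induction_on with
    | zero => rw [map_zero, map_zero]
    | tmul x c =>
      rw [zfr_apply, Algebra.TensorProduct.tmul_pow, Algebra.TensorProduct.congr_apply,
        Algebra.TensorProduct.map_tmul]
      show (x ^ p) ⊗ₜ[ZMod p] (c ^ p) = (zfr p k x) ⊗ₜ[ZMod p] (zfr p F c)
      rw [zfr_apply, zfr_apply]
    | add x y hx hy => rw [map_add, map_add, hx, hy]
  rw [isReduced_iff_pow_one_lt p hp]
  intro z hz
  rw [hmap] at hz
  exact (map_eq_zero_iff _ (AlgEquiv.injective _)).1 hz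

/-- the number of elements of the field with `p ^ s` elements -/
theorem NCrt_card (p : ℕ) [Fact p.Prime] (s : ℕ) (hs : 0 < s) :
    Nat.card (GenP_K p s) = p ^ s := by
  classical
  have hp : 1 < p := (Fact.out : p.Prime).one_lt
  set f := (X ^ p ^ s - X : (ZMod p)[X]) with hf
  have hne : f ≠ 0 := FiniteField.X_pow_card_pow_sub_X_ne_zero _ hs.ne' hp
  have key : Fintype.card (f.rootSet (Fb p)) = f.natDegree :=
    card_rootSet_eq_natDegree (galois_poly_separable p _ (dvd_pow (dvd_refl p) hs.ne'))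
      (IsAlgClosed.splits _)
  rw [hf, FiniteField.X_pow_card_pow_sub_X_natDegree_eq _ hs.ne' hp, ← hf] at key
  rw [← key, ← Nat.card_eq_fintype_card]
  refine Nat.card_congr (Equiv.subtypeEquivRight ?_)
  intro b
  rw [mem_rootSet, hf]
  constructor
  · intro hb
    refine ⟨hne, ?_⟩
    rw [map_sub, map_pow, aeval_X, (GenP_mem p s b).1 hb, sub_self]
  · rintro ⟨-, hb⟩
    rw [map_sub, map_pow, aeval_X, sub_eq_zero] at hb
    exact (GenP_mem p s b).2 hb

/-- elements fixed by the power of `phi` are defined over the finite field -/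
theorem NCrt_desc (p : ℕ) [Fact p.Prime] (F : Type) [Field F] [Algebra (ZMod p) F] (s : ℕ)
    (z : Tf p (Fb p) F) (h : ((phi p (Fb p) F)^[s]) z = z) :
    ∃ w : Tf p (GenP_K p s) F, tmap p F (GenP_K p s).val w = z := by
  classical
  obtain ⟨b⟩ : Nonempty (Module.Basis (Module.Basis.ofVectorSpaceIndex (ZMod p) F) (ZMod p) F) :=
    ⟨Module.Basis.ofVectorSpace (ZMod p) F⟩
  have hrep1 : ∀ (w : Tf p (Fb p) F) (i),
      (Algebra.TensorProduct.basis (Fb p) b).repr (phi p (Fb p) F w) i =
      ((Algebra.TensorProduct.basis (Fb p) b).repr w i) ^ p := by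
    intro w i
    rw [← zfr_apply]
    induction w using TensorProduct.induction_on with
    | zero => rw [map_zero, map_zero, Finsupp.zero_apply, map_zero]
    | tmul x c =>
      rw [phi_tmul, Algebra.TensorProduct.basis_repr_tmul, Algebra.TensorProduct.basis_repr_tmul,
        Finsupp.smul_apply, Finsupp.smul_apply, Finsupp.mapRange_apply, smul_eq_mul,
        smul_eq_mul, map_mul, zfr_apply, AlgHom.commutes]
    | add x y hx hy =>
      rw [map_add, map_add, map_add, Finsupp.add_apply, Finsupp.add_apply, map_add, hx, hy]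
  have hrep : ∀ (t : ℕ) (w : Tf p (Fb p) F) (i),
      (Algebra.TensorProduct.basis (Fb p) b).repr (((phi p (Fb p) F)^[t]) w) i =
      ((Algebra.TensorProduct.basis (Fb p) b).repr w i) ^ p ^ t := by
    intro t
    induction t with
    | zero => intro w i; rw [Function.iterate_zero, id, pow_zero, pow_one]
    | succ t ih =>
      intro w i
      rw [Function.iterate_succ, Function.comp_apply, ih, hrep1, ← pow_mul, ← pow_succ']
  have hfix : ∀ i, (Algebra.TensorProduct.basis (Fb p) b).repr z i ∈ GenP_K p s := by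
    intro i
    rw [GenP_mem, ← hrep, h]
  obtain ⟨r, hr⟩ : ∃ r, (Algebra.TensorProduct.basis (Fb p) b).repr z = r := ⟨_, rfl⟩
  rw [hr] at hfix
  refine ⟨∑ i ∈ r.support, (⟨r i, hfix i⟩ : GenP_K p s) ⊗ₜ[ZMod p] b i, ?_⟩
  have h1 : z = ∑ i ∈ r.support, r i • (Algebra.TensorProduct.basis (Fb p) b) i := by
    rw [← (Algebra.TensorProduct.basis (Fb p) b).linearCombination_repr z, hr,
      Finsupp.linearCombination_apply]
    rfl
  rw [h1, map_sum]
  refine Finset.sum_congr rfl fun i _ => ?_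
  rw [tmap_tmul, Algebra.TensorProduct.basis_apply, TensorProduct.smul_tmul', smul_eq_mul,
    mul_one]
  rfl

theorem NCrt_inj (p : ℕ) [Fact p.Prime] (F : Type) [Field F] [Algebra (ZMod p) F] (s : ℕ) :
    Function.Injective (tmap p F (GenP_K p s).val) := by
  have h : Function.Injective (TensorProduct.map ((GenP_K p s).val.toLinearMap)
      (LinearMap.id : F →ₗ[ZMod p] F)) :=
    TensorProduct.map_injective_of_flat_flat _ _ (GenP_K p s).val.injective
      Function.injective_id
  exact h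

/-- the matrices -/
theorem NCrt_descM (p : ℕ) [Fact p.Prime] (F : Type) [Field F] [Algebra (ZMod p) F] (n s : ℕ)
    (m : Sl n (Tf p (Fb p) F))
    (h : (Matrix.SpecialLinearGroup.map (phi p (Fb p) F))^[s] m = m) :
    ∃ w : Sl n (Tf p (GenP_K p s) F),
      Matrix.SpecialLinearGroup.map (tmap p F (GenP_K p s).val) w = m := by
  have hit : ∀ (t : ℕ) (M : Sl n (Tf p (Fb p) F)) (i j),
      (((Matrix.SpecialLinearGroup.map (phi p (Fb p) F))^[t] M : Sl n (Tf p (Fb p) F)) :
        Matrix (Fin n) (Fin n) (Tf p (Fb p) F)) i j =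
      ((phi p (Fb p) F)^[t]) ((M : Matrix (Fin n) (Fin n) (Tf p (Fb p) F)) i j) := by
    intro t
    induction t with
    | zero => intro M i j; rfl
    | succ t ih =>
      intro M i j
      rw [Function.iterate_succ, Function.comp_apply, ih, Function.iterate_succ,
        Function.comp_apply]
      rfl
  have hent : ∀ i j, ∃ w : Tf p (GenP_K p s) F, tmap p F (GenP_K p s).val w =
      (m : Matrix (Fin n) (Fin n) (Tf p (Fb p) F)) i j := by
    intro i j
    apply NCrt_desc
    rw [← hit, h]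
  choose g hg using hent
  have hmap : (tmap p F (GenP_K p s).val).mapMatrix (Matrix.of g) =
      (m : Matrix (Fin n) (Fin n) (Tf p (Fb p) F)) := by
    ext i j
    exact hg i j
  have hdet : (Matrix.of g).det = 1 := by
    apply NCrt_inj p F s
    rw [RingHom.map_det, hmap, m.2, map_one]
  refine ⟨⟨Matrix.of g, hdet⟩, ?_⟩
  apply Subtype.ext
  exact hmap

/-- the evaluation with values in the finite field -/
noncomputable def NCrt_ev (p : ℕ) [Fact p.Prime] (s : ℕ) (α : Fb p) (h : α ^ p ^ s = α) :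
    Rx p →ₐ[ZMod p] GenP_K p s := Polynomial.aeval (⟨α, h⟩ : GenP_K p s)

theorem NCrt_ev_val (p : ℕ) [Fact p.Prime] (s : ℕ) (α : Fb p) (h : α ^ p ^ s = α) :
    (GenP_K p s).val.comp (NCrt_ev p s α h) = Polynomial.aeval α := by
  apply Polynomial.algHom_ext
  rw [AlgHom.comp_apply, NCrt_ev, aeval_X, aeval_X]
  rfl

theorem NCrt_ev_surj (p : ℕ) [Fact p.Prime] (s : ℕ) (α : Fb p) (h : α ^ p ^ s = α)
    (hgen : ∀ b : Fb p, b ^ p ^ s = b → ∃ f : Rx p, Polynomial.aeval α f = b) :
    Function.Surjective (NCrt_ev p s α h) := by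
  intro b
  obtain ⟨f, hf⟩ := hgen b b.2
  refine ⟨f, ?_⟩
  apply Subtype.ext
  have h1 := DFunLike.congr_fun (NCrt_ev_val p s α h) f
  exact h1.trans hf

/-- the kernels are different -/
theorem NCrt_ker (p : ℕ) [Fact p.Prime] (s t : ℕ) (hs : 0 < s) (ht : 0 < t) (α β : Fb p)
    (hα : α ^ p ^ s = α) (hβ : β ^ p ^ t = β)
    (hgα : ∀ b : Fb p, b ^ p ^ s = b → ∃ f : Rx p, Polynomial.aeval α f = b)
    (hgβ : ∀ b : Fb p, b ^ p ^ t = b → ∃ f : Rx p, Polynomial.aeval β f = b)
    (hk : RingHom.ker (NCrt_ev p s α hα) = RingHom.ker (NCrt_ev p t β hβ)) : s = t := by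
  have hp : 1 < p := (Fact.out : p.Prime).one_lt
  have e1 := RingHom.quotientKerEquivOfSurjective (f := (NCrt_ev p s α hα).toRingHom)
    (NCrt_ev_surj p s α hα hgα)
  have e2 := RingHom.quotientKerEquivOfSurjective (f := (NCrt_ev p t β hβ).toRingHom)
    (NCrt_ev_surj p t β hβ hgβ)
  have hk' : RingHom.ker (NCrt_ev p s α hα).toRingHom =
      RingHom.ker (NCrt_ev p t β hβ).toRingHom := hk
  have e3 := (e1.symm.trans (Ideal.quotEquivOfEq hk')).trans e2
  have h1 := Nat.card_congr e3.toEquiv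
  rw [NCrt_card p s hs, NCrt_card p t ht] at h1
  exact Nat.pow_right_injective hp h1

/-- the Chinese remainder theorem -/
theorem NCrt_crt (p : ℕ) [Fact p.Prime] (J : Type) (s : J → ℕ) [Finite J]
    (hs : Function.Injective s) (hs0 : ∀ j, 0 < s j)
    (α : J → Fb p) (hα : ∀ j, α j ^ p ^ s j = α j)
    (hgen : ∀ j, ∀ b : Fb p, b ^ p ^ s j = b → ∃ f : Rx p, Polynomial.aeval (α j) f = b)
    (x : ∀ j, GenP_K p (s j)) : ∃ f : Rx p, ∀ j, NCrt_ev p (s j) (α j) (hα j) f = x j := by
  have hmax : ∀ j, (RingHom.ker (NCrt_ev p (s j) (α j) (hα j))).IsMaximal := fun j =>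
    RingHom.ker_isMaximal_of_surjective _ (NCrt_ev_surj p (s j) (α j) (hα j) (hgen j))
  have hcop : Pairwise (Function.onFun IsCoprime
      fun j => RingHom.ker (NCrt_ev p (s j) (α j) (hα j))) := by
    intro i j hij
    rw [Function.onFun, Ideal.isCoprime_iff_sup_eq]
    refine (hmax i).coprime_of_ne (hmax j) fun h => hij (hs ?_)
    exact NCrt_ker p (s i) (s j) (hs0 i) (hs0 j) (α i) (α j) (hα i) (hα j) (hgen i) (hgen j) h
  choose y hy using fun j => NCrt_ev_surj p (s j) (α j) (hα j) (hgen j) (x j)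
  obtain ⟨f, hf⟩ := Ideal.exists_forall_sub_mem_ideal hcop y
  refine ⟨f, fun j => ?_⟩
  have h1 := hf j
  rw [RingHom.mem_ker, map_sub, sub_eq_zero, hy] at h1
  exact h1

/-- surjectivity after the extension of scalars -/
theorem NCrt_surj (p : ℕ) [Fact p.Prime] (F : Type) [Field F] [Algebra (ZMod p) F]
    (J : Type) (s : J → ℕ) [Finite J]
    (hs : Function.Injective s) (hs0 : ∀ j, 0 < s j)
    (α : J → Fb p) (hα : ∀ j, α j ^ p ^ s j = α j)
    (hgen : ∀ j, ∀ b : Fb p, b ^ p ^ s j = b → ∃ f : Rx p, Polynomial.aeval (α j) f = b) :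
    Function.Surjective (RingHom.pi fun j => tmap p F (NCrt_ev p (s j) (α j) (hα j)) :
      Tf p (Rx p) F →+* ∀ j, Tf p (GenP_K p (s j)) F) := by
  classical
  have : Fintype J := Fintype.ofFinite J
  have h1 : ∀ (j0 : J) (z : Tf p (GenP_K p (s j0)) F), ∃ w : Tf p (Rx p) F,
      tmap p F (NCrt_ev p (s j0) (α j0) (hα j0)) w = z ∧
      ∀ j, j ≠ j0 → tmap p F (NCrt_ev p (s j) (α j) (hα j)) w = 0 := by
    intro j0 z
    induction z using TensorProduct.induction_on with
    | zero => exact ⟨0, map_zero _, fun j _ => map_zero _⟩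
    | tmul x c =>
      obtain ⟨f, hf⟩ := NCrt_crt p J s hs hs0 α hα hgen (Pi.single j0 x)
      refine ⟨f ⊗ₜ c, ?_, fun j hj => ?_⟩
      · rw [tmap_tmul, hf, Pi.single_eq_same]
      · rw [tmap_tmul, hf, Pi.single_eq_of_ne hj, TensorProduct.zero_tmul]
    | add x y hx hy =>
      obtain ⟨w1, h1, h2⟩ := hx
      obtain ⟨w2, h3, h4⟩ := hy
      exact ⟨w1 + w2, by rw [map_add, h1, h3], fun j hj => by
        rw [map_add, h2 j hj, h4 j hj, add_zero]⟩
  intro z
  choose w hw1 hw2 using fun j => h1 j (z j)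
  refine ⟨∑ j, w j, ?_⟩
  funext j
  rw [map_sum, Finset.sum_apply, Finset.sum_eq_single j]
  · exact hw1 j
  · intro i _ hi
    exact hw2 i j (Ne.symm hi)
  · intro h
    exact absurd (Finset.mem_univ j) h

/-- matrices over a finite reduced ring lift -/
theorem NCrt_lift (n : ℕ) (A D : Type) [CommRing A] [CommRing D] [Finite D] [IsReduced D]
    (g : A →+* D) (hg : Function.Surjective g) (m : Sl n D) :
    ∃ M : Sl n A, Matrix.SpecialLinearGroup.map g M = m := by
  classical
  have hA : IsArtinianRing D := inferInstance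
  have hfin : Finite (MaximalSpectrum D) := inferInstance
  let k : MaximalSpectrum D → Type := fun I => D ⧸ I.asIdeal
  let _ : ∀ I, Field (k I) := fun I => Ideal.Quotient.field I.asIdeal
  let e : D →+* ∀ I, k I := (IsArtinianRing.equivPi D).toRingEquiv.toRingHom
  have he : Function.Bijective e := (IsArtinianRing.equivPi D).bijective
  obtain ⟨M, hM⟩ := sl_lift n A (MaximalSpectrum D) k (e.comp g) (he.2.comp hg)
    (fun I => Matrix.SpecialLinearGroup.map ((Pi.evalRingHom k I).comp e) m)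
  refine ⟨M, ?_⟩
  apply Subtype.ext
  ext i j
  apply he.1
  funext I
  have h1 := congrArg (fun N : Sl n (k I) => (N : Matrix (Fin n) (Fin n) (k I)) i j) (hM I)
  exact h1

theorem choose_M (p : ℕ) [Fact p.Prime] (F : Type) [Field F] [Finite F] [Algebra (ZMod p) F]
    (n : ℕ) (J : Type) [Finite J] (s : J → ℕ) (hs : Function.Injective s) (hs0 : ∀ j, 0 < s j)
    (α : J → Fb p) (hα : ∀ j, α j ^ p ^ s j = α j)
    (hgen : ∀ j, ∀ b : Fb p, b ^ p ^ s j = b → ∃ f : Rx p, Polynomial.aeval (α j) f = b)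
    (m : J → Sl n (Tf p (Fb p) F))
    (hm : ∀ j, (Matrix.SpecialLinearGroup.map (phi p (Fb p) F))^[s j] (m j) = m j) :
    ∃ M : Sl n (Tf p (Rx p) F), ∀ j,
      Matrix.SpecialLinearGroup.map (tmap p F (Polynomial.aeval (α j))) M = m j := by
  classical
  have hK : ∀ j, Finite (GenP_K p (s j)) := fun j => GenP_fin p (s j) (hs0 j)
  have hfin : ∀ j, Finite (Tf p (GenP_K p (s j)) F) := fun j => by
    have h1 : Module.Finite (ZMod p) (GenP_K p (s j)) := Module.Finite.of_finite
    have h2 : Module.Finite (ZMod p) F := Module.Finite.of_finite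
    exact Module.finite_of_finite (ZMod p)
  have hred : ∀ j, IsReduced (Tf p (GenP_K p (s j)) F) := fun j => NCrt_red p _ F
  choose w hw using fun j => NCrt_descM p F n (s j) (m j) (hm j)
  -- the matrix over the product
  let W : Matrix (Fin n) (Fin n) (∀ j, Tf p (GenP_K p (s j)) F) := fun a b j =>
    (w j : Matrix (Fin n) (Fin n) (Tf p (GenP_K p (s j)) F)) a b
  have hW : W.det = 1 := by
    funext j
    have h1 := RingHom.map_det (Pi.evalRingHom (fun j => Tf p (GenP_K p (s j)) F) j) W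
    have h2 : (Pi.evalRingHom (fun j => Tf p (GenP_K p (s j)) F) j).mapMatrix W =
        (w j : Matrix (Fin n) (Fin n) (Tf p (GenP_K p (s j)) F)) := rfl
    rw [h2, (w j).2] at h1
    exact h1
  obtain ⟨M, hM⟩ := NCrt_lift n (Tf p (Rx p) F) (∀ j, Tf p (GenP_K p (s j)) F)
    (RingHom.pi fun j => tmap p F (NCrt_ev p (s j) (α j) (hα j)))
    (NCrt_surj p F J s hs hs0 α hα hgen) ⟨W, hW⟩
  refine ⟨M, fun j => ?_⟩
  have h3 : Matrix.SpecialLinearGroup.map (tmap p F (NCrt_ev p (s j) (α j) (hα j))) M = w j := by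
    apply Subtype.ext
    ext a b
    have h4 := congrArg (fun N : Sl n (∀ j, Tf p (GenP_K p (s j)) F) =>
      (N : Matrix (Fin n) (Fin n) (∀ j, Tf p (GenP_K p (s j)) F)) a b j) hM
    exact h4
  have h5 : ∀ z : Tf p (Rx p) F, tmap p F (Polynomial.aeval (α j)) z =
      tmap p F (GenP_K p (s j)).val (tmap p F (NCrt_ev p (s j) (α j) (hα j)) z) := by
    intro z
    induction z using TensorProduct.induction_on with
    | zero => rw [map_zero, map_zero, map_zero]
    | tmul x c =>
      rw [tmap_tmul, tmap_tmul, tmap_tmul, ← NCrt_ev_val p (s j) (α j) (hα j)]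
      rfl
    | add x y hx hy => rw [map_add, map_add, map_add, hx, hy]
  rw [← hw j, ← h3]
  apply Subtype.ext
  ext a b
  exact h5 _

end Pool.Agent.AB3
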