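import Pool.Agent.Lib.MP_5de024_nt.S.V.NPhi

/-!
# Lang's theorem for finite fields (N2)
-/

set_option autoImplicit false
set_option linter.unusedSectionVars false

namespace Pool.Agent.AB3

open Pool.Agent.AB Polynomial TensorProduct

/-- correction of the determinant -/
theorem nfin_diag {T : Type} [CommRing T] (φ : T →+* T) (n : ℕ) (d : T) (hd : IsUnit d)
    (hφ : φ d = d) (hn : n = 0 → d = 1) :
    ∃ D : Matrix (Fin n) (Fin n) T, D.map φ = D ∧ D.det * d = 1 := by
  obtain ⟨u, rfl⟩ := hd
  have hu : φ ((u⁻¹ : Tˣ) : T) = ((u⁻¹ : Tˣ) : T) := by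
    have h1 : φ ((u⁻¹ : Tˣ) : T) * (u : T) = 1 := by
      conv_lhs => rw [← hφ]
      rw [← map_mul, Units.inv_mul, map_one]
    calc φ ((u⁻¹ : Tˣ) : T) = φ ((u⁻¹ : Tˣ) : T) * (u : T) * ((u⁻¹ : Tˣ) : T) := by
          rw [mul_assoc, Units.mul_inv, mul_one]
      _ = ((u⁻¹ : Tˣ) : T) := by rw [h1, one_mul]
  rcases n with _ | n
  · refine ⟨1, ?_, ?_⟩
    · ext i
      exact i.elim0
    · rw [Matrix.det_one, one_mul]
      exact hn rfl
  · refine ⟨Matrix.diagonal (Function.update 1 0 ((u⁻¹ : Tˣ) : T)), ?_, ?_⟩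
    · rw [Matrix.diagonal_map (map_zero φ)]
      congr 1
      funext i
      by_cases hi : i = 0
      · subst hi
        simp [hu]
      · simp [Function.update_of_ne hi]
    · rw [Matrix.det_diagonal, Finset.prod_update_of_mem (Finset.mem_univ _)]
      simp

/-- the matrix of a normal basis is invertible -/
theorem nfin_system (k l : Type) [Field k] [Field l] [Algebra k l] [FiniteDimensional k l]
    [IsGalois k l] {I : Type} [Fintype I] [DecidableEq I] [AddCommGroup I]
    (σ : I → Gal(l/k)) (hσ : Function.Bijective σ) (hadd : ∀ i j, σ (i + j) = σ i * σ j) :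
    ∃ (z : l) (r : I → l), ∀ m, ∑ j, σ (m - j) z * r j = if m = 0 then 1 else 0 := by
  classical
  obtain ⟨z, hz⟩ : ∃ z : l, Submodule.span k (Set.range fun i => σ i z) = ⊤ := by
    refine ⟨IsGalois.normalBasis k l 1, ?_⟩
    rw [← (IsGalois.normalBasis k l).span_eq]
    congr 1
    ext x
    constructor
    · rintro ⟨i, rfl⟩
      exact ⟨σ i, IsGalois.normalBasis_apply (σ i)⟩
    · rintro ⟨g, rfl⟩
      obtain ⟨i, rfl⟩ := hσ.2 g
      exact ⟨i, (IsGalois.normalBasis_apply (σ i)).symm⟩
  let A : Matrix I I l := Matrix.of fun m j => σ (m - j) z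
  have hinj : Function.Injective A.mulVecLin := by
    rw [← LinearMap.ker_eq_bot, eq_bot_iff]
    intro r hr
    have hr' : ∀ m, ∑ j, σ (m - j) z * r j = 0 := fun m => congrFun hr m
    -- the combination of automorphisms vanishes on a basis
    let D : l →ₗ[k] l := ∑ j, LinearMap.mulLeft k (r j) ∘ₗ (σ (-j)).toLinearMap
    have hDa : ∀ x, D x = ∑ j, r j * σ (-j) x := by
      intro x
      simp only [D, LinearMap.sum_apply]
      rfl
    have hD : D = 0 := by
      have h1 : ∀ x ∈ Submodule.span k (Set.range fun i => σ i z), D x = 0 := by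
        intro x hx
        induction hx using Submodule.span_induction with
        | mem x hx =>
          obtain ⟨m, rfl⟩ := hx
          show D (σ m z) = 0
          rw [hDa, ← hr' m]
          refine Finset.sum_congr rfl fun j _ => ?_
          have : σ (m - j) z = σ (-j) (σ m z) := by
            rw [sub_eq_add_neg, add_comm, hadd]
            rfl
          rw [this, mul_comm]
        | zero => exact map_zero D
        | add x y _ _ hx hy => rw [map_add, hx, hy, add_zero]
        | smul a x _ hx => rw [map_smul, hx, smul_zero]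
      ext x
      exact h1 x (by rw [hz]; trivial)
    have hli := (linearIndependent_monoidHom l l).comp
      (fun j : I => ((σ (-j) : l →+* l) : l →* l)) (by
        intro i j hij
        have h1 : σ (-i) = σ (-j) := by
          ext x
          exact DFunLike.congr_fun hij x
        exact neg_injective (hσ.1 h1))
    rw [Fintype.linearIndependent_iff] at hli
    have h2 := hli r (by
      funext x
      rw [Finset.sum_apply]
      have h3 := DFunLike.congr_fun hD x
      rw [hDa] at h3
      exact h3)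
    rw [Submodule.mem_bot]
    funext j
    exact h2 j
  have hsurj : Function.Surjective A.mulVecLin := LinearMap.surjective_of_injective hinj
  obtain ⟨r, hr⟩ := hsurj (Pi.single 0 1)
  refine ⟨z, r, fun m => ?_⟩
  have h1 := congrFun hr m
  rw [Pi.single_apply] at h1
  exact h1

theorem nfin_map_pow {T : Type} [CommRing T] (φ : T →+* T) (n s : ℕ) (y : Sl n T) :
    ((Matrix.SpecialLinearGroup.map (n := Fin n) φ)^[s] y : Sl n T).1 = y.1.map (φ^[s]) := by
  induction s with
  | zero =>
    ext i j
    rfl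
  | succ s ih =>
    rw [Function.iterate_succ_apply', Function.iterate_succ']
    ext i j
    show φ (((Matrix.SpecialLinearGroup.map (n := Fin n) φ)^[s] y : Sl n T).1 i j) = _
    rw [ih]
    rfl

theorem lang_fin (p : ℕ) [Fact p.Prime] (F : Type) [Field F] [Finite F] [Algebra (ZMod p) F]
    (n : ℕ) (g : Sl n F) (s : ℕ) (hs : 0 < s) :
    ∃ y : Sl n (Tf p (Fb p) F),
      (Matrix.SpecialLinearGroup.map (phi p (Fb p) F))^[s] y =
        y * Matrix.SpecialLinearGroup.map (inF p (Fb p) F) g := by
  classical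
  -- the finite fields
  let k : Type := GaloisField p s
  have hkf : Finite k := inferInstanceAs (Finite (GaloisField p s))
  have hkc : Nat.card k = p ^ s := GaloisField.card p s hs.ne'
  have hgf : Finite (Sl n F) := Subtype.finite
  let o : ℕ := orderOf g
  have ho : 0 < o := orderOf_pos g
  have hoz : NeZero o := ⟨ho.ne'⟩
  let l : Type := FiniteField.Extension k p o
  -- the homomorphisms from `ℤ / o`
  let fr : Gal(l/k) := FiniteField.Extension.frob k p o
  have hfr : ∀ x : l, fr x = x ^ p ^ s := by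
    intro x
    rw [← hkc]
    exact FiniteField.Extension.frob_apply k p o
  have hfro : fr ^ o = 1 := by
    have h1 : Nat.card Gal(l/k) = o := FiniteField.natCard_algEquiv_extension k p o
    have h3 : orderOf fr ∣ Nat.card Gal(l/k) := orderOf_dvd_natCard fr
    exact orderOf_dvd_iff_pow_eq_one.1 (h3.trans (dvd_of_eq h1))
  let a1 : ZMod o →+ Additive Gal(l/k) := ZMod.lift o ⟨zmultiplesHom (Additive Gal(l/k))
    (Additive.ofMul fr), by
      show (o : ℤ) • Additive.ofMul fr = 0
      rw [natCast_zsmul, ← ofMul_pow, hfro]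
      rfl⟩
  let a2 : ZMod o →+ Additive (Sl n F) := ZMod.lift o ⟨zmultiplesHom (Additive (Sl n F))
    (Additive.ofMul g⁻¹), by
      show (o : ℤ) • Additive.ofMul g⁻¹ = 0
      rw [natCast_zsmul, ← ofMul_pow, inv_pow, pow_orderOf_eq_one, inv_one]
      rfl⟩
  let σ : ZMod o → Gal(l/k) := fun i => (a1 i).toMul
  let τ : ZMod o → Sl n F := fun i => (a2 i).toMul
  have hσadd : ∀ i j, σ (i + j) = σ i * σ j := fun i j => by
    show (a1 (i + j)).toMul = _
    rw [map_add]
    rfl
  have hτadd : ∀ i j, τ (i + j) = τ i * τ j := fun i j => by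
    show (a2 (i + j)).toMul = _
    rw [map_add]
    rfl
  have hσ1 : σ 1 = fr := by
    have h1 : a1 ((1 : ℤ) : ZMod o) = (1 : ℤ) • Additive.ofMul fr := ZMod.lift_coe o _ 1
    rw [Int.cast_one, one_zsmul] at h1
    show (a1 1).toMul = fr
    rw [h1]
    rfl
  have hτ1 : τ 1 = g⁻¹ := by
    have h1 : a2 ((1 : ℤ) : ZMod o) = (1 : ℤ) • Additive.ofMul g⁻¹ := ZMod.lift_coe o _ 1
    rw [Int.cast_one, one_zsmul] at h1
    show (a2 1).toMul = g⁻¹
    rw [h1]
    rfl
  have hσbij : Function.Bijective σ := by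
    have hsurj : Function.Surjective σ := by
      intro h
      obtain ⟨i, -, hi⟩ := FiniteField.Extension.exists_frob_pow_eq k p o h
      refine ⟨(i : ZMod o), ?_⟩
      have h1 : a1 ((i : ℤ) : ZMod o) = (i : ℤ) • Additive.ofMul fr := ZMod.lift_coe o _ i
      rw [Int.cast_natCast, natCast_zsmul, ← ofMul_pow] at h1
      show (a1 (i : ZMod o)).toMul = h
      rw [h1, ← hi]
      rfl
    refine (Nat.bijective_iff_surjective_and_card σ).2 ⟨hsurj, ?_⟩
    rw [Nat.card_zmod]
    exact (FiniteField.natCard_algEquiv_extension k p o).symm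
  obtain ⟨z, r, hzr⟩ := nfin_system k l σ hσbij hσadd
  have hτ0 : τ 0 = 1 := by
    show (a2 0).toMul = 1
    rw [map_zero]
    rfl
  let inc : Sl n F → Matrix (Fin n) (Fin n) (Tf p l F) := fun h => h.1.map (inF p l F)
  have hinc : ∀ h h', inc (h * h') = inc h * inc h' := fun h h' => by
    show (h * h').1.map (inF p l F) = _
    rw [Matrix.SpecialLinearGroup.coe_mul, Matrix.map_mul]
  have hinc1 : inc 1 = 1 := by
    show (1 : Sl n F).1.map (inF p l F) = 1
    rw [Matrix.SpecialLinearGroup.coe_one, Matrix.map_one _ (map_zero _) (map_one _)]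
  let sc : l → Tf p l F := fun x => x ⊗ₜ[ZMod p] (1 : F)
  have hscm : ∀ x y, sc (x * y) = sc x * sc y := fun x y => by
    show (x * y) ⊗ₜ[ZMod p] (1 : F) = (x ⊗ₜ[ZMod p] (1 : F)) * (y ⊗ₜ[ZMod p] (1 : F))
    rw [Algebra.TensorProduct.tmul_mul_tmul, one_mul]
  let y0 : Matrix (Fin n) (Fin n) (Tf p l F) := ∑ i, sc (σ i z) • inc (τ i)
  let z0 : Matrix (Fin n) (Fin n) (Tf p l F) := ∑ j, sc (r j) • inc (τ j)
  have hyz : y0 * z0 = 1 := by
    have h1 : y0 * z0 = ∑ j, ∑ i, (sc (σ i z * r j)) • inc (τ (i + j)) := by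
      show (∑ i, sc (σ i z) • inc (τ i)) * (∑ j, sc (r j) • inc (τ j)) = _
      rw [Finset.sum_mul_sum, Finset.sum_comm]
      refine Finset.sum_congr rfl fun j _ => Finset.sum_congr rfl fun i _ => ?_
      rw [hτadd, hinc, hscm, Matrix.smul_mul, Matrix.mul_smul, smul_smul]
    have h2 : ∀ j : ZMod o, ∑ i, (sc (σ i z * r j)) • inc (τ (i + j)) =
        ∑ m, (sc (σ (m - j) z * r j)) • inc (τ m) := by
      intro j
      refine Fintype.sum_equiv (Equiv.addRight j) _ _ fun i => ?_
      simp only [Equiv.coe_addRight, add_sub_cancel_right]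
    rw [h1, Finset.sum_congr rfl fun j _ => h2 j, Finset.sum_comm]
    have h3 : ∀ m : ZMod o, ∑ j, (sc (σ (m - j) z * r j)) • inc (τ m) =
        (sc (if m = 0 then 1 else 0)) • inc (τ m) := by
      intro m
      rw [← hzr m, ← Finset.sum_smul]
      congr 1
      exact (TensorProduct.sum_tmul _ _ _).symm
    rw [Finset.sum_congr rfl fun m _ => h3 m, Finset.sum_eq_single 0]
    · rw [if_pos rfl, hτ0, hinc1]
      show ((1 : l) ⊗ₜ[ZMod p] (1 : F) : Tf p l F) • (1 : Matrix (Fin n) (Fin n) (Tf p l F)) = 1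
      rw [← Algebra.TensorProduct.one_def, one_smul]
    · intro m _ hm
      rw [if_neg hm]
      show ((0 : l) ⊗ₜ[ZMod p] (1 : F) : Tf p l F) • _ = 0
      rw [TensorProduct.zero_tmul, zero_smul]
    · intro h
      exact absurd (Finset.mem_univ _) h
  -- the power of the Frobenius
  let Φ : Tf p l F →+* Tf p l F := (phi p l F) ^ s
  have hΦ : ∀ x, Φ x = (phi p l F)^[s] x := fun x => by
    show ((phi p l F) ^ s) x = _
    rw [RingHom.coe_pow]
  have hΦsc : ∀ x, Φ (sc x) = sc (fr x) := fun x => by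
    rw [hΦ, hfr]
    exact phi_iter p l F s x 1
  have hΦin : ∀ c, Φ (inF p l F c) = inF p l F c := fun c => by
    rw [hΦ]
    exact Function.iterate_fixed (phi_inF p l F c) s
  have hy0 : y0.map Φ = y0 * inc g := by
    have h1 : y0.map Φ = ∑ i, sc (σ (1 + i) z) • inc (τ i) := by
      ext a b
      simp only [y0, Matrix.map_apply, Matrix.sum_apply, map_sum, Matrix.smul_apply, smul_eq_mul,
        map_mul]
      refine Finset.sum_congr rfl fun i _ => ?_
      rw [hΦsc, hσadd, hσ1]
      congr 1
      exact hΦin _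
    have h2 : y0 * inc g = ∑ i, sc (σ i z) • inc (τ (i - 1)) := by
      show (∑ i, sc (σ i z) • inc (τ i)) * inc g = _
      rw [Finset.sum_mul]
      refine Finset.sum_congr rfl fun i _ => ?_
      rw [Matrix.smul_mul, ← hinc]
      congr 2
      have h3 := hτadd (i - 1) 1
      rw [sub_add_cancel, hτ1] at h3
      rw [h3, inv_mul_cancel_right]
    rw [h1, h2]
    refine Fintype.sum_equiv (Equiv.addLeft 1) _ _ fun i => ?_
    simp only [Equiv.coe_addLeft, add_sub_cancel_left]
  have hdet : IsUnit y0.det := Matrix.isUnit_det_of_right_inverse hyz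
  have hΦd : Φ y0.det = y0.det := by
    have h1 : (inc g).det = 1 := by
      show (g.1.map (inF p l F)).det = 1
      rw [← RingHom.mapMatrix_apply, ← RingHom.map_det, g.2, map_one]
    rw [RingHom.map_det, RingHom.mapMatrix_apply, hy0, Matrix.det_mul, h1, mul_one]
  obtain ⟨D, hD, hD'⟩ := nfin_diag Φ n y0.det hdet hΦd (by
    intro h
    subst h
    exact Matrix.det_fin_zero)
  let e : l →ₐ[ZMod p] Fb p := IsAlgClosed.lift
  have he : ∀ x, tmap p F e (Φ x) = (phi p (Fb p) F)^[s] (tmap p F e x) := by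
    intro x
    rw [hΦ]
    exact (Function.Semiconj.iterate_right (f := tmap p F e) (fun x => phi_tmap p l (Fb p) F e x) s) x
  refine ⟨⟨(D * y0).map (tmap p F e), ?_⟩, ?_⟩
  · rw [← RingHom.mapMatrix_apply, ← RingHom.map_det, Matrix.det_mul, hD', map_one]
  · apply Subtype.ext
    rw [nfin_map_pow, Matrix.SpecialLinearGroup.coe_mul]
    have h1 : (D * y0).map Φ = D * y0 * inc g := by
      rw [Matrix.map_mul, hD, hy0, Matrix.mul_assoc]
    have h2 : ((D * y0).map (tmap p F e)).map ((phi p (Fb p) F)^[s]) =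
        ((D * y0).map Φ).map (tmap p F e) := by
      ext a b
      exact (he _).symm
    have h3 : (Matrix.SpecialLinearGroup.map (inF p (Fb p) F) g : Sl n (Tf p (Fb p) F)).1 =
        (inc g).map (tmap p F e) := by
      ext a b
      exact (tmap_inF p l (Fb p) F e _).symm
    show ((D * y0).map (tmap p F e)).map ((phi p (Fb p) F)^[s]) = _
    rw [h2, h1, Matrix.map_mul, h3]

end Pool.Agent.AB3
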