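import Mathlib

/-!
# Fixed vectors of semilinear maps (N1)
-/

set_option autoImplicit false
set_option linter.unusedSectionVars false

namespace Pool.Agent.AB3

open Polynomial in
/-- the auxiliary polynomials -/
noncomputable def NFix_q (p : ℕ) (U : Type) [Field U] (c : ℕ → U) : ℕ → U[X]
  | 0 => 0
  | i + 1 => X ^ (p * (p - 1)) * NFix_q p U c i ^ p + C (c i)

open Polynomial in
theorem NFix_q_zero (p : ℕ) [Fact p.Prime] (U : Type) [Field U] (c : ℕ → U) (r : ℕ)
    (h : NFix_q p U c r = 0) : ∀ i < r, c i = 0 := by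
  have hp1 : 1 < p := (Fact.out : p.Prime).one_lt
  have hpp : p * (p - 1) ≠ 0 := Nat.mul_ne_zero (by omega) (by omega)
  induction r with
  | zero =>
    intro i hi
    exact absurd hi (Nat.not_lt_zero i)
  | succ r ih =>
    rw [NFix_q] at h
    have h1 : c r = 0 := by
      have h2 := congrArg (fun f => coeff f 0) h
      simp only [coeff_add, mul_coeff_zero, coeff_X_pow, coeff_C_zero, coeff_zero] at h2
      rw [if_neg (Ne.symm hpp), zero_mul, zero_add] at h2
      exact h2
    rw [h1, C_0, add_zero, mul_eq_zero] at h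
    have h3 : NFix_q p U c r ^ p = 0 := by
      rcases h with h | h
      · exact absurd h (pow_ne_zero _ X_ne_zero)
      · exact h
    have h4 := ih (pow_eq_zero_iff (by omega) |>.1 h3)
    intro i hi
    rcases Nat.lt_succ_iff_lt_or_eq.1 hi with h5 | h5
    · exact h4 i h5
    · rw [h5]
      exact h1

open Polynomial in
theorem NFix_root (p : ℕ) [Fact p.Prime] (U : Type) [Field U] [IsAlgClosed U] (c : ℕ → U) (r : ℕ)
    (h : ∃ i < r, c i ≠ 0) :
    ∃ z : U, z ≠ 0 ∧ z ^ p * (NFix_q p U c r).eval z = z := by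
  have hp1 : 1 < p := (Fact.out : p.Prime).one_lt
  have hq : NFix_q p U c r ≠ 0 := by
    intro h0
    obtain ⟨i, hi, hci⟩ := h
    exact hci (NFix_q_zero p U c r h0 i hi)
  have hdeg : (X ^ (p - 1) * NFix_q p U c r - C 1).degree ≠ 0 := by
    intro h0
    have h1 : (X ^ (p - 1) * NFix_q p U c r - C 1).natDegree = 0 :=
      natDegree_eq_zero_iff_degree_le_zero.2 h0.le
    rw [natDegree_sub_C, natDegree_mul (pow_ne_zero _ X_ne_zero) hq, natDegree_X_pow] at h1
    omega
  obtain ⟨z, hz⟩ := IsAlgClosed.exists_root _ hdeg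
  rw [IsRoot.def, eval_sub, eval_C, eval_mul, eval_pow, eval_X, sub_eq_zero] at hz
  refine ⟨z, ?_, ?_⟩
  · rintro rfl
    rw [zero_pow (by omega), zero_mul] at hz
    exact zero_ne_one hz
  · have h2 : z ^ p = z * z ^ (p - 1) := by
      rw [← pow_succ', Nat.sub_add_cancel hp1.le]
    rw [h2, mul_assoc, hz, mul_one]

/-- an injective Frobenius semilinear map has a nonzero fixed vector -/
theorem fix_ne (p : ℕ) [Fact p.Prime] (U V : Type) [Field U] [IsAlgClosed U] [CharP U p]
    [AddCommGroup V] [Module U V] [FiniteDimensional U V] [Nontrivial V] (Ψ : V →+ V)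
    (hs : ∀ (a : U) (v : V), Ψ (a • v) = a ^ p • Ψ v) (hi : Function.Injective Ψ) :
    ∃ v : V, v ≠ 0 ∧ Ψ v = v := by
  classical
  obtain ⟨v, hv⟩ := exists_ne (0 : V)
  let w : ℕ → V := fun i => (⇑Ψ)^[i] v
  have hw1 : ∀ i, Ψ (w i) = w (i + 1) := fun i => (Function.iterate_succ_apply' Ψ i v).symm
  have hw0 : ∀ i, w i ≠ 0 := by
    intro i
    induction i with
    | zero => exact hv
    | succ i ih =>
      intro h
      rw [← hw1] at h
      exact ih (hi (h.trans (map_zero Ψ).symm))
  let W : ℕ →o Submodule U V :=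
    ⟨fun r => Submodule.span U (w '' (Finset.range r : Set ℕ)), fun a b hab =>
      Submodule.span_mono (Set.image_mono (by
        rw [Finset.coe_subset]
        exact Finset.range_mono hab))⟩
  have hex : ∃ r, w r ∈ W r := by
    obtain ⟨n, hn⟩ := WellFoundedGT.monotone_chain_condition W
    refine ⟨n, ?_⟩
    rw [hn (n + 1) (Nat.le_succ n)]
    exact Submodule.subset_span ⟨n, by simp, rfl⟩
  let r := Nat.find hex
  have hr : w r ∈ W r := Nat.find_spec hex
  have hmin : ∀ m < r, w m ∉ W m := fun m hm => Nat.find_min hex hm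
  have hr0 : r ≠ 0 := by
    intro h0
    have h1 : w 0 ∈ W 0 := by
      rw [← h0]
      exact h0 ▸ hr
    have h2 : w 0 = 0 := by
      have h3 : w 0 ∈ Submodule.span U (w '' (Finset.range 0 : Set ℕ)) := h1
      simpa using h3
    exact hw0 0 h2
  obtain ⟨c, hc⟩ := (Submodule.mem_span_image_finset_iff_exists_fun' U).1
    (show w r ∈ Submodule.span U (w '' (Finset.range r : Set ℕ)) from hr)
  have hcne : ∃ i < r, c i ≠ 0 := by
    by_contra hcon
    push Not at hcon
    apply hw0 r
    rw [← hc]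
    exact Finset.sum_eq_zero fun i hi' => by rw [hcon i (Finset.mem_range.1 hi'), zero_smul]
  obtain ⟨z, hz0, hz⟩ := NFix_root p U c r hcne
  let x : ℕ → U := fun i => z ^ p * (NFix_q p U c i).eval z
  have hx0 : x 0 = 0 := by
    simp [x, NFix_q]
  have hxr : x r = z := hz
  have hp0 : p ≠ 0 := (Fact.out : p.Prime).ne_zero
  have hxs : ∀ i, x (i + 1) = x i ^ p + z ^ p * c i := by
    intro i
    have hpp : p + p * (p - 1) = p * p := by
      have hp1 : 1 ≤ p := (Fact.out : p.Prime).one_lt.le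
      calc p + p * (p - 1) = p * (1 + (p - 1)) := by rw [mul_add, mul_one]
        _ = p * p := by rw [Nat.add_sub_cancel' hp1]
    simp only [x, NFix_q, Polynomial.eval_add, Polynomial.eval_mul, Polynomial.eval_pow,
      Polynomial.eval_X, Polynomial.eval_C]
    rw [mul_add, mul_pow, ← pow_mul z p p, ← hpp, pow_add]
    ring
  have hpz : ∀ s : Finset ℕ, ∀ y : ℕ → U, ∀ u : ℕ → V,
      Ψ (∑ i ∈ s, y i • u i) = ∑ i ∈ s, y i ^ p • Ψ (u i) := by
    intro s y u
    rw [map_sum]
    exact Finset.sum_congr rfl fun i _ => hs _ _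
  refine ⟨∑ i ∈ Finset.range r, x (i + 1) • w i, ?_, ?_⟩
  · obtain ⟨m, hm⟩ := Nat.exists_eq_succ_of_ne_zero hr0
    intro h
    rw [hm, Finset.sum_range_succ] at h
    have h1 : x (m + 1) = z := by
      rw [← hxr, hm]
    apply hmin m (by omega)
    have h2 : w m = ∑ i ∈ Finset.range m, (-(z⁻¹ * x (i + 1))) • w i := by
      have h3 : z • w m = -∑ i ∈ Finset.range m, x (i + 1) • w i := by
        rw [h1, add_comm] at h
        exact eq_neg_of_add_eq_zero_left h
      have h4 : w m = z⁻¹ • (z • w m) := by rw [smul_smul, inv_mul_cancel₀ hz0, one_smul]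
      rw [h4, h3, smul_neg, Finset.smul_sum, ← Finset.sum_neg_distrib]
      exact Finset.sum_congr rfl fun i _ => by rw [smul_smul, neg_smul]
    exact (Submodule.mem_span_image_finset_iff_exists_fun' U).2 ⟨_, h2.symm⟩
  · rw [hpz]
    have h1 : ∑ i ∈ Finset.range r, x (i + 1) ^ p • Ψ (w i) =
        ∑ i ∈ Finset.range r, x (i + 1) ^ p • w (i + 1) :=
      Finset.sum_congr rfl fun i _ => by rw [hw1]
    have h2 := Finset.sum_range_succ' (fun i => x i ^ p • w i) r
    rw [Finset.sum_range_succ] at h2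
    rw [hx0, zero_pow hp0, zero_smul, add_zero, hxr] at h2
    rw [h1, ← h2]
    have h3 : ∑ i ∈ Finset.range r, x (i + 1) • w i =
        ∑ i ∈ Finset.range r, x i ^ p • w i + z ^ p • ∑ i ∈ Finset.range r, c i • w i := by
      rw [Finset.smul_sum, ← Finset.sum_add_distrib]
      exact Finset.sum_congr rfl fun i _ => by rw [hxs, add_smul, smul_smul]
    rw [h3, hc]

/-- the equation `t ^ p - t = a` -/
theorem NFix_as (p : ℕ) [Fact p.Prime] (U : Type) [Field U] [IsAlgClosed U] (a : U) :
    ∃ t : U, t ^ p - t = a := by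
  have hp1 : 1 < p := (Fact.out : p.Prime).one_lt
  have hdeg : ((Polynomial.X : Polynomial U) ^ p - Polynomial.X - Polynomial.C a).degree ≠ 0 := by
    intro h0
    have h1 : ((Polynomial.X : Polynomial U) ^ p - Polynomial.X - Polynomial.C a).natDegree = 0 :=
      Polynomial.natDegree_eq_zero_iff_degree_le_zero.2 h0.le
    rw [Polynomial.natDegree_sub_C, FiniteField.X_pow_card_sub_X_natDegree_eq U hp1] at h1
    omega
  obtain ⟨t, ht⟩ := IsAlgClosed.exists_root _ hdeg
  refine ⟨t, ?_⟩
  rw [Polynomial.IsRoot.def, Polynomial.eval_sub, Polynomial.eval_C, Polynomial.eval_sub,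
    Polynomial.eval_pow, Polynomial.eval_X, sub_eq_zero] at ht
  exact ht

/-- the fixed vectors span -/
theorem fix_span (p : ℕ) [Fact p.Prime] (U V : Type) [Field U] [IsAlgClosed U] [CharP U p]
    [AddCommGroup V] [Module U V] [FiniteDimensional U V] (Ψ : V →+ V)
    (hs : ∀ (a : U) (v : V), Ψ (a • v) = a ^ p • Ψ v) (hi : Function.Injective Ψ) :
    Submodule.span U {v : V | Ψ v = v} = ⊤ := by
  classical
  set W : Submodule U V := Submodule.span U {v : V | Ψ v = v} with hW
  by_contra hne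
  -- `Ψ` of a combination of fixed vectors
  have hcomb : ∀ (n : ℕ) (y : Fin n → U) (g : Fin n → {v : V | Ψ v = v}),
      Ψ (∑ i, y i • (g i : V)) = ∑ i, y i ^ p • (g i : V) := by
    intro n y g
    rw [map_sum]
    refine Finset.sum_congr rfl fun i _ => ?_
    rw [hs, (g i).2]
  have hmemW : ∀ (n : ℕ) (y : Fin n → U) (g : Fin n → {v : V | Ψ v = v}),
      ∑ i, y i • (g i : V) ∈ W := fun n y g =>
    Submodule.sum_mem _ fun i _ => Submodule.smul_mem _ _ (Submodule.subset_span (g i).2)
  have hWW : ∀ x ∈ W, Ψ x ∈ W := by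
    intro x hx
    obtain ⟨n, y, g, rfl⟩ := Submodule.mem_span_set'.1 hx
    rw [hcomb]
    exact hmemW n _ g
  have hWi : ∀ x, Ψ x ∈ W → x ∈ W := by
    intro x hx
    obtain ⟨n, y, g, hy⟩ := Submodule.mem_span_set'.1 hx
    have h1 : ∀ i, ∃ t : U, t ^ p = y i := fun i =>
      IsAlgClosed.exists_pow_nat_eq (y i) (Fact.out : p.Prime).pos
    choose t ht using h1
    have h2 : Ψ (∑ i, t i • (g i : V)) = Ψ x := by
      rw [hcomb, ← hy]
      exact Finset.sum_congr rfl fun i _ => by rw [ht]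
    rw [← hi h2]
    exact hmemW n t g
  let Ψs : V →ₛₗ[frobenius U p] V :=
    { toFun := Ψ
      map_add' := map_add Ψ
      map_smul' := fun a v => by rw [hs, frobenius_def] }
  have hle : W ≤ W.comap Ψs := fun x hx => hWW x hx
  let Ψb : (V ⧸ W) →ₛₗ[frobenius U p] (V ⧸ W) := W.mapQ W Ψs hle
  have hb : ∀ x : V, Ψb (Submodule.Quotient.mk x) = Submodule.Quotient.mk (Ψ x) := fun x => rfl
  have hnt : Nontrivial (V ⧸ W) := Submodule.Quotient.nontrivial_iff.2 hne
  obtain ⟨vb, hvb0, hvb⟩ := fix_ne p U (V ⧸ W) Ψb.toAddMonoidHom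
    (fun a v => by
      change Ψb (a • v) = a ^ p • Ψb v
      rw [map_smulₛₗ, frobenius_def])
    (by
      rw [injective_iff_map_eq_zero]
      intro x hx
      obtain ⟨x, rfl⟩ := Submodule.Quotient.mk_surjective W x
      have h1 : (Submodule.Quotient.mk (Ψ x) : V ⧸ W) = 0 := hx
      rw [Submodule.Quotient.mk_eq_zero] at h1 ⊢
      exact hWi x h1)
  obtain ⟨v, rfl⟩ := Submodule.Quotient.mk_surjective W vb
  have hv0 : v ∉ W := fun h => hvb0 ((Submodule.Quotient.mk_eq_zero W).2 h)
  have hvW : Ψ v - v ∈ W := by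
    have h1 : (Submodule.Quotient.mk (Ψ v) : V ⧸ W) = Submodule.Quotient.mk v := hvb
    exact (Submodule.Quotient.eq W).1 h1
  obtain ⟨n, y, g, hy⟩ := Submodule.mem_span_set'.1 hvW
  have h1 : ∀ i, ∃ t : U, t ^ p - t = y i := fun i => NFix_as p U (y i)
  choose t ht using h1
  have hfix : Ψ (v - ∑ i, t i • (g i : V)) = v - ∑ i, t i • (g i : V) := by
    rw [map_sub, hcomb]
    have h2 : ∑ i, t i ^ p • (g i : V) = ∑ i, t i • (g i : V) + (Ψ v - v) := by
      rw [← hy, ← Finset.sum_add_distrib]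
      refine Finset.sum_congr rfl fun i _ => ?_
      rw [← add_smul, ← ht i]
      congr 1
      ring
    rw [h2]
    abel
  have h3 : v - ∑ i, t i • (g i : V) ∈ W := Submodule.subset_span hfix
  exact hv0 (by
    have h4 := W.add_mem h3 (hmemW n t g)
    rwa [sub_add_cancel] at h4)

/-- fixed vectors which are independent over the prime field are independent -/
theorem fix_indep (p : ℕ) [Fact p.Prime] (U V : Type) [Field U] [CharP U p] [Algebra (ZMod p) U]
    [AddCommGroup V] [Module U V] [Module (ZMod p) V] [IsScalarTower (ZMod p) U V] (Ψ : V →+ V)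
    (hs : ∀ (a : U) (v : V), Ψ (a • v) = a ^ p • Ψ v) (hi : Function.Injective Ψ) {ι : Type}
    (v : ι → V) (hv : ∀ i, Ψ (v i) = v i) (hli : LinearIndependent (ZMod p) v) :
    LinearIndependent U v := by
  classical
  rw [linearIndependent_iff']
  intro s
  induction s using Finset.strongInduction with
  | H s ih =>
    intro g hg
    by_contra hcon
    push Not at hcon
    obtain ⟨i0, hi0, hgi⟩ := hcon
    -- normalise
    have h1 : ∑ i ∈ s, ((g i0)⁻¹ * g i) • v i = 0 := by
      have h2 : ∑ i ∈ s, ((g i0)⁻¹ * g i) • v i = (g i0)⁻¹ • ∑ i ∈ s, g i • v i := by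
        rw [Finset.smul_sum]
        exact Finset.sum_congr rfl fun i _ => by rw [smul_smul]
      rw [h2, hg, smul_zero]
    have h2 : ∑ i ∈ s, ((g i0)⁻¹ * g i) ^ p • v i = 0 := by
      have h3 := congrArg Ψ h1
      rw [map_sum, map_zero] at h3
      rw [← h3]
      exact Finset.sum_congr rfl fun i _ => by rw [hs, hv]
    have h3 : ∑ i ∈ s, (((g i0)⁻¹ * g i) ^ p - (g i0)⁻¹ * g i) • v i = 0 := by
      have h4 : ∑ i ∈ s, (((g i0)⁻¹ * g i) ^ p - (g i0)⁻¹ * g i) • v i =
          ∑ i ∈ s, ((g i0)⁻¹ * g i) ^ p • v i - ∑ i ∈ s, ((g i0)⁻¹ * g i) • v i := by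
        rw [← Finset.sum_sub_distrib]
        exact Finset.sum_congr rfl fun i _ => sub_smul _ _ _
      rw [h4, h1, h2, sub_zero]
    have hone : (g i0)⁻¹ * g i0 = 1 := inv_mul_cancel₀ hgi
    rw [← Finset.add_sum_erase s _ hi0, hone, one_pow, sub_self, zero_smul, zero_add] at h3
    have h4 := ih (s.erase i0) (Finset.erase_ssubset hi0) _ h3
    have h5 : ∀ i ∈ s, ∃ n : ℤ, (n : U) = (g i0)⁻¹ * g i := by
      intro i hi'
      rw [← mem_bot_iff_intCast p U, Subfield.mem_bot_iff_pow_eq_self]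
      by_cases hii : i = i0
      · rw [hii, hone, one_pow]
      · exact sub_eq_zero.1 (h4 i (Finset.mem_erase.2 ⟨hii, hi'⟩))
    choose! n hn using h5
    have h6 : ∑ i ∈ s, ((n i : ℤ) : ZMod p) • v i = 0 := by
      rw [← h1]
      refine Finset.sum_congr rfl fun i hi' => ?_
      rw [← hn i hi', ← algebraMap_smul U ((n i : ℤ) : ZMod p) (v i), map_intCast]
    have h7 := linearIndependent_iff'.1 hli s _ h6 i0 hi0
    have h8 := congrArg (algebraMap (ZMod p) U) h7
    rw [map_intCast, map_zero, hn i0 hi0, hone] at h8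
    exact one_ne_zero h8

end Pool.Agent.AB3
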