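import Mathlib

/-!
# Solutions of Frobenius equations (N4)
-/

set_option autoImplicit false
set_option linter.unusedSectionVars false

namespace Pool.Agent.AB3

/-- all monomials are combinations of the monomials of bounded exponents -/
theorem NSep_mon {A U : Type} [CommRing A] [CommRing U] [Algebra A U] {N p : ℕ}
    (hp : 2 ≤ p) (y : Fin N → U) (B : Matrix (Fin N) (Fin N) A)
    (h : ∀ i, y i ^ p = ∑ j, algebraMap A U (B i j) * y j) (d : ℕ) :
    ∀ e : Fin N → ℕ, ∑ i, e i = d → ∏ i, y i ^ e i ∈ Submodule.span A
      (Set.range fun f : Fin N → Fin p => ∏ i, y i ^ (f i : ℕ)) := by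
  classical
  induction d using Nat.strong_induction_on with
  | _ d ih =>
    intro e he
    by_cases hlt : ∀ i, e i < p
    · exact Submodule.subset_span ⟨fun i => ⟨e i, hlt i⟩, rfl⟩
    · push Not at hlt
      obtain ⟨i, hi⟩ := hlt
      obtain ⟨e', he'⟩ : ∃ e' : Fin N → ℕ, e = e' + Pi.single i p := by
        refine ⟨e - Pi.single i p, ?_⟩
        funext k
        by_cases hk : k = i
        · subst hk
          simp [hi]
        · simp [hk]
      have h1 : ∏ k, y k ^ e k = (∏ k, y k ^ e' k) * y i ^ p := by
        rw [he']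
        simp only [Pi.add_apply, pow_add, Finset.prod_mul_distrib]
        congr 1
        rw [Finset.prod_eq_single i (fun k _ hk => by simp [hk]) (by simp)]
        simp
      obtain ⟨g, hg⟩ : ∃ g : Fin N → Fin N → ℕ, g = fun j => e' + Pi.single j 1 := ⟨_, rfl⟩
      have h2 : ∀ j, (∏ k, y k ^ e' k) * y j = ∏ k, y k ^ g j k := by
        intro j
        rw [hg]
        simp only [Pi.add_apply, pow_add, Finset.prod_mul_distrib]
        congr 1
        rw [Finset.prod_eq_single j (fun k _ hk => by simp [hk]) (by simp)]
        simp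
      rw [h1, h i, Finset.mul_sum]
      refine Submodule.sum_mem _ fun j _ => ?_
      have h3 : (∏ k, y k ^ e' k) * (algebraMap A U (B i j) * y j) =
          B i j • ∏ k, y k ^ g j k := by
        rw [← h2 j, Algebra.smul_def]
        ring
      rw [h3]
      refine Submodule.smul_mem _ _ (ih (∑ k, g j k) ?_ _ rfl)
      have h4 : ∑ k, g j k = ∑ k, e' k + 1 := by
        rw [hg]
        simp [Finset.sum_add_distrib]
      have h5 : d = ∑ k, e' k + p := by
        rw [← he, he']
        simp [Finset.sum_add_distrib]
      omega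

/-- the solutions are integral -/
theorem int_of_frob (A U : Type) [CommRing A] [CommRing U] [Algebra A U] {N p : ℕ}
    (hp : 2 ≤ p) (y : Fin N → U) (B : Matrix (Fin N) (Fin N) A)
    (h : ∀ i, y i ^ p = ∑ j, algebraMap A U (B i j) * y j) (i : Fin N) :
    IsIntegral A (y i) := by
  classical
  refine IsIntegral.of_mem_of_fg (Algebra.adjoin A (Set.range y)) ?_ _
    (Algebra.subset_adjoin ⟨i, rfl⟩)
  have h1 : Subalgebra.toSubmodule (Algebra.adjoin A (Set.range y)) = Submodule.span A
      (Set.range fun f : Fin N → Fin p => ∏ i, y i ^ (f i : ℕ)) := by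
    apply le_antisymm
    · intro x hx
      rw [Subalgebra.mem_toSubmodule, Algebra.adjoin_range_eq_range_aeval] at hx
      obtain ⟨f, rfl⟩ := hx
      change MvPolynomial.aeval y f ∈ _
      rw [MvPolynomial.aeval_def, MvPolynomial.eval₂_eq']
      refine Submodule.sum_mem _ fun d _ => ?_
      rw [← Algebra.smul_def]
      exact Submodule.smul_mem _ _ (NSep_mon hp y B h _ _ rfl)
    · rw [Submodule.span_le]
      rintro _ ⟨f, rfl⟩
      exact Subalgebra.prod_mem _ fun k _ =>
        Subalgebra.pow_mem _ (Algebra.subset_adjoin (Set.mem_range_self k)) _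
  rw [h1]
  exact Submodule.fg_span (Set.finite_range _)

/-- the case of a finite extension generated by the solutions -/
theorem NSep_key (p : ℕ) (K E : Type) [Field K] [Field E] [CharP K p]
    [Algebra K E] [FiniteDimensional K E] {N : ℕ} (z : Fin N → E)
    (htop : Algebra.adjoin K (Set.range z) = ⊤)
    (B : Matrix (Fin N) (Fin N) K) (hB : IsUnit B.det)
    (hz : ∀ i, z i ^ p = ∑ j, algebraMap K E (B i j) * z j) :
    Algebra.IsSeparable K E := by
  classical
  have hch : (p : E) = 0 := by
    have : (p : K) = 0 := CharP.cast_eq_zero K p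
    rw [← map_natCast (algebraMap K E), this, map_zero]
  have hD : KaehlerDifferential.D K E = 0 := by
    refine Derivation.ext_of_adjoin_eq_top _ htop ?_
    rintro _ ⟨k, rfl⟩
    have h0 : ∀ i, ∑ j, B i j • KaehlerDifferential.D K E (z j) = 0 := by
      intro i
      have h1 : KaehlerDifferential.D K E (z i ^ p) = 0 := by
        rw [Derivation.leibniz_pow]
        rw [← Nat.cast_smul_eq_nsmul E, hch, zero_smul]
      rw [hz i, map_sum] at h1
      rw [← h1]
      refine Finset.sum_congr rfl fun j _ => ?_
      rw [← Algebra.smul_def, Derivation.map_smul]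
    have h2 : ∑ i, B⁻¹ k i • ∑ j, B i j • KaehlerDifferential.D K E (z j) = 0 := by
      simp only [h0, smul_zero, Finset.sum_const_zero]
    have h3 : ∑ i, B⁻¹ k i • ∑ j, B i j • KaehlerDifferential.D K E (z j) =
        KaehlerDifferential.D K E (z k) := by
      have h4 : B⁻¹ * B = 1 := Matrix.nonsing_inv_mul B hB
      calc ∑ i, B⁻¹ k i • ∑ j, B i j • KaehlerDifferential.D K E (z j)
          = ∑ j, (∑ i, B⁻¹ k i * B i j) • KaehlerDifferential.D K E (z j) := by
            simp only [Finset.smul_sum, smul_smul, Finset.sum_smul]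
            exact Finset.sum_comm
        _ = ∑ j, (1 : Matrix (Fin N) (Fin N) K) k j • KaehlerDifferential.D K E (z j) := by
            rw [← h4]
            rfl
        _ = KaehlerDifferential.D K E (z k) := by
            simp [Matrix.one_apply]
    rw [h3] at h2
    rw [h2]
    rfl
  have : Subsingleton (Ω[E⁄K]) := by
    have h1 := KaehlerDifferential.span_range_derivation K E
    rw [hD] at h1
    rw [← Submodule.subsingleton_iff E, ← subsingleton_iff_bot_eq_top]
    rw [← h1, eq_comm, Submodule.span_eq_bot]
    rintro _ ⟨x, rfl⟩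
    rfl
  have : Algebra.FormallyUnramified K E := ⟨inferInstance⟩
  exact Algebra.FormallyUnramified.isSeparable K E

/-- the solutions are separable -/
theorem sep_of_frob (p : ℕ) [Fact p.Prime] (K U : Type) [Field K] [Field U] [CharP K p]
    [Algebra K U] {N : ℕ} (y : Fin N → U) (B : Matrix (Fin N) (Fin N) K) (hB : IsUnit B.det)
    (h : ∀ i, y i ^ p = ∑ j, algebraMap K U (B i j) * y j) (i : Fin N) :
    IsSeparable K (y i) := by
  classical
  have hint : ∀ i, IsIntegral K (y i) := int_of_frob K U (Fact.out (p := p.Prime)).two_le y B h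
  obtain ⟨E, hE⟩ : ∃ E : IntermediateField K U, E = IntermediateField.adjoin K (Set.range y) :=
    ⟨_, rfl⟩
  have hmem : ∀ i, y i ∈ E := fun i => by
    rw [hE]
    exact IntermediateField.subset_adjoin K _ (Set.mem_range_self i)
  obtain ⟨z, hzd⟩ : ∃ z : Fin N → E, ∀ i, (z i : U) = y i := ⟨fun i => ⟨y i, hmem i⟩, fun _ => rfl⟩
  have : FiniteDimensional K E := by
    rw [hE]
    have : Finite (Set.range y) := Set.finite_range y
    refine IntermediateField.finiteDimensional_adjoin ?_
    intro x hx
    obtain ⟨i, rfl⟩ := hx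
    exact hint i
  have hz : ∀ i, z i ^ p = ∑ j, algebraMap K E (B i j) * z j := by
    intro i
    apply E.val.injective
    rw [map_pow, map_sum]
    simp only [map_mul]
    change (z i : U) ^ p = ∑ j, algebraMap K U (B i j) * (z j : U)
    simp only [hzd]
    exact h i
  have htop : Algebra.adjoin K (Set.range z) = ⊤ := by
    have h1 : (Algebra.adjoin K (Set.range z)).map E.val = E.toSubalgebra := by
      have h2 : E.val ∘ z = y := by
        funext k
        exact hzd k
      rw [AlgHom.map_adjoin, ← Set.range_comp, h2, hE]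
      exact (IntermediateField.adjoin_toSubalgebra_of_isAlgebraic (fun x hx => by
        obtain ⟨i, rfl⟩ := hx
        exact (hint i).isAlgebraic)).symm
    rw [eq_top_iff]
    intro x _
    have h2 : (x : U) ∈ (Algebra.adjoin K (Set.range z)).map E.val := by
      rw [h1]
      exact x.2
    obtain ⟨w, hw, hwx⟩ := h2
    have h3 : w = x := Subtype.ext hwx
    rw [← h3]
    exact hw
  have := NSep_key p K E z htop B hB hz
  have h5 : IsSeparable K (z i) := Algebra.IsSeparable.isSeparable K (z i)
  have h6 := h5.map E.val Subtype.val_injective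
  rw [← hzd i]
  exact h6

end Pool.Agent.AB3
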