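import Pool.Agent.Lib.MP_5de024_nt.S.V.NLang
import Pool.Agent.Lib.MP_5de024_nt.S.V.NSep

/-!
# The field generated by the solution of Lang's equation (N4)
-/

set_option autoImplicit false
set_option linter.unusedSectionVars false

namespace Pool.Agent.AB3

open Pool.Agent.AB Polynomial TensorProduct

section coords

variable (p : ℕ) [Fact p.Prime] {A B : Type} [CommRing A] [Algebra (ZMod p) A] [CommRing B]
  [Algebra (ZMod p) B] {F : Type} [Field F] [Algebra (ZMod p) F] {ι : Type} [Fintype ι]
  [DecidableEq ι] (b : Module.Basis ι (ZMod p) F)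

/-- coordinates of the Frobenius -/
theorem NFld_phi (w : Tf p A F) (i : ι) :
    (Algebra.TensorProduct.basis A b).repr (phi p A F w) i =
      ((Algebra.TensorProduct.basis A b).repr w i) ^ p := by
  rw [← zfr_apply]
  induction w using TensorProduct.induction_on with
  | zero => rw [map_zero, map_zero, Finsupp.zero_apply, map_zero]
  | tmul x c =>
    rw [phi_tmul, Algebra.TensorProduct.basis_repr_tmul, Algebra.TensorProduct.basis_repr_tmul,
      Finsupp.smul_apply, Finsupp.smul_apply, Finsupp.mapRange_apply, smul_eq_mul,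
      smul_eq_mul, map_mul, zfr_apply, AlgHom.commutes]
  | add x y hx hy =>
    rw [map_add, map_add, map_add, Finsupp.add_apply, Finsupp.add_apply, map_add, hx, hy]

/-- coordinates of the image -/
theorem NFld_tmap (f : A →ₐ[ZMod p] B) (w : Tf p A F) (i : ι) :
    (Algebra.TensorProduct.basis B b).repr (tmap p F f w) i =
      f ((Algebra.TensorProduct.basis A b).repr w i) := by
  induction w using TensorProduct.induction_on with
  | zero => rw [map_zero, map_zero, map_zero, Finsupp.zero_apply, Finsupp.zero_apply, map_zero]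
  | tmul x c =>
    rw [tmap_tmul, Algebra.TensorProduct.basis_repr_tmul, Algebra.TensorProduct.basis_repr_tmul,
      Finsupp.smul_apply, Finsupp.smul_apply, Finsupp.mapRange_apply, Finsupp.mapRange_apply,
      smul_eq_mul, smul_eq_mul, map_mul, AlgHom.commutes]
  | add x y hx hy =>
    rw [map_add, map_add, map_add, Finsupp.add_apply, Finsupp.add_apply, map_add, hx, hy]

theorem NFld_inj (f : A →ₐ[ZMod p] B) (hf : Function.Injective f) :
    Function.Injective (tmap p F f) := by
  classical
  obtain ⟨c⟩ : Nonempty (Module.Basis (Module.Basis.ofVectorSpaceIndex (ZMod p) F) (ZMod p) F) :=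
    ⟨Module.Basis.ofVectorSpace (ZMod p) F⟩
  have hrep : ∀ (w : Tf p A F) (i), (Algebra.TensorProduct.basis B c).repr (tmap p F f w) i =
      f ((Algebra.TensorProduct.basis A c).repr w i) := by
    intro w i
    induction w using TensorProduct.induction_on with
    | zero => rw [map_zero, map_zero, map_zero, Finsupp.zero_apply, Finsupp.zero_apply, map_zero]
    | tmul x d =>
      rw [tmap_tmul, Algebra.TensorProduct.basis_repr_tmul, Algebra.TensorProduct.basis_repr_tmul,
        Finsupp.smul_apply, Finsupp.smul_apply, Finsupp.mapRange_apply, Finsupp.mapRange_apply,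
        smul_eq_mul, smul_eq_mul, map_mul, AlgHom.commutes]
    | add x y hx hy =>
      rw [map_add, map_add, map_add, Finsupp.add_apply, Finsupp.add_apply, map_add, hx, hy]
  intro x y h
  apply (Algebra.TensorProduct.basis A c).repr.injective
  ext i
  apply hf
  rw [← hrep, ← hrep, h]

/-- an element is determined by its coordinates -/
theorem NFld_ext {x y : Tf p A F}
    (h : ∀ i, (Algebra.TensorProduct.basis A b).repr x i =
      (Algebra.TensorProduct.basis A b).repr y i) : x = y := by
  apply (Algebra.TensorProduct.basis A b).repr.injective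
  ext i
  exact h i

/-- if the coordinates are in the range of `f` then the element is in the range of `tmap f` -/
theorem NFld_lift (f : A →ₐ[ZMod p] B) (w : Tf p B F)
    (h : ∀ i, ∃ a : A, f a = (Algebra.TensorProduct.basis B b).repr w i) :
    ∃ v : Tf p A F, tmap p F f v = w := by
  choose a ha using h
  refine ⟨∑ i, a i • (Algebra.TensorProduct.basis A b) i, ?_⟩
  apply NFld_ext p b
  intro i
  rw [NFld_tmap, ← ha i]
  have h1 := (Algebra.TensorProduct.basis A b).repr_sum_self a
  rw [h1]

/-- multiplication in coordinates -/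
theorem NFld_mul (w z : Tf p A F) (i : ι) :
    (Algebra.TensorProduct.basis A b).repr (w * z) i =
      ∑ l, Algebra.leftMulMatrix (Algebra.TensorProduct.basis A b) w i l *
        (Algebra.TensorProduct.basis A b).repr z l := by
  rw [← Algebra.leftMulMatrix_mulVec_repr]
  rfl

theorem NFld_lmm (f : A →ₐ[ZMod p] B) (w : Tf p A F) (i l : ι) :
    Algebra.leftMulMatrix (Algebra.TensorProduct.basis B b) (tmap p F f w) i l =
      f (Algebra.leftMulMatrix (Algebra.TensorProduct.basis A b) w i l) := by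
  rw [Algebra.leftMulMatrix_eq_repr_mul, Algebra.leftMulMatrix_eq_repr_mul, ← NFld_tmap,
    map_mul (tmap p F f)]
  have h1 : tmap p F f ((Algebra.TensorProduct.basis A b) l) =
      (Algebra.TensorProduct.basis B b) l := by
    rw [Algebra.TensorProduct.basis_apply, Algebra.TensorProduct.basis_apply, tmap_tmul, map_one]
  rw [h1]

/-- the block matrix of a matrix over `A ⊗ F` -/
noncomputable def NFldBig (A : Type) [CommRing A] [Algebra (ZMod p) A] (n : ℕ) :
    Matrix (Fin n) (Fin n) (Tf p A F) →+* Matrix (Fin n × ι) (Fin n × ι) A :=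
  (Matrix.compRingEquiv (Fin n) ι A).toRingHom.comp
    (Algebra.leftMulMatrix (Algebra.TensorProduct.basis A b)).toRingHom.mapMatrix

theorem NFldBig_apply (n : ℕ) (M : Matrix (Fin n) (Fin n) (Tf p A F)) (c d : Fin n × ι) :
    NFldBig p b A n M c d =
      Algebra.leftMulMatrix (Algebra.TensorProduct.basis A b) (M c.1 d.1) c.2 d.2 := rfl

theorem NFldBig_det (n : ℕ) (M : Sl n (Tf p A F)) :
    IsUnit (NFldBig p b A n (M : Matrix (Fin n) (Fin n) (Tf p A F))).det := by
  rw [← Matrix.isUnit_iff_isUnit_det]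
  apply IsUnit.map
  rw [Matrix.isUnit_iff_isUnit_det, M.2]
  exact isUnit_one

/-- the coordinates of a solution satisfy the Frobenius equation -/
theorem NFld_eq (f : A →ₐ[ZMod p] B) (n : ℕ) (M : Sl n (Tf p A F)) (Y : Sl n (Tf p B F))
    (h : Matrix.SpecialLinearGroup.map (phi p B F) Y =
      Matrix.SpecialLinearGroup.map (tmap p F f) M * Y) (j : Fin n) (c : Fin n × ι) :
    ((Algebra.TensorProduct.basis B b).repr ((Y : Matrix (Fin n) (Fin n) (Tf p B F)) c.1 j) c.2)
        ^ p =
      ∑ d, f (NFldBig p b A n (M : Matrix (Fin n) (Fin n) (Tf p A F)) c d) *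
        (Algebra.TensorProduct.basis B b).repr
          ((Y : Matrix (Fin n) (Fin n) (Tf p B F)) d.1 j) d.2 := by
  rw [← NFld_phi]
  have h1 : phi p B F ((Y : Matrix (Fin n) (Fin n) (Tf p B F)) c.1 j) =
      ∑ k, tmap p F f ((M : Matrix (Fin n) (Fin n) (Tf p A F)) c.1 k) *
        (Y : Matrix (Fin n) (Fin n) (Tf p B F)) k j := by
    have h2 := congrArg (fun N : Sl n (Tf p B F) =>
      (N : Matrix (Fin n) (Fin n) (Tf p B F)) c.1 j) h
    exact h2
  rw [h1, map_sum, Finsupp.finsetSum_apply, Fintype.sum_prod_type]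
  refine Finset.sum_congr rfl fun k _ => ?_
  rw [NFld_mul]
  refine Finset.sum_congr rfl fun l _ => ?_
  rw [NFld_lmm, NFldBig_apply]

end coords

section core

variable (p : ℕ) [Fact p.Prime] {F : Type} [Field F] [Algebra (ZMod p) F] {m : ℕ}
  (b : Module.Basis (Fin m) (ZMod p) F) (U : Type) [Field U] [Algebra (Fx p) U]
  [Algebra (Rx p) U] [IsScalarTower (Rx p) (Fx p) U] [Algebra (ZMod p) U] (n : ℕ)
  (M : Sl n (Tf p (Rx p) F)) (Y : Sl n (Tf p U F))

/-- the coordinates of `Y` -/
noncomputable def NFldY (c : Fin n × Fin n × Fin m) : U :=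
  (Algebra.TensorProduct.basis U b).repr
    ((Y : Matrix (Fin n) (Fin n) (Tf p U F)) c.1 c.2.1) c.2.2

/-- the structure map -/
noncomputable def NFldA : Rx p →ₐ[ZMod p] U :=
  { algebraMap (Rx p) U with
    commutes' := fun r => by
      have h : ((algebraMap (Rx p) U).comp (algebraMap (ZMod p) (Rx p))) =
        algebraMap (ZMod p) U := RingHom.ext_zmod _ _
      exact congrArg (fun g : ZMod p →+* U => g r) h }

theorem NFldA_apply (f : Rx p) : NFldA p U f = algebraMap (Rx p) U f := rfl

variable {U n M Y}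

theorem NFld_frob (hY : Matrix.SpecialLinearGroup.map (phi p U F) Y =
      Matrix.SpecialLinearGroup.map (tmap p F (NFldA p U)) M * Y) (j : Fin n)
    (c : Fin n × Fin m) :
    NFldY p b U n Y (c.1, j, c.2) ^ p = ∑ d : Fin n × Fin m, algebraMap (Rx p) U
      (NFldBig p b (Rx p) n (M : Matrix (Fin n) (Fin n) (Tf p (Rx p) F)) c d) *
        NFldY p b U n Y (d.1, j, d.2) :=
  NFld_eq p b (NFldA p U) n M Y hY j c

theorem NFld_int (hY : Matrix.SpecialLinearGroup.map (phi p U F) Y =
      Matrix.SpecialLinearGroup.map (tmap p F (NFldA p U)) M * Y)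
    (c : Fin n × Fin n × Fin m) : IsIntegral (Rx p) (NFldY p b U n Y c) := by
  classical
  obtain ⟨N, ⟨e⟩⟩ := Finite.exists_equiv_fin (Fin n × Fin m)
  obtain ⟨i, j, l⟩ := c
  have h := int_of_frob (Rx p) U (N := N) (p := p) (Fact.out : p.Prime).two_le
    (fun k => NFldY p b U n Y ((e.symm k).1, j, (e.symm k).2))
    (Matrix.reindex e e (NFldBig p b (Rx p) n
      (M : Matrix (Fin n) (Fin n) (Tf p (Rx p) F)))) (fun k => by
      rw [NFld_frob p b hY j (e.symm k)]
      rw [← Equiv.sum_comp e]
      refine Finset.sum_congr rfl fun d _ => ?_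
      rw [Equiv.symm_apply_apply, Matrix.reindex_apply, Matrix.submatrix_apply,
        Equiv.symm_apply_apply]) (e (i, l))
  simpa only [Equiv.symm_apply_apply] using h

theorem NFld_sep (hY : Matrix.SpecialLinearGroup.map (phi p U F) Y =
      Matrix.SpecialLinearGroup.map (tmap p F (NFldA p U)) M * Y)
    (c : Fin n × Fin n × Fin m) : IsSeparable (Fx p) (NFldY p b U n Y c) := by
  classical
  have : CharP (Fx p) p := charP_of_injective_algebraMap
    (algebraMap (ZMod p) (Fx p)).injective p
  obtain ⟨N, ⟨e⟩⟩ := Finite.exists_equiv_fin (Fin n × Fin m)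
  obtain ⟨i, j, l⟩ := c
  have h := sep_of_frob p (Fx p) U (N := N)
    (fun k => NFldY p b U n Y ((e.symm k).1, j, (e.symm k).2))
    ((algebraMap (Rx p) (Fx p)).mapMatrix (Matrix.reindex e e (NFldBig p b (Rx p) n
      (M : Matrix (Fin n) (Fin n) (Tf p (Rx p) F))))) (by
      rw [← RingHom.map_det, Matrix.det_reindex_self]
      exact (NFldBig_det p b n M).map _) (fun k => by
      rw [NFld_frob p b hY j (e.symm k)]
      rw [← Equiv.sum_comp e]
      refine Finset.sum_congr rfl fun d _ => ?_
      rw [Equiv.symm_apply_apply, RingHom.mapMatrix_apply, Matrix.map_apply,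
        Matrix.reindex_apply, Matrix.submatrix_apply,
        Equiv.symm_apply_apply, ← IsScalarTower.algebraMap_apply]) (e (i, l))
  simpa only [Equiv.symm_apply_apply] using h

variable (U n Y)

/-- the field generated by the coordinates -/
noncomputable def NFldL : IntermediateField (Fx p) U :=
  IntermediateField.adjoin (Fx p) (Set.range (NFldY p b U n Y))

variable {U n Y}

theorem NFld_mem (c : Fin n × Fin n × Fin m) : NFldY p b U n Y c ∈ NFldL p b U n Y :=
  IntermediateField.subset_adjoin _ _ ⟨c, rfl⟩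

theorem NFld_fin (hY : Matrix.SpecialLinearGroup.map (phi p U F) Y =
      Matrix.SpecialLinearGroup.map (tmap p F (NFldA p U)) M * Y) :
    FiniteDimensional (Fx p) (NFldL p b U n Y) := by
  apply IntermediateField.finiteDimensional_adjoin
  rintro x ⟨c, rfl⟩
  exact (NFld_sep p b hY c).isIntegral

theorem NFld_sepL (hY : Matrix.SpecialLinearGroup.map (phi p U F) Y =
      Matrix.SpecialLinearGroup.map (tmap p F (NFldA p U)) M * Y) :
    Algebra.IsSeparable (Fx p) (NFldL p b U n Y) := by
  unfold NFldL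
  rw [IntermediateField.isSeparable_adjoin_iff_isSeparable]
  rintro x ⟨c, rfl⟩
  exact NFld_sep p b hY c

/-- the inclusion of `L` as a map of `F_p`-algebras -/
noncomputable def NFldZ (K : Type) [Field K] [Algebra (ZMod p) K] (g : K →+* U) :
    K →ₐ[ZMod p] U :=
  { g with
    commutes' := fun r => by
      have h : (g.comp (algebraMap (ZMod p) K)) =
        algebraMap (ZMod p) U := RingHom.ext_zmod _ _
      exact congrArg (fun g : ZMod p →+* U => g r) h }

/-- an automorphism maps the coordinates to `L` -/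
theorem NFld_conj (hY : Matrix.SpecialLinearGroup.map (phi p U F) Y =
      Matrix.SpecialLinearGroup.map (tmap p F (NFldA p U)) M * Y)
    (τ : U →ₐ[Fx p] U) (c : Fin n × Fin n × Fin m) :
    τ (NFldY p b U n Y c) ∈ NFldL p b U n Y := by
  classical
  obtain ⟨t, ht⟩ : ∃ t : U →ₐ[ZMod p] U, ∀ z, t z = τ z :=
    ⟨NFldZ p U (τ : U →+* U), fun _ => rfl⟩
  have htA : t.comp (NFldA p U) = NFldA p U := by
    apply AlgHom.ext
    intro f
    rw [AlgHom.comp_apply, ht, NFldA_apply, IsScalarTower.algebraMap_apply (Rx p) (Fx p) U,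
      AlgHom.commutes]
  obtain ⟨Y1, hY1⟩ : ∃ Y1, Y1 = Matrix.SpecialLinearGroup.map (tmap p F t) Y := ⟨_, rfl⟩
  have hcomm : ∀ Z : Sl n (Tf p U F),
      Matrix.SpecialLinearGroup.map (tmap p F t) (Matrix.SpecialLinearGroup.map (phi p U F) Z) =
      Matrix.SpecialLinearGroup.map (phi p U F)
        (Matrix.SpecialLinearGroup.map (tmap p F t) Z) := by
    intro Z
    apply Subtype.ext
    ext i j
    exact phi_tmap p U U F t _
  have hcomp : Matrix.SpecialLinearGroup.map (tmap p F t)
      (Matrix.SpecialLinearGroup.map (tmap p F (NFldA p U)) M) =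
        Matrix.SpecialLinearGroup.map (tmap p F (NFldA p U)) M := by
    apply Subtype.ext
    ext i j
    have hz : ∀ z : Tf p (Rx p) F, tmap p F t (tmap p F (NFldA p U) z) =
        tmap p F (NFldA p U) z := by
      intro z
      induction z using TensorProduct.induction_on with
      | zero => simp only [map_zero]
      | tmul x c =>
        rw [tmap_tmul, tmap_tmul]
        have h3 := congrArg (fun g : Rx p →ₐ[ZMod p] U => g x) htA
        rw [show t (NFldA p U x) = NFldA p U x from h3]
      | add x y hx hy => rw [map_add, map_add, hx, hy]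
    exact hz _
  have hY1e : Matrix.SpecialLinearGroup.map (phi p U F) Y1 =
      Matrix.SpecialLinearGroup.map (tmap p F (NFldA p U)) M * Y1 := by
    rw [hY1, ← hcomm, hY, map_mul, hcomp]
  obtain ⟨g, hg⟩ := sl_fixed p U F n (Y⁻¹ * Y1) (by
    rw [map_mul, map_inv, hY, hY1e]
    group)
  have hY1g : Y1 = Y * Matrix.SpecialLinearGroup.map (inF p U F) g := by
    rw [← hg]
    group
  -- everything is in the range of `L`
  obtain ⟨v, hv⟩ : ∃ v : NFldL p b U n Y →ₐ[ZMod p] U, ∀ z, v z = (z : U) :=
    ⟨NFldZ p _ (algebraMap (NFldL p b U n Y) U), fun _ => rfl⟩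
  have hYr : ∀ i j, ∃ w, tmap p F v w = (Y : Matrix (Fin n) (Fin n) (Tf p U F)) i j := by
    intro i j
    apply NFld_lift p b
    intro l
    exact ⟨⟨_, NFld_mem p b (i, j, l)⟩, hv _⟩
  choose w hw using hYr
  obtain ⟨i, j, l⟩ := c
  have h1 : (Y1 : Matrix (Fin n) (Fin n) (Tf p U F)) i j =
      tmap p F v (∑ k, w i k * inF p _ F (g.1 k j)) := by
    rw [hY1g, map_sum]
    have h4 : (↑(Y * Matrix.SpecialLinearGroup.map (inF p U F) g) :
        Matrix (Fin n) (Fin n) (Tf p U F)) i j =
        ∑ k, (Y : Matrix (Fin n) (Fin n) (Tf p U F)) i k * inF p U F (g.1 k j) := rfl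
    rw [h4]
    refine Finset.sum_congr rfl fun k _ => ?_
    rw [map_mul, hw, tmap_inF]
  have h2 : τ (NFldY p b U n Y (i, j, l)) = (Algebra.TensorProduct.basis U b).repr
      ((Y1 : Matrix (Fin n) (Fin n) (Tf p U F)) i j) l := by
    rw [hY1]
    have h5 : (↑(Matrix.SpecialLinearGroup.map (tmap p F t) Y) :
        Matrix (Fin n) (Fin n) (Tf p U F)) i j =
        tmap p F t ((Y : Matrix (Fin n) (Fin n) (Tf p U F)) i j) := rfl
    rw [h5, NFld_tmap, ht]
    rfl
  rw [h2, h1, NFld_tmap, hv]
  exact SetLike.coe_mem _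

theorem NFld_norm [Normal (Fx p) U]
    (hY : Matrix.SpecialLinearGroup.map (phi p U F) Y =
      Matrix.SpecialLinearGroup.map (tmap p F (NFldA p U)) M * Y) :
    Normal (Fx p) (NFldL p b U n Y) := by
  rw [IntermediateField.normal_iff_forall_map_le]
  intro σ
  have h1 : (NFldL p b U n Y).map σ =
      IntermediateField.adjoin (Fx p) (σ '' Set.range (NFldY p b U n Y)) :=
    IntermediateField.adjoin_map _ _ σ
  rw [h1, IntermediateField.adjoin_le_iff]
  rintro x ⟨_, ⟨c, rfl⟩, rfl⟩
  exact NFld_conj p b hY σ c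

/-- descent of the solution to a ring which contains the coordinates -/
theorem NFld_desc (hY : Matrix.SpecialLinearGroup.map (phi p U F) Y =
      Matrix.SpecialLinearGroup.map (tmap p F (NFldA p U)) M * Y)
    (O : Type) [CommRing O] [Algebra (ZMod p) O] (π : Rx p →ₐ[ZMod p] O) (κ : O →ₐ[ZMod p] U)
    (hκi : Function.Injective κ) (hκπ0 : ∀ f, κ (π f) = NFldA p U f)
    (y : Fin n × Fin n × Fin m → O) (hy : ∀ c, κ (y c) = NFldY p b U n Y c) :
    ∃ Z : Sl n (Tf p O F),
      Matrix.SpecialLinearGroup.map (phi p O F) Z =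
        Matrix.SpecialLinearGroup.map (tmap p F π) M * Z ∧
      ∀ θ : O →ₐ[ZMod p] O, Matrix.SpecialLinearGroup.map (tmap p F θ) Z = Z →
        ∀ c, θ (y c) = y c := by
  classical
  have hκπ : ∀ z : Tf p (Rx p) F, tmap p F κ (tmap p F π z) = tmap p F (NFldA p U) z := by
    intro z
    induction z using TensorProduct.induction_on with
    | zero => simp only [map_zero]
    | tmul x c => rw [tmap_tmul, tmap_tmul, tmap_tmul, hκπ0]
    | add x y hx hy => rw [map_add, map_add, map_add, hx, hy]
  have hki := NFld_inj p (F := F) κ hκi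
  have hYr : ∀ i j, ∃ w, tmap p F κ w = (Y : Matrix (Fin n) (Fin n) (Tf p U F)) i j := by
    intro i j
    apply NFld_lift p b
    intro l
    exact ⟨y (i, j, l), hy _⟩
  choose w hw using hYr
  have hmapw : (tmap p F κ).mapMatrix (Matrix.of w) =
      (Y : Matrix (Fin n) (Fin n) (Tf p U F)) := by
    ext i j
    exact hw i j
  have hdet : (Matrix.of w).det = 1 := by
    apply hki
    rw [RingHom.map_det, hmapw, Y.2, map_one]
  -- the coordinates of `w`
  have hco : ∀ i j l, (Algebra.TensorProduct.basis O b).repr (w i j) l = y (i, j, l) := by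
    intro i j l
    apply hκi
    rw [← NFld_tmap, hw, hy]
    rfl
  refine ⟨⟨Matrix.of w, hdet⟩, ?_, ?_⟩
  · apply Subtype.ext
    ext i j
    apply hki
    have h1 := congrArg (fun N : Sl n (Tf p U F) =>
      (N : Matrix (Fin n) (Fin n) (Tf p U F)) i j) hY
    have h2 : tmap p F κ (phi p O F (w i j)) =
        phi p U F ((Y : Matrix (Fin n) (Fin n) (Tf p U F)) i j) := by
      rw [phi_tmap, hw]
    have h3 : tmap p F κ (∑ k, tmap p F π
        ((M : Matrix (Fin n) (Fin n) (Tf p (Rx p) F)) i k) * w k j) =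
        ∑ k, tmap p F (NFldA p U) ((M : Matrix (Fin n) (Fin n) (Tf p (Rx p) F)) i k) *
          (Y : Matrix (Fin n) (Fin n) (Tf p U F)) k j := by
      rw [map_sum]
      refine Finset.sum_congr rfl fun k _ => ?_
      rw [map_mul, hκπ, hw]
    exact h2.trans (h1.trans h3.symm)
  · rintro θ hfix ⟨i, j, l⟩
    have h2 : tmap p F θ (w i j) = w i j := by
      have h3 := congrArg (fun N : Sl n (Tf p O F) =>
        (N : Matrix (Fin n) (Fin n) (Tf p O F)) i j) hfix
      exact h3
    rw [← hco, ← NFld_tmap, h2]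

include b in
theorem NFld_main [Normal (Fx p) U]
    (hY : Matrix.SpecialLinearGroup.map (phi p U F) Y =
      Matrix.SpecialLinearGroup.map (tmap p F (NFldA p U)) M * Y) :
    ∃ (L : Type) (_ : Field L) (_ : Algebra (Fx p) L) (_ : Algebra (Rx p) L)
      (_ : IsScalarTower (Rx p) (Fx p) L) (_ : Algebra (ZMod p) (Oc p L))
      (π : Rx p →ₐ[ZMod p] Oc p L) (Y : Sl n (Tf p (Oc p L) F)),
      FiniteDimensional (Fx p) L ∧ IsGalois (Fx p) L ∧
      (∀ f, π f = algebraMap (Rx p) (Oc p L) f) ∧
      Matrix.SpecialLinearGroup.map (phi p (Oc p L) F) Y =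
        Matrix.SpecialLinearGroup.map (tmap p F π) M * Y ∧
      (∀ (τ : Gl p L) (θ : Oc p L →ₐ[ZMod p] Oc p L), (∀ z, θ z = act p L τ z) →
        Matrix.SpecialLinearGroup.map (tmap p F θ) Y = Y → τ = 1) := by
  classical
  have hfin := NFld_fin p b hY
  have hsep := NFld_sepL p b hY
  have hnor := NFld_norm p b hY
  obtain ⟨L, hL⟩ : ∃ L, L = NFldL p b U n Y := ⟨_, rfl⟩
  have hmem : ∀ c, NFldY p b U n Y c ∈ L := by
    rw [hL]
    exact NFld_mem p b
  have hadj : L = IntermediateField.adjoin (Fx p) (Set.range (NFldY p b U n Y)) := hL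
  rw [← hL] at hfin hsep hnor
  have hval : Function.Injective (algebraMap L U) := (algebraMap L U).injective
  -- the algebra structure
  let iZ : Algebra (ZMod p) (Oc p L) :=
    ((algebraMap (Rx p) (Oc p L)).comp (Polynomial.C : ZMod p →+* Rx p)).toAlgebra
  -- the structure map
  obtain ⟨π, hπ⟩ : ∃ π : Rx p →ₐ[ZMod p] Oc p L, ∀ f, π f = algebraMap (Rx p) (Oc p L) f :=
    ⟨{ algebraMap (Rx p) (Oc p L) with commutes' := fun _ => rfl }, fun _ => rfl⟩
  -- the inclusion in `U`
  obtain ⟨κ, hκ⟩ : ∃ κ : Oc p L →ₐ[ZMod p] U, ∀ z, κ z = algebraMap L U (z : L) :=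
    ⟨{ (algebraMap L U).comp (algebraMap (Oc p L) L) with
        commutes' := fun r => by
          have h : (((algebraMap L U).comp (algebraMap (Oc p L) L)).comp
              (algebraMap (ZMod p) (Oc p L))) = algebraMap (ZMod p) U := RingHom.ext_zmod _ _
          exact congrArg (fun g : ZMod p →+* U => g r) h }, fun _ => rfl⟩
  have hκi : Function.Injective κ := by
    intro x y h
    rw [hκ, hκ] at h
    exact Subtype.ext (hval h)
  -- the coordinates are integers
  have hint : ∀ c, IsIntegral (Rx p) (⟨NFldY p b U n Y c, hmem c⟩ : L) := by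
    intro c
    have h := NFld_int p b hY c
    have h2 := isIntegral_algHom_iff ((L.val).restrictScalars (Rx p)) (RingHom.injective _)
      (x := (⟨NFldY p b U n Y c, hmem c⟩ : L))
    exact h2.mp h
  obtain ⟨Z, hZ1, hZ2⟩ := NFld_desc p b hY (Oc p L) π κ hκi
    (fun f => by rw [hκ, hπ, NFldA_apply]; rfl) (fun c => ⟨⟨_, hmem c⟩, hint c⟩)
    (fun c => hκ _)
  refine ⟨L, inferInstance, inferInstance, inferInstance, inferInstance, iZ, π,
    Z, hfin, ⟨⟩, hπ, hZ1, ?_⟩
  intro τ θ hθ hfix
  have h1 : ∀ c, τ ⟨NFldY p b U n Y c, hmem c⟩ = ⟨NFldY p b U n Y c, hmem c⟩ := by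
    intro c
    have h4 := congrArg (fun z : Oc p L => (z : L)) (hZ2 θ hfix c)
    simp only [] at h4
    rw [hθ, act_coe] at h4
    exact h4
  have h5 : (τ : L →ₐ[Fx p] L) = AlgHom.id (Fx p) L := by
    apply IntermediateField.algHom_ext_of_eq_adjoin (F := Fx p) hadj
    rintro x ⟨c, rfl⟩
    exact h1 c
  apply AlgEquiv.ext
  intro x
  exact congrArg (fun g : L →ₐ[Fx p] L => g x) h5

end core

/-- `L` is generated by the coordinates of `Y` -/
theorem sl_fld (p : ℕ) [Fact p.Prime] (F : Type) [Field F] [Finite F] [Algebra (ZMod p) F]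
    (n : ℕ) (M : Sl n (Tf p (Rx p) F)) :
    ∃ (L : Type) (_ : Field L) (_ : Algebra (Fx p) L) (_ : Algebra (Rx p) L)
      (_ : IsScalarTower (Rx p) (Fx p) L) (_ : Algebra (ZMod p) (Oc p L))
      (π : Rx p →ₐ[ZMod p] Oc p L) (Y : Sl n (Tf p (Oc p L) F)),
      FiniteDimensional (Fx p) L ∧ IsGalois (Fx p) L ∧
      (∀ f, π f = algebraMap (Rx p) (Oc p L) f) ∧
      Matrix.SpecialLinearGroup.map (phi p (Oc p L) F) Y =
        Matrix.SpecialLinearGroup.map (tmap p F π) M * Y ∧
      (∀ (τ : Gl p L) (θ : Oc p L →ₐ[ZMod p] Oc p L), (∀ z, θ z = act p L τ z) →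
        Matrix.SpecialLinearGroup.map (tmap p F θ) Y = Y → τ = 1) := by
  have : Module.Finite (ZMod p) F := Module.Finite.of_finite
  obtain ⟨b⟩ : Nonempty (Module.Basis (Fin (Module.finrank (ZMod p) F)) (ZMod p) F) :=
    ⟨Module.finBasis (ZMod p) F⟩
  obtain ⟨Y0, hY0⟩ := lang p (AlgebraicClosure (Fx p)) F n
    (Matrix.SpecialLinearGroup.map (tmap p F (NFldA p (AlgebraicClosure (Fx p)))) M)
  exact NFld_main p b hY0

end Pool.Agent.AB3
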