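import Pool.Agent.Lib.MP_5de024_nt.S.V.NPhi
import Pool.Agent.Lib.MP_5de024_nt.S.V.NFix

/-!
# Lang's theorem for `SL_n` (N1)
-/

set_option autoImplicit false
set_option linter.unusedSectionVars false

namespace Pool.Agent.AB3

open Pool.Agent.AB Polynomial TensorProduct

/-- correction of the determinant: an invertible solution can be multiplied by a diagonal matrix
with fixed entries to get determinant `1` -/
theorem nlang_diag {T : Type} [CommRing T] (φ : T →+* T) (n : ℕ) (d : T) (hd : IsUnit d)
    (hφ : φ d = d) (hn : n = 0 → d = 1) :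
    ∃ D : Matrix (Fin n) (Fin n) T, D.map φ = D ∧ D.det * d = 1 := by
  obtain ⟨u, rfl⟩ := hd
  have hu : φ ((u⁻¹ : Tˣ) : T) = ((u⁻¹ : Tˣ) : T) := by
    have h1 : φ ((u⁻¹ : Tˣ) : T) * (u : T) = 1 := by
      conv_lhs => rw [← hφ]
      rw [← map_mul, Units.inv_mul, map_one]
    calc φ ((u⁻¹ : Tˣ) : T) = φ ((u⁻¹ : Tˣ) : T) * (u : T) * ((u⁻¹ : Tˣ) : T) := by
          rw [mul_assoc, Units.mul_inv, mul_one]
      _ = ((u⁻¹ : Tˣ) : T) := by rw [h1, one_mul]
  rcases n with _ | n
  · refine ⟨1, ?_, ?_⟩
    · ext i
      exact i.elim0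
    · rw [Matrix.det_one, one_mul]
      exact hn rfl
  · refine ⟨Matrix.diagonal (Function.update 1 0 ((u⁻¹ : Tˣ) : T)), ?_, ?_⟩
    · rw [Matrix.diagonal_map (map_zero φ)]
      congr 1
      funext i
      by_cases hi : i = 0
      · subst hi
        simp [hu]
      · simp [Function.update_of_ne hi]
    · rw [Matrix.det_diagonal, Finset.prod_update_of_mem (Finset.mem_univ _)]
      simp

theorem nlang_phi_inj (p : ℕ) [Fact p.Prime] (U F : Type) [Field U] [Algebra (ZMod p) U]
    [Field F] [Algebra (ZMod p) F] : Function.Injective (phi p U F) := by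
  have h1 : Function.Injective (zfr p U).toLinearMap := by
    have : CharP U p := charP_of_injective_algebraMap (algebraMap (ZMod p) U).injective p
    intro a b hab
    have h2 : a ^ p = b ^ p := by
      rw [← zfr_apply p U a, ← zfr_apply p U b]
      exact hab
    exact frobenius_inj U p h2
  have h2 := Module.Flat.rTensor_preserves_injective_linearMap (M := F) (zfr p U).toLinearMap h1
  intro x y hxy
  exact h2 hxy

theorem lang (p : ℕ) [Fact p.Prime] (U F : Type) [Field U] [IsAlgClosed U]
    [Algebra (ZMod p) U] [Field F] [Finite F] [Algebra (ZMod p) F] (n : ℕ)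
    (M : Sl n (Tf p U F)) :
    ∃ Y : Sl n (Tf p U F), Matrix.SpecialLinearGroup.map (phi p U F) Y = M * Y := by
  classical
  have hch : CharP U p := charP_of_injective_algebraMap (algebraMap (ZMod p) U).injective p
  have hfin : Module.Finite (ZMod p) F := Module.Finite.of_finite
  let T : Type := Tf p U F
  let V : Type := Fin n → Tf p U F
  let φ : Tf p U F →+* Tf p U F := phi p U F
  have hMM : (M : Matrix (Fin n) (Fin n) (Tf p U F)) *
      (M⁻¹ : Sl n (Tf p U F)).1 = 1 := by
    rw [← Matrix.SpecialLinearGroup.coe_mul, mul_inv_cancel, Matrix.SpecialLinearGroup.coe_one]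
  have hMM' : (M⁻¹ : Sl n (Tf p U F)).1 *
      (M : Matrix (Fin n) (Fin n) (Tf p U F)) = 1 := by
    rw [← Matrix.SpecialLinearGroup.coe_mul, inv_mul_cancel, Matrix.SpecialLinearGroup.coe_one]
  let Ψ : V →+ V :=
    { toFun := fun v => (M⁻¹ : Sl n (Tf p U F)).1.mulVec (fun i => φ (v i))
      map_zero' := by
        have : (fun i : Fin n => φ ((0 : V) i)) = 0 := by
          funext i
          exact map_zero φ
        rw [this, Matrix.mulVec_zero]
      map_add' := fun v w => by
        have : (fun i : Fin n => φ ((v + w) i)) = (fun i => φ (v i)) + fun i => φ (w i) := by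
          funext i
          exact map_add φ _ _
        rw [this, Matrix.mulVec_add] }
  have hΨ : ∀ v, Ψ v = (M⁻¹ : Sl n (Tf p U F)).1.mulVec (fun i => φ (v i)) := fun v => rfl
  have hΨT : ∀ (a : Tf p U F) (v : V), Ψ (a • v) = φ a • Ψ v := by
    intro a v
    rw [hΨ, hΨ]
    have : (fun i : Fin n => φ ((a • v) i)) = φ a • fun i => φ (v i) := by
      funext i
      exact map_mul φ _ _
    rw [this, Matrix.mulVec_smul]
  have hUT : ∀ (a : U) (v : V), a • v = (a ⊗ₜ[ZMod p] (1 : F) : Tf p U F) • v := by
    intro a v
    funext i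
    show a • v i = (a ⊗ₜ[ZMod p] (1 : F) : Tf p U F) * v i
    rw [Algebra.smul_def]
    rfl
  have hs : ∀ (a : U) (v : V), Ψ (a • v) = a ^ p • Ψ v := by
    intro a v
    rw [hUT, hΨT, hUT]
    congr 1
    exact phi_tmul p U F a 1
  have hi : Function.Injective Ψ := by
    intro v w hvw
    have h1 : (fun i => φ (v i)) = fun i => φ (w i) := by
      have h2 := congrArg (fun z : V => (M : Matrix (Fin n) (Fin n) (Tf p U F)).mulVec z) hvw
      simp only [hΨ, Matrix.mulVec_mulVec, hMM, Matrix.one_mulVec] at h2
      exact h2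
    funext i
    exact nlang_phi_inj p U F (congrFun h1 i)
  have hfix : ∀ v : V, Ψ v = v ↔
      (fun i => φ (v i)) = (M : Matrix (Fin n) (Fin n) (Tf p U F)).mulVec v := by
    intro v
    rw [hΨ]
    constructor
    · intro h
      have h2 := congrArg (fun z : V => (M : Matrix (Fin n) (Fin n) (Tf p U F)).mulVec z) h
      simp only [Matrix.mulVec_mulVec, hMM, Matrix.one_mulVec] at h2
      exact h2
    · intro h
      rw [h, Matrix.mulVec_mulVec, hMM', Matrix.one_mulVec]
  -- the structure over `F`
  let instF : Module F V := Module.compHom V (inF p U F)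
  have hFT : ∀ (c : F) (v : V), c • v = inF p U F c • v := fun c v => rfl
  have htower : IsScalarTower (ZMod p) F V := ⟨fun a c v => by
    rw [hFT, hFT]
    have : inF p U F (a • c) = a • inF p U F c :=
      map_smul (Algebra.TensorProduct.includeRight : F →ₐ[ZMod p] U ⊗[ZMod p] F) a c
    rw [this]
    funext i
    exact smul_mul_assoc _ _ _⟩
  let V0 : Submodule F V :=
    { carrier := {v | Ψ v = v}
      add_mem' := fun {v w} hv hw => by
        show Ψ (v + w) = v + w
        rw [map_add, show Ψ v = v from hv, show Ψ w = w from hw]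
      zero_mem' := map_zero Ψ
      smul_mem' := fun c v hv => by
        show Ψ (c • v) = c • v
        rw [hFT, hΨT, show Ψ v = v from hv]
        congr 1
        exact phi_inF p U F c }
  have hspan := fix_span p U V Ψ hs hi
  let b := Module.Basis.ofVectorSpace F V0
  let c := Module.finBasis (ZMod p) F
  let J := Module.Basis.ofVectorSpaceIndex F V0
  have hli : LinearIndependent (ZMod p) (fun x : Fin (Module.finrank (ZMod p) F) × J =>
      ((c.smulTower b x : V0) : V)) := by
    have h1 := (c.smulTower b).linearIndependent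
    exact h1.map' (V0.subtype.restrictScalars (ZMod p)) (by
      rw [LinearMap.ker_eq_bot]
      exact Subtype.val_injective)
  have hliU := fix_indep p U V Ψ hs hi _ (fun x => (c.smulTower b x).2) hli
  have hVrank : Module.finrank U V = n * Module.finrank (ZMod p) F := by
    have h1 : Module.finrank U (Tf p U F) = Module.finrank (ZMod p) F :=
      Module.finrank_baseChange
    show Module.finrank U (Fin n → Tf p U F) = _
    rw [Module.finrank_pi_fintype, Finset.sum_const, Finset.card_univ, Fintype.card_fin, h1,
      smul_eq_mul]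
  have hm : 0 < Module.finrank (ZMod p) F := Module.finrank_pos
  have hFinPr : Finite (Fin (Module.finrank (ZMod p) F) × J) := hliU.finite
  have hFinJ : Finite J := by
    have : Nonempty (Fin (Module.finrank (ZMod p) F)) := ⟨⟨0, hm⟩⟩
    exact Finite.prod_right (Fin (Module.finrank (ZMod p) F))
  have : Fintype J := Fintype.ofFinite J
  have hcard : Fintype.card J ≤ n := by
    have h1 := hliU.fintype_card_le_finrank
    rw [hVrank, Fintype.card_prod, Fintype.card_fin, mul_comm n] at h1
    exact Nat.le_of_mul_le_mul_left h1 hm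
  obtain ⟨e⟩ : Nonempty (J ↪ Fin n) := by
    rw [Function.Embedding.nonempty_iff_card_le]
    simpa using hcard
  let col : Fin n → V := Function.extend e (fun j => ((b j : V0) : V)) 0
  have hcol : ∀ k, Ψ (col k) = col k := by
    intro k
    by_cases hk : ∃ j, e j = k
    · obtain ⟨j, rfl⟩ := hk
      have h1 : col (e j) = ((b j : V0) : V) := e.injective.extend_apply _ _ _
      rw [h1]
      exact (b j).2
    · have h1 : col k = 0 := Function.extend_apply' _ _ _ hk
      rw [h1, map_zero]
  let Y0 : Matrix (Fin n) (Fin n) (Tf p U F) := Matrix.of fun i k => col k i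
  have hY0 : Y0.map φ = (M : Matrix (Fin n) (Fin n) (Tf p U F)) * Y0 := by
    ext i k
    exact congrFun ((hfix (col k)).1 (hcol k)) i
  -- the columns span
  have hsurj : ∀ w : V, ∃ x : V, Y0.mulVec x = w := by
    let W : Submodule U V := ((LinearMap.range Y0.mulVecLin).restrictScalars U)
    have hW : ∀ v : V, Ψ v = v → v ∈ W := by
      intro v hv
      have h1 : (⟨v, hv⟩ : V0) ∈ Submodule.span F (Set.range b) := by
        rw [b.span_eq]
        trivial
      have h2 : ∀ u : V0, u ∈ Submodule.span F (Set.range b) → (u : V) ∈ W := by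
        intro u hu
        induction hu using Submodule.span_induction with
        | mem x hx =>
          obtain ⟨j, rfl⟩ := hx
          refine ⟨Pi.single (e j) 1, ?_⟩
          show Y0.mulVec (Pi.single (e j) 1) = _
          rw [Matrix.mulVec_single_one]
          exact e.injective.extend_apply (fun j => ((b j : V0) : V)) 0 j
        | zero => exact W.zero_mem
        | add x y _ _ hx hy => exact W.add_mem hx hy
        | smul a x _ hx =>
          obtain ⟨z, hz⟩ := hx
          refine ⟨inF p U F a • z, ?_⟩
          rw [map_smul, hz]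
          rfl
      exact h2 _ h1
    intro w
    have h1 : w ∈ W := by
      have h2 : Submodule.span U {v : V | Ψ v = v} ≤ W := Submodule.span_le.2 hW
      apply h2
      rw [hspan]
      trivial
    exact h1
  choose B hB using fun k : Fin n => hsurj (Pi.single k 1)
  have hYB : Y0 * Matrix.of (fun i k => B k i) = 1 := by
    ext i k
    have h1 := congrFun (hB k) i
    have h2 : (Y0 * Matrix.of (fun i k => B k i)) i k = Y0.mulVec (B k) i := rfl
    rw [h2, h1, Matrix.one_apply, Pi.single_apply]
  have hdet : IsUnit Y0.det := Matrix.isUnit_det_of_right_inverse hYB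
  have hφd : φ Y0.det = Y0.det := by
    rw [RingHom.map_det, RingHom.mapMatrix_apply, hY0, Matrix.det_mul, M.2, one_mul]
  obtain ⟨D, hD, hD'⟩ := nlang_diag φ n Y0.det hdet hφd (by
    intro h
    subst h
    exact Matrix.det_fin_zero)
  refine ⟨⟨Y0 * D, by rw [Matrix.det_mul, mul_comm]; exact hD'⟩, ?_⟩
  apply Subtype.ext
  show (Y0 * D).map φ = (M : Matrix (Fin n) (Fin n) (Tf p U F)) * (Y0 * D)
  rw [Matrix.map_mul, hY0, hD, Matrix.mul_assoc]

end Pool.Agent.AB3
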