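import Pool.Agent.Lib.MP_5de024_nt.S.V.NDef

/-!
# Fixed elements (N0)
-/

set_option autoImplicit false
set_option linter.unusedSectionVars false

namespace Pool.Agent.AB3

open Pool.Agent.AB Polynomial TensorProduct

/-- roots of `z ^ p = z` in a domain are constants -/
theorem NPhi_pow (p : ℕ) [Fact p.Prime] (A : Type) [CommRing A] [Algebra (ZMod p) A]
    [IsDomain A] (z : A) (hz : z ^ p = z) : ∃ i : ZMod p, z = algebraMap (ZMod p) A i := by
  classical
  have hp : 1 < p := (Fact.out : p.Prime).one_lt
  obtain ⟨g, hg⟩ : ∃ g : Polynomial A, g = Polynomial.X ^ p - Polynomial.X := ⟨_, rfl⟩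
  have hdeg : g.natDegree = p := by
    rw [hg, Polynomial.natDegree_sub_eq_left_of_natDegree_lt, Polynomial.natDegree_X_pow]
    rw [Polynomial.natDegree_X_pow, Polynomial.natDegree_X]
    exact hp
  have hne : g ≠ 0 := by
    intro h
    rw [h, Polynomial.natDegree_zero] at hdeg
    omega
  have hmem : ∀ w : A, w ∈ g.roots.toFinset ↔ w ^ p = w := by
    intro w
    rw [Multiset.mem_toFinset, Polynomial.mem_roots hne, Polynomial.IsRoot.def, hg,
      Polynomial.eval_sub, Polynomial.eval_pow, Polynomial.eval_X, sub_eq_zero]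
  have hsub : (Finset.univ.image (algebraMap (ZMod p) A)) ⊆ g.roots.toFinset := by
    intro w hw
    obtain ⟨i, -, rfl⟩ := Finset.mem_image.mp hw
    refine (hmem _).mpr ?_
    rw [← map_pow, ZMod.pow_card]
  have hcard : (Finset.univ.image (algebraMap (ZMod p) A)).card = p := by
    rw [Finset.card_image_of_injective _ (algebraMap (ZMod p) A).injective, Finset.card_univ,
      ZMod.card]
  have hle : g.roots.toFinset.card ≤ p :=
    (Multiset.toFinset_card_le _).trans ((Polynomial.card_roots' g).trans hdeg.le)
  have heq : Finset.univ.image (algebraMap (ZMod p) A) = g.roots.toFinset :=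
    Finset.eq_of_subset_of_card_le hsub (by rw [hcard]; exact hle)
  have hz' : z ∈ Finset.univ.image (algebraMap (ZMod p) A) := by
    rw [heq]
    exact (hmem z).mpr hz
  obtain ⟨i, -, hi⟩ := Finset.mem_image.mp hz'
  exact ⟨i, hi.symm⟩

variable (p : ℕ) [Fact p.Prime] (A B F : Type) [CommRing A] [Algebra (ZMod p) A] [CommRing B]
  [Algebra (ZMod p) B] [Field F] [Algebra (ZMod p) F]

theorem NPhi_inF (c : F) : inF p A F c = (1 : A) ⊗ₜ[ZMod p] c := rfl

theorem inF_inj [Nontrivial A] : Function.Injective (inF p A F) := by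
  have h : Function.Injective
      (Algebra.TensorProduct.includeRight : F →ₐ[ZMod p] A ⊗[ZMod p] F) :=
    Algebra.TensorProduct.includeRight_injective (algebraMap (ZMod p) A).injective
  exact h

theorem phi_inF (c : F) : phi p A F (inF p A F c) = inF p A F c := by
  rw [NPhi_inF, phi_tmul, one_pow]

theorem phi_tmap (f : A →ₐ[ZMod p] B) (z : Tf p A F) :
    tmap p F f (phi p A F z) = phi p B F (tmap p F f z) := by
  induction z using TensorProduct.induction_on with
  | zero => simp only [map_zero]
  | tmul x c => rw [phi_tmul, tmap_tmul, tmap_tmul, phi_tmul, map_pow]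
  | add x y hx hy => rw [map_add, map_add, map_add, map_add, hx, hy]

theorem tmap_inF (f : A →ₐ[ZMod p] B) (c : F) :
    tmap p F f (inF p A F c) = inF p B F c := by
  rw [NPhi_inF, tmap_tmul, map_one, NPhi_inF]

theorem phi_iter (s : ℕ) (x : A) (c : F) : ((phi p A F)^[s]) (x ⊗ₜ c) = (x ^ p ^ s) ⊗ₜ c := by
  induction s generalizing x with
  | zero => rw [Function.iterate_zero, id, pow_zero, pow_one]
  | succ s ih => rw [Function.iterate_succ, Function.comp_apply, phi_tmul, ih, ← pow_mul,
      ← pow_succ']

theorem phi_fixed [IsDomain A] (z : Tf p A F) (h : phi p A F z = z) :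
    ∃ c : F, z = inF p A F c := by
  classical
  obtain ⟨b⟩ : Nonempty (Module.Basis (Module.Basis.ofVectorSpaceIndex (ZMod p) F) (ZMod p) F) :=
    ⟨Module.Basis.ofVectorSpace (ZMod p) F⟩
  have hrep : ∀ (w : Tf p A F) (i), (Algebra.TensorProduct.basis A b).repr (phi p A F w) i =
      zfr p A ((Algebra.TensorProduct.basis A b).repr w i) := by
    intro w i
    induction w using TensorProduct.induction_on with
    | zero => rw [map_zero, map_zero, Finsupp.zero_apply, map_zero]
    | tmul x c =>
      rw [phi_tmul, Algebra.TensorProduct.basis_repr_tmul, Algebra.TensorProduct.basis_repr_tmul,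
        Finsupp.smul_apply, Finsupp.smul_apply, Finsupp.mapRange_apply, smul_eq_mul,
        smul_eq_mul, map_mul, zfr_apply, AlgHom.commutes]
    | add x y hx hy =>
      rw [map_add, map_add, map_add, Finsupp.add_apply, Finsupp.add_apply, map_add, hx, hy]
  have hfix : ∀ i, ∃ a : ZMod p, (Algebra.TensorProduct.basis A b).repr z i =
      algebraMap (ZMod p) A a := by
    intro i
    apply NPhi_pow
    rw [← zfr_apply, ← hrep, h]
  choose a ha using hfix
  obtain ⟨r, hr⟩ : ∃ r, (Algebra.TensorProduct.basis A b).repr z = r := ⟨_, rfl⟩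
  rw [hr] at ha
  -- the sum over the support
  refine ⟨∑ i ∈ r.support, a i • b i, ?_⟩
  have h1 : z = ∑ i ∈ r.support, r i • (Algebra.TensorProduct.basis A b) i := by
    rw [← (Algebra.TensorProduct.basis A b).linearCombination_repr z, hr,
      Finsupp.linearCombination_apply]
    rfl
  rw [h1, map_sum]
  refine Finset.sum_congr rfl fun i _ => ?_
  rw [ha i, Algebra.TensorProduct.basis_apply, NPhi_inF, TensorProduct.tmul_smul,
    algebraMap_smul]

/-- the same for matrices of determinant `1` -/
theorem sl_fixed [IsDomain A] (n : ℕ) (M : Sl n (Tf p A F))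
    (h : Matrix.SpecialLinearGroup.map (phi p A F) M = M) :
    ∃ g : Sl n F, M = Matrix.SpecialLinearGroup.map (inF p A F) g := by
  have hent : ∀ i j, ∃ c : F, (M : Matrix (Fin n) (Fin n) (Tf p A F)) i j = inF p A F c := by
    intro i j
    apply phi_fixed
    have h2 := congrArg (fun N : Sl n (Tf p A F) =>
      (N : Matrix (Fin n) (Fin n) (Tf p A F)) i j) h
    exact h2
  choose g hg using hent
  have hmap : (inF p A F).mapMatrix (Matrix.of g) =
      (M : Matrix (Fin n) (Fin n) (Tf p A F)) := by
    ext i j
    exact (hg i j).symm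
  have hdet : (Matrix.of g).det = 1 := by
    apply inF_inj p A F
    rw [RingHom.map_det, hmap, M.2, map_one]
  refine ⟨⟨Matrix.of g, hdet⟩, ?_⟩
  apply Subtype.ext
  exact hmap.symm

theorem sl_inF_inj [Nontrivial A] (n : ℕ) :
    Function.Injective (Matrix.SpecialLinearGroup.map (n := Fin n) (inF p A F)) := by
  intro g g' h
  apply Subtype.ext
  ext i j
  apply inF_inj p A F
  exact congrArg (fun N : Sl n (Tf p A F) =>
      (N : Matrix (Fin n) (Fin n) (Tf p A F)) i j) h

end Pool.Agent.AB3
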