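import Pool.Agent.Lib.MP_5de024_nt.S.V.NFld
import Pool.Agent.Lib.MP_5de024_nt.S.V.NFin
import Pool.Agent.Lib.MP_5de024_nt.S.V.NCrt
import Pool.Agent.Lib.MP_5de024_nt.S.V.CstL
import Pool.Agent.Lib.MP_5de024_nt.S.V.Jor
import Pool.Agent.Lib.MP_5de024_nt.S.V.NPhi

/-!
# `SL_n(F)` over the affine line (N4, N5)
-/

set_option autoImplicit false
set_option linter.unusedSectionVars false

namespace Pool.Agent.AB3

open Pool.Agent.AB Polynomial TensorProduct

section

variable (p : ℕ) [Fact p.Prime] (F : Type) [Field F] [Algebra (ZMod p) F] (n : ℕ)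

theorem NRf_tt {A B C : Type} [CommRing A] [Algebra (ZMod p) A] [CommRing B]
    [Algebra (ZMod p) B] [CommRing C] [Algebra (ZMod p) C] (f : A →ₐ[ZMod p] B)
    (g : B →ₐ[ZMod p] C) (z : Tf p A F) :
    tmap p F g (tmap p F f z) = tmap p F (g.comp f) z := by
  induction z using TensorProduct.induction_on with
  | zero => simp only [map_zero]
  | tmul x c => rw [tmap_tmul, tmap_tmul, tmap_tmul, AlgHom.comp_apply]
  | add x y hx hy => rw [map_add, map_add, map_add, hx, hy]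

theorem NRf_mm {A B C : Type} [CommRing A] [Algebra (ZMod p) A] [CommRing B]
    [Algebra (ZMod p) B] [CommRing C] [Algebra (ZMod p) C] (f : A →ₐ[ZMod p] B)
    (g : B →ₐ[ZMod p] C) (Z : Sl n (Tf p A F)) :
    Matrix.SpecialLinearGroup.map (tmap p F g) (Matrix.SpecialLinearGroup.map (tmap p F f) Z) =
      Matrix.SpecialLinearGroup.map (tmap p F (g.comp f)) Z := by
  apply Subtype.ext
  ext i j
  exact NRf_tt p F f g _

theorem NRf_phi {A B : Type} [CommRing A] [Algebra (ZMod p) A] [CommRing B]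
    [Algebra (ZMod p) B] (f : A →ₐ[ZMod p] B) (Z : Sl n (Tf p A F)) :
    Matrix.SpecialLinearGroup.map (phi p B F) (Matrix.SpecialLinearGroup.map (tmap p F f) Z) =
      Matrix.SpecialLinearGroup.map (tmap p F f)
        (Matrix.SpecialLinearGroup.map (phi p A F) Z) := by
  apply Subtype.ext
  ext i j
  exact (phi_tmap p A B F f _).symm

theorem NRf_inF {A B : Type} [CommRing A] [Algebra (ZMod p) A] [CommRing B]
    [Algebra (ZMod p) B] (f : A →ₐ[ZMod p] B) (g : Sl n F) :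
    Matrix.SpecialLinearGroup.map (tmap p F f) (Matrix.SpecialLinearGroup.map (inF p A F) g) =
      Matrix.SpecialLinearGroup.map (inF p B F) g := by
  apply Subtype.ext
  ext i j
  exact tmap_inF p A B F f _

end

section

variable (p : ℕ) [Fact p.Prime] (L : Type) [Field L] [Algebra (Fx p) L] [Algebra (Rx p) L]
  [IsScalarTower (Rx p) (Fx p) L] [Algebra (ZMod p) (Oc p L)]

/-- the action as a homomorphism of algebras -/
noncomputable def NRf_th (τ : Gl p L) : Oc p L →ₐ[ZMod p] Oc p L where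
  toRingHom := (act p L τ : Oc p L →+* Oc p L)
  commutes' c := RingHom.congr_fun (Subsingleton.elim
    ((act p L τ : Oc p L →+* Oc p L).comp (algebraMap (ZMod p) (Oc p L)))
    (algebraMap (ZMod p) (Oc p L))) c

theorem NRf_th_apply (τ : Gl p L) (z : Oc p L) : NRf_th p L τ z = act p L τ z := rfl

theorem NRf_th_eq (τ : Gl p L) (θ : Oc p L →ₐ[ZMod p] Oc p L) (h : ∀ z, θ z = act p L τ z) :
    θ = NRf_th p L τ := AlgHom.ext fun z => (h z).trans (NRf_th_apply p L τ z).symm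

theorem NRf_th_mul (σ τ : Gl p L) :
    NRf_th p L (σ * τ) = (NRf_th p L σ).comp (NRf_th p L τ) := AlgHom.ext fun _ => rfl

end

section

variable (p : ℕ) [Fact p.Prime] (F : Type) [Field F] [Finite F] [Algebra (ZMod p) F] (n : ℕ)
  (L : Type) [Field L] [Algebra (Fx p) L] [Algebra (Rx p) L] [IsScalarTower (Rx p) (Fx p) L]
  [Algebra (ZMod p) (Oc p L)] (π : Rx p →ₐ[ZMod p] Oc p L)
  (hπ : ∀ f, π f = algebraMap (Rx p) (Oc p L) f) (M : Sl n (Tf p (Rx p) F))
  (Y : Sl n (Tf p (Oc p L) F))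
  (hY : Matrix.SpecialLinearGroup.map (phi p (Oc p L) F) Y =
    Matrix.SpecialLinearGroup.map (tmap p F π) M * Y)
  (hgen : ∀ (τ : Gl p L) (θ : Oc p L →ₐ[ZMod p] Oc p L), (∀ z, θ z = act p L τ z) →
    Matrix.SpecialLinearGroup.map (tmap p F θ) Y = Y → τ = 1)

include hπ hY

theorem NRf_ex (τ : Gl p L) : ∃ g : Sl n F,
    Matrix.SpecialLinearGroup.map (tmap p F (NRf_th p L τ)) Y =
      Y * Matrix.SpecialLinearGroup.map (inF p (Oc p L) F) g := by
  have h1 : (NRf_th p L τ).comp π = π := AlgHom.ext fun f => by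
    rw [AlgHom.comp_apply, NRf_th_apply, hπ]
    exact (act p L τ).commutes f
  have h2 : Matrix.SpecialLinearGroup.map (phi p (Oc p L) F)
      (Matrix.SpecialLinearGroup.map (tmap p F (NRf_th p L τ)) Y) =
      Matrix.SpecialLinearGroup.map (tmap p F π) M *
        Matrix.SpecialLinearGroup.map (tmap p F (NRf_th p L τ)) Y := by
    rw [NRf_phi, hY, map_mul, NRf_mm, h1]
  obtain ⟨g, hg⟩ := sl_fixed p (Oc p L) F n
    (Y⁻¹ * Matrix.SpecialLinearGroup.map (tmap p F (NRf_th p L τ)) Y) (by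
      rw [map_mul, map_inv, h2, hY, mul_inv_rev]
      group)
  exact ⟨g, by rw [← hg, mul_inv_cancel_left]⟩

include hgen

/-- the Galois group is contained in `SL_n(F)` -/
theorem sl_hom : ∃ s : Gl p L →* Sl n F, Function.Injective s ∧
    ∀ (τ : Gl p L) (θ : Oc p L →ₐ[ZMod p] Oc p L), (∀ z, θ z = act p L τ z) →
      Matrix.SpecialLinearGroup.map (tmap p F θ) Y =
        Y * Matrix.SpecialLinearGroup.map (inF p (Oc p L) F) (s τ) := by
  choose s hs using NRf_ex p F n L π hπ M Y hY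
  have hmul : ∀ σ τ, s (σ * τ) = s σ * s τ := by
    intro σ τ
    apply sl_inF_inj p (Oc p L) F n
    refine mul_left_cancel (a := Y) ?_
    rw [← hs, NRf_th_mul, ← NRf_mm, hs, map_mul, NRf_inF, hs, map_mul, mul_assoc]
  refine ⟨MonoidHom.mk' s hmul, ?_, ?_⟩
  · rw [injective_iff_map_eq_one]
    intro τ hτ
    have h0 : s τ = 1 := hτ
    refine hgen τ (NRf_th p L τ) (fun _ => rfl) ?_
    rw [hs, h0, map_one, mul_one]
  · intro τ θ hθ
    rw [NRf_th_eq p L τ θ hθ]
    exact hs τ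

theorem sl_ni [FiniteDimensional (Fx p) L] [IsGalois (Fx p) L] : NI p L := by
  obtain ⟨s, hinj, hs⟩ := sl_hom p F n L π hπ M Y hY hgen
  intro σ hσ P hP
  by_contra hcon
  push Not at hcon
  have hnt : Nontrivial (Oc p L ⧸ P) := Ideal.Quotient.nontrivial_iff.mpr hP.ne_top
  obtain ⟨q, hq⟩ : ∃ q : Oc p L →ₐ[ZMod p] (Oc p L ⧸ P), ∀ z, q z = Ideal.Quotient.mk P z :=
    ⟨Ideal.Quotient.mkₐ (ZMod p) P, fun _ => rfl⟩
  have h1 : q.comp (NRf_th p L σ) = q := AlgHom.ext fun z => by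
    rw [AlgHom.comp_apply, hq, hq]
    exact Ideal.Quotient.eq.mpr (hcon z)
  have h2 := congrArg (Matrix.SpecialLinearGroup.map
    (tmap (B := Oc p L ⧸ P) p F q)) (hs σ (NRf_th p L σ) fun _ => rfl)
  rw [NRf_mm, h1, map_mul, NRf_inF] at h2
  have h3 : Matrix.SpecialLinearGroup.map (inF p (Oc p L ⧸ P) F) (s σ) =
      Matrix.SpecialLinearGroup.map (inF p (Oc p L ⧸ P) F) 1 := by
    rw [map_one]
    exact mul_eq_left.mp h2.symm
  have h4 : s σ = 1 := sl_inF_inj p (Oc p L ⧸ P) F n h3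
  exact hσ (hinj (h4.trans (map_one s).symm))

end

end Pool.Agent.AB3
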