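import Pool.Agent.Lib.MP_5de024_nt.S.V.NRf

/-!
# `SL_n(F)` over the affine line (N5)
-/

set_option autoImplicit false
set_option linter.unusedSectionVars false

namespace Pool.Agent.AB3

open Pool.Agent.AB Polynomial TensorProduct

theorem NTop_iter {n : ℕ} {A : Type} [CommRing A] (f : A →+* A) (s : ℕ) (Z : Sl n A)
    (i j : Fin n) :
    (((Matrix.SpecialLinearGroup.map (n := Fin n) f)^[s] Z : Sl n A) :
      Matrix (Fin n) (Fin n) A) i j = f^[s] ((Z : Matrix (Fin n) (Fin n) A) i j) := by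
  induction s generalizing Z with
  | zero => rfl
  | succ s ih =>
    rw [Function.iterate_succ_apply, Function.iterate_succ_apply, ih]
    rfl

theorem NTop_map_comp {n : ℕ} {A B C : Type} [CommRing A] [CommRing B] [CommRing C]
    (f : A →+* B) (g : B →+* C) (h : A →+* C) (e : ∀ a, g (f a) = h a) (Z : Sl n A) :
    Matrix.SpecialLinearGroup.map g (Matrix.SpecialLinearGroup.map f Z) =
      Matrix.SpecialLinearGroup.map h Z := by
  apply Subtype.ext
  ext i j
  exact e _

section

variable (p : ℕ) [Fact p.Prime] (F : Type) [Field F] [Algebra (ZMod p) F]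

theorem NTop_tmap_comp {A B C : Type} [CommRing A] [Algebra (ZMod p) A] [CommRing B]
    [Algebra (ZMod p) B] [CommRing C] [Algebra (ZMod p) C] (f : A →ₐ[ZMod p] B)
    (g : B →ₐ[ZMod p] C) (h : A →ₐ[ZMod p] C) (e : ∀ a, g (f a) = h a) (z : Tf p A F) :
    tmap p F g (tmap p F f z) = tmap p F h z := by
  induction z using TensorProduct.induction_on with
  | zero => rw [map_zero, map_zero, map_zero]
  | tmul x c => rw [tmap_tmul, tmap_tmul, tmap_tmul, e]
  | add x y hx hy => rw [map_add, map_add, map_add, hx, hy]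

theorem NTop_frob {A B : Type} [CommRing A] [Algebra (ZMod p) A] [CommRing B]
    [Algebra (ZMod p) B] (f h : A →ₐ[ZMod p] B) (s : ℕ) (e : ∀ a, h a = f a ^ p ^ s)
    (z : Tf p A F) : tmap p F h z = (phi p B F)^[s] (tmap p F f z) := by
  induction z using TensorProduct.induction_on with
  | zero => rw [map_zero, map_zero, iterate_map_zero]
  | tmul x c => rw [tmap_tmul, tmap_tmul, phi_iter, e]
  | add x y hx hy => rw [map_add, map_add, iterate_map_add, hx, hy]

end

/-- a ring homomorphism is a homomorphism of algebras over the prime field -/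
def NTop_alg (p : ℕ) {A B : Type} [CommRing A] [Algebra (ZMod p) A] [CommRing B]
    [Algebra (ZMod p) B] (f : A →+* B) : A →ₐ[ZMod p] B :=
  { f with
    commutes' := fun r => RingHom.congr_fun
      (RingHom.ext_zmod (f.comp (algebraMap (ZMod p) A)) (algebraMap (ZMod p) B)) r }

theorem NTop_alg_apply (p : ℕ) {A B : Type} [CommRing A] [Algebra (ZMod p) A] [CommRing B]
    [Algebra (ZMod p) B] (f : A →+* B) (a : A) : NTop_alg p f a = f a := rfl

theorem NTop_pow {M : Type} [Monoid M] (c : M) (p n m : ℕ) (h : c ^ p ^ n = c) (hd : n ∣ m) :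
    c ^ p ^ m = c := by
  obtain ⟨k, rfl⟩ := hd
  induction k with
  | zero => rw [mul_zero, pow_zero, pow_one]
  | succ k ih => rw [Nat.mul_succ, pow_add, pow_mul, ih, h]

/-- the choice of the levels -/
theorem NTop_lev (S : Type) [Finite S] [Nonempty S] :
    ∃ s : S → ℕ, Function.Injective s ∧ (∀ g, 0 < s g) ∧ ∀ g, Nat.card S ∣ s g := by
  refine ⟨fun g => ((Finite.equivFin S g : ℕ) + 1) * Nat.card S, ?_, ?_, ?_⟩
  · intro a b h
    have h1 := Nat.eq_of_mul_eq_mul_right (Nat.card_pos (α := S)) h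
    have h2 : (Finite.equivFin S a : ℕ) = Finite.equivFin S b := by omega
    exact (Finite.equivFin S).injective (Fin.ext h2)
  · intro g
    exact Nat.mul_pos (Nat.succ_pos _) Nat.card_pos
  · intro g
    exact Dvd.intro_left _ rfl

theorem rf_sl (p : ℕ) [Fact p.Prime] (F : Type) [Field F] [Finite F] [CharP F p] (n : ℕ) :
    RF p (Matrix.SpecialLinearGroup (Fin n) F) ⊤ := by
  classical
  let _ : Algebra (ZMod p) F := ZMod.algebra F p
  have hSf : Finite (Sl n F) :=
    Finite.of_injective (fun A : Sl n F => (A : Matrix (Fin n) (Fin n) F)) Subtype.val_injective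
  obtain ⟨s, hsi, hs0, hsd⟩ := NTop_lev (Sl n F)
  have hα : ∀ g, ∃ a : Fb p, a ^ p ^ s g = a ∧
      ∀ b : Fb p, b ^ p ^ s g = b → ∃ f : Rx p, Polynomial.aeval a f = b :=
    fun g => exists_gen p (s g) (hs0 g)
  choose α hα1 hα2 using hα
  have hy : ∀ g, ∃ y : Sl n (Tf p (Fb p) F),
      (Matrix.SpecialLinearGroup.map (phi p (Fb p) F))^[s g] y =
        y * Matrix.SpecialLinearGroup.map (inF p (Fb p) F) g :=
    fun g => lang_fin p F n g (s g) (hs0 g)
  choose y hy using hy
  obtain ⟨Φ, hΦ⟩ : ∃ Φ : Sl n (Tf p (Fb p) F) →* Sl n (Tf p (Fb p) F),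
      Φ = Matrix.SpecialLinearGroup.map (phi p (Fb p) F) := ⟨_, rfl⟩
  obtain ⟨I, hI⟩ : ∃ I : Sl n F →* Sl n (Tf p (Fb p) F),
      I = Matrix.SpecialLinearGroup.map (inF p (Fb p) F) := ⟨_, rfl⟩
  have hΦI : ∀ g, Φ (I g) = I g := by
    intro g
    rw [hΦ, hI]
    exact NTop_map_comp _ _ _ (fun c => phi_inF p (Fb p) F c) g
  rw [← hΦ, ← hI] at hy
  have hΦIs : ∀ (k : ℕ) (g), Φ^[k] (I g) = I g := by
    intro k g
    induction k with
    | zero => rfl
    | succ k ih => rw [Function.iterate_succ_apply, hΦI, ih]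
  obtain ⟨M, hM⟩ := choose_M p F n (Sl n F) s hsi hs0 α hα1 hα2 (fun g => Φ (y g) * (y g)⁻¹) (by
    intro g
    rw [← hΦ, iterate_map_mul, iterate_map_inv, hy, ← Function.iterate_succ_apply,
      Function.iterate_succ_apply', hy, map_mul, hΦI, mul_inv_rev]
    group)
  obtain ⟨L, _, _, _, _, _, π, Y, hfd, hgal, hπ, hY, hgen⟩ := sl_fld p F n M
  have hL : NiK p L := ⟨hfd, hgal, sl_ni p F n L π hπ M Y hY hgen⟩
  obtain ⟨σ, hσi, hσ⟩ := sl_hom p F n L π hπ M Y hY hgen
  have hcard : Nat.card (Gl p L) ∣ Nat.card (Sl n F) := Subgroup.card_dvd_of_injective σ hσi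
  have key : ∀ g : Sl n F, ∃ c : Sl n F, c⁻¹ * g * c ∈ (Gc p L).map σ := by
    intro g
    obtain ⟨i', hi'⟩ := ext_pt (A := Rx p) (B := Oc p L) (U := Fb p) (cstL_algebraMap p L)
      ((Polynomial.aeval (α g) : Rx p →ₐ[ZMod p] Fb p) : Rx p →+* Fb p)
    have hi'' : ∀ f : Rx p, i' (algebraMap (Rx p) (Oc p L) f) = Polynomial.aeval (α g) f := hi'
    let v : Oc p L →+* Fb p := (iterateFrobenius (Fb p) p (s g)).comp i'
    have hv : ∀ z, v z = i' z ^ p ^ s g := fun z => iterateFrobenius_def p (s g) (i' z)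
    have hx : i' (xo p L) = α g := by
      have h1 := hi'' Polynomial.X
      rw [Polynomial.aeval_X] at h1
      exact h1
    obtain ⟨τ, hτ⟩ := nik_pt_ex p L hL (Fb p) i' v (by rw [hv, hx, hα1])
    -- `τ` fixes the constants
    have hτc : τ ∈ Gc p L := by
      intro c hc
      have hcm : c ∈ Oc p L := cst_mem p L c hc
      have hcp : c ^ p ^ s g = c :=
        NTop_pow c p _ (s g) (cst_pow_card p L hL c hc) (hcard.trans (hsd g))
      have hcτ : IsCst p (τ c) := by
        obtain ⟨n, hn, hn'⟩ := hc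
        exact ⟨n, hn, by rw [← map_pow, hn']⟩
      have h2 : act p L τ ⟨c, hcm⟩ = ⟨c, hcm⟩ := by
        refine cst_inj p L (Fb p) i' (act p L τ ⟨c, hcm⟩) ⟨c, hcm⟩ hcτ hc ?_
        rw [← hτ, hv, ← map_pow]
        apply congrArg i'
        apply Subtype.ext
        exact hcp
      exact congrArg Subtype.val h2
    let iA : Oc p L →ₐ[ZMod p] Fb p := NTop_alg p i'
    let θ : Oc p L →ₐ[ZMod p] Oc p L :=
      NTop_alg p ((act p L τ : Oc p L ≃ₐ[Rx p] Oc p L) : Oc p L →+* Oc p L)
    obtain ⟨Yb, hYb⟩ : ∃ Yb, Yb = Matrix.SpecialLinearGroup.map (n := Fin n) (tmap p F iA) Y :=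
      ⟨_, rfl⟩
    have h1 : Φ Yb = Φ (y g) * (y g)⁻¹ * Yb := by
      have e1 : Φ Yb = Matrix.SpecialLinearGroup.map (tmap p F iA)
          (Matrix.SpecialLinearGroup.map (phi p (Oc p L) F) Y) := by
        rw [hΦ, hYb]
        apply Subtype.ext
        ext i j
        exact (phi_tmap p (Oc p L) (Fb p) F iA _).symm
      rw [e1, hY, map_mul, ← hYb, ← hM g]
      congr 1
      refine NTop_map_comp _ _ _ (fun z => ?_) M
      exact NTop_tmap_comp p F π iA (Polynomial.aeval (α g)) (fun f => by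
        rw [hπ]
        exact hi'' f) z
    have h2 : Φ ((y g)⁻¹ * Yb) = (y g)⁻¹ * Yb := by
      rw [map_mul, map_inv, h1]
      group
    rw [hΦ] at h2
    obtain ⟨c, hc⟩ := sl_fixed p (Fb p) F n _ h2
    rw [← hI, inv_mul_eq_iff_eq_mul] at hc
    have h3 : Φ^[s g] Yb = Yb * I (σ τ) := by
      have e1 := congrArg (Matrix.SpecialLinearGroup.map (n := Fin n) (tmap p F iA))
        (hσ τ θ (fun z => rfl))
      rw [map_mul, ← hYb] at e1
      have e2 : Matrix.SpecialLinearGroup.map (n := Fin n) (tmap p F iA)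
          (Matrix.SpecialLinearGroup.map (inF p (Oc p L) F) (σ τ)) = I (σ τ) := by
        rw [hI]
        exact NTop_map_comp _ _ _ (fun c => tmap_inF p (Oc p L) (Fb p) F iA c) _
      rw [e2] at e1
      rw [← e1, hYb, hΦ]
      apply Subtype.ext
      ext i j
      rw [NTop_iter]
      have e3 : tmap p F (iA.comp θ) ((Y : Matrix (Fin n) (Fin n) (Tf p (Oc p L) F)) i j) =
          (phi p (Fb p) F)^[s g] (tmap p F iA
            ((Y : Matrix (Fin n) (Fin n) (Tf p (Oc p L) F)) i j)) := by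
        refine NTop_frob p F iA (iA.comp θ) (s g) (fun a => ?_) _
        have e4 := hτ a
        rw [hv] at e4
        exact e4.symm
      have e5 : tmap p F iA (tmap p F θ ((Y : Matrix (Fin n) (Fin n) (Tf p (Oc p L) F)) i j)) =
          tmap p F (iA.comp θ) ((Y : Matrix (Fin n) (Fin n) (Tf p (Oc p L) F)) i j) :=
        NTop_tmap_comp p F θ iA (iA.comp θ) (fun a => rfl) _
      exact e3.symm.trans e5.symm
    have h4 : Φ^[s g] Yb = y g * I g * I c := by
      rw [hc, iterate_map_mul, hy, hΦIs]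
    have h5 : I (g * c) = I (c * σ τ) := by
      rw [map_mul, map_mul]
      have e1 : y g * I g * I c = y g * I c * I (σ τ) := by rw [← h4, h3, hc]
      rw [mul_assoc, mul_assoc] at e1
      exact mul_left_cancel e1
    have h6 : g * c = c * σ τ := by
      rw [hI] at h5
      exact sl_inF_inj p (Fb p) F n h5
    refine ⟨c, ⟨τ, hτc, ?_⟩⟩
    rw [mul_assoc, h6, inv_mul_cancel_left]
  have htop := jordan ((Gc p L).map σ) key
  refine ⟨L, inferInstance, inferInstance, inferInstance, inferInstance, σ, hL, ?_, htop⟩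
  intro g
  have h1 : g ∈ (Gc p L).map σ := by
    rw [htop]
    exact Subgroup.mem_top g
  obtain ⟨τ, _, hτ⟩ := h1
  exact ⟨τ, hτ⟩

end Pool.Agent.AB3
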