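import Pool.Agent.Lib.MP_5de024_nt.S.FinX.Pgen

/-!
# The subgroup generated by the `p`-elements of a wreath product (P)
-/

set_option autoImplicit false
set_option linter.unusedSectionVars false

namespace Pool.Agent.AB3

theorem pg_wr (p : ℕ) [Fact p.Prime] (S G Ω : Type) [Group S] [Finite S] [Group G] [Finite G]
    [MulAction G Ω] [Finite Ω] (hS : pg p S = ⊤) :
    pg p ((Ω → S) ⋊[mulAutArrow] G) = (pg p G).comap SemidirectProduct.rightHom := by
  classical
  apply le_antisymm
  · rw [← Subgroup.map_le_iff_le_comap]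
    exact pg_map_le p _
  · intro x hx
    have hx' : x.right ∈ pg p G := hx
    have h1 : (SemidirectProduct.inr x.right : (Ω → S) ⋊[mulAutArrow] G) ∈
        pg p ((Ω → S) ⋊[mulAutArrow] G) :=
      pg_map_le p (SemidirectProduct.inr : G →* (Ω → S) ⋊[mulAutArrow] G) ⟨_, hx', rfl⟩
    have h2 : x.left ∈ (pg p ((Ω → S) ⋊[mulAutArrow] G)).comap
        (SemidirectProduct.inl : (Ω → S) →* (Ω → S) ⋊[mulAutArrow] G) := by
      refine Subgroup.pi_mem_of_mulSingle_mem _ fun w => ?_
      have h3 : x.left w ∈ pg p S := by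
        rw [hS]
        exact Subgroup.mem_top _
      exact pg_map_le p ((SemidirectProduct.inl : (Ω → S) →* (Ω → S) ⋊[mulAutArrow] G).comp
        (MonoidHom.mulSingle (fun _ : Ω => S) w)) ⟨_, h3, rfl⟩
    have h4 : x = SemidirectProduct.inl x.left * SemidirectProduct.inr x.right :=
      (SemidirectProduct.inl_left_mul_inr_right x).symm
    rw [h4]
    exact Subgroup.mul_mem _ h2 h1

end Pool.Agent.AB3
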