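import Mathlib

/-!
# Homomorphisms from rings with a free group action to domains (T2)
-/

set_option autoImplicit false
set_option linter.unusedSectionVars false

namespace Pool.Agent.AB3

variable {B H F : Type} [CommRing B] [Group H] [Finite H] [CommRing F] (ac : H → B →+* B)

/-- the twisted coordinate identity -/
theorem TorA_left (h1 : ∀ b, ac 1 b = b) (hm : ∀ g h b, ac (g * h) b = ac g (ac h b))
    {m : ℕ} {x y : Fin m → B} (hco : ∀ h : H, (h = 1 → ∑ i, x i * ac h (y i) = 1) ∧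
      (h ≠ 1 → ∑ i, x i * ac h (y i) = 0)) (h : H) :
    (h = 1 → ∑ i, ac h (x i) * y i = 1) ∧ (h ≠ 1 → ∑ i, ac h (x i) * y i = 0) := by
  have key : ac h (∑ i, x i * ac h⁻¹ (y i)) = ∑ i, ac h (x i) * y i := by
    rw [map_sum]
    refine Finset.sum_congr rfl fun i _ => ?_
    rw [map_mul, ← hm, mul_inv_cancel, h1]
  refine ⟨fun hh => ?_, fun hh => ?_⟩
  · rw [← key, (hco h⁻¹).1 (by rw [hh, inv_one]), map_one]
  · rw [← key, (hco h⁻¹).2 (by simpa using hh), map_zero]

/-- the trace is invariant -/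
theorem TorA_tr [Fintype H] (hm : ∀ g h b, ac (g * h) b = ac g (ac h b)) (g : H) (z : B) :
    ac g (∑ h, ac h z) = ∑ h, ac h z := by
  rw [map_sum]
  simp_rw [← hm]
  exact Fintype.sum_equiv (Equiv.mulLeft g) _ _ (fun h => rfl)

/-- expansion on the left -/
theorem TorA_exp1 [Fintype H] (h1 : ∀ b, ac 1 b = b)
    {m : ℕ} {x y : Fin m → B} (hco : ∀ h : H, (h = 1 → ∑ i, x i * ac h (y i) = 1) ∧
      (h ≠ 1 → ∑ i, x i * ac h (y i) = 0)) (z : B) :
    ∑ k, x k * ∑ h, ac h (y k * z) = z := by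
  simp_rw [Finset.mul_sum]
  rw [Finset.sum_comm]
  have : ∀ h : H, ∑ k, x k * ac h (y k * z) = (∑ k, x k * ac h (y k)) * ac h z := by
    intro h
    rw [Finset.sum_mul]
    refine Finset.sum_congr rfl fun k _ => ?_
    rw [map_mul, mul_assoc]
  simp_rw [this]
  rw [Finset.sum_eq_single (1 : H)]
  · rw [(hco 1).1 rfl, one_mul, h1]
  · intro h _ hh
    rw [(hco h).2 hh, zero_mul]
  · intro hh
    exact absurd (Finset.mem_univ _) hh

/-- expansion on the right -/
theorem TorA_exp2 [Fintype H] (h1 : ∀ b, ac 1 b = b) (hm : ∀ g h b, ac (g * h) b = ac g (ac h b))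
    {m : ℕ} {x y : Fin m → B} (hco : ∀ h : H, (h = 1 → ∑ i, x i * ac h (y i) = 1) ∧
      (h ≠ 1 → ∑ i, x i * ac h (y i) = 0)) (z : B) :
    ∑ k, (∑ h, ac h (z * x k)) * y k = z := by
  simp_rw [Finset.sum_mul]
  rw [Finset.sum_comm]
  have : ∀ h : H, ∑ k, ac h (z * x k) * y k = ac h z * ∑ k, ac h (x k) * y k := by
    intro h
    rw [Finset.mul_sum]
    refine Finset.sum_congr rfl fun k _ => ?_
    rw [map_mul, mul_assoc]
  simp_rw [this]
  rw [Finset.sum_eq_single (1 : H)]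
  · rw [(TorA_left ac h1 hm hco 1).1 rfl, mul_one, h1]
  · intro h _ hh
    rw [(TorA_left ac h1 hm hco h).2 hh, mul_zero]
  · intro hh
    exact absurd (Finset.mem_univ _) hh

/-- two homomorphisms which agree on the invariants differ by a group element -/
theorem tor_ex [IsDomain F] (h1 : ∀ b, ac 1 b = b) (hm : ∀ g h b, ac (g * h) b = ac g (ac h b))
    (hco : ∃ (m : ℕ) (x y : Fin m → B), ∀ h : H, (h = 1 → ∑ i, x i * ac h (y i) = 1) ∧
      (h ≠ 1 → ∑ i, x i * ac h (y i) = 0))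
    (u v : B →+* F) (huv : ∀ b, (∀ h, ac h b = b) → u b = v b) :
    ∃ h : H, ∀ b, v b = u (ac h b) := by
  classical
  haveI := Fintype.ofFinite H
  obtain ⟨m, x, y, hco⟩ := hco
  have htr : ∀ z : B, v (∑ h, ac h z) = u (∑ h, ac h z) := fun z =>
    (huv _ fun g => TorA_tr ac hm g z).symm
  have hsum : ∑ h : H, ∑ i, v (x i) * u (ac h (y i)) = 1 := by
    rw [Finset.sum_comm]
    have h2 : ∀ i : Fin m, ∑ h : H, v (x i) * u (ac h (y i)) =
        v (x i * ∑ h, ac h (y i * 1)) := by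
      intro i
      rw [map_mul, htr, map_sum, Finset.mul_sum, mul_one]
    simp_rw [h2]
    rw [← map_sum, TorA_exp1 ac h1 hco, map_one]
  obtain ⟨h, hh⟩ : ∃ h : H, ∑ i, v (x i) * u (ac h (y i)) ≠ 0 := by
    by_contra hcon
    push Not at hcon
    rw [Finset.sum_eq_zero fun h _ => hcon h] at hsum
    exact zero_ne_one hsum
  refine ⟨h, fun b => ?_⟩
  refine mul_right_cancel₀ hh ?_
  have h3 : ∀ i : Fin m, v b * (v (x i) * u (ac h (y i))) =
      ∑ k, v (x k) * u (ac h ((∑ g, ac g (y k * b * x i)) * y i)) := by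
    intro i
    have h4 : v b * v (x i) = ∑ k, v (x k) * u (ac h (∑ g, ac g (y k * b * x i))) := by
      have h5 := congrArg v (TorA_exp1 ac h1 hco (b * x i))
      rw [map_sum, map_mul] at h5
      rw [← h5]
      refine Finset.sum_congr rfl fun k _ => ?_
      rw [map_mul, htr, TorA_tr ac hm, mul_assoc]
    rw [← mul_assoc, h4, Finset.sum_mul]
    refine Finset.sum_congr rfl fun k _ => ?_
    rw [map_mul (ac h), map_mul u, mul_assoc]
  rw [Finset.mul_sum]
  simp_rw [h3]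
  rw [Finset.sum_comm, Finset.mul_sum]
  refine Finset.sum_congr rfl fun k _ => ?_
  rw [← Finset.mul_sum, ← map_sum, ← map_sum, TorA_exp2 ac h1 hm hco, map_mul, map_mul]
  ring

/-- the group acts freely on the homomorphisms -/
theorem tor_uniq [Nontrivial F] (h1 : ∀ b, ac 1 b = b)
    (hm : ∀ g h b, ac (g * h) b = ac g (ac h b))
    (hco : ∃ (m : ℕ) (x y : Fin m → B), ∀ h : H, (h = 1 → ∑ i, x i * ac h (y i) = 1) ∧
      (h ≠ 1 → ∑ i, x i * ac h (y i) = 0))
    (u : B →+* F) (g h : H) (e : ∀ b, u (ac g b) = u (ac h b)) : g = h := by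
  obtain ⟨m, x, y, hco⟩ := hco
  by_contra hne
  have hz : g⁻¹ * h ≠ 1 := by
    intro hh
    exact hne (inv_mul_eq_one.mp hh)
  have e1 : u (ac g (∑ i, x i * ac (g⁻¹ * h) (y i))) = 0 := by
    rw [(hco _).2 hz, map_zero, map_zero]
  have e2 : u (ac g (∑ i, x i * ac 1 (y i))) = 1 := by
    rw [(hco 1).1 rfl, map_one, map_one]
  have e3 : u (ac g (∑ i, x i * ac (g⁻¹ * h) (y i))) = u (ac g (∑ i, x i * ac 1 (y i))) := by
    rw [map_sum, map_sum, map_sum, map_sum]
    refine Finset.sum_congr rfl fun i _ => ?_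
    rw [map_mul, map_mul, map_mul, map_mul, ← hm, mul_inv_cancel_left, h1, e (y i)]
  rw [e1, e2] at e3
  exact zero_ne_one e3

end Pool.Agent.AB3
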