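import Pool.Agent.Lib.MP_5de024_nt.S.GeoA
import Pool.Agent.Lib.MP_5de024_nt.S.V.VDef
import Pool.Agent.Lib.MP_5de024_nt.S.V.TorA

/-!
# Points of covers are separable
-/

set_option autoImplicit false
set_option linter.unusedSectionVars false

namespace Pool.Agent.AB3

open Pool.Agent.AB Polynomial

/-- a derivation along a point of a cover which kills the base ring vanishes -/
theorem Sep_der {k R H : Type} [Field k] [CommRing R] [Algebra k[X] R] [Group H] [Finite H]
    (C : Cov k R H) (L M : Type) [CommRing L] [AddCommGroup M] [Module L M] (u : R →+* L)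
    (D : R →+ M) (hmul : ∀ a b, D (a * b) = u a • D b + u b • D a)
    (h0 : ∀ f : k[X], D (algebraMap k[X] R f) = 0) (r : R) : D r = 0 := by
  classical
  have hH : Fintype H := Fintype.ofFinite H
  obtain ⟨m, x, y, hxy⟩ := C.coord
  choose f hf using geoA_tr C
  have hact1 : ∀ b, C.act 1 b = b := by
    intro b
    rw [map_one]
    rfl
  have hactm : ∀ g h b, C.act (g * h) b = C.act g (C.act h b) := by
    intro g h b
    rw [map_mul]
    rfl
  have e1 : ∀ z, ∑ i, x i * algebraMap k[X] R (f (y i * z)) = z := by
    intro z
    conv_rhs => rw [← geoA_exp C x y hxy z]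
    exact Finset.sum_congr rfl fun i _ => by rw [hf]
  have e2 : ∀ z, ∑ i, algebraMap k[X] R (f (z * x i)) * y i = z := by
    intro z
    have h := TorA_exp2 (B := R) (H := H)
      (fun h => ((C.act h : R ≃ₐ[k[X]] R) : R →+* R)) hact1 hactm (x := x) (y := y) hxy z
    conv_rhs => rw [← h]
    exact Finset.sum_congr rfl fun i _ => by rw [hf]; rfl
  have hlin : ∀ (g : k[X]) (z : R), D (algebraMap k[X] R g * z) =
      u (algebraMap k[X] R g) • D z := by
    intro g z
    rw [hmul, h0, smul_zero, add_zero]
  have h11 : ∑ i, u (x i) * u (y i) = 1 := by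
    have h := congrArg u ((hxy 1).1 rfl)
    rw [map_sum, map_one u] at h
    rw [← h]
    refine Finset.sum_congr rfl fun i _ => ?_
    rw [hact1, map_mul]
  have hA : ∑ i, u (x i) • D (r * y i) = u r • (∑ i, u (x i) • D (y i)) + D r := by
    have h1 : ∀ i, u (x i) • D (r * y i) = u r • (u (x i) • D (y i)) + (u (x i) * u (y i)) • D r := by
      intro i
      rw [hmul, smul_add, smul_smul, smul_smul, smul_smul, mul_comm (u (x i)) (u r)]
    rw [Finset.sum_congr rfl fun i _ => h1 i, Finset.sum_add_distrib, ← Finset.smul_sum,
      ← Finset.sum_smul, h11, one_smul]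
  have hB : ∑ i, u (x i) • D (r * y i) = u r • (∑ i, u (x i) • D (y i)) := by
    have h1 : ∀ i, u (x i) • D (r * y i) =
        ∑ j, (u (x i) * u (algebraMap k[X] R (f (y i * (r * x j))))) • D (y j) := by
      intro i
      have h2 : D (r * y i) = ∑ j, u (algebraMap k[X] R (f (y i * (r * x j)))) • D (y j) := by
        conv_lhs => rw [← e2 (r * y i)]
        rw [map_sum]
        refine Finset.sum_congr rfl fun j _ => ?_
        rw [hlin]
        congr 4
        ring
      rw [h2, Finset.smul_sum]
      exact Finset.sum_congr rfl fun j _ => by rw [smul_smul]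
    rw [Finset.sum_congr rfl fun i _ => h1 i, Finset.sum_comm, Finset.smul_sum]
    refine Finset.sum_congr rfl fun j _ => ?_
    rw [← Finset.sum_smul, smul_smul, ← map_mul u r (x j)]
    congr 1
    conv_rhs => rw [← e1 (r * x j)]
    rw [map_sum]
    exact Finset.sum_congr rfl fun i _ => by rw [map_mul]
  rw [hB] at hA
  exact (left_eq_add.mp hA)

/-- a finite extension without derivations is separable -/
theorem Sep_fld (K L : Type) [Field K] [Field L] [Algebra K L] [FiniteDimensional K L]
    (hD0 : ∀ z : L, KaehlerDifferential.D K L z = 0) : Algebra.IsSeparable K L := by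
  have hsub : Subsingleton (Ω[L⁄K]) := by
    have ht : (⊤ : Submodule L (Ω[L⁄K])) = ⊥ := by
      rw [← KaehlerDifferential.span_range_derivation K L, Submodule.span_eq_bot]
      rintro _ ⟨z, rfl⟩
      exact hD0 z
    exact (Submodule.subsingleton_iff L).mp (subsingleton_of_bot_eq_top ht.symm)
  have hfu : Algebra.FormallyUnramified K L := ⟨hsub⟩
  exact Algebra.FormallyUnramified.isSeparable K L

/-- the values of a point of a cover over a field `K` are separable over `K` -/
theorem cov_sep {k R H : Type} [Field k] [CommRing R] [Algebra k[X] R] [Group H] [Finite H]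
    (C : Cov k R H) (K U : Type) [Field K] [Field U] [Algebra K U] (φ : k[X] →+* K)
    (y : R →+* U) (h : ∀ f, y (algebraMap k[X] R f) = algebraMap K U (φ f)) (r : R) :
    IsSeparable K (y r) := by
  classical
  have hfin := cov_finite C
  have hint : ∀ r, IsIntegral K (y r) := by
    intro r
    refine IsIntegral.map_of_comp_eq φ y ?_ (Algebra.IsIntegral.isIntegral (R := k[X]) r)
    ext f
    · simp only [RingHom.comp_apply]
      exact (h _).symm
    · simp only [RingHom.comp_apply]
      exact (h _).symm
  obtain ⟨s, hs⟩ := hfin.fg_top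
  let L : IntermediateField K U := IntermediateField.adjoin K (y '' (s : Set R))
  have hfd : FiniteDimensional K L := by
    have : Finite (y '' (s : Set R)) := (s.finite_toSet.image y).to_subtype
    refine IntermediateField.finiteDimensional_adjoin ?_
    rintro _ ⟨z, _, rfl⟩
    exact hint z
  have hL : ∀ r, y r ∈ L := by
    intro r
    have hr : r ∈ Submodule.span k[X] (s : Set R) := by
      rw [hs]
      trivial
    induction hr using Submodule.span_induction with
    | mem z hz => exact IntermediateField.subset_adjoin K _ ⟨z, hz, rfl⟩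
    | zero =>
      rw [map_zero]
      exact L.zero_mem
    | add a b _ _ ha hb =>
      rw [map_add]
      exact L.add_mem ha hb
    | smul c a _ ha =>
      rw [Algebra.smul_def, map_mul, h]
      exact L.mul_mem (L.algebraMap_mem _) ha
  let y' : R →+* L :=
    { toFun := fun r => ⟨y r, hL r⟩
      map_one' := Subtype.ext (map_one y)
      map_mul' := fun a b => Subtype.ext (map_mul y a b)
      map_zero' := Subtype.ext (map_zero y)
      map_add' := fun a b => Subtype.ext (map_add y a b) }
  have hy' : ∀ f, y' (algebraMap k[X] R f) = algebraMap K L (φ f) := fun f =>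
    Subtype.ext (h f)
  have hD : ∀ r, KaehlerDifferential.D K L (y' r) = 0 := by
    intro r
    refine Sep_der C L (Ω[L⁄K]) y'
      ((KaehlerDifferential.D K L : L →ₗ[K] Ω[L⁄K]).toAddMonoidHom.comp y'.toAddMonoidHom)
      ?_ ?_ r
    · intro a b
      change KaehlerDifferential.D K L (y' (a * b)) = y' a • KaehlerDifferential.D K L (y' b) +
        y' b • KaehlerDifferential.D K L (y' a)
      rw [map_mul, Derivation.leibniz]
    · intro f
      change KaehlerDifferential.D K L (y' (algebraMap k[X] R f)) = 0
      rw [hy', Derivation.map_algebraMap]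
  have hD0 : ∀ z : L, KaehlerDifferential.D K L z = 0 := by
    rintro ⟨z, hz⟩
    induction hz using IntermediateField.adjoin_induction with
    | mem z hz =>
      obtain ⟨r, hr, rfl⟩ := hz
      exact hD r
    | algebraMap c => exact Derivation.map_algebraMap _ c
    | add a b ha hb iha ihb =>
      have : (⟨a + b, L.add_mem ha hb⟩ : L) = ⟨a, ha⟩ + ⟨b, hb⟩ := rfl
      rw [this, map_add, iha, ihb, add_zero]
    | mul a b ha hb iha ihb =>
      have : (⟨a * b, L.mul_mem ha hb⟩ : L) = ⟨a, ha⟩ * ⟨b, hb⟩ := rfl
      rw [this, Derivation.leibniz, iha, ihb, smul_zero, smul_zero, add_zero]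
    | inv a ha iha =>
      have : (⟨a⁻¹, L.inv_mem ha⟩ : L) = (⟨a, ha⟩ : L)⁻¹ := rfl
      rw [this, Derivation.leibniz_inv, iha, smul_zero]
  have hsep : Algebra.IsSeparable K L := Sep_fld K L hD0
  have h1 : IsSeparable K (y' r) := Algebra.IsSeparable.isSeparable K (y' r)
  have h2 : minpoly K (y' r) = minpoly K (y r) := IntermediateField.minpoly_eq (y' r)
  rw [IsSeparable, h2] at h1
  exact h1

end Pool.Agent.AB3
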