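import Mathlib

/-!
# Torsors (Part T of AB3V): generic statements

`ac : H → B →+* B` is an action of the finite group `H` on the ring `B` by ring homomorphisms,
`Crd ac` says that there are coordinates.
-/

set_option autoImplicit false
set_option linter.unusedSectionVars false

namespace Pool.Agent.AB3

/-- coordinates for an action: `∑ x i * h (y i)` is `1` for `h = 1` and `0` otherwise -/
def Crd {B H : Type*} [CommRing B] [Group H] (ac : H → B →+* B) : Prop :=
  ∃ (m : ℕ) (x y : Fin m → B), ∀ h : H,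
    (h = 1 → ∑ i, x i * ac h (y i) = 1) ∧ (h ≠ 1 → ∑ i, x i * ac h (y i) = 0)

section tor

variable {B F H : Type*} [CommRing B] [CommRing F] [Group H] (ac : H → B →+* B)

/-- the trace is invariant -/
theorem tor_tr [Fintype H] (hm : ∀ g h b, ac (g * h) b = ac g (ac h b)) (g : H) (b : B) :
    ac g (∑ h : H, ac h b) = ∑ h : H, ac h b := by
  rw [map_sum]
  exact Fintype.sum_equiv (Equiv.mulLeft g) _ _ (fun h => (hm g h b).symm)

/-- the first expansion -/
theorem tor_exp1 [Fintype H] (h1 : ∀ b, ac 1 b = b) {m : ℕ} (x y : Fin m → B)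
    (hxy : ∀ h : H, (h = 1 → ∑ i, x i * ac h (y i) = 1) ∧ (h ≠ 1 → ∑ i, x i * ac h (y i) = 0))
    (z : B) : ∑ i, x i * (∑ h : H, ac h (y i * z)) = z := by
  classical
  have e1 : ∀ i, x i * (∑ h : H, ac h (y i * z)) = ∑ h : H, x i * ac h (y i) * ac h z := by
    intro i
    rw [Finset.mul_sum]
    exact Finset.sum_congr rfl fun h _ => by rw [map_mul, mul_assoc]
  rw [Finset.sum_congr rfl fun i _ => e1 i, Finset.sum_comm]
  have e2 : ∀ h : H, (∑ i, x i * ac h (y i) * ac h z) = (∑ i, x i * ac h (y i)) * ac h z := by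
    intro h
    rw [Finset.sum_mul]
  rw [Finset.sum_congr rfl fun h _ => e2 h, Finset.sum_eq_single 1]
  · rw [(hxy 1).1 rfl, one_mul, h1]
  · intro h _ hh
    rw [(hxy h).2 hh, zero_mul]
  · intro h
    exact absurd (Finset.mem_univ _) h

/-- the second expansion -/
theorem tor_exp2 [Fintype H] (h1 : ∀ b, ac 1 b = b)
    (hm : ∀ g h b, ac (g * h) b = ac g (ac h b)) {m : ℕ} (x y : Fin m → B)
    (hxy : ∀ h : H, (h = 1 → ∑ i, x i * ac h (y i) = 1) ∧ (h ≠ 1 → ∑ i, x i * ac h (y i) = 0))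
    (z : B) : ∑ i, (∑ h : H, ac h (z * x i)) * y i = z := by
  classical
  have e1 : ∀ i, (∑ h : H, ac h (z * x i)) * y i =
      ∑ h : H, ac h z * (ac h (x i * ac h⁻¹ (y i))) := by
    intro i
    rw [Finset.sum_mul]
    refine Finset.sum_congr rfl fun h _ => ?_
    rw [map_mul, map_mul, ← hm, mul_inv_cancel, h1, mul_assoc]
  rw [Finset.sum_congr rfl fun i _ => e1 i, Finset.sum_comm]
  have e2 : ∀ h : H, (∑ i, ac h z * (ac h (x i * ac h⁻¹ (y i)))) =
      ac h z * ac h (∑ i, x i * ac h⁻¹ (y i)) := by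
    intro h
    rw [map_sum, Finset.mul_sum]
  rw [Finset.sum_congr rfl fun h _ => e2 h, Finset.sum_eq_single 1]
  · rw [(hxy 1⁻¹).1 inv_one, h1, map_one, mul_one]
  · intro h _ hh
    rw [(hxy h⁻¹).2 (fun e => hh (inv_eq_one.1 e)), map_zero, mul_zero]
  · intro h
    exact absurd (Finset.mem_univ _) h

/-- (T2), uniqueness -/
theorem tor_unique [Nontrivial F]
    (hm : ∀ g h b, ac (g * h) b = ac g (ac h b)) (hc : Crd ac) (u : B →+* F) (h h' : H)
    (e : ∀ b, u (ac h b) = u (ac h' b)) : h = h' := by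
  obtain ⟨m, x, y, hxy⟩ := hc
  by_contra hne
  have hz : h⁻¹ * h' ≠ 1 := fun hh => hne (inv_mul_eq_one.1 hh)
  have e0 := congrArg (fun b => u (ac h b)) ((hxy (h⁻¹ * h')).2 hz)
  have e1 := congrArg (fun b => u (ac h b)) ((hxy 1).1 rfl)
  simp only [map_sum, map_mul, map_zero, map_one] at e0 e1
  have e2 : ∀ i, u (ac h (ac (h⁻¹ * h') (y i))) = u (ac h (ac 1 (y i))) := by
    intro i
    rw [← hm, ← hm, mul_inv_cancel_left, mul_one, e]
  simp only [e2] at e0
  rw [e1] at e0
  exact one_ne_zero e0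

/-- (T2), existence -/
theorem tor_exists [IsDomain F] [Finite H] (h1 : ∀ b, ac 1 b = b)
    (hm : ∀ g h b, ac (g * h) b = ac g (ac h b)) (hc : Crd ac) (u v : B →+* F)
    (huv : ∀ b, (∀ h, ac h b = b) → u b = v b) : ∃ h : H, ∀ b, v b = u (ac h b) := by
  classical
  have : Fintype H := Fintype.ofFinite H
  obtain ⟨m, x, y, hxy⟩ := hc
  have htr : ∀ b, u (∑ h : H, ac h b) = v (∑ h : H, ac h b) :=
    fun b => huv _ fun g => tor_tr ac hm g b
  have hsum : ∑ h : H, (∑ i, v (x i) * u (ac h (y i))) = 1 := by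
    rw [Finset.sum_comm]
    have e1 : ∀ i, ∑ h : H, v (x i) * u (ac h (y i)) = v (x i * ∑ h : H, ac h (y i * 1)) := by
      intro i
      rw [map_mul, ← htr, map_sum, Finset.mul_sum]
      simp only [mul_one]
    rw [Finset.sum_congr rfl fun i _ => e1 i, ← map_sum, tor_exp1 ac h1 x y hxy 1, map_one]
  obtain ⟨h, -, hh⟩ := Finset.exists_ne_zero_of_sum_ne_zero (by rw [hsum]; exact one_ne_zero)
  refine ⟨h, fun b => ?_⟩
  have key : v b * (∑ i, v (x i) * u (ac h (y i))) = u (ac h b) * ∑ i, v (x i) * u (ac h (y i)) := by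
    have e1 : ∀ i, v b * (v (x i) * u (ac h (y i))) =
        ∑ k, v (x k) * u (ac h ((∑ g : H, ac g ((y k * b) * x i)) * y i)) := by
      intro i
      have e2 : v (b * x i) = ∑ k, v (x k) * u (ac h (∑ g : H, ac g ((y k * b) * x i))) := by
        conv_lhs => rw [← tor_exp1 ac h1 x y hxy (b * x i)]
        rw [map_sum]
        refine Finset.sum_congr rfl fun k _ => ?_
        rw [map_mul, ← htr, tor_tr ac hm h]
        simp only [mul_assoc]
      rw [← mul_assoc, ← map_mul, e2, Finset.sum_mul]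
      refine Finset.sum_congr rfl fun k _ => ?_
      rw [map_mul, map_mul, mul_assoc]
    rw [Finset.mul_sum, Finset.sum_congr rfl fun i _ => e1 i, Finset.sum_comm]
    have e3 : ∀ k, ∑ i, v (x k) * u (ac h ((∑ g : H, ac g ((y k * b) * x i)) * y i)) =
        u (ac h b) * (v (x k) * u (ac h (y k))) := by
      intro k
      rw [← Finset.mul_sum, ← map_sum, ← map_sum, tor_exp2 ac h1 hm x y hxy (y k * b), map_mul,
        map_mul]
      ring
    rw [Finset.sum_congr rfl fun k _ => e3 k, ← Finset.mul_sum]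
  exact mul_right_cancel₀ hh key

end tor

/-- (T1): extension of homomorphisms to an algebraically closed field along an integral
extension -/
theorem tor_lift {A B U : Type*} [CommRing A] [CommRing B] [Field U] [IsAlgClosed U]
    [Algebra A B] [Algebra.IsIntegral A B] (hinj : Function.Injective (algebraMap A B))
    (u : A →+* U) : ∃ v : B →+* U, ∀ a, v (algebraMap A B a) = u a := by
  have : (RingHom.ker u).IsPrime := RingHom.ker_isPrime u
  obtain ⟨Q, -, hQ, hQP⟩ := Ideal.exists_ideal_over_prime_of_isIntegral (RingHom.ker u)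
    (⊥ : Ideal B) (by
      rw [← RingHom.ker, (RingHom.injective_iff_ker_eq_bot _).1 hinj]
      exact bot_le)
  have hQ' := hQ
  let : Algebra (A ⧸ Q.comap (algebraMap A B)) (B ⧸ Q) := Ideal.quotientAlgebra
  have hker : ∀ a ∈ Q.comap (algebraMap A B), u a = 0 := by
    intro a ha
    rw [hQP] at ha
    exact ha
  let u' : (A ⧸ Q.comap (algebraMap A B)) →+* U := Ideal.Quotient.lift _ u hker
  have hu' : Function.Injective u' := by
    rw [injective_iff_map_eq_zero]
    intro a
    obtain ⟨a, rfl⟩ := Ideal.Quotient.mk_surjective a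
    intro ha
    rw [Ideal.Quotient.eq_zero_iff_mem, hQP]
    exact ha
  let : Algebra (A ⧸ Q.comap (algebraMap A B)) U := u'.toAlgebra
  have hi1 : Function.Injective (algebraMap (A ⧸ Q.comap (algebraMap A B)) (B ⧸ Q)) :=
    Ideal.algebraMap_quotient_injective
  have : Module.IsTorsionFree (A ⧸ Q.comap (algebraMap A B)) U :=
    Module.isTorsionFree_iff_algebraMap_injective.mpr hu'
  have : Module.IsTorsionFree (A ⧸ Q.comap (algebraMap A B)) (B ⧸ Q) :=
    Module.isTorsionFree_iff_algebraMap_injective.mpr hi1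
  have : Algebra.IsIntegral (A ⧸ Q.comap (algebraMap A B)) (B ⧸ Q) := inferInstance
  have : Algebra.IsAlgebraic (A ⧸ Q.comap (algebraMap A B)) (B ⧸ Q) := inferInstance
  let φ : (B ⧸ Q) →ₐ[A ⧸ Q.comap (algebraMap A B)] U := IsAlgClosed.lift
  refine ⟨(φ : (B ⧸ Q) →+* U).comp (Ideal.Quotient.mk Q), fun a => ?_⟩
  have h := φ.commutes (Ideal.Quotient.mk _ a)
  exact h

/-- `B` is integral over the invariants -/
theorem tor_finite {A B H : Type*} [CommRing A] [CommRing B] [Algebra A B] [Group H] [Finite H]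
    (ac : H → B →+* B) (h1 : ∀ b, ac 1 b = b) (hm : ∀ g h b, ac (g * h) b = ac g (ac h b))
    (hc : Crd ac) (hfix : ∀ b, (∀ h, ac h b = b) → ∃ a, algebraMap A B a = b) :
    Module.Finite A B := by
  classical
  have : Fintype H := Fintype.ofFinite H
  obtain ⟨m, x, y, hxy⟩ := hc
  refine ⟨⟨Finset.univ.image x, ?_⟩⟩
  rw [eq_top_iff]
  intro r _
  rw [← tor_exp1 ac h1 x y hxy r]
  refine Submodule.sum_mem _ fun i _ => ?_
  obtain ⟨f, hf⟩ := hfix _ (fun g => tor_tr ac hm g (y i * r))
  rw [← hf, mul_comm, ← Algebra.smul_def]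
  refine Submodule.smul_mem _ _ (Submodule.subset_span ?_)
  rw [Finset.coe_image]
  exact ⟨i, by simp, rfl⟩

/-- (Count) -/
theorem tor_card {A B U H : Type*} [CommRing A] [CommRing B] [Algebra A B] [Field U]
    [IsAlgClosed U] [Group H] [Finite H] (ac : H → B →+* B) (h1 : ∀ b, ac 1 b = b)
    (hm : ∀ g h b, ac (g * h) b = ac g (ac h b)) (hc : Crd ac)
    (hfix : ∀ b, (∀ h, ac h b = b) → ∃ a, algebraMap A B a = b)
    (hA : ∀ h a, ac h (algebraMap A B a) = algebraMap A B a)
    (hinj : Function.Injective (algebraMap A B)) (u : A →+* U) :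
    Nat.card {v : B →+* U // ∀ a, v (algebraMap A B a) = u a} = Nat.card H := by
  have : Module.Finite A B := tor_finite ac h1 hm hc hfix
  have : Algebra.IsIntegral A B := inferInstance
  obtain ⟨v, hv⟩ := tor_lift hinj u
  symm
  refine Nat.card_congr (Equiv.ofBijective
    (fun h : H => (⟨v.comp (ac h), fun a => by rw [RingHom.comp_apply, hA, hv]⟩ :
      {v : B →+* U // ∀ a, v (algebraMap A B a) = u a})) ⟨?_, ?_⟩)
  · intro h h' e
    refine tor_unique ac hm hc v h h' fun b => ?_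
    exact congrArg (fun w : {v : B →+* U // ∀ a, v (algebraMap A B a) = u a} => w.1 b) e
  · rintro ⟨w, hw⟩
    obtain ⟨h, hh⟩ := tor_exists ac h1 hm hc v w (fun b hb => by
      obtain ⟨a, rfl⟩ := hfix b hb
      rw [hv, hw])
    exact ⟨h, Subtype.ext (RingHom.ext fun b => (hh b).symm)⟩

end Pool.Agent.AB3
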