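import Pool.Agent.Lib.MP_5de024_nt.Et
import Pool.Agent.Lib.MP_5de024_nt.S.V.VDef
import Pool.Agent.Lib.MP_5de024_nt.S.V.TorA

/-!
# Points of covers and of rings of integers
-/

set_option autoImplicit false
set_option linter.unusedSectionVars false

namespace Pool.Agent.AB3

open Pool.Agent.AB Polynomial

section cov

variable {k R H : Type} [Field k] [CommRing R] [Algebra k[X] R] [Group H] [Finite H]

theorem TorB_one (C : Cov k R H) (r : R) : (C.act 1 : R →+* R) r = r := by
  rw [map_one]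
  rfl

theorem TorB_mul (C : Cov k R H) (g h : H) (r : R) :
    (C.act (g * h) : R →+* R) r = (C.act g : R →+* R) ((C.act h : R →+* R) r) := by
  rw [map_mul]
  rfl

theorem cov_pt_ex (C : Cov k R H) (F : Type) [CommRing F] [IsDomain F] (u v : R →+* F)
    (h : ∀ f : k[X], u (algebraMap k[X] R f) = v (algebraMap k[X] R f)) :
    ∃ g : H, ∀ r, v r = u (C.act g r) := by
  refine tor_ex (fun g : H => (C.act g : R →+* R)) (TorB_one C) (TorB_mul C) C.coord u v ?_
  intro b hb
  obtain ⟨f, rfl⟩ := C.fixed b hb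
  exact h f

theorem cov_pt_uniq (C : Cov k R H) (F : Type) [CommRing F] [Nontrivial F] (u : R →+* F)
    (g h : H) (e : ∀ r, u (C.act g r) = u (C.act h r)) : g = h :=
  tor_uniq (fun g : H => (C.act g : R →+* R)) (TorB_one C) (TorB_mul C) C.coord u g h e

end cov

section nik

variable (p : ℕ) [Fact p.Prime] (K : Type) [Field K] [Algebra (Fx p) K] [Algebra (Rx p) K]
  [IsScalarTower (Rx p) (Fx p) K]

theorem TorB_coord (hK : NiK p K) : ∃ (m : ℕ) (x y : Fin m → Oc p K), ∀ h : Gl p K,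
    (h = 1 → ∑ i, x i * (act p K h : Oc p K →+* Oc p K) (y i) = 1) ∧
      (h ≠ 1 → ∑ i, x i * (act p K h : Oc p K →+* Oc p K) (y i) = 0) := by
  obtain ⟨hfd, -, hni⟩ := hK
  obtain ⟨n, a, b, h1, h2⟩ := gs_of_ni p K hni
  refine ⟨n, a, b, fun h => ⟨?_, fun hh => h2 h hh⟩⟩
  rintro rfl
  exact h1

/-- the invariants are the polynomials -/
theorem TorB_inv (hK : NiK p K) (z : Oc p K) (hz : ∀ σ : Gl p K, act p K σ z = z) :
    ∃ f : Rx p, algebraMap (Rx p) (Oc p K) f = z := by
  obtain ⟨hfd, hgal, hni⟩ := hK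
  obtain ⟨θ, hθ⟩ := trace_one p K hni
  obtain ⟨r, hr⟩ := GsTr_mem p K (z * θ)
  refine ⟨r, ?_⟩
  rw [← hr, GsTr]
  calc ∑ σ : Gl p K, act p K σ (z * θ) = ∑ σ : Gl p K, z * act p K σ θ :=
        Finset.sum_congr rfl fun σ _ => by rw [map_mul, hz]
    _ = z := by rw [← Finset.mul_sum, hθ, mul_one]

theorem nik_pt_ex (hK : NiK p K) (F : Type) [CommRing F] [IsDomain F] (u v : Oc p K →+* F)
    (h : u (xo p K) = v (xo p K)) : ∃ σ : Gl p K, ∀ z, v z = u (act p K σ z) := by
  have hfd : FiniteDimensional (Fx p) K := hK.1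
  refine tor_ex (fun g : Gl p K => (act p K g : Oc p K →+* Oc p K)) (act_one p K)
    (act_mul p K) (TorB_coord p K hK) u v ?_
  intro b hb
  obtain ⟨f, rfl⟩ := TorB_inv p K hK b hb
  have h1 : u.comp (algebraMap (Rx p) (Oc p K)) = v.comp (algebraMap (Rx p) (Oc p K)) := by
    apply Polynomial.ringHom_ext'
    · exact Subsingleton.elim _ _
    · exact h
  exact RingHom.congr_fun h1 f

theorem nik_pt_uniq (hK : NiK p K) (F : Type) [CommRing F] [Nontrivial F] (u : Oc p K →+* F)
    (σ τ : Gl p K) (e : ∀ z, u (act p K σ z) = u (act p K τ z)) : σ = τ := by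
  have hfd : FiniteDimensional (Fx p) K := hK.1
  exact tor_uniq (fun g : Gl p K => (act p K g : Oc p K →+* Oc p K)) (act_one p K)
    (act_mul p K) (TorB_coord p K hK) u σ τ e

end nik

end Pool.Agent.AB3
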