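import Pool.Agent.Lib.MP_5de024_nt.Quo
import Pool.Agent.Lib.MP_5de024_nt.S.FinX.Map

/-!
# The fixed field of the kernel (X)
-/

set_option autoImplicit false
set_option linter.unusedSectionVars false

namespace Pool.Agent.AB3

open Pool.Agent.AB Polynomial

theorem rf_geo (p : ℕ) [Fact p.Prime] (S : Type) [Group S] [Finite S] (h : RF p S ⊤) :
    ∃ (K : Type) (_ : Field K) (_ : Algebra (Fx p) K) (_ : Algebra (Rx p) K)
      (_ : IsScalarTower (Rx p) (Fx p) K), NiK p K ∧ Gc p K = ⊤ ∧ Nonempty (Gl p K ≃* S) := by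
  classical
  obtain ⟨L, _, _, _, _, Φ, ⟨hfd, hgal, hni⟩, hΦ, hG⟩ := h
  let H := Φ.ker
  let M := IntermediateField.fixedField H
  have hNI : NI p M := by
    refine ni_fixed p L hni H M M.val ?_
    intro z
    constructor
    · intro hz
      exact ⟨⟨z, (IntermediateField.mem_fixedField_iff H z).2 hz⟩, rfl⟩
    · rintro ⟨w, rfl⟩ τ hτ
      exact (IntermediateField.mem_fixedField_iff H _).1 w.2 τ hτ
  have hgalM : IsGalois (Fx p) M := IsGalois.of_fixedField_normal_subgroup H
  have hfdM : FiniteDimensional (Fx p) M := inferInstance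
  refine ⟨M, inferInstance, inferInstance, inferInstance, inferInstance, ⟨hfdM, hgalM, hNI⟩, ?_,
    ⟨((QuotientGroup.quotientKerEquivOfSurjective Φ hΦ).symm.trans
      (IsGalois.normalAutEquivQuotient H)).symm⟩⟩
  rw [eq_top_iff]
  intro σ _ c hc
  have hcL : IsCst p (c : L) := hc.map (M.val : M →+* L)
  have hfix : ∀ τ : Gl p L, τ (c : L) = c := by
    intro τ
    have h1 : Φ τ ∈ (Gc p L).map Φ := by
      rw [hG]
      exact Subgroup.mem_top _
    obtain ⟨g, hg, hgτ⟩ := h1
    have h2 : τ * g⁻¹ ∈ H := by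
      rw [MonoidHom.mem_ker, map_mul, map_inv, hgτ, mul_inv_cancel]
    have h3 := (IntermediateField.mem_fixedField_iff H _).1 c.2 _ h2
    have h4 : g (c : L) = c := hg _ hcL
    have h5 : (τ * g⁻¹) (g (c : L)) = τ c := by
      rw [AlgEquiv.mul_apply, AlgEquiv.aut_inv, AlgEquiv.symm_apply_apply]
    rw [← h5, h4, h3]
  obtain ⟨f, hf⟩ := (IsGalois.mem_range_algebraMap_iff_fixed (F := Fx p) (E := L) (c : L)).2 hfix
  have h6 : c = algebraMap (Fx p) M f := Subtype.ext hf.symm
  rw [h6, AlgEquiv.commutes]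

end Pool.Agent.AB3
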