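import Pool.Agent.Lib.MP_5de024_nt.S.GeoX
import Pool.Agent.Lib.MP_5de024_nt.S.V.XFix

/-!
# A cover over the prime field (X)
-/

set_option autoImplicit false
set_option linter.unusedSectionVars false

namespace Pool.Agent.AB3

open Pool.Agent.AB Polynomial

/-- transport of a cover along isomorphisms -/
theorem cov_congr {k k' R H H' : Type} [Field k] [Field k'] [CommRing R] [Algebra k[X] R]
    [Group H] [Group H'] (e : k' ≃+* k) (g : H' ≃* H) (C : Cov k R H) :
    ∃ (R' : Type) (_ : CommRing R') (_ : Algebra k'[X] R'), Nonempty (Cov k' R' H') := by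
  let me : k'[X] →+* k[X] := Polynomial.mapRingHom (e : k' →+* k)
  let me' : k[X] →+* k'[X] := Polynomial.mapRingHom (e.symm : k →+* k')
  have hme : ∀ f, me (me' f) = f := by
    intro f
    change (f.map (e.symm : k →+* k')).map (e : k' →+* k) = f
    rw [Polynomial.map_map]
    have h0 : (e : k' →+* k).comp (e.symm : k →+* k') = RingHom.id k := by
      ext a
      simp
    rw [h0, Polynomial.map_id]
  have hme' : ∀ f, me' (me f) = f := by
    intro f
    change (f.map (e : k' →+* k)).map (e.symm : k →+* k') = f
    rw [Polynomial.map_map]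
    have h0 : (e.symm : k →+* k').comp (e : k' →+* k) = RingHom.id k' := by
      ext a
      simp
    rw [h0, Polynomial.map_id]
  let alg : Algebra k'[X] R := ((algebraMap k[X] R).comp me).toAlgebra
  have halg : ∀ f : k'[X], algebraMap k'[X] R f = algebraMap k[X] R (me f) := fun f => rfl
  refine ⟨R, inferInstance, alg, ⟨?_⟩⟩
  refine
    { act :=
        { toFun := fun h => AlgEquiv.ofRingEquiv (f := (C.act (g h)).toRingEquiv)
            (fun r => (C.act (g h)).commutes _)
          map_one' := ?_
          map_mul' := ?_ }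
      inj := ?_
      fixed := ?_
      coord := ?_
      geom := ?_ }
  · ext r
    change C.act (g 1) r = r
    rw [map_one, map_one]
    rfl
  · intro a b
    ext r
    change C.act (g (a * b)) r = C.act (g a) (C.act (g b) r)
    rw [map_mul, map_mul]
    rfl
  · intro a b hab
    rw [halg, halg] at hab
    have h1 := congrArg me' (C.inj hab)
    rwa [hme', hme'] at h1
  · intro r hr
    obtain ⟨f, hf⟩ := C.fixed r fun h => by
      have h1 := hr (g.symm h)
      change C.act (g (g.symm h)) r = r at h1
      rwa [MulEquiv.apply_symm_apply] at h1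
    exact ⟨me' f, by rw [halg, hme, hf]⟩
  · obtain ⟨m, x, y, hxy⟩ := C.coord
    refine ⟨m, x, y, fun h => ⟨fun hh => ?_, fun hh => ?_⟩⟩
    · exact (hxy (g h)).1 (by rw [hh, map_one])
    · exact (hxy (g h)).2 (by
        intro h1
        exact hh (g.injective (by rw [h1, map_one])))
  · intro F _ _
    let aF : Algebra k F := ((algebraMap k' F).comp (e.symm : k →+* k')).toAlgebra
    have haF : ∀ c : k, algebraMap k F c = algebraMap k' F (e.symm c) := fun c => rfl
    have hd : IsDomain (Bs (evg k F X) R) := C.geom F
    have hev : ∀ f : k'[X], evg k' F X f = evg k F X (me f) := by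
      intro f
      have h1 : evg k' F X = (evg k F X).comp me := by
        refine Polynomial.ringHom_ext' ?_ ?_
        · ext a
          simp only [evg, me, RingHom.comp_apply, Polynomial.coe_mapRingHom, Polynomial.map_C,
            Polynomial.coe_eval₂RingHom, Polynomial.eval₂_C]
          rw [haF]
          simp
        · simp only [evg, me, RingHom.comp_apply, Polynomial.coe_mapRingHom, Polynomial.map_X,
            Polynomial.coe_eval₂RingHom, Polynomial.eval₂_X]
      rw [h1, RingHom.comp_apply]
    let f1 : Bs (evg k' F X) R →+* Bs (evg k F X) R :=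
      Bs.lift (evg k' F X) (algebraMap F[X] (Bs (evg k F X) R)) (Bs.inR (evg k F X) R)
        (fun f => by rw [halg, Bs.inR_alg, hev])
    let f2 : Bs (evg k F X) R →+* Bs (evg k' F X) R :=
      Bs.lift (evg k F X) (algebraMap F[X] (Bs (evg k' F X) R)) (Bs.inR (evg k' F X) R)
        (fun f => by
          have h1 : algebraMap k[X] R f = algebraMap k'[X] R (me' f) := by rw [halg, hme]
          rw [h1, Bs.inR_alg, hev, hme])
    have h12 : f2.comp f1 = RingHom.id _ := by
      refine Bs.hom_ext (evg k' F X) ?_ ?_
      · intro a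
        rw [RingHom.comp_apply, RingHom.id_apply, Bs.lift_alg, Bs.lift_alg]
      · intro r
        rw [RingHom.comp_apply, RingHom.id_apply, Bs.lift_inR, Bs.lift_inR]
    have hinj : Function.Injective f1 := by
      intro a b hab
      have h3 := congrArg f2 hab
      rw [← RingHom.comp_apply, ← RingHom.comp_apply, h12] at h3
      exact h3
    exact hinj.isDomain f1

theorem cov_of_rf (p : ℕ) [Fact p.Prime] (S : Type) [Group S] [Finite S] (h : RF p S ⊤) :
    ∃ (R : Type) (_ : CommRing R) (_ : Algebra (Rx p) R), Nonempty (Cov (ZMod p) R S) := by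
  obtain ⟨K, _, _, _, _, hK, hG, ⟨eS⟩⟩ := rf_geo p S h
  obtain ⟨hfd, hgal, hni⟩ := hK
  obtain ⟨k, R, H, _, _, _, _, _, _, _, ⟨m⟩⟩ := exists_mdl p K ⟨hfd, hgal, hni⟩
  -- all constants are in the prime field
  have hck : ∀ a : k, a ^ p = a := by
    intro a
    obtain ⟨z, hz⟩ : ∃ z : Oc p K, z = m.e (algebraMap k[X] R (C a)) := ⟨_, rfl⟩
    have h1 : IsCst p (z : K) := (m.econst _).2 ⟨a, by rw [hz]⟩
    obtain ⟨r, hr⟩ := fixed_oc p K z fun σ => Subtype.ext (by
      have h3 : σ ∈ Gc p K := by
        rw [hG]
        exact Subgroup.mem_top _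
      exact h3 _ h1)
    obtain ⟨n, hn, h4⟩ := h1
    have h5 : r ^ p ^ n = r := by
      apply Gs_inj p K
      rw [map_pow, ← hr]
      exact Subtype.ext (by rw [SubmonoidClass.coe_pow, h4])
    have h6 : r.natDegree = 0 := by
      have h7 := congrArg Polynomial.natDegree h5
      rw [Polynomial.natDegree_pow] at h7
      by_contra h0
      have h8 : 1 < p ^ n := Nat.one_lt_pow hn.ne' (Fact.out : p.Prime).one_lt
      have h9 : 1 * r.natDegree < p ^ n * r.natDegree :=
        Nat.mul_lt_mul_of_pos_right h8 (Nat.pos_of_ne_zero h0)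
      omega
    rw [Polynomial.eq_C_of_natDegree_eq_zero h6] at hr
    have h7 : z ^ p = z := by
      rw [hr, ← map_pow, ← Polynomial.C_pow, ZMod.pow_card]
    rw [hz, ← map_pow, ← map_pow, ← Polynomial.C_pow] at h7
    exact Polynomial.C_injective (m.cov.inj (m.e.injective h7))
  have hfk : Fintype k := Fintype.ofFinite k
  have hp : 1 < p := (Fact.out : p.Prime).one_lt
  have hcard : Fintype.card k ≤ p := by
    classical
    have h5 := Polynomial.card_roots' (X ^ p - X : k[X])
    rw [FiniteField.X_pow_card_sub_X_natDegree_eq k hp] at h5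
    refine le_trans ?_ h5
    rw [← Finset.card_univ]
    refine le_trans (Finset.card_le_card ?_) (Multiset.toFinset_card_le _)
    intro a _
    rw [Multiset.mem_toFinset, Polynomial.mem_roots (FiniteField.X_pow_card_sub_X_ne_zero k hp),
      Polynomial.IsRoot, Polynomial.eval_sub, Polynomial.eval_pow, Polynomial.eval_X, hck,
      sub_self]
  have hinj : Function.Injective (ZMod.castHom (dvd_refl p) k) := RingHom.injective _
  have hbij : Function.Bijective (ZMod.castHom (dvd_refl p) k) := by
    refine ⟨hinj, ?_⟩
    refine ((Fintype.bijective_iff_injective_and_card _).2 ⟨hinj, le_antisymm ?_ ?_⟩).2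
    · exact Fintype.card_le_of_injective _ hinj
    · rw [ZMod.card]
      exact hcard
  exact cov_congr (RingEquiv.ofBijective _ hbij)
    (eS.symm.trans (Subgroup.topEquiv.symm.trans
      ((MulEquiv.subgroupCongr hG).symm.trans m.j.symm))) m.cov

end Pool.Agent.AB3
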