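import Pool.Agent.Lib.MP_5de024_nt.S.V.WK
import Pool.Agent.Lib.MP_5de024_nt.S.V.XCov

/-!
# Wreath products (theorem V)
-/

set_option autoImplicit false
set_option linter.unusedSectionVars false

namespace Pool.Agent.AB3

open Pool.Agent.AB Polynomial

theorem rf_wr (p : ℕ) [Fact p.Prime] (S G Ω : Type) [Group S] [Finite S] [Group G]
    [MulAction G Ω] [Finite Ω] (H : Subgroup G) (hS : RF p S ⊤) (hG : RF p G H) :
    RF p ((Ω → S) ⋊[mulAutArrow] G) (H.comap SemidirectProduct.rightHom) := by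
  obtain ⟨R, _, _, ⟨C⟩⟩ := cov_of_rf p S hS
  obtain ⟨K, _, _, _, _, Φ, hK, hΦ, hGc⟩ := hG
  let _ : MulAction (Gl p K) Ω := MulAction.compHom Ω Φ
  have h1 := rf_wr_K p K hK R S C Ω
  let f : (Ω → S) ⋊[mulAutArrow] Gl p K →* (Ω → S) ⋊[mulAutArrow] G :=
    SemidirectProduct.map (MonoidHom.id _) Φ (by
      intro g
      ext v w
      change v (Φ g⁻¹ • w) = v ((Φ g)⁻¹ • w)
      rw [map_inv])
  have hfl : ∀ x, (f x).left = x.left := fun x => rfl
  have hfr : ∀ x, (f x).right = Φ x.right := fun x => rfl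
  have hf : Function.Surjective f := by
    intro y
    obtain ⟨σ, hσ⟩ := hΦ y.right
    refine ⟨⟨y.left, σ⟩, ?_⟩
    apply SemidirectProduct.ext
    · rw [hfl]
    · rw [hfr, hσ]
  have h2 := rf_map p f hf h1
  have h3 : ((Gc p K).comap SemidirectProduct.rightHom).map f =
      H.comap SemidirectProduct.rightHom := by
    ext y
    constructor
    · rintro ⟨x, hx, rfl⟩
      rw [Subgroup.mem_comap, ← hGc]
      exact ⟨x.right, hx, rfl⟩
    · intro hy
      rw [Subgroup.mem_comap, ← hGc] at hy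
      obtain ⟨σ, hσ, h4⟩ := hy
      refine ⟨⟨y.left, σ⟩, hσ, ?_⟩
      apply SemidirectProduct.ext
      · rw [hfl]
      · rw [hfr]
        exact h4
  rw [← h3]
  exact h2

end Pool.Agent.AB3
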