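import Pool.Agent.Lib.MP_5de024_nt.S.FinX.Class
import Pool.Agent.Lib.MP_5de024_nt.S.V.Wr
import Pool.Agent.Lib.MP_5de024_nt.S.V.PgW
import Pool.Agent.Lib.MP_5de024_nt.S.V.NTop

/-!
# The class of groups, with wreath products
-/

set_option autoImplicit false
set_option linter.unusedSectionVars false

namespace Pool.Agent.AB3

open Pool.Agent.AB

/-- the class of finite groups generated by the cyclic groups of order prime to `p` and the
groups `SL_n(F)`, `F` a finite field of characteristic `p` -/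
inductive Tw (p : ℕ) : ∀ (E : Type) [Group E], Prop
  | cyc (E : Type) [Group E] [Finite E] [IsCyclic E] (h : (Nat.card E).Coprime p) : Tw p E
  | sln (n : ℕ) (F : Type) [Field F] [Finite F] [CharP F p] :
      Tw p (Matrix.SpecialLinearGroup (Fin n) F)
  | quo (E E' : Type) [Group E] [Group E'] (f : E →* E') (hf : Function.Surjective f)
      (h : Tw p E) : Tw p E'
  | pker (E : Type) [Group E] [Finite E] (U : Subgroup E) [U.Normal] (hU : IsPGroup p U)
      (h : Tw p (E ⧸ U)) : Tw p E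
  | supp (E : Type) [Group E] [Finite E] (A C : Subgroup E) [A.Normal]
      (hAc : ∀ a ∈ A, ∀ b ∈ A, a * b = b * a) (hcop : (Nat.card A).Coprime p)
      (hle : A ≤ pg p E) (hsup : A ⊔ C = ⊤) (h : Tw p C) : Tw p E
  | cent (E : Type) [Group E] [Finite E] (V : Subgroup E) [V.Normal]
      (hcop : (Nat.card V).Coprime p) (hle : V ≤ pg p E)
      (hc : ∀ v ∈ V, ∀ h ∈ pg p E, v * h = h * v) (h : Tw p (E ⧸ V)) : Tw p E
  | lay (E : Type) [Group E] [Finite E] (K : Subgroup E) [K.Normal]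
      (hsol : Group.IsSolvable K)
      (hgen : Subgroup.closure {g : E | g ∈ K ∧ ∃ n : ℕ, g ^ (p ^ n) = 1} = K)
      (hab : ∀ l : ℕ, l.Prime → l ≠ p → ∀ S : Subgroup E, S ≤ K → IsPGroup l S →
        ∀ a ∈ S, ∀ b ∈ S, a * b = b * a)
      (h : Tw p (E ⧸ K)) : Tw p E
  | wr (S G Ω : Type) [Group S] [Group G] [MulAction G Ω] [Finite Ω] (hS : pg p S = ⊤)
      (h1 : Tw p S) (h2 : Tw p G) : Tw p ((Ω → S) ⋊[mulAutArrow] G)

theorem rf_tw (p : ℕ) [Fact p.Prime] (E : Type) [i : Group E] (h : Tw p E) :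
    Finite E ∧ RF p E (pg p E) := by
  have hp : p.Prime := Fact.out
  induction h with
  | @cyc E _ _ _ h =>
    refine ⟨inferInstance, ?_⟩
    rw [pg_eq_bot p E h]
    exact rf_base p E
  | @sln n F _ _ _ =>
    refine ⟨inferInstance, ?_⟩
    have h1 : pg p (Matrix.SpecialLinearGroup (Fin n) F) = ⊤ := pg_sl p n F
    rw [h1]
    exact rf_sl p F n
  | @quo E E' _ _ f hf _ ih =>
    obtain ⟨h1, h2⟩ := ih
    refine ⟨Finite.of_surjective f hf, ?_⟩
    have h3 := rf_map p f hf h2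
    rwa [pg_map p hp f hf] at h3
  | @pker E _ _ U _ hU _ ih => exact ⟨inferInstance, rf_stepA p E U hU ih.2⟩
  | @supp E _ _ A C _ hAc hcop hle hsup _ ih =>
    exact ⟨inferInstance, rf_supp p E A C hAc hcop hle hsup ih.2⟩
  | @cent E _ _ V _ hcop hle hc _ ih => exact ⟨inferInstance, rf_central p E V hcop hle hc ih.2⟩
  | @lay E _ _ K _ hsol hgen hab _ ih =>
    refine ⟨inferInstance, ?_⟩
    have hk : (QuotientGroup.mk' K).ker = K := QuotientGroup.ker_mk' K
    refine rf_refine p _ E (E ⧸ K) (QuotientGroup.mk' K) (QuotientGroup.mk'_surjective K) rfl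
      ?_ ?_ ?_ ih.2
    · rw [hk]
      exact hsol
    · rw [hk]
      exact hgen.ge
    · rw [hk]
      exact hab
  | @wr S G Ω _ _ _ _ hS _ _ ih1 ih2 =>
    obtain ⟨f1, h1⟩ := ih1
    obtain ⟨f2, h2⟩ := ih2
    rw [hS] at h1
    refine ⟨Finite.of_equiv _ SemidirectProduct.equivProd.symm, ?_⟩
    rw [pg_wr p S G Ω hS]
    exact rf_wr p S G Ω (pg p G) h1 h2

end Pool.Agent.AB3
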