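import Pool.Agent.Lib.MP_5de024_nt.S.V.TorB
import Pool.Agent.Lib.MP_5de024_nt.S.V.Ext
import Pool.Agent.Lib.MP_5de024_nt.S.V.Sep

/-!
# The field generated by points of a cover (W1, first part)
-/

set_option autoImplicit false
set_option linter.unusedSectionVars false

namespace Pool.Agent.AB3

open Pool.Agent.AB Polynomial

section aux

variable (p : ℕ) [Fact p.Prime] (K : Type) [Field K] [Algebra (Fx p) K] [Algebra (Rx p) K]
  [IsScalarTower (Rx p) (Fx p) K]

/-- the substitution `X ↦ b` -/
noncomputable def WFldu (b : Oc p K) : Rx p →+* Oc p K :=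
  Polynomial.eval₂RingHom (cst p (Oc p K)) b

theorem WFldu_X (b : Oc p K) : WFldu p K b X = b := by
  rw [WFldu, Polynomial.coe_eval₂RingHom, Polynomial.eval₂_X]

theorem WFldu_C (b : Oc p K) (c : ZMod p) : WFldu p K b (C c) = cst p (Oc p K) c := by
  rw [WFldu, Polynomial.coe_eval₂RingHom, Polynomial.eval₂_C]

theorem WFldu_act (σ : Gl p K) (b : Oc p K) (f : Rx p) :
    act p K σ (WFldu p K b f) = WFldu p K (act p K σ b) f := by
  have h : ((act p K σ : Oc p K ≃ₐ[Rx p] Oc p K) : Oc p K →+* Oc p K).comp (WFldu p K b) =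
      WFldu p K (act p K σ b) := by
    refine Polynomial.ringHom_ext (fun c => ?_) ?_
    · rw [RingHom.comp_apply, WFldu_C, WFldu_C]
      exact act_cst p K σ c
    · rw [RingHom.comp_apply, WFldu_X, WFldu_X]
      rfl
  exact RingHom.congr_fun h f

variable (U : Type) [Field U] [Algebra K U] [Algebra (Fx p) U] [Algebra (Rx p) U]
  [IsScalarTower (Fx p) K U] [IsScalarTower (Rx p) (Fx p) U] [IsScalarTower (Rx p) K U]

variable {p K} in
/-- an element integral over the ring of integers is integral -/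
theorem WFld_int (x : U) (hx : IsIntegral (Oc p K) x) : IsIntegral (Rx p) x :=
  isIntegral_trans (R := Rx p) (A := Oc p K) x hx

end aux

/-- the general form over an algebraic closure `U` -/
theorem WFld_main (p : ℕ) [Fact p.Prime] (K : Type) [Field K] [Algebra (Fx p) K]
    [Algebra (Rx p) K] [IsScalarTower (Rx p) (Fx p) K] (hK : NiK p K) (R S : Type)
    [CommRing R] [Algebra (Rx p) R] [Group S] [Finite S] (C : Cov (ZMod p) R S) (Ω : Type)
    [Finite Ω] [MulAction (Gl p K) Ω] (a : Ω → Oc p K)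
    (ha : ∀ (σ : Gl p K) (w : Ω), act p K σ (a w) = a (σ • w))
    (U : Type) [Field U] [Algebra K U] [Algebra (Fx p) U] [Algebra (Rx p) U]
    [IsScalarTower (Fx p) K U] [IsScalarTower (Rx p) (Fx p) U] [IsScalarTower (Rx p) K U]
    [IsAlgClosed U] [Algebra.IsAlgebraic K U] :
    ∃ (L : Type) (_ : Field L) (_ : Algebra (Fx p) L) (_ : Algebra (Rx p) L)
      (_ : IsScalarTower (Rx p) (Fx p) L), FiniteDimensional (Fx p) L ∧ IsGalois (Fx p) L ∧
      Nonempty (WrX p K L R Ω a) := by
  classical
  obtain ⟨hfdK, hgalK, _⟩ := hK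
  have halgK : Algebra.IsAlgebraic (Fx p) K := Algebra.IsAlgebraic.of_finite _ _
  have halgU : Algebra.IsAlgebraic (Fx p) U := Algebra.IsAlgebraic.trans (Fx p) K U
  have hclU : IsAlgClosure (Fx p) U := ⟨inferInstance, halgU⟩
  have hnorU : Normal (Fx p) U := IsAlgClosure.normal (Fx p) U
  have hnorK : Normal (Fx p) K := hgalK.to_normal
  -- the points
  have hex : ∀ w : Ω, ∃ v : R →+* U, ∀ f : Rx p, v (algebraMap (Rx p) R f) =
      algebraMap K U ((WFldu p K (a w) f : Oc p K) : K) := fun w =>
    ext_cov C U ((algebraMap K U).comp (((Oc p K).val : Oc p K →+* K).comp (WFldu p K (a w))))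
  choose y hy using hex
  -- finite generation
  have hfinR := cov_finite C
  obtain ⟨s, hs⟩ := hfinR.fg_top
  let T : Set U := ⋃ w, y w '' (s : Set R)
  let L₀ : IntermediateField K U := IntermediateField.adjoin K T
  have hTfin : T.Finite := Set.finite_iUnion fun w => s.finite_toSet.image (y w)
  have hsep : ∀ w r, IsSeparable K (y w r) := fun w r =>
    cov_sep C K U (((Oc p K).val : Oc p K →+* K).comp (WFldu p K (a w))) (y w) (hy w) r
  have hfd0 : FiniteDimensional K L₀ := by
    have : Finite T := hTfin.to_subtype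
    refine IntermediateField.finiteDimensional_adjoin ?_
    intro z hz
    obtain ⟨w, hw⟩ := Set.mem_iUnion.mp hz
    obtain ⟨r, _, rfl⟩ := hw
    exact (hsep w r).isIntegral
  have hsep0 : Algebra.IsSeparable K L₀ := by
    rw [IntermediateField.isSeparable_adjoin_iff_isSeparable]
    intro z hz
    obtain ⟨w, hw⟩ := Set.mem_iUnion.mp hz
    obtain ⟨r, _, rfl⟩ := hw
    exact hsep w r
  have hL₀ : ∀ w r, y w r ∈ L₀ := by
    intro w r
    have hr : r ∈ Submodule.span (Rx p) (s : Set R) := by
      rw [hs]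
      trivial
    induction hr using Submodule.span_induction with
    | mem z hz =>
      exact IntermediateField.subset_adjoin K _ (Set.mem_iUnion.mpr ⟨w, z, hz, rfl⟩)
    | zero =>
      rw [map_zero]
      exact L₀.zero_mem
    | add a b _ _ ha hb =>
      rw [map_add]
      exact L₀.add_mem ha hb
    | smul c a _ ha =>
      rw [Algebra.smul_def, map_mul, hy]
      exact L₀.mul_mem (L₀.algebraMap_mem _) ha
  -- stability
  have hstab : ∀ (τ : U →ₐ[Fx p] U) (z : U), z ∈ L₀ → τ z ∈ L₀ := by
    intro τ z hz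
    induction hz using IntermediateField.adjoin_induction with
    | mem z hz =>
      obtain ⟨w, hw⟩ := Set.mem_iUnion.mp hz
      obtain ⟨r, _, rfl⟩ := hw
      let σ : Gl p K := τ.restrictNormal' K
      have hσ : ∀ c : K, τ (algebraMap K U c) = algebraMap K U (σ c) := fun c =>
        (AlgHom.restrictNormal_commutes τ K c).symm
      obtain ⟨g, hg⟩ := cov_pt_ex C U (y (σ • w)) ((τ : U →+* U).comp (y w)) (by
        intro f
        rw [RingHom.comp_apply, hy, hy]
        change _ = τ (algebraMap K U _)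
        rw [hσ, ← act_coe, WFldu_act, ha])
      have h1 := hg r
      rw [RingHom.comp_apply] at h1
      change τ (y w r) = _ at h1
      rw [h1]
      exact hL₀ _ _
    | algebraMap c =>
      rw [← AlgHom.restrictNormal_commutes τ K c]
      exact L₀.algebraMap_mem _
    | add a b _ _ ha hb =>
      rw [map_add]
      exact L₀.add_mem ha hb
    | inv a _ ha =>
      rw [map_inv₀]
      exact L₀.inv_mem ha
    | mul a b _ _ ha hb =>
      rw [map_mul]
      exact L₀.mul_mem ha hb
  let L : IntermediateField (Fx p) U := L₀.restrictScalars (Fx p)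
  have hmem : ∀ z, z ∈ L ↔ z ∈ L₀ := fun z => Iff.rfl
  have hfd1 : FiniteDimensional (Fx p) L₀ := FiniteDimensional.trans (Fx p) K L₀
  have hfd : FiniteDimensional (Fx p) L := hfd1
  have hsepK : Algebra.IsSeparable (Fx p) K := hgalK.to_isSeparable
  have hsep1 : Algebra.IsSeparable (Fx p) L₀ := Algebra.IsSeparable.trans (Fx p) K L₀
  have hsepL : Algebra.IsSeparable (Fx p) L := hsep1
  have hnor : Normal (Fx p) L := by
    rw [IntermediateField.normal_iff_forall_map_le]
    rintro τ _ ⟨z, hz, rfl⟩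
    exact hstab τ z hz
  have hgal : IsGalois (Fx p) L := ⟨⟩
  have hint : ∀ w r, IsIntegral (Rx p) (y w r) := by
    intro w r
    refine WFld_int U (y w r) (IsIntegral.map_of_comp_eq (WFldu p K (a w)) (y w) ?_
      (Algebra.IsIntegral.isIntegral (R := Rx p) r))
    refine RingHom.ext fun f => ?_
    rw [RingHom.comp_apply, RingHom.comp_apply, hy]
    rfl
  have hintL : ∀ w r, IsIntegral (Rx p) (⟨y w r, hL₀ w r⟩ : L) := by
    intro w r
    exact (isIntegral_algHom_iff (L.val.restrictScalars (Rx p)) Subtype.val_injective).mp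
      (hint w r)
  let ι : K →ₐ[Fx p] L :=
    { toFun := fun z => ⟨algebraMap K U z, L₀.algebraMap_mem z⟩
      map_one' := Subtype.ext (map_one _)
      map_mul' := fun a b => Subtype.ext (map_mul _ a b)
      map_zero' := Subtype.ext (map_zero _)
      map_add' := fun a b => Subtype.ext (map_add _ a b)
      commutes' := fun f => Subtype.ext (IsScalarTower.algebraMap_apply (Fx p) K U f).symm }
  let y' : Ω → R →+* Oc p L := fun w =>
    { toFun := fun r => ⟨⟨y w r, hL₀ w r⟩, hintL w r⟩
      map_one' := Subtype.ext (Subtype.ext (map_one _))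
      map_mul' := fun a b => Subtype.ext (Subtype.ext (map_mul _ a b))
      map_zero' := Subtype.ext (Subtype.ext (map_zero _))
      map_add' := fun a b => Subtype.ext (Subtype.ext (map_add _ a b)) }
  refine ⟨L, inferInstance, inferInstance, inferInstance, inferInstance, hfd, hgal, ⟨?_⟩⟩
  refine ⟨ι, y', ?_, ?_⟩
  · intro w
    refine Subtype.ext (Subtype.ext ?_)
    change y w (algebraMap (Rx p) R X) = algebraMap K U ((a w : Oc p K) : K)
    rw [hy, WFldu_X]
  · intro τ h1 h2
    refine AlgEquiv.ext ?_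
    rintro ⟨z, hz⟩
    rw [AlgEquiv.one_apply]
    have hz' : z ∈ L₀ := hz
    induction hz' using IntermediateField.adjoin_induction with
    | mem z hz0 =>
      obtain ⟨w, hw⟩ := Set.mem_iUnion.mp hz0
      obtain ⟨r, _, hr⟩ := hw
      have h3 := congrArg (fun t : Oc p L => (t : L)) (h2 w r)
      have h4 : (⟨z, hz⟩ : L) = ⟨y w r, hL₀ w r⟩ := Subtype.ext hr.symm
      rw [h4]
      exact h3
    | algebraMap c => exact h1 c
    | add a b ha hb iha ihb =>
      have e : (⟨a + b, hz⟩ : L) = (⟨a, ha⟩ : L) + ⟨b, hb⟩ := rfl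
      rw [e, map_add, iha ha, ihb hb]
    | inv a ha iha =>
      have e : (⟨a⁻¹, hz⟩ : L) = (⟨a, ha⟩ : L)⁻¹ := rfl
      rw [e, map_inv₀, iha ha]
    | mul a b ha hb iha ihb =>
      have e : (⟨a * b, hz⟩ : L) = (⟨a, ha⟩ : L) * ⟨b, hb⟩ := rfl
      rw [e, map_mul, iha ha, ihb hb]

theorem wr_fld (p : ℕ) [Fact p.Prime] (K : Type) [Field K] [Algebra (Fx p) K]
    [Algebra (Rx p) K] [IsScalarTower (Rx p) (Fx p) K] (hK : NiK p K) (R S : Type)
    [CommRing R] [Algebra (Rx p) R] [Group S] [Finite S] (C : Cov (ZMod p) R S) (Ω : Type)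
    [Finite Ω] [MulAction (Gl p K) Ω] (a : Ω → Oc p K)
    (ha : ∀ (σ : Gl p K) (w : Ω), act p K σ (a w) = a (σ • w)) :
    ∃ (L : Type) (_ : Field L) (_ : Algebra (Fx p) L) (_ : Algebra (Rx p) L)
      (_ : IsScalarTower (Rx p) (Fx p) L), FiniteDimensional (Fx p) L ∧ IsGalois (Fx p) L ∧
      Nonempty (WrX p K L R Ω a) :=
  WFld_main p K hK R S C Ω a ha (AlgebraicClosure K)

end Pool.Agent.AB3
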