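import Pool.Agent.Lib.MP_5de024_nt.S.V.CstL

/-!
# Frobenius elements (W3)
-/

set_option autoImplicit false
set_option linter.unusedSectionVars false

namespace Pool.Agent.AB3

open Pool.Agent.AB Polynomial

/-- restriction of automorphisms -/
theorem wfr_restr (p : ℕ) [Fact p.Prime] (K M : Type) [Field K] [Algebra (Fx p) K]
    [IsGalois (Fx p) K] [Field M] [Algebra (Fx p) M]
    (ι : K →ₐ[Fx p] M) (σ : Gl p M) : ∃ σ' : Gl p K, ∀ s : K, ι (σ' s) = σ (ι s) := by
  let _ : Algebra K M := ι.toRingHom.toAlgebra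
  have : IsScalarTower (Fx p) K M := IsScalarTower.of_algebraMap_eq fun r => (ι.commutes r).symm
  exact ⟨AlgEquiv.restrictNormal σ K, fun s => AlgEquiv.restrictNormal_commutes σ K s⟩

/-- iterating -/
theorem wfr_iter {M : Type} [Monoid M] (c : M) (p n m : ℕ) (h : c ^ p ^ n = c) (hd : n ∣ m) :
    c ^ p ^ m = c := by
  obtain ⟨k, rfl⟩ := hd
  induction k with
  | zero => rw [mul_zero, pow_zero, pow_one]
  | succ k ih => rw [Nat.mul_succ, pow_add, pow_mul, ih, h]

/-- homomorphisms from a cover over `F_p` agree on the base if they agree on `X` -/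
theorem wfr_base (p : ℕ) [Fact p.Prime] {R F : Type} [CommRing R] [Algebra (Rx p) R]
    [CommRing F] (u v : R →+* F) (h : u (algebraMap (Rx p) R X) = v (algebraMap (Rx p) R X))
    (f : Rx p) : u (algebraMap (Rx p) R f) = v (algebraMap (Rx p) R f) := by
  have e : u.comp (algebraMap (Rx p) R) = v.comp (algebraMap (Rx p) R) := by
    refine Polynomial.ringHom_ext' (RingHom.ext_zmod _ _) ?_
    exact h
  exact RingHom.congr_fun e f

theorem wr_frob (p : ℕ) [Fact p.Prime] (K : Type) [Field K] [Algebra (Fx p) K]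
    [Algebra (Rx p) K] [IsScalarTower (Rx p) (Fx p) K] (hK : NiK p K) (R S : Type)
    [CommRing R] [Algebra (Rx p) R] [Group S] [Finite S] (C : Cov (ZMod p) R S) (Ω : Type)
    (a : Ω → Oc p K) (L : Type) [Field L] [Algebra (Fx p) L] [Algebra (Rx p) L]
    [IsScalarTower (Rx p) (Fx p) L] (hL : NiK p L) (Y : WrX p K L R Ω a) (s : ℕ)
    (i : Oc p K →+* Fb p) (hi : GPt p K s i) (hs : Nat.card (Gl p L) ∣ s) (g : Ω → S)
    (f : Ω → R →+* Fb p) (hf : ∀ w r, f w r ^ p ^ s = f w (C.act (g w) r))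
    (hif : ∀ w, i (a w) = f w (algebraMap (Rx p) R X)) :
    ∃ τ ∈ Gc p L, (∀ z, τ (Y.ι z) = Y.ι z) ∧
      ∀ w, ∃ c : S, ∀ r, act p L τ (Y.y w r) = Y.y w (C.act (c⁻¹ * g w * c) r) := by
  have hgal : IsGalois (Fx p) K := hK.2.1
  have hexp : ExpChar (Fb p) p := inferInstance
  obtain ⟨i', hi'⟩ := ext_oc p K L Y.ι (Fb p) i
  let v : Oc p L →+* Fb p := (iterateFrobenius (Fb p) p s).comp i'
  have hv : ∀ z, v z = i' z ^ p ^ s := fun z => iterateFrobenius_def p s (i' z)
  have hxo : omap p K L Y.ι (xo p K) = xo p L := (omap p K L Y.ι).commutes _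
  have h1 : i' (xo p L) = v (xo p L) := by
    rw [hv, ← hxo, hi', hi.1]
  obtain ⟨τ, hτ⟩ := nik_pt_ex p L hL (Fb p) i' v h1
  obtain ⟨τ', hτ'⟩ := wfr_restr p K L Y.ι τ
  have hcomm : ∀ z : Oc p K, omap p K L Y.ι (act p K τ' z) = act p L τ (omap p K L Y.ι z) := by
    intro z
    apply Subtype.ext
    rw [omap_coe, act_coe, act_coe, omap_coe]
    exact hτ' _
  have hone : τ' = 1 := by
    refine nik_pt_uniq p K hK (Fb p) i τ' 1 fun z => ?_
    rw [act_one, ← hi', hcomm, ← hτ, hv, hi', hi.1]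
  have hfix : ∀ z, τ (Y.ι z) = Y.ι z := by
    intro z
    rw [← hτ', hone]
    rfl
  refine ⟨τ, ?_, hfix, ?_⟩
  · intro c hc
    have hcm : c ∈ Oc p L := cst_mem p L c hc
    have hcp : c ^ p ^ s = c := wfr_iter c p _ s (cst_pow_card p L hL c hc) hs
    have hcτ : IsCst p (τ c) := by
      obtain ⟨n, hn, hn'⟩ := hc
      exact ⟨n, hn, by rw [← map_pow, hn']⟩
    have h2 : act p L τ ⟨c, hcm⟩ = ⟨c, hcm⟩ := by
      refine cst_inj p L (Fb p) i' (act p L τ ⟨c, hcm⟩) ⟨c, hcm⟩ hcτ hc ?_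
      rw [← hτ, hv, ← map_pow]
      apply congrArg i'
      apply Subtype.ext
      exact hcp
    exact congrArg Subtype.val h2
  · intro w
    have hb : act p L τ (Y.y w (algebraMap (Rx p) R X)) = Y.y w (algebraMap (Rx p) R X) := by
      rw [Y.base]
      apply Subtype.ext
      rw [act_coe, omap_coe]
      exact hfix _
    have hdL : IsDomain (Oc p L) := inferInstance
    obtain ⟨t, ht⟩ := cov_pt_ex C (Oc p L) (Y.y w)
      (((act p L τ : Oc p L ≃ₐ[Rx p] Oc p L) : Oc p L →+* Oc p L).comp (Y.y w))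
      (wfr_base p _ _ hb.symm)
    have ht' : ∀ r, act p L τ (Y.y w r) = Y.y w (C.act t r) := ht
    obtain ⟨c, hc⟩ := cov_pt_ex C (Fb p) (f w) (i'.comp (Y.y w))
      (wfr_base p _ _ (by
        rw [RingHom.comp_apply, Y.base, hi', hif]))
    have hc' : ∀ r, i' (Y.y w r) = f w (C.act c r) := hc
    have hm : ∀ (g h : S) (r : R), C.act (g * h) r = C.act g (C.act h r) := by
      intro g h r
      rw [map_mul]
      rfl
    have hct : c * t = g w * c := by
      refine cov_pt_uniq C (Fb p) (f w) _ _ fun r => ?_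
      rw [hm, hm, ← hc', ← ht', ← hτ, hv, hc', hf]
    refine ⟨c, fun r => ?_⟩
    rw [ht', ← mul_inv_cancel_left c⁻¹ t, inv_inv, hct, ← mul_assoc]

end Pool.Agent.AB3
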