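import Pool.Agent.Lib.MP_5de024_nt.C.Geo
import Pool.Agent.Lib.MP_5de024_nt.S.V.TorB

/-!
# No inertia (W1, second part)
-/

set_option autoImplicit false
set_option linter.unusedSectionVars false

namespace Pool.Agent.AB3

open Pool.Agent.AB Polynomial

theorem WNi_int (p : ℕ) [Fact p.Prime] (K : Type) [Field K] [Algebra (Fx p) K]
    [Algebra (Rx p) K] [IsScalarTower (Rx p) (Fx p) K] (L : Type) [Field L] [Algebra (Fx p) L]
    [Algebra (Rx p) L] [IsScalarTower (Rx p) (Fx p) L] (ι : K →ₐ[Fx p] L)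
    (P : Ideal (Oc p L)) (hP : P.IsMaximal) :
    (P.comap (omap p K L ι).toRingHom).IsMaximal := by
  have hcomp : (omap p K L ι).toRingHom.comp (algebraMap (Rx p) (Oc p K)) =
      algebraMap (Rx p) (Oc p L) := RingHom.ext fun r => (omap p K L ι).commutes r
  have hint : ((omap p K L ι).toRingHom.comp (algebraMap (Rx p) (Oc p K))).IsIntegral := by
    rw [hcomp]
    intro z
    exact Algebra.IsIntegral.isIntegral z
  exact Ideal.isMaximal_comap_of_isIntegral_of_isMaximal' _
    (RingHom.IsIntegral.tower_top _ _ hint) P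

theorem wr_ni (p : ℕ) [Fact p.Prime] (K : Type) [Field K] [Algebra (Fx p) K]
    [Algebra (Rx p) K] [IsScalarTower (Rx p) (Fx p) K] (hK : NiK p K) (R S : Type)
    [CommRing R] [Algebra (Rx p) R] [Group S] [Finite S] (C : Cov (ZMod p) R S) (Ω : Type)
    (a : Ω → Oc p K) (L : Type) [Field L] [Algebra (Fx p) L] [Algebra (Rx p) L]
    [IsScalarTower (Rx p) (Fx p) L] [FiniteDimensional (Fx p) L] [IsGalois (Fx p) L]
    (X : WrX p K L R Ω a) : NI p L := by
  intro σ hσ P hP
  by_contra hcon
  push Not at hcon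
  have := hK.1
  have := hK.2.1
  obtain ⟨σ', hσ'⟩ := exists_restr p K L X.ι σ
  by_cases h1 : σ' = 1
  · have hfix : ∀ z : K, σ (X.ι z) = X.ι z := fun z => by rw [← hσ', h1, AlgEquiv.one_apply]
    refine hσ (X.gen σ hfix fun w r => ?_)
    have hag : ∀ f : (ZMod p)[X], X.y w (algebraMap (Rx p) R f) =
        ((act p L σ : Oc p L →+* Oc p L).comp (X.y w)) (algebraMap (Rx p) R f) := by
      have h2 : (X.y w).comp (algebraMap (Rx p) R) =
          ((act p L σ : Oc p L →+* Oc p L).comp (X.y w)).comp (algebraMap (Rx p) R) := by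
        refine Polynomial.ringHom_ext' (Subsingleton.elim _ _) ?_
        rw [RingHom.comp_apply, RingHom.comp_apply, RingHom.comp_apply, X.base w]
        refine Subtype.ext ?_
        exact (hfix _).symm
      exact fun f => RingHom.congr_fun h2 f
    obtain ⟨g, hg⟩ := cov_pt_ex C (Oc p L) (X.y w)
      ((act p L σ : Oc p L →+* Oc p L).comp (X.y w)) hag
    have hg' : ∀ r, act p L σ (X.y w r) = X.y w (C.act g r) := hg
    have hg1 : g = 1 := by
      have : Nontrivial (Oc p L ⧸ P) := Ideal.Quotient.nontrivial_iff.mpr hP.ne_top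
      refine cov_pt_uniq C (Oc p L ⧸ P) ((Ideal.Quotient.mk P).comp (X.y w)) g 1 fun r => ?_
      rw [RingHom.comp_apply, RingHom.comp_apply, ← hg', map_one]
      exact Ideal.Quotient.eq.mpr (hcon _)
    rw [hg', hg1, map_one]
    rfl
  · obtain ⟨s, hs⟩ := hK.2.2 σ' h1 _ (WNi_int p K L X.ι P hP)
    apply hs
    have h2 : (omap p K L X.ι) (act p K σ' s - s) =
        act p L σ (omap p K L X.ι s) - omap p K L X.ι s := by
      rw [map_sub]
      congr 1
      exact Subtype.ext (hσ' _)
    have h3 := hcon (omap p K L X.ι s)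
    rw [← h2] at h3
    exact h3

end Pool.Agent.AB3
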