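import Pool.Agent.Lib.MP_5de024_nt.C.Geo
import Pool.Agent.Lib.MP_5de024_nt.S.V.TorB

/-!
# The Galois group is contained in the wreath product (W1, third part)
-/

set_option autoImplicit false
set_option linter.unusedSectionVars false

namespace Pool.Agent.AB3

open Pool.Agent.AB Polynomial

theorem wr_theta (p : ℕ) [Fact p.Prime] (K : Type) [Field K] [Algebra (Fx p) K]
    [Algebra (Rx p) K] [IsScalarTower (Rx p) (Fx p) K] (hK : NiK p K) (R S : Type)
    [CommRing R] [Algebra (Rx p) R] [Group S] [Finite S] (C : Cov (ZMod p) R S) (Ω : Type)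
    [MulAction (Gl p K) Ω] (a : Ω → Oc p K)
    (ha : ∀ (σ : Gl p K) (w : Ω), act p K σ (a w) = a (σ • w)) (L : Type) [Field L]
    [Algebra (Fx p) L] [Algebra (Rx p) L] [IsScalarTower (Rx p) (Fx p) L]
    (X : WrX p K L R Ω a) :
    ∃ Θ : Gl p L →* (Ω → S) ⋊[mulAutArrow] Gl p K, Function.Injective Θ ∧
      (∀ τ z, τ (X.ι z) = X.ι ((Θ τ).right z)) ∧
      ∀ τ w r, act p L τ (X.y w r) =
        X.y ((Θ τ).right • w) (C.act ((Θ τ).left ((Θ τ).right • w)) r) := by
  classical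
  have hgal : IsGalois (Fx p) K := hK.2.1
  choose ρ hρ using fun τ : Gl p L => exists_restr p K L X.ι τ
  have hρm : ∀ τ τ' : Gl p L, ρ (τ * τ') = ρ τ * ρ τ' := by
    intro τ τ'
    refine AlgEquiv.ext fun s => X.ι.injective ?_
    change X.ι (ρ (τ * τ') s) = X.ι ((ρ τ * ρ τ') s)
    rw [hρ, AlgEquiv.mul_apply, AlgEquiv.mul_apply, hρ, hρ]
  -- restriction and the rings of integers
  have hom : ∀ (τ : Gl p L) (z : Oc p K), act p L τ (omap p K L X.ι z) =
      omap p K L X.ι (act p K (ρ τ) z) := by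
    intro τ z
    refine Subtype.ext ?_
    rw [act_coe, omap_coe, omap_coe, act_coe, hρ]
  have hs : ∀ (τ : Gl p L) (w : Ω), ∃ g : S, ∀ r, act p L τ (X.y w r) =
      X.y (ρ τ • w) (C.act g r) := by
    intro τ w
    have hpol : ∀ f : (ZMod p)[X], X.y (ρ τ • w) (algebraMap (ZMod p)[X] R f) =
        ((act p L τ).toRingEquiv.toRingHom.comp (X.y w)) (algebraMap (ZMod p)[X] R f) := by
      intro f
      have e : (X.y (ρ τ • w)).comp (algebraMap (ZMod p)[X] R) =
          ((act p L τ).toRingEquiv.toRingHom.comp (X.y w)).comp (algebraMap (ZMod p)[X] R) := by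
        refine Polynomial.ringHom_ext' (Subsingleton.elim _ _) ?_
        change X.y (ρ τ • w) (algebraMap (ZMod p)[X] R Polynomial.X) =
          act p L τ (X.y w (algebraMap (ZMod p)[X] R Polynomial.X))
        rw [X.base, X.base, hom, ha]
      exact RingHom.congr_fun e f
    exact cov_pt_ex C (Oc p L) (X.y (ρ τ • w))
      ((act p L τ).toRingEquiv.toRingHom.comp (X.y w)) hpol
  choose s hs using hs
  have hsm : ∀ (τ τ' : Gl p L) (w : Ω), s (τ * τ') w = s τ (ρ τ' • w) * s τ' w := by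
    intro τ τ' w
    refine cov_pt_uniq C (Oc p L) (X.y (ρ (τ * τ') • w)) _ _ fun r => ?_
    rw [← hs, act_mul, hs, hs, hρm, mul_smul, map_mul, AlgEquiv.mul_apply]
  have hleft : ∀ (τ τ' : Gl p L) (v : Ω), s (τ * τ') ((ρ (τ * τ'))⁻¹ • v) =
      s τ ((ρ τ)⁻¹ • v) * s τ' ((ρ τ')⁻¹ • (ρ τ)⁻¹ • v) := by
    intro τ τ' v
    rw [hsm, hρm, mul_inv_rev, mul_smul, smul_inv_smul]
  let Θ : Gl p L →* (Ω → S) ⋊[mulAutArrow] Gl p K :=
    MonoidHom.mk' (fun τ => ⟨fun v => s τ ((ρ τ)⁻¹ • v), ρ τ⟩) (by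
      intro τ τ'
      refine SemidirectProduct.ext ?_ ?_
      · funext v
        exact hleft τ τ' v
      · exact hρm τ τ')
  have hΘr : ∀ τ, (Θ τ).right = ρ τ := fun τ => rfl
  have hΘl : ∀ τ v, (Θ τ).left v = s τ ((ρ τ)⁻¹ • v) := fun τ v => rfl
  refine ⟨Θ, ?_, ?_, ?_⟩
  · rw [injective_iff_map_eq_one]
    intro τ hτ
    have h1 : ρ τ = 1 := by
      rw [← hΘr, hτ]
      rfl
    have h2 : ∀ w, s τ w = 1 := by
      intro w
      have h3 := hΘl τ w
      rw [h1, inv_one, one_smul, hτ] at h3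
      rw [← h3]
      rfl
    refine X.gen τ (fun z => ?_) fun w r => ?_
    · rw [← hρ, h1]
      rfl
    · rw [hs, h1, h2, one_smul, map_one]
      rfl
  · intro τ z
    rw [hΘr, hρ]
  · intro τ w r
    rw [hΘl, hΘr, inv_smul_smul, hs]

end Pool.Agent.AB3
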