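import Pool.Agent.Lib.MP_5de024_nt.S.V.WFld
import Pool.Agent.Lib.MP_5de024_nt.S.V.WNi
import Pool.Agent.Lib.MP_5de024_nt.S.V.WTh
import Pool.Agent.Lib.MP_5de024_nt.S.V.WFr
import Pool.Agent.Lib.MP_5de024_nt.S.V.Chz
import Pool.Agent.Lib.MP_5de024_nt.S.V.Jor
import Pool.Agent.Lib.MP_5de024_nt.S.V.GPts

/-!
# Wreath products over `K` (W5, W6)
-/

set_option autoImplicit false
set_option linter.unusedSectionVars false

namespace Pool.Agent.AB3

open Pool.Agent.AB Polynomial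

/-- a strictly increasing sequence of levels of good points -/
theorem wK_levels (p : ℕ) [Fact p.Prime] (K : Type) [Field K] [Algebra (Fx p) K]
    [Algebra (Rx p) K] [IsScalarTower (Rx p) (Fx p) K] (hK : NiK p K) (c B : ℕ) (hc : 0 < c)
    (J : Type) [Finite J] : ∃ s : J → ℕ, Function.Injective s ∧
      ∀ j, B ≤ s j ∧ c ∣ s j ∧ 0 < s j ∧ ∃ i : Oc p K →+* Fb p, GPt p K (s j) i := by
  obtain ⟨φ, hφ, hP⟩ := Nat.exists_strictMono_subsequence
    (P := fun s => B ≤ s ∧ c ∣ s ∧ 0 < s ∧ ∃ i : Oc p K →+* Fb p, GPt p K s i) (by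
      intro N
      obtain ⟨s, h1, h2, h3, h4⟩ := good_pts p K hK c (max B (N + 1)) hc
      exact ⟨s, lt_of_lt_of_le (Nat.lt_succ_self N) ((le_max_right _ _).trans h1),
        (le_max_left _ _).trans h1, h2, h3, h4⟩)
  obtain ⟨n, ⟨e⟩⟩ := Finite.exists_equiv_fin J
  exact ⟨fun j => φ (e j), fun a b hab => e.injective (Fin.ext (hφ.injective hab)),
    fun j => hP _⟩

theorem rf_wr_K (p : ℕ) [Fact p.Prime] (K : Type) [Field K] [Algebra (Fx p) K]
    [Algebra (Rx p) K] [IsScalarTower (Rx p) (Fx p) K] (hK : NiK p K) (R S : Type)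
    [CommRing R] [Algebra (Rx p) R] [Group S] [Finite S] (C : Cov (ZMod p) R S) (Ω : Type)
    [Finite Ω] [MulAction (Gl p K) Ω] :
    RF p ((Ω → S) ⋊[mulAutArrow] Gl p K) ((Gc p K).comap SemidirectProduct.rightHom) := by
  classical
  have hfdK := hK.1
  have hgalK := hK.2.1
  have hfinW : Finite ((Ω → S) ⋊[mulAutArrow] Gl p K) :=
    Finite.of_equiv _ SemidirectProduct.equivProd.symm
  have hW : 0 < Nat.card ((Ω → S) ⋊[mulAutArrow] Gl p K) := Nat.card_pos
  obtain ⟨s0, hs0⟩ := frob_pts p C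
  obtain ⟨s, hs, hs'⟩ := wK_levels p K hK (2 * Nat.card ((Ω → S) ⋊[mulAutArrow] Gl p K)) s0
    (by omega) (Ω → S)
  choose hB hc hpos i hi using hs'
  have h2 : ∀ j, 2 ∣ s j := fun j => (Dvd.intro _ rfl).trans (hc j)
  have hWs : ∀ j, Nat.card ((Ω → S) ⋊[mulAutArrow] Gl p K) ∣ s j :=
    fun j => (Dvd.intro_left _ rfl).trans (hc j)
  choose f hf using fun (j : Ω → S) (w : Ω) => hs0 (s j) (hB j) (h2 j) (j w)
  have hfX : ∀ j w, f j w (algebraMap (Rx p) R X) ^ p ^ s j = f j w (algebraMap (Rx p) R X) := by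
    intro j w
    rw [hf, AlgEquiv.commutes]
  choose P hP using fun (j : Ω → S) (w : Ω) => (hi j).2 _ (hfX j w)
  obtain ⟨a, ha, hia⟩ := choose_a p K hK Ω (Ω → S) s hs hpos i hi P
  obtain ⟨L, _, _, _, _, hfdL, hgalL, ⟨Y⟩⟩ := wr_fld p K hK R S C Ω a ha
  have hL : NiK p L := ⟨hfdL, hgalL, wr_ni p K hK R S C Ω a L Y⟩
  obtain ⟨Θ, hΘi, hΘr, hΘy⟩ := wr_theta p K hK R S C Ω a ha L Y
  have hcard : ∀ j, Nat.card (Gl p L) ∣ s j := fun j =>
    (Subgroup.card_dvd_of_injective Θ hΘi).trans (hWs j)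
  have hFr := fun j : Ω → S => wr_frob p K hK R S C Ω a L hL Y (s j) (i j) (hi j) (hcard j) j
    (f j) (hf j) (fun w => by rw [hia, hP])
  -- elements of `Gl p L` trivial on `K`
  have hright : ∀ τ : Gl p L, (∀ z, τ (Y.ι z) = Y.ι z) → (Θ τ).right = 1 := by
    intro τ hτ
    apply AlgEquiv.ext
    intro z
    apply Y.ι.toRingHom.injective
    exact (hΘr τ z).symm.trans (hτ z)
  have hleft : ∀ τ : Gl p L, (Θ τ).right = 1 → ∀ w r,
      act p L τ (Y.y w r) = Y.y w (C.act ((Θ τ).left w) r) := by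
    intro τ hτ w r
    have h1 := hΘy τ w r
    rw [hτ, one_smul] at h1
    exact h1
  -- Jordan
  obtain ⟨Γ, hΓ⟩ : ∃ Γ : Subgroup (Ω → S), Γ = ((Gc p L).map Θ).comap SemidirectProduct.inl :=
    ⟨_, rfl⟩
  have hΓtop : Γ = ⊤ := by
    apply jordan
    intro j
    obtain ⟨τ, hτ, hτK, hτw⟩ := hFr j
    choose c hc using hτw
    refine ⟨c, ?_⟩
    rw [hΓ, Subgroup.mem_comap]
    refine ⟨τ, hτ, ?_⟩
    have hr := hright τ hτK
    apply SemidirectProduct.ext
    · funext w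
      rw [SemidirectProduct.left_inl]
      apply cov_pt_uniq C (Oc p L) (Y.y w)
      intro r
      rw [← hleft τ hr, hc]
      rfl
    · rw [hr, SemidirectProduct.right_inl]
  have hker : ∀ g : Ω → S, ∃ τ ∈ Gc p L, Θ τ = SemidirectProduct.inl g := by
    intro g
    have h1 : g ∈ Γ := hΓtop ▸ Subgroup.mem_top g
    rw [hΓ, Subgroup.mem_comap] at h1
    exact h1
  have hGcK : ∀ τ : Gl p L, (∀ z, τ (Y.ι z) = Y.ι z) → τ ∈ Gc p L := by
    intro τ hτ
    obtain ⟨τ', hτ', h1⟩ := hker (Θ τ).left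
    have h2 : τ' = τ := by
      apply hΘi
      rw [h1]
      apply SemidirectProduct.ext
      · rw [SemidirectProduct.left_inl]
      · rw [SemidirectProduct.right_inl, hright τ hτ]
    rw [← h2]
    exact hτ'
  have hres : ∀ σ : Gl p K, ∃ τ : Gl p L, (Θ τ).right = σ := by
    intro σ
    let _ : Algebra K L := Y.ι.toRingHom.toAlgebra
    have : IsScalarTower (Fx p) K L :=
      IsScalarTower.of_algebraMap_eq fun r => (Y.ι.commutes r).symm
    obtain ⟨τ, hτ⟩ := AlgEquiv.restrictNormalHom_surjective (F := Fx p) (K₁ := K) L σ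
    refine ⟨τ, ?_⟩
    rw [← hτ]
    apply AlgEquiv.ext
    intro z
    apply Y.ι.toRingHom.injective
    have h1 := hΘr τ z
    have h3 : algebraMap K L (τ.restrictNormal K z) = τ (algebraMap K L z) :=
      AlgEquiv.restrictNormal_commutes τ K z
    exact h1.symm.trans h3.symm
  have hsurj : ∀ x : (Ω → S) ⋊[mulAutArrow] Gl p K, ∃ τ : Gl p L, Θ τ = x := by
    intro x
    obtain ⟨τ1, h1⟩ := hres x.right
    obtain ⟨τ2, -, h2⟩ := hker (x * (Θ τ1)⁻¹).left
    refine ⟨τ2 * τ1, ?_⟩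
    have h3 : (x * (Θ τ1)⁻¹) = SemidirectProduct.inl (x * (Θ τ1)⁻¹).left := by
      apply SemidirectProduct.ext
      · rw [SemidirectProduct.left_inl]
      · rw [SemidirectProduct.right_inl, SemidirectProduct.mul_right,
          SemidirectProduct.inv_right, h1, mul_inv_cancel]
    rw [map_mul, h2, ← h3, inv_mul_cancel_right]
  refine ⟨L, inferInstance, inferInstance, inferInstance, inferInstance, Θ, hL, hsurj, ?_⟩
  ext x
  constructor
  · rintro ⟨τ, hτ, rfl⟩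
    rw [Subgroup.mem_comap]
    intro c hc
    apply Y.ι.toRingHom.injective
    have h1 : τ (Y.ι c) = Y.ι c := hτ _ (IsCst.map Y.ι.toRingHom hc)
    exact (hΘr τ c).symm.trans h1
  · intro hx
    obtain ⟨τ, hτ⟩ := hsurj x
    refine ⟨τ, ?_, hτ⟩
    intro c hc
    obtain ⟨c', rfl⟩ := fix_range p K L Y.ι (z := c) (fun σ hσ => hGcK σ hσ c hc)
    have hc' : IsCst p c' := (isCst_map_iff Y.ι.toRingHom).1 hc
    rw [hΘr τ c', hτ]
    exact congrArg Y.ι (hx c' hc')

end Pool.Agent.AB3
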